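import Mathlib
import Pool.Agent.Run7.h28.EC.Core

/-!
# Project BV (helper28): heights of roots, finite sets of exponents, small and bounded functions
-/

set_option autoImplicit false
set_option linter.unusedSectionVars false

open Filter Topology

namespace Pool.Agent.Run7.h28.BV

open NumberField IsDedekindDomain Height Module
open Pool.Agent.W180.OP (Pl av wt nrm le_nrm nrm_pos wt_nonneg exists_nrm nrm_nonneg)
open Pool.Agent.N750
open Pool.Agent.Run7.h28.HK
open Pool.Agent.Run7.h28.EC (SubE)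

/-- the height of a root of a monic polynomial -/
lemma ht_root {L : Type} [Field L] [NumberField L] {q : ℕ} (hq : 0 < q) (e : ℕ → L) (ρ : L)
    (h : ρ ^ q + ∑ j ∈ Finset.range q, e j * ρ ^ j = 0) :
    logHeight₁ ρ ≤ (∑ j ∈ Finset.range q, logHeight₁ (e j)) + finrank ℚ L * Real.log q := by
  have hq1 : (1 : ℝ) ≤ q := by exact_mod_cast hq
  obtain ⟨y, hy⟩ : ∃ y : Fin (q + 1) → L, y = Fin.cons 1 (fun j : Fin q => e j) := ⟨_, rfl⟩
  have hy0 : y ≠ 0 := fun h => by
    have h1 := congrFun h 0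
    rw [hy, Fin.cons_zero] at h1
    exact one_ne_zero h1
  have hN1 : ∀ p : Pl L, 1 ≤ nrm (av p) y := fun p => by
    have h1 := le_nrm (av p) y 0
    rwa [hy, Fin.cons_zero, map_one, ← hy] at h1
  have hNe : ∀ p : Pl L, ∀ j < q, av p (e j) ≤ nrm (av p) y := fun p j hj => by
    have h1 := le_nrm (av p) y (Fin.succ ⟨j, hj⟩)
    rwa [hy, Fin.cons_succ, ← hy] at h1
  have key : ∀ p : Pl L, av p ρ ≤ N750.cst (q : ℝ) p * nrm (av p) y := by
    intro p
    by_contra hcon
    push Not at hcon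
    have hc1 := one_le_cst hq1 p
    have hρ1 : 1 ≤ av p ρ := (one_le_mul_of_one_le_of_one_le hc1 (hN1 p)).trans hcon.le
    have h1 : ρ ^ q = -∑ j ∈ Finset.range q, e j * ρ ^ j := by linear_combination h
    have h2 : av p (∑ j ∈ Finset.range q, e j * ρ ^ j) ≤
        N750.cst (q : ℝ) p * (nrm (av p) y * av p ρ ^ (q - 1)) := by
      refine av_sum p _ _ _ ?_ (fun j hj => ?_) _ (by rw [Finset.card_range])
      · exact mul_nonneg (by linarith [hN1 p]) (pow_nonneg ((av p).nonneg _) _)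
      · have hj' := Finset.mem_range.1 hj
        rw [map_mul, map_pow]
        exact mul_le_mul (hNe p j hj') (pow_le_pow_right₀ hρ1 (by omega))
          (pow_nonneg ((av p).nonneg _) _) (by linarith [hN1 p])
    have h3 : av p ρ ^ q ≤ (N750.cst (q : ℝ) p * nrm (av p) y) * av p ρ ^ (q - 1) := by
      rw [← map_pow, h1, map_neg_eq_map]
      refine h2.trans (le_of_eq ?_)
      ring
    have h4 : av p ρ ^ q = av p ρ * av p ρ ^ (q - 1) := by
      rw [← pow_succ']
      congr 1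
      omega
    rw [h4] at h3
    have h5 := le_of_mul_le_mul_right h3 (pow_pos (by linarith) _)
    linarith
  have hx : (![ρ, 1] : Fin 2 → L) ≠ 0 := fun h => one_ne_zero (congrFun h 1)
  have h1 := ht_le (![ρ, 1]) y hx hy0 q hq1 (by
      intro p
      obtain ⟨j, hj⟩ := exists_nrm (av p) (by norm_num : 0 < 2) (![ρ, 1])
      rw [← hj]
      fin_cases j
      · exact key p
      · show av p (1 : L) ≤ _
        rw [map_one]
        exact one_le_mul_of_one_le_of_one_le (one_le_cst hq1 p) (hN1 p))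
  rw [← logHeight₁_eq_logHeight] at h1
  have h2 := logHeight_le_sum y
  have h2' : ∑ i, logHeight₁ (y i) = logHeight₁ (1 : L) + ∑ j : Fin q, logHeight₁ (e j) := by
    rw [Fin.sum_univ_succ, hy, Fin.cons_zero]
    rfl
  rw [h2'] at h2
  rw [← Fin.sum_univ_eq_sum_range (fun j => logHeight₁ (e j)) q]
  have h3 : logHeight₁ (1 : L) = 0 := by simp
  linarith

section seq

variable {L : Type} [Field L] [NumberField L] {α : Type} {𝓕 : Ultrafilter α} {H : α → ℝ}

/-- roots of monic polynomials with slow coefficients are slow -/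
lemma slow_root (hH : Tendsto H 𝓕 atTop) {q : ℕ} (hq : 0 < q) (e : ℕ → α → L)
    (he : ∀ j, Slow 𝓕 H (e j)) (ρ : α → L)
    (h : ∀ t, ρ t ^ q + ∑ j ∈ Finset.range q, e j t * ρ t ^ j = 0) : Slow 𝓕 H ρ := by
  intro ε hε
  have hq' : (0 : ℝ) < q := by exact_mod_cast hq
  have hall : ∀ᶠ t in (𝓕 : Filter α), ∀ j ∈ Finset.range q,
      logHeight₁ (e j t) ≤ ε / (2 * q) * H t := by
    rw [Filter.eventually_all_finset]
    intro j _
    exact he j _ (by positivity)
  filter_upwards [hall, hH_le hH (finrank ℚ L * Real.log q / (ε / 2))] with t h1 h2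
  refine (ht_root hq (fun j => e j t) (ρ t) (h t)).trans ?_
  have h3 := Finset.sum_le_sum h1
  rw [Finset.sum_const, Finset.card_range, nsmul_eq_mul] at h3
  have h4 : (q : ℝ) * (ε / (2 * q) * H t) = ε / 2 * H t := by
    field_simp
  rw [div_le_iff₀ (by positivity)] at h2
  linarith

/-! ### Small and bounded functions -/

/-- exponentially small at the place `v` -/
def Sm (𝓕 : Ultrafilter α) (H : α → ℝ) (v : Pl L) (a : α → L) : Prop :=
  ∃ c : ℝ, 0 < c ∧ ∀ᶠ t in (𝓕 : Filter α), av v (a t) ≤ Real.exp (-(c * H t))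

/-- of subexponential size at the place `v` -/
def Bd (𝓕 : Ultrafilter α) (H : α → ℝ) (v : Pl L) (a : α → L) : Prop :=
  ∀ ε : ℝ, 0 < ε → ∀ᶠ t in (𝓕 : Filter α), av v (a t) ≤ Real.exp (ε * H t)

variable {v : Pl L}

lemma Bd.slow {a : α → L} (ha : Slow 𝓕 H a) (v : Pl L) : Bd 𝓕 H v a :=
  fun _ hε => slow_le ha v hε

lemma Bd.const (hH : Tendsto H 𝓕 atTop) (v : Pl L) (a : L) : Bd 𝓕 H v (fun _ => a) :=
  Bd.slow (slow_const hH a) v

lemma Bd.mul {a b : α → L} (ha : Bd 𝓕 H v a) (hb : Bd 𝓕 H v b) :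
    Bd 𝓕 H v (fun t => a t * b t) := by
  intro ε hε
  filter_upwards [ha (ε / 2) (by positivity), hb (ε / 2) (by positivity)] with t h1 h2
  rw [map_mul]
  calc av v (a t) * av v (b t) ≤ Real.exp (ε / 2 * H t) * Real.exp (ε / 2 * H t) :=
        mul_le_mul h1 h2 ((av v).nonneg _) (Real.exp_pos _).le
    _ = Real.exp (ε * H t) := by
        rw [← Real.exp_add]
        congr 1
        ring

lemma Bd.pow (hH : Tendsto H 𝓕 atTop) {a : α → L} (ha : Bd 𝓕 H v a) (n : ℕ) :
    Bd 𝓕 H v (fun t => a t ^ n) := by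
  induction n with
  | zero => simpa only [pow_zero] using Bd.const hH v (1 : L)
  | succ n ih => simpa only [pow_succ] using ih.mul ha

lemma Bd.prod (hH : Tendsto H 𝓕 atTop) {ι : Type} (A : Finset ι) (f : ι → α → L)
    (hf : ∀ i ∈ A, Bd 𝓕 H v (f i)) : Bd 𝓕 H v (fun t => ∏ i ∈ A, f i t) := by
  classical
  induction A using Finset.induction_on with
  | empty => simpa only [Finset.prod_empty] using Bd.const hH v (1 : L)
  | insert a A ha ih =>
    simp only [Finset.prod_insert ha]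
    exact (hf a (Finset.mem_insert_self _ _)).mul
      (ih fun i hi => hf i (Finset.mem_insert_of_mem hi))

lemma Sm.mul {a b : α → L} (ha : Sm 𝓕 H v a) (hb : Bd 𝓕 H v b) :
    Sm 𝓕 H v (fun t => a t * b t) := by
  obtain ⟨c, hc, h⟩ := ha
  refine ⟨c / 2, by positivity, ?_⟩
  filter_upwards [h, hb (c / 2) (by positivity)] with t h1 h2
  rw [map_mul]
  calc av v (a t) * av v (b t) ≤ Real.exp (-(c * H t)) * Real.exp (c / 2 * H t) :=
        mul_le_mul h1 h2 ((av v).nonneg _) (Real.exp_pos _).le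
    _ = Real.exp (-(c / 2 * H t)) := by
        rw [← Real.exp_add]
        congr 1
        ring

lemma Sm.zero : Sm 𝓕 H v (fun _ => (0 : L)) := by
  refine ⟨1, one_pos, Eventually.of_forall fun t => ?_⟩
  rw [map_zero]
  exact (Real.exp_pos _).le

lemma Sm.neg {a : α → L} (ha : Sm 𝓕 H v a) : Sm 𝓕 H v (fun t => - a t) := by
  obtain ⟨c, hc, h⟩ := ha
  refine ⟨c, hc, ?_⟩
  filter_upwards [h] with t h1
  rwa [map_neg_eq_map]

lemma Sm.add (hH : Tendsto H 𝓕 atTop) {a b : α → L} (ha : Sm 𝓕 H v a) (hb : Sm 𝓕 H v b) :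
    Sm 𝓕 H v (fun t => a t + b t) := by
  obtain ⟨c, hc, h⟩ := ha
  obtain ⟨c', hc', h'⟩ := hb
  obtain ⟨e, he⟩ : ∃ e, e = min c c' := ⟨_, rfl⟩
  have he0 : 0 < e := by rw [he]; exact lt_min hc hc'
  refine ⟨e / 2, by positivity, ?_⟩
  filter_upwards [h, h', hH_le hH 0, hH_le hH (Real.log 2 / (e / 2))] with t h1 h2 h3 h4
  have h5 : Real.exp (-(c * H t)) ≤ Real.exp (-(e * H t)) := by
    refine Real.exp_le_exp.2 (neg_le_neg (mul_le_mul_of_nonneg_right ?_ h3))
    rw [he]
    exact min_le_left _ _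
  have h6 : Real.exp (-(c' * H t)) ≤ Real.exp (-(e * H t)) := by
    refine Real.exp_le_exp.2 (neg_le_neg (mul_le_mul_of_nonneg_right ?_ h3))
    rw [he]
    exact min_le_right _ _
  have h7 : (2 : ℝ) ≤ Real.exp (e / 2 * H t) := by
    rw [div_le_iff₀ (by positivity)] at h4
    calc (2 : ℝ) = Real.exp (Real.log 2) := (Real.exp_log (by norm_num)).symm
      _ ≤ _ := Real.exp_le_exp.2 (by linarith)
  calc av v (a t + b t) ≤ av v (a t) + av v (b t) := (av v).add_le _ _
    _ ≤ 2 * Real.exp (-(e * H t)) := by linarith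
    _ ≤ Real.exp (e / 2 * H t) * Real.exp (-(e * H t)) :=
        mul_le_mul_of_nonneg_right h7 (Real.exp_pos _).le
    _ = Real.exp (-(e / 2 * H t)) := by
        rw [← Real.exp_add]
        congr 1
        ring

lemma Sm.sum (hH : Tendsto H 𝓕 atTop) {ι : Type} (A : Finset ι) (f : ι → α → L)
    (hf : ∀ i ∈ A, Sm 𝓕 H v (f i)) : Sm 𝓕 H v (fun t => ∑ i ∈ A, f i t) := by
  classical
  induction A using Finset.induction_on with
  | empty => simpa only [Finset.sum_empty] using Sm.zero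
  | insert a A ha ih =>
    simp only [Finset.sum_insert ha]
    exact (hf a (Finset.mem_insert_self _ _)).add hH
      (ih fun i hi => hf i (Finset.mem_insert_of_mem hi))

/-- a small function is bounded -/
lemma Sm.bd (hH : Tendsto H 𝓕 atTop) {a : α → L} (ha : Sm 𝓕 H v a) : Bd 𝓕 H v a := by
  intro ε hε
  obtain ⟨c, hc, h⟩ := ha
  filter_upwards [h, hH_le hH 0] with t h1 h2
  refine h1.trans (Real.exp_le_exp.2 ?_)
  have h3 : 0 ≤ c * H t := by positivity
  have h4 : 0 ≤ ε * H t := by positivity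
  linarith

lemma Bd.add (hH : Tendsto H 𝓕 atTop) {a b : α → L} (ha : Bd 𝓕 H v a) (hb : Bd 𝓕 H v b) :
    Bd 𝓕 H v (fun t => a t + b t) := by
  intro ε hε
  filter_upwards [ha (ε / 2) (by positivity), hb (ε / 2) (by positivity),
    hH_le hH (Real.log 2 / (ε / 2))] with t h1 h2 h4
  have h7 : (2 : ℝ) ≤ Real.exp (ε / 2 * H t) := by
    rw [div_le_iff₀ (by positivity)] at h4
    calc (2 : ℝ) = Real.exp (Real.log 2) := (Real.exp_log (by norm_num)).symm
      _ ≤ _ := Real.exp_le_exp.2 (by linarith)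
  calc av v (a t + b t) ≤ av v (a t) + av v (b t) := (av v).add_le _ _
    _ ≤ 2 * Real.exp (ε / 2 * H t) := by linarith
    _ ≤ Real.exp (ε / 2 * H t) * Real.exp (ε / 2 * H t) :=
        mul_le_mul_of_nonneg_right h7 (Real.exp_pos _).le
    _ = Real.exp (ε * H t) := by
        rw [← Real.exp_add]
        congr 1
        ring

/-- congruence modulo small functions, with the second function bounded -/
def Cg (𝓕 : Ultrafilter α) (H : α → ℝ) (v : Pl L) (a b : α → L) : Prop :=
  Sm 𝓕 H v (fun t => a t - b t) ∧ Bd 𝓕 H v b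

lemma Cg.bd (hH : Tendsto H 𝓕 atTop) {a b : α → L} (h : Cg 𝓕 H v a b) : Bd 𝓕 H v a := by
  have h1 := (h.1.bd hH).add hH h.2
  have h2 : (fun t => a t - b t + b t) = a := by
    funext t
    ring
  rwa [h2] at h1

lemma Cg.refl {a : α → L} (ha : Bd 𝓕 H v a) : Cg 𝓕 H v a a := by
  refine ⟨?_, ha⟩
  have h2 : (fun t => a t - a t) = fun _ => (0 : L) := by
    funext t
    ring
  rw [h2]
  exact Sm.zero

lemma Cg.mul (hH : Tendsto H 𝓕 atTop) {a b a' b' : α → L} (h : Cg 𝓕 H v a b)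
    (h' : Cg 𝓕 H v a' b') : Cg 𝓕 H v (fun t => a t * a' t) (fun t => b t * b' t) := by
  refine ⟨?_, h.2.mul h'.2⟩
  have h1 := (h.1.mul (h'.bd hH)).add hH (h'.1.mul h.2)
  have h2 : (fun t => (a t - b t) * a' t + (a' t - b' t) * b t) =
      fun t => a t * a' t - b t * b' t := by
    funext t
    ring
  rwa [h2] at h1

lemma Cg.pow (hH : Tendsto H 𝓕 atTop) {a b : α → L} (h : Cg 𝓕 H v a b) (n : ℕ) :
    Cg 𝓕 H v (fun t => a t ^ n) (fun t => b t ^ n) := by
  induction n with
  | zero =>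
    simp only [pow_zero]
    exact Cg.refl (Bd.const hH v 1)
  | succ n ih =>
    simp only [pow_succ]
    exact ih.mul hH h

lemma Cg.prod (hH : Tendsto H 𝓕 atTop) {ι : Type} (A : Finset ι) (f g : ι → α → L)
    (hf : ∀ i ∈ A, Cg 𝓕 H v (f i) (g i)) :
    Cg 𝓕 H v (fun t => ∏ i ∈ A, f i t) (fun t => ∏ i ∈ A, g i t) := by
  classical
  induction A using Finset.induction_on with
  | empty =>
    simp only [Finset.prod_empty]
    exact Cg.refl (Bd.const hH v 1)
  | insert a A ha ih =>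
    simp only [Finset.prod_insert ha]
    exact (hf a (Finset.mem_insert_self _ _)).mul hH
      (ih fun i hi => hf i (Finset.mem_insert_of_mem hi))

/-- a positive power of a small function is small -/
lemma Sm.pow (hH : Tendsto H 𝓕 atTop) {a : α → L} (ha : Sm 𝓕 H v a) {n : ℕ} (hn : n ≠ 0) :
    Sm 𝓕 H v (fun t => a t ^ n) := by
  obtain ⟨k, rfl⟩ := Nat.exists_eq_succ_of_ne_zero hn
  have h1 := ha.mul ((ha.bd hH).pow hH k)
  have h2 : (fun t => a t * a t ^ k) = fun t => a t ^ (k.succ) := by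
    funext t
    rw [Nat.succ_eq_add_one, pow_succ']
  rwa [h2] at h1

end seq

/-! ### Exponents -/

/-- the exponents of degree at most `d` -/
noncomputable def expo (σ : Type) [Fintype σ] (d : ℕ) : Finset (σ →₀ ℕ) :=
  (Finsupp.finite_of_degree_le (σ := σ) d).toFinset

lemma mem_expo {σ : Type} [Fintype σ] {d : ℕ} {m : σ →₀ ℕ} : m ∈ expo σ d ↔ ∑ i, m i ≤ d := by
  unfold expo
  rw [Set.Finite.mem_toFinset, Set.mem_ofPred_eq, Finsupp.degree_eq_sum]

lemma coeff_deg {σ : Type} [Fintype σ] (F : MvPolynomial σ ℤ) {m : σ →₀ ℕ} (hm : F.coeff m ≠ 0) :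
    ∑ i, m i ≤ F.totalDegree := by
  have h1 := MvPolynomial.le_totalDegree (MvPolynomial.mem_support_iff.2 hm)
  rwa [Finsupp.sum_fintype _ _ (by simp)] at h1

lemma aeval_expo {σ : Type} [Fintype σ] {R : Type} [CommRing R] [Algebra ℤ R]
    (F : MvPolynomial σ ℤ) {d : ℕ} (hF : F.totalDegree ≤ d) (z : σ → R) :
    MvPolynomial.aeval z F = ∑ m ∈ expo σ d, ((F.coeff m : ℤ) : R) * ∏ i, z i ^ m i := by
  rw [MvPolynomial.aeval_def, MvPolynomial.eval₂_eq']
  simp only [eq_intCast]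
  refine Finset.sum_subset (fun m hm => mem_expo.2
    ((coeff_deg F (MvPolynomial.mem_support_iff.1 hm)).trans hF)) fun m _ hm => ?_
  rw [MvPolynomial.notMem_support_iff.1 hm, Int.cast_zero, zero_mul]

end Pool.Agent.Run7.h28.BV
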