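import Mathlib
import Pool.Agent.Run7.h28.BV.Prep

/-!
# Project BV (helper28): points near a direction, and the polynomial at infinity
-/

set_option autoImplicit false
set_option linter.unusedSectionVars false

open Filter Topology

namespace Pool.Agent.Run7.h28.BV

open NumberField IsDedekindDomain Height Module
open Pool.Agent.W180.OP (Pl av wt nrm le_nrm nrm_pos wt_nonneg exists_nrm nrm_nonneg)
open Pool.Agent.N750
open Pool.Agent.Run7.h28.HK
open Pool.Agent.Run7.h28.EC (SubE)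

section seq

variable {L : Type} [Field L] [NumberField L] {α : Type} {𝓕 : Ultrafilter α} {H : α → ℝ}

/-- points which are close to a multiple `v` of a slow direction -/
theorem gap (hH : Tendsto H 𝓕 atTop) (v0 : InfinitePlace L) {n : ℕ} (x : Fin n → α → ℤ)
    (c : Fin n → α → L) (hc : ∀ l, Slow 𝓕 H (c l)) (vv : α → L) (M : α → ℝ)
    (hM : ∀ t, 1 ≤ M t)
    (hneg : ∀ ε' : ℝ, 0 < ε' → ∀ᶠ t in (𝓕 : Filter α), 1 + Real.log (M t) ≤ ε' * H t)
    (hexp : ∀ t, Real.exp (H t) = 1 + ∑ l, |(x l t : ℝ)|) (δ : ℝ) (hδ : 0 < δ)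
    (hgap : ∀ l t, av (Sum.inl v0 : Pl L) ((x l t : L) - c l t * vv t) ≤
      M t * (1 + ∑ l, |(x l t : ℝ)|) ^ (1 - δ)) :
    (∃ c' : ℝ, 0 < c' ∧ ∀ᶠ t in (𝓕 : Filter α),
      Real.exp (c' * H t) ≤ av (Sum.inl v0 : Pl L) (vv t)) ∧
      ∀ l, Sm 𝓕 H (Sum.inl v0 : Pl L) (fun t => (x l t : L) / vv t - c l t) := by
  obtain ⟨δ', hδ'⟩ : ∃ δ', δ' = min δ 1 := ⟨_, rfl⟩
  have hδ0 : 0 < δ' := by rw [hδ']; exact lt_min hδ one_pos
  have hδ1 : δ' ≤ 1 := by rw [hδ']; exact min_le_right _ _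
  have hδδ : δ' ≤ δ := by rw [hδ']; exact min_le_left _ _
  obtain ⟨ε, hε⟩ : ∃ ε, ε = δ' / 8 := ⟨_, rfl⟩
  have hε0 : 0 < ε := by rw [hε]; positivity
  have hε8 : δ' = 8 * ε := by rw [hε]; ring
  have hE : SubE 𝓕 H (fun t => ∑ l, av (Sum.inl v0 : Pl L) (c l t)) :=
    SubE.sum hH _ _ fun l _ => SubE.slow (hc l) _
  have hall : ∀ᶠ t in (𝓕 : Filter α), 0 ≤ H t ∧
      M t ≤ Real.exp (ε * H t) ∧ (n : ℝ) * 4 ≤ Real.exp (ε * H t) ∧
      (∑ l, av (Sum.inl v0 : Pl L) (c l t)) ≤ Real.exp (ε * H t) ∧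
      (2 : ℝ) ≤ Real.exp (ε * H t) ∧ 4 ≤ Real.exp (H t) := by
    filter_upwards [hH_le hH 0, hneg ε hε0, (SubE.const hH (c := (n : ℝ) * 4)
      (by positivity)).2 ε hε0, hE.2 ε hε0, (SubE.const hH (c := 2) (by norm_num)).2 ε hε0,
      (SubE.const hH (c := 4) (by norm_num)).2 1 one_pos] with t h1 h2 h3 h4 h5 h6
    refine ⟨h1, ?_, h3, h4, h5, by rwa [one_mul] at h6⟩
    rw [← Real.exp_log (show 0 < M t by linarith [hM t])]
    exact Real.exp_le_exp.2 (by linarith)
  have hgap' : ∀ l, ∀ᶠ t in (𝓕 : Filter α), av (Sum.inl v0 : Pl L) ((x l t : L) - c l t * vv t) ≤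
      Real.exp (ε * H t) * Real.exp ((1 - δ') * H t) := by
    intro l
    filter_upwards [hall] with t ht
    obtain ⟨h1, h2, -⟩ := ht
    refine (hgap l t).trans (mul_le_mul h2 ?_ (by positivity) (Real.exp_pos _).le)
    rw [← hexp t, ← Real.exp_mul]
    refine Real.exp_le_exp.2 ?_
    rw [mul_comm]
    exact mul_le_mul_of_nonneg_right (by linarith) h1
  have hlow : ∀ᶠ t in (𝓕 : Filter α), Real.exp ((1 - 2 * ε) * H t) ≤
      av (Sum.inl v0 : Pl L) (vv t) := by
    filter_upwards [hall, eventually_all.2 hgap'] with t ht hg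
    obtain ⟨h1, h2, h3, h4, h5, h6⟩ := ht
    have h7 : Real.exp (H t) ≤ 1 + ((∑ l, av (Sum.inl v0 : Pl L) (c l t)) *
        av (Sum.inl v0 : Pl L) (vv t) + n * (Real.exp (ε * H t) *
          Real.exp ((1 - δ') * H t))) := by
      rw [hexp t]
      refine add_le_add le_rfl ?_
      rw [Finset.sum_mul]
      have h8 : ((n : ℝ) * (Real.exp (ε * H t) * Real.exp ((1 - δ') * H t))) =
          ∑ _l : Fin n, (Real.exp (ε * H t) * Real.exp ((1 - δ') * H t)) := by
        rw [Finset.sum_const, Finset.card_univ, Fintype.card_fin, nsmul_eq_mul]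
      rw [h8, ← Finset.sum_add_distrib]
      refine Finset.sum_le_sum fun l _ => ?_
      rw [← av_inf v0, ← map_mul]
      have h9 : (x l t : L) = c l t * vv t + ((x l t : L) - c l t * vv t) := by ring
      calc av (Sum.inl v0 : Pl L) (x l t : L) =
          av (Sum.inl v0 : Pl L) (c l t * vv t + ((x l t : L) - c l t * vv t)) := by rw [← h9]
        _ ≤ _ := ((av _).add_le _ _).trans (add_le_add le_rfl (hg l))
    have h8 : (∑ l, av (Sum.inl v0 : Pl L) (c l t)) * av (Sum.inl v0 : Pl L) (vv t) ≤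
        Real.exp (ε * H t) * av (Sum.inl v0 : Pl L) (vv t) :=
      mul_le_mul_of_nonneg_right h4 ((av _).nonneg _)
    have h9 : (n : ℝ) * (Real.exp (ε * H t) * Real.exp ((1 - δ') * H t)) ≤
        1 / 4 * Real.exp (H t) := by
      have h10 : (n : ℝ) ≤ 1 / 4 * Real.exp (ε * H t) := by linarith
      calc (n : ℝ) * (Real.exp (ε * H t) * Real.exp ((1 - δ') * H t)) ≤
          (1 / 4 * Real.exp (ε * H t)) * (Real.exp (ε * H t) * Real.exp ((1 - δ') * H t)) :=
            mul_le_mul_of_nonneg_right h10 (by positivity)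
        _ = 1 / 4 * Real.exp ((1 - 6 * ε) * H t) := by
            rw [mul_assoc, ← Real.exp_add, ← Real.exp_add, hε8]
            congr 2
            ring
        _ ≤ 1 / 4 * Real.exp (H t) := by
            refine mul_le_mul_of_nonneg_left (Real.exp_le_exp.2 ?_) (by norm_num)
            have : 0 ≤ ε * H t := by positivity
            linarith
    have h10 : 1 / 2 * Real.exp (H t) ≤ Real.exp (ε * H t) *
        av (Sum.inl v0 : Pl L) (vv t) := by linarith
    have h11 : Real.exp (ε * H t) * Real.exp ((1 - 2 * ε) * H t) ≤ 1 / 2 * Real.exp (H t) := by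
      have h12 : Real.exp (H t) = Real.exp (ε * H t) * (Real.exp (ε * H t) *
          Real.exp ((1 - 2 * ε) * H t)) := by
        rw [← Real.exp_add, ← Real.exp_add]
        congr 1
        ring
      rw [h12]
      have h13 : 0 < Real.exp (ε * H t) * Real.exp ((1 - 2 * ε) * H t) := by positivity
      have h14 := mul_le_mul_of_nonneg_right h5 h13.le
      linarith
    exact le_of_mul_le_mul_left (h11.trans h10) (Real.exp_pos _)
  refine ⟨⟨1 - 2 * ε, by rw [hε]; linarith, hlow⟩, fun l => ⟨5 * ε, by positivity, ?_⟩⟩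
  filter_upwards [hall, hgap' l, hlow] with t ht hg hl
  obtain ⟨h1, -⟩ := ht
  have hv : 0 < av (Sum.inl v0 : Pl L) (vv t) := (Real.exp_pos _).trans_le hl
  have hv0 : vv t ≠ 0 := (av _).pos_iff.1 hv
  have h2 : (x l t : L) / vv t - c l t = ((x l t : L) - c l t * vv t) / vv t := by
    field_simp
  rw [h2, map_div₀, div_le_iff₀ hv]
  refine hg.trans ?_
  calc Real.exp (ε * H t) * Real.exp ((1 - δ') * H t) =
      Real.exp (-(5 * ε * H t)) * Real.exp ((1 - 2 * ε) * H t) := by
        rw [← Real.exp_add, ← Real.exp_add, hε8]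
        congr 1
        ring
    _ ≤ _ := mul_le_mul_of_nonneg_left hl (Real.exp_pos _).le

end seq

/-- the monomials in terms of the quotients by the power of the unit -/
lemma mono_eq {L : Type} [Field L] {n : ℕ} {p q s j : ℕ} (e : Fin n → ℕ)
    (h : q * ∑ l, e l ≤ p * (q - j)) (x : Fin n → L) (V : L) :
    (∏ l, x l ^ e l) * ((V ^ (p * s))⁻¹) ^ (q - j) =
      (∏ l, (x l / V ^ (s * q)) ^ e l) * (V⁻¹) ^ (s * (p * (q - j) - q * ∑ l, e l)) := by
  have h1 : p * s * (q - j) = s * q * (∑ l, e l) + s * (p * (q - j) - q * ∑ l, e l) := by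
    obtain ⟨r, hr⟩ := Nat.exists_eq_add_of_le h
    calc p * s * (q - j) = s * (p * (q - j)) := by ring
      _ = _ := by
        rw [hr, Nat.add_sub_cancel_left]
        ring
  simp_rw [div_pow]
  rw [Finset.prod_div_distrib, ← inv_pow, ← pow_mul, h1, pow_add, div_eq_mul_inv]
  have h2 : (∏ l, (V ^ (s * q)) ^ e l)⁻¹ = V⁻¹ ^ (s * q * ∑ l, e l) := by
    rw [Finset.prod_pow_eq_pow_sum, ← pow_mul, inv_pow]
  rw [h2]
  ring

/-- the value at integers -/
lemma cast_eval {σ R : Type} [CommRing R] (x : σ → ℤ) (Q : MvPolynomial σ ℤ) :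
    MvPolynomial.aeval (fun l => (x l : R)) Q = ((MvPolynomial.eval x Q : ℤ) : R) := by
  induction Q using MvPolynomial.induction_on with
  | C a => simp
  | add a b ha hb => rw [map_add, map_add, ha, hb, Int.cast_add]
  | mul_X a i ha => rw [map_mul, map_mul, ha, MvPolynomial.aeval_X, MvPolynomial.eval_X,
      Int.cast_mul]

/-- the size of a polynomial -/
lemma poly_bd {n p : ℕ} {M : ℝ} (hM : 1 ≤ M) (P : MvPolynomial (Fin n) ℤ)
    (hd : P.totalDegree ≤ p) (hb : ∀ m, |((P.coeff m : ℤ) : ℝ)| ≤ M) (x : Fin n → ℤ) (s : ℝ)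
    (hs : 1 ≤ s) (hx : ∀ l, |(x l : ℝ)| ≤ s) :
    |MvPolynomial.aeval (fun l => (x l : ℝ)) P| ≤ (expo (Fin n) p).card * (M * s ^ p) := by
  rw [aeval_expo P hd]
  refine (Finset.abs_sum_le_sum_abs _ _).trans ?_
  calc ∑ m ∈ expo (Fin n) p, |((P.coeff m : ℤ) : ℝ) * ∏ l, (x l : ℝ) ^ m l| ≤
      ∑ _m ∈ expo (Fin n) p, M * s ^ p := by
        refine Finset.sum_le_sum fun m hm => ?_
        rw [abs_mul]
        refine mul_le_mul (hb m) ?_ (abs_nonneg _) (by linarith)
        rw [Finset.abs_prod]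
        calc ∏ l, |(x l : ℝ) ^ m l| ≤ ∏ l, s ^ m l := by
              refine Finset.prod_le_prod (fun l _ => abs_nonneg _) fun l _ => ?_
              rw [abs_pow]
              exact pow_le_pow_left₀ (abs_nonneg _) (hx l) _
          _ = s ^ (∑ l, m l) := Finset.prod_pow_eq_pow_sum _ _ _
          _ ≤ s ^ p := pow_le_pow_right₀ hs (mem_expo.1 hm)
    _ = _ := by rw [Finset.sum_const, nsmul_eq_mul]

/-- the polynomial at infinity in the direction `c`: the part of `P` of weight `p q`, at the point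
`(c, Y)`, where `q` is the degree of `P` and the weight of the variables of the coefficients, and `p`
is the weight of `Y` -/
noncomputable def topAt {n : ℕ} {K : Type} [Field K] (p : ℕ)
    (P : Polynomial (MvPolynomial (Fin n) ℤ)) (c : Fin n → K) : Polynomial K :=
  ∑ j ∈ Finset.range (P.natDegree + 1),
    Polynomial.C (∑ m ∈ (P.coeff j).support with P.natDegree * ∑ l, m l = p * (P.natDegree - j),
      (((P.coeff j).coeff m : ℤ) : K) * ∏ l, c l ^ m l) * Polynomial.X ^ j

/-- the polynomials `P` of degree `q` with coefficients at most `M`, such that the coefficient of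
`Y ^ j` has degree at most `p (q - j) / q` -/
structure Adm {n : ℕ} (p q : ℕ) (M : ℝ) (P : Polynomial (MvPolynomial (Fin n) ℤ)) : Prop where
  monic : P.Monic
  deg : P.natDegree = q
  bd : ∀ j m, |(((P.coeff j).coeff m : ℤ) : ℝ)| ≤ M
  wt : ∀ j < q, q * (P.coeff j).totalDegree ≤ p * (q - j)

section adm

variable {n p q : ℕ} (hq : 0 < q) {M : ℝ} {P : Polynomial (MvPolynomial (Fin n) ℤ)}
  (hP : Adm p q M P)
include hq hP

lemma Adm.td {j : ℕ} (hj : j < q) : (P.coeff j).totalDegree ≤ p := by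
  have h1 := hP.wt j hj
  have h2 : p * (q - j) ≤ q * p := by
    rw [mul_comm q p]
    exact Nat.mul_le_mul_left _ (Nat.sub_le _ _)
  exact Nat.le_of_mul_le_mul_left (h1.trans h2) hq

lemma Adm.wt' {j : ℕ} (hj : j < q) {m : Fin n →₀ ℕ} (hm : (P.coeff j).coeff m ≠ 0) :
    q * ∑ l, m l ≤ p * (q - j) :=
  (Nat.mul_le_mul_left q (coeff_deg _ hm)).trans (hP.wt j hj)

omit hq in
lemma Adm.coeff_q : P.coeff q = 1 := by
  have h := hP.monic.coeff_natDegree
  rwa [hP.deg] at h

lemma Adm.top_coeff {K : Type} [Field K] (c : Fin n → K) {j : ℕ} (hj : j < q) :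
    (topAt p P c).coeff j = ∑ m ∈ expo (Fin n) p,
      if q * ∑ l, m l = p * (q - j) then (((P.coeff j).coeff m : ℤ) : K) * ∏ l, c l ^ m l
        else 0 := by
  classical
  unfold topAt
  rw [hP.deg]
  simp only [Polynomial.finsetSum_coeff, Polynomial.coeff_C_mul_X_pow]
  rw [Finset.sum_ite_eq, if_pos (Finset.mem_range.2 (by omega)), Finset.sum_filter]
  refine Finset.sum_subset (fun m hm => mem_expo.2
    ((coeff_deg _ (MvPolynomial.mem_support_iff.1 hm)).trans (hP.td hq hj))) fun m _ hm => ?_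
  rw [MvPolynomial.notMem_support_iff.1 hm, Int.cast_zero, zero_mul, ite_self]

lemma Adm.top_coeff_q {K : Type} [Field K] (c : Fin n → K) : (topAt p P c).coeff q = 1 := by
  classical
  unfold topAt
  rw [hP.deg]
  simp only [Polynomial.finsetSum_coeff, Polynomial.coeff_C_mul_X_pow]
  rw [Finset.sum_ite_eq, if_pos (Finset.mem_range.2 (by omega)), Finset.sum_filter, hP.coeff_q,
    Finset.sum_eq_single 0]
  · simp
  · intro m _ hm
    rw [if_neg]
    intro h
    apply hm
    rw [Nat.sub_self, mul_zero, Nat.mul_eq_zero] at h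
    have h1 := h.resolve_left hq.ne'
    rw [Finset.sum_eq_zero_iff] at h1
    ext l
    exact h1 l (Finset.mem_univ l)
  · intro h
    exfalso
    apply h
    rw [MvPolynomial.mem_support_iff]
    simp

lemma Adm.top_natDegree {K : Type} [Field K] (c : Fin n → K) : (topAt p P c).natDegree = q := by
  classical
  refine le_antisymm ?_ ?_
  · rw [Polynomial.natDegree_le_iff_coeff_eq_zero]
    intro N hN
    unfold topAt
    rw [hP.deg]
    simp only [Polynomial.finsetSum_coeff, Polynomial.coeff_C_mul_X_pow]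
    rw [Finset.sum_ite_eq, if_neg]
    rw [Finset.mem_range]
    omega
  · refine Polynomial.le_natDegree_of_ne_zero ?_
    rw [hP.top_coeff_q hq]
    exact one_ne_zero

lemma Adm.top_monic {K : Type} [Field K] (c : Fin n → K) : (topAt p P c).Monic := by
  rw [Polynomial.Monic, Polynomial.leadingCoeff, hP.top_natDegree hq, hP.top_coeff_q hq]

omit hq in
/-- the value of the polynomial -/
lemma Adm.eval {R : Type} [CommRing R] (x : Fin n → ℤ) (y : ℤ)
    (h : P.eval₂ (MvPolynomial.eval x) y = 0) :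
    (y : R) ^ q + ∑ j ∈ Finset.range q,
      MvPolynomial.aeval (fun l => (x l : R)) (P.coeff j) * (y : R) ^ j = 0 := by
  rw [Polynomial.eval₂_eq_sum_range, hP.deg, Finset.sum_range_succ, hP.coeff_q, map_one,
    one_mul] at h
  have h1 := congrArg (Int.cast : ℤ → R) h
  push_cast at h1
  rw [← h1, add_comm]
  congr 1
  refine Finset.sum_congr rfl fun j _ => ?_
  congr 1
  exact cast_eval x _

/-- the size of the ordinate -/
lemma Adm.ord_le (hM : 1 ≤ M) (x : Fin n → ℤ) (y : ℤ) (s : ℝ) (hs : 1 ≤ s)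
    (hx : ∀ l, |(x l : ℝ)| ≤ s) (h : P.eval₂ (MvPolynomial.eval x) y = 0) :
    |(y : ℝ)| ≤ (q * (expo (Fin n) p).card) * (M * s ^ p) := by
  have hq1 : (1 : ℝ) ≤ q := by exact_mod_cast hq
  have hN : (1 : ℝ) ≤ (expo (Fin n) p).card := by
    have h1 : 0 < (expo (Fin n) p).card := Finset.card_pos.2 ⟨0, mem_expo.2 (by simp)⟩
    exact_mod_cast h1
  have hsp : 1 ≤ s ^ p := one_le_pow₀ hs
  rcases le_or_gt |(y : ℝ)| 1 with hy | hy
  · exact hy.trans (one_le_mul_of_one_le_of_one_le (one_le_mul_of_one_le_of_one_le hq1 hN)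
      (one_le_mul_of_one_le_of_one_le hM hsp))
  have h1 := hP.eval (R := ℝ) x y h
  have h2 : (y : ℝ) ^ q = -∑ j ∈ Finset.range q,
      MvPolynomial.aeval (fun l => (x l : ℝ)) (P.coeff j) * (y : ℝ) ^ j := by linarith
  have h3 : |(y : ℝ)| ^ q ≤ ((q * (expo (Fin n) p).card) * (M * s ^ p)) *
      |(y : ℝ)| ^ (q - 1) := by
    rw [← abs_pow, h2, abs_neg]
    refine (Finset.abs_sum_le_sum_abs _ _).trans ?_
    calc ∑ j ∈ Finset.range q,
          |MvPolynomial.aeval (fun l => (x l : ℝ)) (P.coeff j) * (y : ℝ) ^ j| ≤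
          ∑ _j ∈ Finset.range q, ((expo (Fin n) p).card * (M * s ^ p)) *
            |(y : ℝ)| ^ (q - 1) := by
            refine Finset.sum_le_sum fun j hj => ?_
            rw [abs_mul, abs_pow]
            have hj' := Finset.mem_range.1 hj
            exact mul_le_mul (poly_bd hM _ (hP.td hq hj') (hP.bd j) x s hs hx)
              (pow_le_pow_right₀ hy.le (by omega)) (by positivity) (by positivity)
      _ = _ := by
            rw [Finset.sum_const, Finset.card_range, nsmul_eq_mul]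
            ring
  have h4 : |(y : ℝ)| ^ q = |(y : ℝ)| * |(y : ℝ)| ^ (q - 1) := by
    rw [← pow_succ']
    congr 1
    omega
  rw [h4] at h3
  exact le_of_mul_le_mul_right h3 (pow_pos (by linarith) _)

end adm

end Pool.Agent.Run7.h28.BV
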