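import Mathlib
import Pool.Agent.Run7.h28.BV.Gap
import Pool.Agent.Run7.h28.EC.Top

/-!
# Project BV (helper28): integral coordinates above points near a direction are sums of units
-/

set_option autoImplicit false
set_option linter.unusedSectionVars false

open Filter Topology

namespace Pool.Agent.Run7.h28.BV

open NumberField IsDedekindDomain Height Module
open Pool.Agent.W180.OP (Pl av wt nrm le_nrm nrm_pos wt_nonneg exists_nrm nrm_nonneg)
open Pool.Agent.N750
open Pool.Agent.Run7.h28.HK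
open Pool.Agent.Run7.h28.EC (SubE)

variable {L : Type} [Field L] [NumberField L] {α : Type} {𝓕 : Ultrafilter α} {H : α → ℝ}

/-- small integers are slow -/
lemma slow_int {M : α → ℝ} (hM : ∀ t, 1 ≤ M t)
    (hneg : ∀ ε' : ℝ, 0 < ε' → ∀ᶠ t in (𝓕 : Filter α), 1 + Real.log (M t) ≤ ε' * H t)
    (a : α → ℤ) (ha : ∀ t, |(a t : ℝ)| ≤ M t) : Slow 𝓕 H (fun t => (a t : L)) := by
  intro ε hε
  have hf : (0 : ℝ) < finrank ℚ L := by exact_mod_cast Module.finrank_pos
  filter_upwards [hneg (ε / finrank ℚ L) (by positivity)] with t h1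
  refine (ht_int _).trans ?_
  have h2 := Real.log_le_log (by positivity) (max_le (hM t) (ha t))
  have h3 : (finrank ℚ L : ℝ) * Real.log (max 1 |(a t : ℝ)|) ≤
      finrank ℚ L * (ε / finrank ℚ L * H t) :=
    mul_le_mul_of_nonneg_left (by linarith) hf.le
  refine h3.trans (le_of_eq ?_)
  field_simp

/-- small elements are slow -/
lemma slow_of_log {M : α → ℝ} (hM : ∀ t, 1 ≤ M t)
    (hneg : ∀ ε' : ℝ, 0 < ε' → ∀ᶠ t in (𝓕 : Filter α), 1 + Real.log (M t) ≤ ε' * H t)
    {a : α → L} {B : ℝ} (hB : 0 ≤ B) (ha : ∀ t, logHeight₁ (a t) ≤ B * (1 + Real.log (M t))) :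
    Slow 𝓕 H a := by
  intro ε hε
  filter_upwards [hneg (ε / (B + 1)) (by positivity)] with t ht
  have h1 : B * (1 + Real.log (M t)) ≤ (B + 1) * (1 + Real.log (M t)) :=
    mul_le_mul_of_nonneg_right (by linarith) (by linarith [Real.log_nonneg (hM t)])
  have h2 : (B + 1) * (1 + Real.log (M t)) ≤ (B + 1) * (ε / (B + 1) * H t) :=
    mul_le_mul_of_nonneg_left ht (by linarith)
  have h3 : (B + 1) * (ε / (B + 1) * H t) = ε * H t := by
    field_simp
  have h4 := ha t
  linarith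

/-- products of sums -/
lemma sp_prod {G : Type} [Field G] {F : Subfield G} {P : G → Prop} (h1 : P 1)
    (hmul : ∀ a b, P a → P b → P (a * b)) {ι : Type} (A : Finset ι) (f : ι → G)
    (hf : ∀ i ∈ A, Sp F P (f i)) : Sp F P (∏ i ∈ A, f i) := by
  classical
  induction A using Finset.induction_on with
  | empty =>
    rw [Finset.prod_empty]
    exact Sp.of h1
  | insert a A ha ih =>
    rw [Finset.prod_insert ha]
    exact Sp.mul hmul (hf a (Finset.mem_insert_self _ _))
      (ih fun i hi => hf i (Finset.mem_insert_of_mem hi))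

/-- the closeness of the coefficients -/
lemma coef_close (hH : Tendsto H 𝓕 atTop) (v : Pl L) {n p q s : ℕ} (hs : 0 < s)
    (M : α → ℝ) (hM : ∀ t, 1 ≤ M t)
    (hneg : ∀ ε' : ℝ, 0 < ε' → ∀ᶠ t in (𝓕 : Filter α), 1 + Real.log (M t) ≤ ε' * H t)
    (f : α → (Fin n →₀ ℕ) → ℤ) (hf : ∀ t m, |(f t m : ℝ)| ≤ M t) {j : ℕ}
    (hf2 : ∀ t m, f t m ≠ 0 → q * ∑ l, m l ≤ p * (q - j))
    (c : Fin n → α → L) (hc : ∀ l, Slow 𝓕 H (c l)) (V : α → Lˣ)
    (hVs : Sm 𝓕 H v (fun t => (V t : L)⁻¹)) (x : Fin n → α → L)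
    (hxc : ∀ l, Sm 𝓕 H v (fun t => x l t / (V t : L) ^ (s * q) - c l t)) (A : Finset (Fin n →₀ ℕ)) :
    Sm 𝓕 H v (fun t => (∑ m ∈ A, (f t m : L) * ∏ l, x l t ^ m l) *
      (((V t : L) ^ (p * s))⁻¹) ^ (q - j) -
      ∑ m ∈ A, if q * ∑ l, m l = p * (q - j) then (f t m : L) * ∏ l, c l t ^ m l else 0) := by
  have hcg : ∀ l, Cg 𝓕 H v (fun t => x l t / (V t : L) ^ (s * q)) (c l) := fun l =>
    ⟨hxc l, Bd.slow (hc l) v⟩
  have hmon : ∀ m : Fin n →₀ ℕ, Cg 𝓕 H v (fun t => ∏ l, (x l t / (V t : L) ^ (s * q)) ^ m l)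
      (fun t => ∏ l, c l t ^ m l) := fun m =>
    Cg.prod hH _ (fun l t => (x l t / (V t : L) ^ (s * q)) ^ m l) (fun l t => c l t ^ m l)
      fun l _ => (hcg l).pow hH _
  have hterm : ∀ m ∈ A, Sm 𝓕 H v (fun t => (f t m : L) * (∏ l, x l t ^ m l) *
      (((V t : L) ^ (p * s))⁻¹) ^ (q - j) -
      if q * ∑ l, m l = p * (q - j) then (f t m : L) * ∏ l, c l t ^ m l else 0) := by
    intro m _
    have hfb : Bd 𝓕 H v (fun t => (f t m : L)) :=
      Bd.slow (slow_int hM hneg (fun t => f t m) fun t => hf t m) v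
    rcases lt_trichotomy (q * ∑ l, m l) (p * (q - j)) with hlt | heq | hgt
    · have h1 : (fun t => (f t m : L) * (∏ l, x l t ^ m l) *
          (((V t : L) ^ (p * s))⁻¹) ^ (q - j) -
          if q * ∑ l, m l = p * (q - j) then (f t m : L) * ∏ l, c l t ^ m l else 0) =
          fun t => (V t : L)⁻¹ ^ (s * (p * (q - j) - q * ∑ l, m l)) *
            ((f t m : L) * ∏ l, (x l t / (V t : L) ^ (s * q)) ^ m l) := by
        funext t
        rw [if_neg hlt.ne, sub_zero, mul_assoc, mono_eq (fun l => m l) hlt.le]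
        ring
      rw [h1]
      refine (hVs.pow hH ?_).mul (hfb.mul ((hmon m).bd hH))
      have h2 : 0 < p * (q - j) - q * ∑ l, m l := by omega
      exact (Nat.mul_pos hs h2).ne'
    · have h1 : (fun t => (f t m : L) * (∏ l, x l t ^ m l) *
          (((V t : L) ^ (p * s))⁻¹) ^ (q - j) -
          if q * ∑ l, m l = p * (q - j) then (f t m : L) * ∏ l, c l t ^ m l else 0) =
          fun t => ((∏ l, (x l t / (V t : L) ^ (s * q)) ^ m l) - ∏ l, c l t ^ m l) *
            (f t m : L) := by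
        funext t
        rw [if_pos heq, mul_assoc, mono_eq (fun l => m l) heq.le, heq, Nat.sub_self, mul_zero,
          pow_zero]
        ring
      rw [h1]
      exact (hmon m).1.mul hfb
    · have h1 : (fun t => (f t m : L) * (∏ l, x l t ^ m l) *
          (((V t : L) ^ (p * s))⁻¹) ^ (q - j) -
          if q * ∑ l, m l = p * (q - j) then (f t m : L) * ∏ l, c l t ^ m l else 0) =
          fun _ => (0 : L) := by
        funext t
        have h2 : f t m = 0 := by
          by_contra h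
          have h3 := hf2 t m h
          omega
        rw [if_neg hgt.ne', h2, Int.cast_zero, zero_mul, zero_mul, sub_zero]
      rw [h1]
      exact Sm.zero
  have h2 := Sm.sum hH A _ hterm
  have h3 : (fun t => (∑ m ∈ A, (f t m : L) * ∏ l, x l t ^ m l) *
      (((V t : L) ^ (p * s))⁻¹) ^ (q - j) -
      ∑ m ∈ A, if q * ∑ l, m l = p * (q - j) then (f t m : L) * ∏ l, c l t ^ m l else 0) =
      fun t => ∑ m ∈ A, ((f t m : L) * (∏ l, x l t ^ m l) *
      (((V t : L) ^ (p * s))⁻¹) ^ (q - j) -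
      if q * ∑ l, m l = p * (q - j) then (f t m : L) * ∏ l, c l t ^ m l else 0) := by
    funext t
    rw [Finset.sum_sub_distrib, Finset.sum_mul]
  rw [h3]
  exact h2

variable [IsGalois ℚ L]

/-- **Integral coordinates are sums of units.** -/
theorem ord_sp (hH : Tendsto H 𝓕 atTop) (Γ : Subgroup Lˣ)
    (hΓσ : ∀ σ : L ≃ₐ[ℚ] L, ∀ g ∈ Γ, Units.map (σ : L →* L) g ∈ Γ) (S : Finset (Pl L))
    (hS : ∀ w : InfinitePlace L, (Sum.inl w : Pl L) ∈ S) (hΓS : ∀ g ∈ Γ, IsU S (g : L))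
    (v0 : InfinitePlace L) {n p q s : ℕ} (hq : 0 < q) (hs : 0 < s) (M : α → ℝ)
    (hM : ∀ t, 1 ≤ M t)
    (hneg : ∀ ε' : ℝ, 0 < ε' → ∀ᶠ t in (𝓕 : Filter α), 1 + Real.log (M t) ≤ ε' * H t)
    (P : α → Polynomial (MvPolynomial (Fin n) ℤ)) (hP : ∀ t, Adm p q (M t) (P t))
    (c : Fin n → α → L) (hc : ∀ l, Slow 𝓕 H (c l))
    (hsep : ∀ t, (topAt p (P t) (fun l => c l t)).Separable)
    (hspl : ∀ t, (topAt p (P t) (fun l => c l t)).Splits)
    (V : α → Lˣ) (hV : ∀ t, V t ∈ Γ) (hVm : Mdr 𝓕 H (fun t => (V t : L)))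
    (hVs : Sm 𝓕 H (Sum.inl v0 : Pl L) (fun t => (V t : L)⁻¹))
    (x : Fin n → α → ℤ)
    (hx : ∀ l, Sp (slowF 𝓕 L H hH) (PG 𝓕 H Γ) (mk 𝓕 (fun t => (x l t : L))))
    (hxc : ∀ l, Sm 𝓕 H (Sum.inl v0 : Pl L)
      (fun t => (x l t : L) / (V t : L) ^ (s * q) - c l t))
    (y : α → ℤ) (hy : Mdr 𝓕 H (fun t => (y t : L)))
    (hzero : ∀ t, (P t).eval₂ (MvPolynomial.eval (fun l => x l t)) (y t) = 0) :
    Sp (slowF 𝓕 L H hH) (PU 𝓕 H S) (mk 𝓕 (fun t => (y t : L))) := by
  classical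
  obtain ⟨E, hE⟩ : ∃ E : α → Polynomial L, E = fun t => topAt p (P t) (fun l => c l t) := ⟨_, rfl⟩
  have hEmon : ∀ t, (E t).Monic := fun t => by rw [hE]; exact (hP t).top_monic hq _
  have hEdeg : ∀ t, (E t).natDegree = q := fun t => by rw [hE]; exact (hP t).top_natDegree hq _
  have hEcoef : ∀ t, ∀ j < q, (E t).coeff j = ∑ m ∈ expo (Fin n) p,
      if q * ∑ l, m l = p * (q - j) then ((((P t).coeff j).coeff m : ℤ) : L) * ∏ l, c l t ^ m l
        else 0 := fun t j hj => by rw [hE]; exact (hP t).top_coeff hq _ hj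
  have hfs : ∀ j m, Slow 𝓕 H (fun t => ((((P t).coeff j).coeff m : ℤ) : L)) := fun j m =>
    slow_int hM hneg (fun t => ((P t).coeff j).coeff m) fun t => (hP t).bd j m
  have hEs : ∀ j, Slow 𝓕 H (fun t => (E t).coeff j) := by
    intro j
    rcases lt_trichotomy j q with hj | hj | hj
    · have h1 : (fun t => (E t).coeff j) = fun t => ∑ m ∈ expo (Fin n) p,
          if q * ∑ l, m l = p * (q - j) then ((((P t).coeff j).coeff m : ℤ) : L) *
            ∏ l, c l t ^ m l else 0 := funext fun t => hEcoef t j hj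
      rw [h1]
      refine slow_sum hH _ fun m _ => ?_
      split_ifs
      · exact (hfs j m).mul (slow_prod hH _ (a := fun l t => c l t ^ m l)
          fun l _ => (hc l).pow hH _)
      · exact slow_const hH 0
    · have h1 : (fun t => (E t).coeff j) = fun _ => (1 : L) := funext fun t => by
        have h2 := (hEmon t).coeff_natDegree
        rwa [hEdeg, ← hj] at h2
      rw [h1]
      exact slow_const hH 1
    · have h1 : (fun t => (E t).coeff j) = fun _ => (0 : L) := funext fun t =>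
        Polynomial.coeff_eq_zero_of_natDegree_lt (by rw [hEdeg]; exact hj)
      rw [h1]
      exact slow_const hH 0
  choose r hr1 hr2 hr3 using fun t => EC.enum_roots (E t) (hEmon t) (hEdeg t)
    (by rw [hE]; exact hsep t) (by rw [hE]; exact hspl t)
  have hrs : ∀ i, Slow 𝓕 H (fun t => r t i) := by
    intro i
    refine slow_root hH hq (fun j t => (E t).coeff j) hEs _ fun t => ?_
    have h0 : (E t).eval (r t i) = 0 := by
      rw [hr2]
      exact Finset.prod_eq_zero (Finset.mem_univ i) (sub_self _)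
    rw [Polynomial.eval_eq_sum_range, hEdeg, Finset.sum_range_succ] at h0
    have h3 : (E t).coeff q = 1 := by
      have h4 := (hEmon t).coeff_natDegree
      rwa [hEdeg] at h4
    rw [h3, one_mul] at h0
    rw [← h0, add_comm]
  obtain ⟨A, hA⟩ : ∃ A : ℕ → α → L, A = fun j t => ∑ m ∈ expo (Fin n) p,
      ((((P t).coeff j).coeff m : ℤ) : L) * ∏ l, (x l t : L) ^ m l := ⟨_, rfl⟩
  have hAe : ∀ j < q, ∀ t, MvPolynomial.aeval (fun l => (x l t : L)) ((P t).coeff j) = A j t := by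
    intro j hj t
    rw [hA, aeval_expo _ ((hP t).td hq hj)]
  have hmul : ∀ a b : Gm 𝓕 L, PG 𝓕 H Γ a → PG 𝓕 H Γ b → PG 𝓕 H Γ (a * b) := fun _ _ => PG.mul
  -- the closeness, with a common exponent
  have hsm : ∀ j, ∃ e : ℝ, 0 < e ∧ (j < q → ∀ᶠ t in (𝓕 : Filter α),
      av (Sum.inl v0 : Pl L) (A j t * (((V t ^ (p * s) : Lˣ) : L)⁻¹) ^ (q - j) - (E t).coeff j) ≤
        Real.exp (-(e * H t))) := by
    intro j
    by_cases hj : j < q
    · obtain ⟨e, he, h⟩ := coef_close hH (Sum.inl v0 : Pl L) (p := p) (q := q) hs M hM hneg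
        (fun t m => ((P t).coeff j).coeff m) (fun t m => (hP t).bd j m) (j := j)
        (fun t m hm => (hP t).wt' hq hj hm) c hc V hVs (fun l t => (x l t : L)) hxc
        (expo (Fin n) p)
      refine ⟨e, he, fun _ => ?_⟩
      filter_upwards [h] with t ht
      rw [hEcoef t j hj, hA, Units.val_pow_eq_pow_val]
      exact ht
    · exact ⟨1, one_pos, fun h => absurd h hj⟩
  choose e he1 he2 using hsm
  obtain ⟨e0, he0, he0'⟩ := exists_pos_le (Finset.range q) e fun j _ => he1 j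
  refine EC.core hH Γ hΓσ S hS hΓS v0 hq E hEmon hEdeg hEs (fun i t => r t i) hrs hr2
    (fun t i j hij h => hij (hr1 t h)) hr3
    (fun t => V t ^ (p * s)) (fun t => Γ.pow_mem (hV t) _) (by
      simpa only [Units.val_pow_eq_pow_val] using hVm.pow (p * s)) A ?_ y hy ?_ e0 he0 ?_
  · intro j _
    have h1 : A j = ∑ m ∈ expo (Fin n) p, (fun t => ((((P t).coeff j).coeff m : ℤ) : L)) *
        ∏ l, (fun t => (x l t : L)) ^ m l := by
      funext t
      rw [hA, Finset.sum_apply]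
      refine Finset.sum_congr rfl fun m _ => ?_
      rw [Pi.mul_apply, Finset.prod_apply]
      rfl
    rw [h1, map_sum]
    refine Sp.sum _ _ fun m _ => ?_
    rw [map_mul, map_prod]
    refine Sp.smul (mk_slow.2 (hfs j m)) (sp_prod PG.one hmul _ _ fun l _ => ?_)
    rw [map_pow]
    exact Sp.pow PG.one hmul (hx l) _
  · refine Eventually.of_forall fun t => ?_
    have h1 := (hP t).eval (R := L) (fun l => x l t) (y t) (hzero t)
    rw [← h1]
    congr 1
    refine Finset.sum_congr rfl fun j hj => ?_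
    rw [hAe j (Finset.mem_range.1 hj)]
  · intro j hj
    filter_upwards [he2 j hj, hH_le hH 0] with t h1 h2
    refine h1.trans (Real.exp_le_exp.2 (neg_le_neg (mul_le_mul_of_nonneg_right ?_ h2)))
    exact he0' j (Finset.mem_range.2 hj)

end Pool.Agent.Run7.h28.BV
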