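import Mathlib
import Pool.Agent.Run7.h28.HK.Gr

/-!
# Project BV (helper28): points which are sums of units lie on rational curves, any index set
-/

set_option autoImplicit false
set_option linter.unusedSectionVars false

open Filter Topology

namespace Pool.Agent.Run7.h28.BV

open NumberField IsDedekindDomain Height Module
open Pool.Agent.W180.OP (Pl av wt nrm le_nrm nrm_pos wt_nonneg exists_nrm nrm_nonneg)
open Pool.Agent.N750
open Pool.Agent.Run7.h28.HK

/-- sums of units satisfying polynomial equations are the values at `1` of polynomials which satisfy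
the homogenised equations -/
theorem lifts {G : Type} [Field G] {F : Subfield G} {P : G → Prop} (hP : PS F P) {σ : Type}
    [Fintype σ] (x : σ → G) (hx : ∀ i, Sp F P (x i)) (d : ℕ) (hd : 1 ≤ d) :
    ∃ (e : ℕ) (X : σ → Polynomial G), (∀ i, (X i).eval 1 = x i) ∧
      (∀ i, x i ∉ F → ∃ k, k ≠ e ∧ (X i).coeff k ≠ 0) ∧
      ∀ (A : Finset (σ →₀ ℕ)) (a : (σ →₀ ℕ) → G), (∀ m ∈ A, a m ∈ F) →
        (∀ m ∈ A, ∑ i, m i ≤ d) → ∑ m ∈ A, a m * ∏ i, x i ^ m i = 0 →
        ∑ m ∈ A, Polynomial.C (a m) * (∏ i, X i ^ m i) * Polynomial.X ^ (e * (d - ∑ i, m i)) =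
          0 := by
  classical
  choose n u c hu hs using hx
  -- the combined family
  let J : Type := Σ i : σ, Fin (n i)
  let ε : J ≃ Fin (Fintype.card J) := Fintype.equivFin J
  obtain ⟨U, hU⟩ : ∃ U : Fin (Fintype.card J + 1) → G,
      U = Fin.cons 1 (fun j => u (ε.symm j).1 (ε.symm j).2) := ⟨_, rfl⟩
  have hUP : ∀ j, P (U j) := by
    intro j
    rw [hU]
    refine Fin.cases ?_ (fun j => ?_) j
    · simpa using hP.one
    · rw [Fin.cons_succ]
      exact hu _ _
  obtain ⟨l, hl⟩ := fw hP.rt (Fintype.card J) U (fun j => hP.ne (hUP j)) d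
  have hset : Setup F P U l d := ⟨hUP, hl⟩
  have hU0 : U 0 = 1 := by rw [hU]; rfl
  have hlift : ∀ i, ∃ X : Polynomial G, Lift F U l 1 X ∧ X.eval 1 = x i := by
    intro i
    obtain ⟨X, hX, hX1⟩ := exists_lift (F := F) U l (fun j : Fin (n i) => (ε ⟨i, j⟩).succ) (c i)
    refine ⟨X, hX, ?_⟩
    rw [hX1, hs i]
    refine Finset.sum_congr rfl fun j _ => ?_
    rw [hU, Fin.cons_succ, Equiv.symm_apply_apply]
  choose X hX hX1 using hlift
  have hEL : Lift F U l 1 (Polynomial.X ^ (l 0)) := by
    have h := Lift.gen (F := F) (U := U) (l := l) 0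
    rw [hU0, Polynomial.C_1, one_mul] at h
    exact h
  refine ⟨l 0, X, hX1, ?_, ?_⟩
  · intro i hi
    by_contra hcon
    push Not at hcon
    apply hi
    have h1 : (Polynomial.X ^ (l 0) : Polynomial G).coeff (l 0) = 1 := by
      rw [Polynomial.coeff_X_pow_self]
    have h2 := Lift.coeff_div hP hset hd (hX i) hEL (l 0) (by rw [h1]; exact one_ne_zero)
    rw [h1, div_one] at h2
    have h3 : x i = (X i).coeff (l 0) := by
      rw [← hX1 i, Polynomial.eval_eq_sum_range' (n := max (X i).natDegree (l 0) + 1)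
        (by omega)]
      rw [Finset.sum_eq_single (l 0)]
      · simp
      · intro k _ hk
        rw [hcon k hk, zero_mul]
      · intro h
        exfalso
        apply h
        rw [Finset.mem_range]
        omega
    rw [h3]
    exact h2
  · intro A a ha hAd h0
    have hL : Lift F U l d (∑ m ∈ A, Polynomial.C (a m) * (∏ i, X i ^ m i) *
        Polynomial.X ^ (l 0 * (d - ∑ i, m i))) := by
      refine Lift.sum _ _ _ fun m hm => ?_
      have h1 : ∀ B : Finset σ, Lift F U l (∑ i ∈ B, m i) (∏ i ∈ B, X i ^ m i) := by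
        intro B
        induction B using Finset.induction_on with
        | empty =>
          rw [Finset.sum_empty, Finset.prod_empty]
          exact Lift.one
        | insert i B hi ih =>
          rw [Finset.sum_insert hi, Finset.prod_insert hi]
          have h2 := (hX i).pow (m i)
          rw [one_mul] at h2
          exact h2.mul ih
      have h2 := (h1 Finset.univ).mul (hEL.pow (d - ∑ i, m i))
      rw [one_mul, Nat.add_sub_cancel' (hAd m hm), ← pow_mul] at h2
      rw [mul_assoc]
      exact h2.smul (ha m hm)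
    refine hL.eq_zero hP hset le_rfl ?_
    rw [Polynomial.eval_finsetSum, ← h0]
    refine Finset.sum_congr rfl fun m _ => ?_
    rw [Polynomial.eval_mul, Polynomial.eval_mul, Polynomial.eval_C, Polynomial.eval_prod,
      Polynomial.eval_pow, Polynomial.eval_X, one_pow, mul_one]
    congr 1
    refine Finset.prod_congr rfl fun i _ => ?_
    rw [Polynomial.eval_pow, hX1]

variable {L : Type} [Field L] [NumberField L] {α : Type} {𝓕 : Ultrafilter α} {H : α → ℝ}

/-- the Laurent polynomial at the index `t` -/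
noncomputable def lau {α L R : Type} [CommRing L] [CommRing R] (e : ℕ) (Z : Polynomial (α → L))
    (g : L →+* R) (t : α) : LaurentPolynomial R :=
  Polynomial.toLaurent (Z.map (g.comp (Pi.evalRingHom (fun _ => L) t))) *
    LaurentPolynomial.T (-(e : ℤ))

lemma lau_coeff {α L R : Type} [CommRing L] [CommRing R] (e : ℕ) (Z : Polynomial (α → L))
    (g : L →+* R) (t : α) (h : ∃ c, lau e Z g t = LaurentPolynomial.C c) (k : ℕ) (hk : k ≠ e) :
    g (Z.coeff k t) = 0 := by
  obtain ⟨c, hc⟩ := h
  have h1 : Polynomial.toLaurent (Z.map (g.comp (Pi.evalRingHom (fun _ => L) t))) =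
      Polynomial.toLaurent (Polynomial.C c * Polynomial.X ^ e) := by
    rw [Polynomial.toLaurent_C_mul_X_pow, ← hc, lau, mul_assoc, ← LaurentPolynomial.T_add]
    simp
  have h2 := congrArg (fun p => Polynomial.coeff p k) (Polynomial.toLaurent_injective h1)
  rw [Polynomial.coeff_map, Polynomial.coeff_C_mul_X_pow, if_neg hk] at h2
  exact h2

/-- **Points which are sums of units lie on rational curves.** -/
theorem param (hH : Tendsto H 𝓕 atTop) (S : Finset (Pl L))
    (hS : ∀ w : InfinitePlace L, (Sum.inl w : Pl L) ∈ S) {σ : Type} [Fintype σ] (z : σ → α → L)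
    (hz : ∀ i, Sp (slowF 𝓕 L H hH) (PU 𝓕 H S) (mk 𝓕 (z i))) (d : ℕ) (hd : 1 ≤ d)
    (R : Type) [CommRing R] [Nontrivial R] (g : L →+* R) :
    ∃ Z : σ → α → LaurentPolynomial R,
      (∀ i, ∀ᶠ t in (𝓕 : Filter α), LaurentPolynomial.eval₂ (RingHom.id R) 1 (Z i t) = g (z i t)) ∧
      (∀ i, ¬ Slow 𝓕 H (z i) → ∀ᶠ t in (𝓕 : Filter α), ¬ ∃ c, Z i t = LaurentPolynomial.C c) ∧
      ∀ (A : Finset (σ →₀ ℕ)) (a : (σ →₀ ℕ) → α → L), (∀ m ∈ A, Slow 𝓕 H (a m)) →
        (∀ m ∈ A, ∑ i, m i ≤ d) →
        (∀ᶠ t in (𝓕 : Filter α), ∑ m ∈ A, a m t * ∏ i, z i t ^ m i = 0) →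
        ∀ᶠ t in (𝓕 : Filter α),
          ∑ m ∈ A, LaurentPolynomial.C (g (a m t)) * ∏ i, Z i t ^ m i = 0 := by
  classical
  obtain ⟨e, X, hX1, hX2, hX3⟩ := lifts (ps hH S hS) (fun i => mk 𝓕 (z i)) hz d hd
  have hsurj : Function.Surjective (mk 𝓕 : (α → L) → Gm 𝓕 L) := mk_surj
  choose Y hY using fun i => Polynomial.map_surjective (mk 𝓕) hsurj (X i)
  refine ⟨fun i t => lau e (Y i) g t, ?_, ?_, ?_⟩
  · intro i
    have h1 : mk 𝓕 ((Y i).eval 1) = mk 𝓕 (z i) := by
      rw [← hX1 i, ← hY i, Polynomial.eval_one_map]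
    filter_upwards [mk_eq.1 h1] with t ht
    rw [lau, map_mul, LaurentPolynomial.eval₂_toLaurent, LaurentPolynomial.eval₂_T, one_zpow,
      Units.val_one, mul_one, Polynomial.eval₂_id, Polynomial.eval_one_map,
      RingHom.comp_apply, Pi.evalRingHom_apply, ht]
  · intro i hi
    obtain ⟨k, hk, hk2⟩ := hX2 i fun h => hi (mk_slow.1 h)
    rw [← hY i, Polynomial.coeff_map, mk_ne_zero] at hk2
    filter_upwards [hk2] with t ht hcon
    have h1 := lau_coeff e (Y i) g t hcon k hk
    exact ht ((map_eq_zero g).1 h1)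
  · intro A a ha hAd h0
    have h1 : ∑ m ∈ A, mk 𝓕 (a m) * ∏ i, mk 𝓕 (z i) ^ m i = 0 := by
      have h2 : ∑ m ∈ A, mk 𝓕 (a m) * ∏ i, mk 𝓕 (z i) ^ m i =
          mk 𝓕 (∑ m ∈ A, a m * ∏ i, z i ^ m i) := by
        rw [map_sum]
        refine Finset.sum_congr rfl fun m _ => ?_
        rw [map_mul, map_prod]
        congr 1
      rw [h2, mk_eq_zero]
      filter_upwards [h0] with t ht
      rw [← ht, Finset.sum_apply]
      refine Finset.sum_congr rfl fun m _ => ?_
      rw [Pi.mul_apply, Finset.prod_apply]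
      rfl
    have h2 := hX3 A (fun m => mk 𝓕 (a m)) (fun m hm => mk_slow.2 (ha m hm)) hAd h1
    obtain ⟨Q, hQ⟩ : ∃ Q : Polynomial (α → L), Q = ∑ m ∈ A, Polynomial.C (a m) *
        (∏ i, Y i ^ m i) * Polynomial.X ^ (e * (d - ∑ i, m i)) := ⟨_, rfl⟩
    have h3 : Q.map (mk 𝓕) = 0 := by
      rw [← h2, hQ, Polynomial.map_sum]
      refine Finset.sum_congr rfl fun m _ => ?_
      rw [Polynomial.map_mul, Polynomial.map_mul, Polynomial.map_C, Polynomial.map_prod,
        Polynomial.map_pow, Polynomial.map_X]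
      congr 2
      refine Finset.prod_congr rfl fun i _ => ?_
      rw [Polynomial.map_pow, hY]
    have h4 : ∀ᶠ t in (𝓕 : Filter α), ∀ k ∈ Q.support, Q.coeff k t = 0 := by
      rw [Filter.eventually_all_finset]
      intro k _
      have h5 := congrArg (fun p => Polynomial.coeff p k) h3
      rw [Polynomial.coeff_map, Polynomial.coeff_zero, mk_eq_zero] at h5
      exact h5
    filter_upwards [h4] with t ht
    have h5 : Q.map (g.comp (Pi.evalRingHom (fun _ => L) t)) = 0 := by
      ext k
      rw [Polynomial.coeff_map, Polynomial.coeff_zero, RingHom.comp_apply, Pi.evalRingHom_apply]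
      by_cases hk : k ∈ Q.support
      · rw [ht k hk, map_zero]
      · rw [Polynomial.notMem_support_iff.1 hk, Pi.zero_apply, map_zero]
    have h6 : (∑ m ∈ A, LaurentPolynomial.C (g (a m t)) * ∏ i, (lau e (Y i) g t) ^ m i) *
        LaurentPolynomial.T ((e * d : ℕ) : ℤ) = 0 := by
      have h7 := congrArg Polynomial.toLaurent h5
      rw [map_zero, hQ, Polynomial.map_sum, map_sum] at h7
      rw [← h7, Finset.sum_mul]
      refine Finset.sum_congr rfl fun m hm => ?_
      rw [Polynomial.map_mul, Polynomial.map_mul, Polynomial.map_C, Polynomial.map_prod,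
        Polynomial.map_pow, Polynomial.map_X, map_mul, map_mul, Polynomial.toLaurent_C,
        Polynomial.toLaurent_X_pow, map_prod]
      have h8 : ∏ i, (lau e (Y i) g t) ^ m i =
          (∏ i, Polynomial.toLaurent ((Y i ^ m i).map
            (g.comp (Pi.evalRingHom (fun _ => L) t)))) *
            LaurentPolynomial.T (-((e * ∑ i, m i : ℕ) : ℤ)) := by
        have h9 : ∀ B : Finset σ, ∏ i ∈ B, (lau e (Y i) g t) ^ m i =
            (∏ i ∈ B, Polynomial.toLaurent ((Y i ^ m i).map
              (g.comp (Pi.evalRingHom (fun _ => L) t)))) *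
              LaurentPolynomial.T (-((e * ∑ i ∈ B, m i : ℕ) : ℤ)) := by
          intro B
          induction B using Finset.induction_on with
          | empty => simp
          | insert i B hi ih =>
            rw [Finset.prod_insert hi, Finset.prod_insert hi, Finset.sum_insert hi, ih, lau,
              mul_pow, LaurentPolynomial.T_pow, Polynomial.map_pow, map_pow]
            have h10 : (-((e * (m i + ∑ i ∈ B, m i) : ℕ) : ℤ)) =
                ((m i : ℕ) : ℤ) * (-(e : ℤ)) + (-((e * ∑ i ∈ B, m i : ℕ) : ℤ)) := by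
              push_cast
              ring
            rw [h10, LaurentPolynomial.T_add]
            ring
        exact h9 Finset.univ
      rw [h8]
      have h11 : ((e * d : ℕ) : ℤ) =
          ((e * ∑ i, m i : ℕ) : ℤ) + ((e * (d - ∑ i, m i) : ℕ) : ℤ) := by
        rw [← Nat.cast_add, ← mul_add, Nat.add_sub_cancel' (hAd m hm)]
      rw [h11, LaurentPolynomial.T_add]
      have h12 : (LaurentPolynomial.T (-((e * ∑ i, m i : ℕ) : ℤ)) : LaurentPolynomial R) *
          LaurentPolynomial.T (((e * ∑ i, m i : ℕ) : ℤ)) = 1 := by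
        rw [← LaurentPolynomial.T_add, neg_add_cancel, LaurentPolynomial.T_zero]
      have h14 : LaurentPolynomial.C ((g.comp (Pi.evalRingHom (fun _ => L) t)) (a m)) =
          (LaurentPolynomial.C (g (a m t)) : LaurentPolynomial R) := rfl
      rw [h14]
      linear_combination (LaurentPolynomial.C (g (a m t)) *
        (∏ i, Polynomial.toLaurent ((Y i ^ m i).map
            (g.comp (Pi.evalRingHom (fun _ => L) t)))) *
          LaurentPolynomial.T ((e * (d - ∑ i, m i) : ℕ) : ℤ)) * h12
    have h15 : (LaurentPolynomial.T ((e * d : ℕ) : ℤ) : LaurentPolynomial R) *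
        LaurentPolynomial.T (-((e * d : ℕ) : ℤ)) = 1 := by
      rw [← LaurentPolynomial.T_add, add_neg_cancel, LaurentPolynomial.T_zero]
    have h16 := congrArg (fun p => p * (LaurentPolynomial.T (-((e * d : ℕ) : ℤ)) :
      LaurentPolynomial R)) h6
    simp only [zero_mul] at h16
    rw [mul_assoc, h15, mul_one] at h16
    exact h16

end Pool.Agent.Run7.h28.BV
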