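import Mathlib
import Pool.Agent.Run7.h28.BV.Ord
import Pool.Agent.Run7.h28.BV.Param
import Pool.Agent.Run7.h28.EC.Box

/-!
# Project BV (helper28): integral points above sparse points near a direction
-/

set_option autoImplicit false
set_option linter.unusedSectionVars false

open Filter Topology

namespace Pool.Agent.Run7.h28.BV

open NumberField IsDedekindDomain Height Module
open Pool.Agent.W180.OP (Pl av wt nrm le_nrm nrm_pos wt_nonneg exists_nrm nrm_nonneg)
open Pool.Agent.N750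
open Pool.Agent.Run7.h28.HK
open Pool.Agent.Run7.h28.EC (SubE)

/-- the polynomial at infinity is compatible with extensions of the field -/
lemma topAt_map {n : ℕ} {K L : Type} [Field K] [Field L] (ψ : K →+* L) (p : ℕ)
    (P : Polynomial (MvPolynomial (Fin n) ℤ)) (c : Fin n → K) :
    (topAt p P c).map ψ = topAt p P (fun l => ψ (c l)) := by
  unfold topAt
  rw [Polynomial.map_sum]
  refine Finset.sum_congr rfl fun j _ => ?_
  rw [Polynomial.map_mul, Polynomial.map_C, Polynomial.map_pow, Polynomial.map_X, map_sum]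
  refine congrArg (fun w => Polynomial.C w * Polynomial.X ^ j)
    (Finset.sum_congr rfl fun m _ => ?_)
  rw [map_mul, map_intCast, map_prod]
  congr 1
  refine Finset.prod_congr rfl fun l _ => ?_
  rw [map_pow]

/-- the equation `P (x, y_i) = 0` in all coordinates -/
noncomputable def eqn {n m : ℕ} (P : Polynomial (MvPolynomial (Fin n) ℤ)) (i : Fin m) :
    MvPolynomial (Fin n ⊕ Fin m) ℤ :=
  P.eval₂ (MvPolynomial.rename Sum.inl :
    MvPolynomial (Fin n) ℤ →ₐ[ℤ] MvPolynomial (Fin n ⊕ Fin m) ℤ).toRingHom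
    (MvPolynomial.X (Sum.inr i))

lemma eval_eqn {n m : ℕ} (P : Polynomial (MvPolynomial (Fin n) ℤ)) (i : Fin m)
    (z : Fin n ⊕ Fin m → ℤ) : MvPolynomial.eval z (eqn P i) =
      P.eval₂ (MvPolynomial.eval fun l => z (Sum.inl l)) (z (Sum.inr i)) := by
  unfold eqn
  rw [Polynomial.hom_eval₂, MvPolynomial.eval_X]
  congr 1
  refine RingHom.ext fun Q => ?_
  rw [RingHom.comp_apply]
  show MvPolynomial.eval z (MvPolynomial.rename Sum.inl Q) = _
  rw [MvPolynomial.eval_rename]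
  rfl

/-- from powers to logarithms -/
lemma log_step (t : ℕ) (M Cst sz D : ℝ) (hM : 1 ≤ M) (hC : 1 ≤ Cst) (hsz : 1 ≤ sz)
    (h : (Real.exp 1 * ((t : ℝ) + 1) * M) ^ (Real.exp 1 * ((t : ℝ) + 1)) < Cst * (M * sz ^ D)) :
    ((t : ℝ) + 1) * (1 + Real.log M) ≤
      (1 + Real.log Cst) * (1 + Real.log M) + D * Real.log sz := by
  have ht : (0 : ℝ) ≤ t := Nat.cast_nonneg t
  have h2 : 0 < Real.exp 1 * ((t : ℝ) + 1) * M := by positivity
  have hszD : 0 < sz ^ D := Real.rpow_pos_of_pos (by linarith) _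
  have h4 := Real.log_lt_log (Real.rpow_pos_of_pos h2 _) h
  rw [Real.log_rpow h2, Real.log_mul (by positivity) (by linarith),
    Real.log_mul (Real.exp_pos _).ne' (by positivity), Real.log_exp,
    Real.log_mul (by linarith) (by positivity), Real.log_mul (by linarith) hszD.ne',
    Real.log_rpow (by linarith)] at h4
  have h5 : 0 ≤ Real.log ((t : ℝ) + 1) := Real.log_nonneg (by linarith)
  have h6 : 0 ≤ Real.log M := Real.log_nonneg hM
  have h6' : 0 ≤ Real.log Cst := Real.log_nonneg hC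
  have h7 : (1 : ℝ) ≤ Real.exp 1 := Real.one_le_exp zero_le_one
  have h8 : ((t : ℝ) + 1) ≤ Real.exp 1 * ((t : ℝ) + 1) :=
    le_mul_of_one_le_left (by positivity) h7
  have h9 : ((t : ℝ) + 1) * (1 + Real.log M) ≤
      Real.exp 1 * ((t : ℝ) + 1) * (1 + Real.log ((t : ℝ) + 1) + Real.log M) :=
    mul_le_mul h8 (by linarith) (by linarith) (by positivity)
  have h10 : 0 ≤ Real.log Cst * Real.log M := mul_nonneg h6' h6
  nlinarith

/-- **Integral points above sparse points near a direction.** -/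
theorem main {K : Type} [Field K] [NumberField K] (φ : K →+* ℂ) (Γ : Subgroup Kˣ) (hΓ : Γ.FG)
    (n m g d k : ℕ) (p q : Fin m → ℕ) (hq : ∀ i, 0 < q i) (B δ : ℝ) (hδ : 0 < δ) :
    ∃ C : ℝ, 0 < C ∧ ∀ (M : ℝ) (G : Fin g → MvPolynomial (Fin n ⊕ Fin m) ℤ)
      (F : Fin m → Polynomial (MvPolynomial (Fin n) ℤ)) (c : Fin n → K),
      1 ≤ M → (∀ i, (G i).totalDegree ≤ d) → (∀ i s, |(((G i).coeff s : ℤ) : ℝ)| ≤ M) →
      (∀ i, Adm (p i) (q i) M (F i)) → (∀ i, eqn (F i) i ∈ Ideal.span (Set.range G)) →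
      (∀ l, mulHeight₁ (c l) ≤ M) →
      (∀ i, (topAt (p i) (F i) c).Separable) → (∀ i, (topAt (p i) (F i) c).Splits) →
      ∀ (v : Γ) (u : Fin n → Fin k → Γ) (a : Fin n → Fin k → K) (z : Fin n ⊕ Fin m → ℤ),
      (∀ i, MvPolynomial.eval z (G i) = 0) →
      (∀ l r, mulHeight₁ (a l r) ≤ M) →
      (∀ l, (z (Sum.inl l) : K) = ∑ r, a l r * ((u l r : Kˣ) : K)) →
      mulHeight₁ ((v : Kˣ) : K) ≤ M * (1 + ∑ l, |(z (Sum.inl l) : ℝ)|) ^ B →
      (∀ l, ‖φ ((z (Sum.inl l) : K) - c l * ((v : Kˣ) : K))‖ ≤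
        M * (1 + ∑ l, |(z (Sum.inl l) : ℝ)|) ^ (1 - δ)) →
      (∀ i, |(z i : ℝ)| ≤ (C * M) ^ C) ∨
      ∃ Z : Fin n ⊕ Fin m → LaurentPolynomial ℂ,
        (∃ l, ¬ ∃ c, Z (Sum.inl l) = LaurentPolynomial.C c) ∧
        (∀ i, LaurentPolynomial.eval₂ (RingHom.id ℂ) 1 (Z i) = z i) ∧
        ∀ i, MvPolynomial.aeval Z (G i) = 0 := by
  classical
  by_contra hcon
  push Not at hcon
  choose M G F c hM hGd hGb hF hFI hc hsep hspl v u a z hz ha hx hv hgap hbig hno using
    fun t : ℕ => hcon (Real.exp 1 * ((t : ℝ) + 1)) (by positivity)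
  -- the size of the point
  obtain ⟨sz, hsz⟩ : ∃ sz : ℕ → ℝ, sz = fun t => 1 + ∑ l, |(z t (Sum.inl l) : ℝ)| := ⟨_, rfl⟩
  have hsz1 : ∀ t, 1 ≤ sz t := fun t => by
    rw [hsz]
    have : 0 ≤ ∑ l, |(z t (Sum.inl l) : ℝ)| := Finset.sum_nonneg fun _ _ => abs_nonneg _
    linarith
  have hxsz : ∀ t l, |(z t (Sum.inl l) : ℝ)| ≤ sz t := fun t l => by
    rw [hsz]
    have h1 := Finset.single_le_sum (f := fun l => |(z t (Sum.inl l) : ℝ)|)
      (fun _ _ => abs_nonneg _) (Finset.mem_univ l)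
    have h2 : |(z t (Sum.inl l) : ℝ)| ≤ ∑ l, |(z t (Sum.inl l) : ℝ)| := h1
    linarith
  obtain ⟨H, hHdef⟩ : ∃ H : ℕ → ℝ, H = fun t => Real.log (sz t) := ⟨_, rfl⟩
  have hH0 : ∀ t, 0 ≤ H t := fun t => by rw [hHdef]; exact Real.log_nonneg (hsz1 t)
  have hexp : ∀ t, Real.exp (H t) = sz t := fun t => by
    rw [hHdef]
    exact Real.exp_log (by linarith [hsz1 t])
  have hzero : ∀ t i, (F t i).eval₂ (MvPolynomial.eval fun l => z t (Sum.inl l))
      (z t (Sum.inr i)) = 0 := by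
    intro t i
    rw [← eval_eqn]
    have h1 : Ideal.span (Set.range (G t)) ≤ RingHom.ker (MvPolynomial.eval (z t)) := by
      rw [Ideal.span_le]
      rintro _ ⟨j, rfl⟩
      exact hz t j
    exact h1 (hFI t i)
  -- all coordinates are bounded in terms of the size
  obtain ⟨Cst, hCst⟩ : ∃ Cst : ℝ, Cst = 1 + ∑ i, ((q i : ℝ) * (expo (Fin n) (p i)).card) :=
    ⟨_, rfl⟩
  obtain ⟨D, hD⟩ : ∃ D : ℝ, D = 1 + ∑ i, (p i : ℝ) := ⟨_, rfl⟩
  have hCst1 : 1 ≤ Cst := by
    rw [hCst]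
    have : 0 ≤ ∑ i, ((q i : ℝ) * (expo (Fin n) (p i)).card) :=
      Finset.sum_nonneg fun _ _ => by positivity
    linarith
  have hD1 : 1 ≤ D := by
    rw [hD]
    have : 0 ≤ ∑ i, (p i : ℝ) := Finset.sum_nonneg fun _ _ => by positivity
    linarith
  have hord : ∀ t i, |(z t i : ℝ)| ≤ Cst * (M t * sz t ^ D) := by
    intro t i
    have hMt := hM t
    have hs := hsz1 t
    rcases i with l | i
    · calc |(z t (Sum.inl l) : ℝ)| ≤ sz t := hxsz t l
        _ = sz t ^ (1 : ℝ) := (Real.rpow_one _).symm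
        _ ≤ sz t ^ D := Real.rpow_le_rpow_of_exponent_le hs hD1
        _ ≤ M t * sz t ^ D := le_mul_of_one_le_left (by positivity) hMt
        _ ≤ Cst * (M t * sz t ^ D) := le_mul_of_one_le_left (by positivity) hCst1
    · refine ((hF t i).ord_le (hq i) hMt (fun l => z t (Sum.inl l)) (z t (Sum.inr i)) (sz t) hs
        (hxsz t) (hzero t i)).trans ?_
      refine mul_le_mul ?_ (mul_le_mul_of_nonneg_left ?_ (by linarith)) (by positivity)
        (by linarith)
      · have h1 := Finset.single_le_sum (f := fun i => ((q i : ℝ) * (expo (Fin n) (p i)).card))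
          (fun _ _ => by positivity) (Finset.mem_univ i)
        have h2 : (q i : ℝ) * (expo (Fin n) (p i)).card ≤
          ∑ i, ((q i : ℝ) * (expo (Fin n) (p i)).card) := h1
        linarith
      · rw [← Real.rpow_natCast]
        refine Real.rpow_le_rpow_of_exponent_le hs ?_
        have h1 := Finset.single_le_sum (f := fun i => (p i : ℝ))
          (fun _ _ => by positivity) (Finset.mem_univ i)
        have h2 : (p i : ℝ) ≤ ∑ i, (p i : ℝ) := h1
        linarith
  have hlog : ∀ t : ℕ, ((t : ℝ) + 1) * (1 + Real.log (M t)) ≤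
      (1 + Real.log Cst) * (1 + Real.log (M t)) + D * H t := by
    intro t
    obtain ⟨i, hi⟩ := hbig t
    rw [hHdef]
    exact log_step t (M t) Cst (sz t) D (hM t) hCst1 (hsz1 t) (hi.trans_le (hord t i))
  have hlM : ∀ t, 0 ≤ Real.log (M t) := fun t => Real.log_nonneg (hM t)
  have hlog2 : ∀ᶠ t : ℕ in atTop, ((t : ℝ) + 1) / 2 * (1 + Real.log (M t)) ≤ D * H t := by
    filter_upwards [tendsto_natCast_atTop_atTop.eventually_ge_atTop (2 * (1 + Real.log Cst))]
      with t ht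
    have h1 := hlog t
    have h2 : (1 + Real.log Cst) * (1 + Real.log (M t)) ≤
        ((t : ℝ) + 1) / 2 * (1 + Real.log (M t)) :=
      mul_le_mul_of_nonneg_right (by linarith) (by linarith [hlM t])
    linarith
  have hHtop : Tendsto H atTop atTop := by
    rw [tendsto_atTop]
    intro b
    filter_upwards [hlog2, tendsto_natCast_atTop_atTop.eventually_ge_atTop (2 * (D * |b|))]
      with t h1 h2
    have h3 : ((t : ℝ) + 1) / 2 * 1 ≤ ((t : ℝ) + 1) / 2 * (1 + Real.log (M t)) :=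
      mul_le_mul_of_nonneg_left (by linarith [hlM t]) (by positivity)
    have h4 : D * |b| ≤ D * H t := by linarith
    exact (le_abs_self b).trans (le_of_mul_le_mul_left h4 (by linarith))
  have hnegt : ∀ ε' : ℝ, 0 < ε' → ∀ᶠ t : ℕ in atTop, 1 + Real.log (M t) ≤ ε' * H t := by
    intro ε' hε'
    filter_upwards [hlog2, tendsto_natCast_atTop_atTop.eventually_ge_atTop (2 * (D / ε'))]
      with t h1 h2
    have h3 : D / ε' * (1 + Real.log (M t)) ≤ ((t : ℝ) + 1) / 2 * (1 + Real.log (M t)) :=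
      mul_le_mul_of_nonneg_right (by linarith) (by linarith [hlM t])
    have h4 : D / ε' * (1 + Real.log (M t)) ≤ D * H t := h3.trans h1
    have h5 : D * (1 + Real.log (M t)) ≤ D * (ε' * H t) := by
      have h6 := mul_le_mul_of_nonneg_left h4 hε'.le
      have h7 : ε' * (D / ε' * (1 + Real.log (M t))) = D * (1 + Real.log (M t)) := by
        field_simp
      rw [h7] at h6
      linarith
    exact le_of_mul_le_mul_left h5 (by linarith)
  obtain ⟨𝓕, h𝓕⟩ : ∃ 𝓕 : Ultrafilter ℕ, (𝓕 : Filter ℕ) ≤ atTop :=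
    ⟨Filter.hyperfilter ℕ, Nat.hyperfilter_le_atTop⟩
  have hH := hHtop.mono_left h𝓕
  have hneg : ∀ ε' : ℝ, 0 < ε' → ∀ᶠ t in (𝓕 : Filter ℕ), 1 + Real.log (M t) ≤ ε' * H t :=
    fun ε' hε' => (hnegt ε' hε').filter_mono h𝓕
  -- the field
  obtain ⟨qh, hqh⟩ : ∃ qh : ℕ, qh = ∏ i, q i := ⟨_, rfl⟩
  have hqh0 : 0 < qh := by rw [hqh]; exact Finset.prod_pos fun i _ => hq i
  have hsi : ∀ i, ∃ s, 0 < s ∧ qh = s * q i := by
    intro i
    obtain ⟨s, hs⟩ := Finset.dvd_prod_of_mem q (Finset.mem_univ i)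
    rw [← hqh] at hs
    refine ⟨s, Nat.pos_of_ne_zero fun h => ?_, by rw [hs, mul_comm]⟩
    rw [h, mul_zero] at hs
    omega
  choose s hs0 hs using hsi
  obtain ⟨T, hT⟩ := hΓ
  obtain ⟨L, hfd, hgal, -, ψ, hψ, hroot⟩ := exists_L φ T qh hqh0
  have hNF : NumberField L := ⟨⟩
  obtain ⟨Δ, hΔ, hΔσ, hpow⟩ := exists_Gal ψ T qh hroot
  rw [hT] at hpow
  obtain ⟨S, hS, hΔS⟩ := exists_S Δ hΔ
  obtain ⟨dd, hdd, -, hdh⟩ := ht_hom ψ
  choose V hV1 hV2 using fun t => hpow _ (v t).2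
  choose W hW1 hW2 using fun t l r => hpow _ (u t l r).2
  have hV3 : ∀ t, (V t : L) ^ qh = ψ ((v t : Kˣ) : K) := fun t => by
    have h1 := congrArg Units.val (hV2 t)
    rw [Units.val_pow_eq_pow_val] at h1
    exact h1
  obtain ⟨v0, hv0⟩ : ∃ v0 : InfinitePlace L, v0 = InfinitePlace.mk (L.val : L →+* ℂ) := ⟨_, rfl⟩
  have hslowh : ∀ b : ℕ → K, (∀ t, mulHeight₁ (b t) ≤ M t) → Slow 𝓕 H (fun t => ψ (b t)) :=
    fun b hb => slow_of_log hM hneg hdd.le fun t => by
      rw [hdh]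
      refine mul_le_mul_of_nonneg_left ?_ hdd.le
      rw [logHeight₁_eq_log_mulHeight₁]
      have h1 := Real.log_le_log (mulHeight₁_pos (b t)) (hb t)
      linarith
  have hcs : ∀ l, Slow 𝓕 H (fun t => ψ (c t l)) := fun l => hslowh _ fun t => hc t l
  have hxm : ∀ l, Mdr 𝓕 H (fun t => (z t (Sum.inl l) : L)) := fun l =>
    mdr_int hH0 fun t => by rw [hexp]; exact hxsz t l
  have hym : ∀ i, Mdr 𝓕 H (fun t => (z t i : L)) := by
    intro i
    refine ⟨finrank ℚ L * (D + 2), ?_⟩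
    filter_upwards [hneg 1 one_pos, hH_le hH (Real.log Cst)] with t h1 h2
    refine (ht_int _).trans ?_
    rw [mul_assoc]
    refine mul_le_mul_of_nonneg_left ?_ (Nat.cast_nonneg _)
    have hMt := hM t
    have hst := hsz1 t
    have h3 : 1 ≤ Cst * (M t * sz t ^ D) := one_le_mul_of_one_le_of_one_le hCst1
      (one_le_mul_of_one_le_of_one_le hMt (Real.one_le_rpow hst (by linarith)))
    have h4 := Real.log_le_log (by positivity) (max_le h3 (hord t i))
    rw [Real.log_mul (by linarith) (by positivity), Real.log_mul (by linarith) (by positivity),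
      Real.log_rpow (by linarith)] at h4
    have h5 : Real.log (sz t) = H t := by rw [hHdef]
    rw [h5] at h4
    linarith
  have hxsp : ∀ l, Sp (slowF 𝓕 L H hH) (PG 𝓕 H Δ) (mk 𝓕 (fun t => (z t (Sum.inl l) : L))) := by
    intro l
    refine EC.hb_pg hH S hS Δ hΔS (k := k) (fun r t => ψ (a t l r)) (fun r t => W t l r ^ qh) _
      (hxm l) (fun r => hslowh _ fun t => ha t l r) (fun r t => Δ.pow_mem (hW1 t l r) _)
      (Eventually.of_forall fun t => ?_)
    have h1 := congrArg ψ (hx t l)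
    rw [map_intCast, map_sum] at h1
    show ((z t (Sum.inl l) : ℤ) : L) = _
    rw [h1]
    refine Finset.sum_congr rfl fun r _ => ?_
    rw [map_mul]
    congr 1
    exact congrArg Units.val (hW2 t l r).symm
  -- the leading term
  have hVm : Mdr 𝓕 H (fun t => (V t : L)) := by
    refine ⟨dd * (1 + |B|), ?_⟩
    filter_upwards [hneg 1 one_pos] with t h1
    have h3 : logHeight₁ (V t : L) ≤ logHeight₁ ((V t : L) ^ qh) := by
      rw [logHeight₁_pow]
      have h4 := zero_le_logHeight₁ (V t : L)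
      have h5 : (1 : ℝ) ≤ qh := by exact_mod_cast hqh0
      exact le_mul_of_one_le_left h4 h5
    refine h3.trans ?_
    rw [hV3, hdh, mul_assoc]
    refine mul_le_mul_of_nonneg_left ?_ hdd.le
    rw [logHeight₁_eq_log_mulHeight₁]
    have hst := hsz1 t
    have h4 := Real.log_le_log (mulHeight₁_pos _) (hv t)
    have h5 : (1 + ∑ l, |(z t (Sum.inl l) : ℝ)|) = sz t := by rw [hsz]
    rw [h5, Real.log_mul (by linarith [hM t]) (by positivity), Real.log_rpow (by linarith)] at h4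
    have h6 : Real.log (sz t) = H t := by rw [hHdef]
    rw [h6] at h4
    have h7 : B * H t ≤ |B| * H t := mul_le_mul_of_nonneg_right (le_abs_self B) (hH0 t)
    linarith
  -- the gap
  have hgap' : ∀ l t, av (Sum.inl v0 : Pl L)
      ((z t (Sum.inl l) : L) - ψ (c t l) * ψ ((v t : Kˣ) : K)) ≤
      M t * (1 + ∑ l, |(z t (Sum.inl l) : ℝ)|) ^ (1 - δ) := by
    intro l t
    refine le_trans (le_of_eq ?_) (hgap t l)
    have h5 : (z t (Sum.inl l) : L) - ψ (c t l) * ψ ((v t : Kˣ) : K) =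
        ψ ((z t (Sum.inl l) : K) - c t l * ((v t : Kˣ) : K)) := by
      rw [map_sub, map_mul, map_intCast]
    rw [h5, hv0]
    show ‖((ψ ((z t (Sum.inl l) : K) - c t l * ((v t : Kˣ) : K)) : L) : ℂ)‖ = _
    rw [hψ]
  obtain ⟨⟨c', hc', hlow⟩, hclose⟩ := gap hH v0 (fun l t => z t (Sum.inl l))
    (fun l t => ψ (c t l)) hcs (fun t => ψ ((v t : Kˣ) : K)) M hM hneg
    (fun t => by rw [hexp, hsz]) δ hδ hgap'
  have hVs : Sm 𝓕 H (Sum.inl v0 : Pl L) (fun t => (V t : L)⁻¹) := by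
    have hqh' : (0 : ℝ) < qh := by exact_mod_cast hqh0
    refine ⟨c' / qh, by positivity, ?_⟩
    filter_upwards [hlow] with t ht
    have hV0 : (V t : L) ≠ 0 := (V t).ne_zero
    have hVpos : 0 < av (Sum.inl v0 : Pl L) (V t : L) := (av _).pos_iff.2 hV0
    rw [map_inv₀, ← Real.exp_log (inv_pos.2 hVpos)]
    refine Real.exp_le_exp.2 ?_
    rw [Real.log_inv]
    rw [← hV3, map_pow] at ht
    have h1 := Real.log_le_log (Real.exp_pos _) ht
    rw [Real.log_exp, Real.log_pow] at h1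
    have h2 : c' / qh * H t ≤ Real.log (av (Sum.inl v0 : Pl L) (V t : L)) := by
      have h3 : c' / qh * H t = c' * H t / qh := by ring
      rw [h3, div_le_iff₀ hqh']
      linarith
    linarith
  -- the integral coordinates
  have hysp : ∀ i, Sp (slowF 𝓕 L H hH) (PU 𝓕 H S)
      (mk 𝓕 (fun t => (z t (Sum.inr i) : L))) := by
    intro i
    refine ord_sp hH Δ hΔσ S hS hΔS v0 (hq i) (hs0 i) M hM hneg (fun t => F t i)
      (fun t => hF t i) (fun l t => ψ (c t l)) hcs ?_ ?_ V hV1 hVm hVs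
      (fun l t => z t (Sum.inl l)) hxsp ?_ (fun t => z t (Sum.inr i)) (hym _)
      (fun t => hzero t i)
    · intro t
      rw [← topAt_map ψ]
      exact (hsep t i).map
    · intro t
      rw [← topAt_map ψ]
      exact (hspl t i).map ψ
    · intro l
      have h1 := hclose l
      rw [← hs i]
      simpa only [hV3] using h1
  have hzsp : ∀ i, Sp (slowF 𝓕 L H hH) (PU 𝓕 H S) (mk 𝓕 (fun t => (z t i : L))) := by
    intro i
    rcases i with l | i
    · exact Sp.mono (PG.toPU hΔS) (hxsp l)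
    · exact hysp i
  -- the parametrisation
  obtain ⟨Z, hZ1, hZ2, hZ3⟩ := param hH S hS (σ := Fin n ⊕ Fin m) (fun i t => (z t i : L)) hzsp
    (d + 1) (by omega) ℂ (L.val : L →+* ℂ)
  have hns : ∃ l, ¬ Slow 𝓕 H (fun t => (z t (Sum.inl l) : L)) := by
    by_contra hcon
    push Not at hcon
    have h1 : SubE 𝓕 H (fun t => 1 + ∑ l, av (Sum.inl v0 : Pl L) (z t (Sum.inl l) : L)) :=
      (SubE.const hH zero_le_one).add hH (SubE.sum hH _ _ fun l _ => SubE.slow (hcon l) _)
    obtain ⟨t, h2, h3⟩ := ((h1.2 (1 / 2) (by norm_num)).and (hH_le hH 1)).exists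
    simp only [av_inf] at h2
    have h4 : (1 + ∑ l, |(z t (Sum.inl l) : ℝ)|) = Real.exp (H t) := by rw [hexp, hsz]
    rw [h4] at h2
    have h5 := Real.exp_le_exp.1 h2
    linarith
  obtain ⟨l0, hl0⟩ := hns
  have hz3 : ∀ j, ∀ᶠ t in (𝓕 : Filter ℕ), ∑ e ∈ expo (Fin n ⊕ Fin m) d,
      LaurentPolynomial.C ((L.val : L →+* ℂ) (((G t j).coeff e : ℤ) : L)) *
        ∏ i, Z i t ^ e i = 0 := by
    intro j
    refine hZ3 (expo (Fin n ⊕ Fin m) d) (fun e t => (((G t j).coeff e : ℤ) : L))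
      (fun e _ => slow_int hM hneg _ fun t => hGb t j e) (fun e he => ?_)
      (Eventually.of_forall fun t => ?_)
    · have h1 := mem_expo.1 he
      omega
    · have h1 := hz t j
      rw [← aeval_expo (G t j) (hGd t j), cast_eval, h1, Int.cast_zero]
  obtain ⟨t, h1, h2, h3⟩ := ((eventually_all.2 hZ1).and
    ((hZ2 (Sum.inl l0) hl0).and (eventually_all.2 hz3))).exists
  refine hno t (fun i => Z i t) ⟨l0, fun c hc => h2 ⟨c, hc⟩⟩ (fun i => ?_) |>.elim fun j hj => hj ?_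
  · rw [h1 i]
    show (L.val : L →+* ℂ) ((z t i : ℤ) : L) = _
    rw [map_intCast]
  · rw [aeval_expo (G t j) (hGd t j), ← h3 j]
    refine Finset.sum_congr rfl fun e _ => ?_
    rw [map_intCast, map_intCast]

end Pool.Agent.Run7.h28.BV
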