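import Mathlib
import Pool.Agent.Run7.h28.BV.Main
import Pool.Agent.Run7.h28.BV.ParamP

/-!
# Project BV (helper28): rational points above sparse points near a direction
-/

set_option autoImplicit false
set_option linter.unusedSectionVars false

open Filter Topology

namespace Pool.Agent.Run7.h28.BV

open NumberField IsDedekindDomain Height Module
open Pool.Agent.W180.OP (Pl av wt nrm le_nrm nrm_pos wt_nonneg exists_nrm nrm_nonneg)
open Pool.Agent.N750
open Pool.Agent.Run7.h28.HK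
open Pool.Agent.Run7.h28.EC (SubE)

/-- the height of a point with coprime integer coordinates -/
lemma coprime_height {L : Type} [Field L] [NumberField L] {n : ℕ} (x : Fin n → ℤ)
    (hx : ∃ a : Fin n → ℤ, ∑ l, a l * x l = 1) (l0 : Fin n) (hl0 : x l0 ≠ 0) :
    Real.log |(x l0 : ℝ)| ≤ ∑ l, logHeight₁ ((x l : L) / (x l0 : L)) := by
  classical
  have hl0' : (x l0 : L) ≠ 0 := by exact_mod_cast hl0
  have hx0 : (fun l => (x l : L)) ≠ 0 := fun h => hl0' (congrFun h l0)
  -- the finite places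
  have hfin : ∀ v : HeightOneSpectrum (𝓞 L),
      nrm (Pool.Agent.W180.OP.fv v) (fun l => (x l : L)) = 1 := by
    intro v
    show nrm (av (Sum.inr v : Pl L)) (fun l => (x l : L)) = 1
    refine le_antisymm ?_ ?_
    · obtain ⟨j, hj⟩ := exists_nrm (av (Sum.inr v : Pl L)) (show 0 < n from l0.pos)
        (fun l => (x l : L))
      rw [← hj]
      exact av_int v _
    · obtain ⟨a, ha⟩ := hx
      have h1 : ∑ l, (a l : L) * (x l : L) = 1 := by exact_mod_cast congrArg (Int.cast : ℤ → L) ha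
      have h2 := av_sum (Sum.inr v : Pl L) Finset.univ (fun l => (a l : L) * (x l : L))
        (nrm (av (Sum.inr v : Pl L)) (fun l => (x l : L))) (nrm_nonneg _ _) (fun l _ => by
          rw [map_mul]
          calc av (Sum.inr v : Pl L) (a l : L) * av (Sum.inr v : Pl L) (x l : L) ≤
              1 * nrm (av (Sum.inr v : Pl L)) (fun l => (x l : L)) :=
                mul_le_mul (av_int v _) (le_nrm (av (Sum.inr v : Pl L)) (fun l => (x l : L)) l)
                  ((av _).nonneg _) zero_le_one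
            _ = _ := one_mul _) (Finset.univ.card : ℝ) le_rfl
      rw [h1, map_one] at h2
      have h3 : N750.cst ((Finset.univ : Finset (Fin n)).card : ℝ) (Sum.inr v : Pl L) = 1 := rfl
      rwa [h3, one_mul] at h2
  have h1 := Pool.Agent.R405.logHeight_sum (fun l => (x l : L)) hx0 ∅ fun v _ => hfin v
  rw [Finset.sum_empty, add_zero] at h1
  obtain ⟨w0⟩ : Nonempty (InfinitePlace L) := inferInstance
  have h2 : ∀ w : InfinitePlace L, Real.log |(x l0 : ℝ)| ≤
      Real.log (nrm w.1 (fun l => (x l : L))) := by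
    intro w
    refine Real.log_le_log (abs_pos.2 (by exact_mod_cast hl0)) ?_
    have h3 := le_nrm w.1 (fun l => (x l : L)) l0
    have h4 : w.1 (x l0 : L) = |(x l0 : ℝ)| := av_inf w (x l0)
    rwa [h4] at h3
  have h1x : (1 : ℝ) ≤ |(x l0 : ℝ)| := by
    have : (1 : ℤ) ≤ |x l0| := Int.one_le_abs hl0
    exact_mod_cast this
  have h0 : 0 ≤ Real.log |(x l0 : ℝ)| := Real.log_nonneg h1x
  have h3 : Real.log |(x l0 : ℝ)| ≤ logHeight (fun l => (x l : L)) := by
    rw [h1]
    calc Real.log |(x l0 : ℝ)| ≤ (w0.mult : ℝ) * Real.log (nrm w0.1 (fun l => (x l : L))) := by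
          have h4 : (1 : ℝ) ≤ w0.mult := by exact_mod_cast w0.mult_pos
          have h5 := h2 w0
          nlinarith
      _ ≤ _ := Finset.single_le_sum (f := fun w : InfinitePlace L =>
          (w.mult : ℝ) * Real.log (nrm w.1 (fun l => (x l : L))))
          (fun w _ => mul_nonneg (Nat.cast_nonneg _) (h0.trans (h2 w))) (Finset.mem_univ w0)
  have h4 : logHeight (fun l => (x l : L)) = logHeight (fun l => (x l : L) / (x l0 : L)) := by
    rw [← Height.logHeight_smul_eq_logHeight (fun l => (x l : L)) (inv_ne_zero hl0')]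
    congr 1
    funext l
    rw [Pi.smul_apply, smul_eq_mul, div_eq_mul_inv, mul_comm]
  rw [h4] at h3
  exact h3.trans (logHeight_le_sum _)

/-- **Rational points above sparse points near a direction.** -/
theorem mainP {K : Type} [Field K] [NumberField K] (φ : K →+* ℂ) (Γ : Subgroup Kˣ) (hΓ : Γ.FG)
    (n m g d k : ℕ) (p q : Fin m → ℕ) (hq : ∀ i, 0 < q i) (B δ : ℝ) (hδ : 0 < δ) :
    ∃ C : ℝ, 0 < C ∧ ∀ (M : ℝ) (G : Fin g → MvPolynomial (Fin n ⊕ Fin m) ℤ)
      (F : Fin m → Polynomial (MvPolynomial (Fin n) ℤ)) (c : Fin n → K),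
      1 ≤ M → (∀ i, (G i).totalDegree ≤ d) → (∀ i s, |(((G i).coeff s : ℤ) : ℝ)| ≤ M) →
      (∀ i, Adm (p i) (q i) M (F i)) → (∀ i, eqn (F i) i ∈ Ideal.span (Set.range G)) →
      (∀ l, mulHeight₁ (c l) ≤ M) →
      (∀ i, (topAt (p i) (F i) c).Separable) → (∀ i, (topAt (p i) (F i) c).Splits) →
      ∀ (v : Γ) (u : Fin n → Fin k → Γ) (a : Fin n → Fin k → K) (z : Fin n ⊕ Fin m → ℤ),
      (∀ i, MvPolynomial.eval z (G i) = 0) →
      (∃ b : Fin n → ℤ, ∑ l, b l * z (Sum.inl l) = 1) →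
      (∀ l r, mulHeight₁ (a l r) ≤ M) →
      (∀ l, (z (Sum.inl l) : K) = ∑ r, a l r * ((u l r : Kˣ) : K)) →
      mulHeight₁ ((v : Kˣ) : K) ≤ M * (1 + ∑ l, |(z (Sum.inl l) : ℝ)|) ^ B →
      (∀ l, ‖φ ((z (Sum.inl l) : K) - c l * ((v : Kˣ) : K))‖ ≤
        M * (1 + ∑ l, |(z (Sum.inl l) : ℝ)|) ^ (1 - δ)) →
      (∀ i, |(z i : ℝ)| ≤ (C * M) ^ C) ∨
      ∃ Z : Fin n ⊕ Fin m → LaurentPolynomial ℂ,
        (∃ i j, Z i * LaurentPolynomial.C (z j : ℂ) ≠ Z j * LaurentPolynomial.C (z i : ℂ)) ∧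
        (∀ i, LaurentPolynomial.eval₂ (RingHom.id ℂ) 1 (Z i) = z i) ∧
        ∀ i, MvPolynomial.aeval Z (G i) = 0 := by
  classical
  by_contra hcon
  push Not at hcon
  choose M G F c hM hGd hGb hF hFI hc hsep hspl v u a z hz hcop ha hx hv hgap hbig hno using
    fun t : ℕ => hcon (Real.exp 1 * ((t : ℝ) + 1)) (by positivity)
  -- the size of the point
  obtain ⟨sz, hsz⟩ : ∃ sz : ℕ → ℝ, sz = fun t => 1 + ∑ l, |(z t (Sum.inl l) : ℝ)| := ⟨_, rfl⟩
  have hsz1 : ∀ t, 1 ≤ sz t := fun t => by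
    rw [hsz]
    have : 0 ≤ ∑ l, |(z t (Sum.inl l) : ℝ)| := Finset.sum_nonneg fun _ _ => abs_nonneg _
    linarith
  have hxsz : ∀ t l, |(z t (Sum.inl l) : ℝ)| ≤ sz t := fun t l => by
    rw [hsz]
    have h1 := Finset.single_le_sum (f := fun l => |(z t (Sum.inl l) : ℝ)|)
      (fun _ _ => abs_nonneg _) (Finset.mem_univ l)
    have h2 : |(z t (Sum.inl l) : ℝ)| ≤ ∑ l, |(z t (Sum.inl l) : ℝ)| := h1
    linarith
  obtain ⟨H, hHdef⟩ : ∃ H : ℕ → ℝ, H = fun t => Real.log (sz t) := ⟨_, rfl⟩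
  have hH0 : ∀ t, 0 ≤ H t := fun t => by rw [hHdef]; exact Real.log_nonneg (hsz1 t)
  have hexp : ∀ t, Real.exp (H t) = sz t := fun t => by
    rw [hHdef]
    exact Real.exp_log (by linarith [hsz1 t])
  have hzero : ∀ t i, (F t i).eval₂ (MvPolynomial.eval fun l => z t (Sum.inl l))
      (z t (Sum.inr i)) = 0 := by
    intro t i
    rw [← eval_eqn]
    have h1 : Ideal.span (Set.range (G t)) ≤ RingHom.ker (MvPolynomial.eval (z t)) := by
      rw [Ideal.span_le]
      rintro _ ⟨j, rfl⟩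
      exact hz t j
    exact h1 (hFI t i)
  -- all coordinates are bounded in terms of the size
  obtain ⟨Cst, hCst⟩ : ∃ Cst : ℝ, Cst = 1 + ∑ i, ((q i : ℝ) * (expo (Fin n) (p i)).card) :=
    ⟨_, rfl⟩
  obtain ⟨D, hD⟩ : ∃ D : ℝ, D = 1 + ∑ i, (p i : ℝ) := ⟨_, rfl⟩
  have hCst1 : 1 ≤ Cst := by
    rw [hCst]
    have : 0 ≤ ∑ i, ((q i : ℝ) * (expo (Fin n) (p i)).card) :=
      Finset.sum_nonneg fun _ _ => by positivity
    linarith
  have hD1 : 1 ≤ D := by
    rw [hD]
    have : 0 ≤ ∑ i, (p i : ℝ) := Finset.sum_nonneg fun _ _ => by positivity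
    linarith
  have hord : ∀ t i, |(z t i : ℝ)| ≤ Cst * (M t * sz t ^ D) := by
    intro t i
    have hMt := hM t
    have hs := hsz1 t
    rcases i with l | i
    · calc |(z t (Sum.inl l) : ℝ)| ≤ sz t := hxsz t l
        _ = sz t ^ (1 : ℝ) := (Real.rpow_one _).symm
        _ ≤ sz t ^ D := Real.rpow_le_rpow_of_exponent_le hs hD1
        _ ≤ M t * sz t ^ D := le_mul_of_one_le_left (by positivity) hMt
        _ ≤ Cst * (M t * sz t ^ D) := le_mul_of_one_le_left (by positivity) hCst1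
    · refine ((hF t i).ord_le (hq i) hMt (fun l => z t (Sum.inl l)) (z t (Sum.inr i)) (sz t) hs
        (hxsz t) (hzero t i)).trans ?_
      refine mul_le_mul ?_ (mul_le_mul_of_nonneg_left ?_ (by linarith)) (by positivity)
        (by linarith)
      · have h1 := Finset.single_le_sum (f := fun i => ((q i : ℝ) * (expo (Fin n) (p i)).card))
          (fun _ _ => by positivity) (Finset.mem_univ i)
        have h2 : (q i : ℝ) * (expo (Fin n) (p i)).card ≤
          ∑ i, ((q i : ℝ) * (expo (Fin n) (p i)).card) := h1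
        linarith
      · rw [← Real.rpow_natCast]
        refine Real.rpow_le_rpow_of_exponent_le hs ?_
        have h1 := Finset.single_le_sum (f := fun i => (p i : ℝ))
          (fun _ _ => by positivity) (Finset.mem_univ i)
        have h2 : (p i : ℝ) ≤ ∑ i, (p i : ℝ) := h1
        linarith
  have hlog : ∀ t : ℕ, ((t : ℝ) + 1) * (1 + Real.log (M t)) ≤
      (1 + Real.log Cst) * (1 + Real.log (M t)) + D * H t := by
    intro t
    obtain ⟨i, hi⟩ := hbig t
    rw [hHdef]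
    exact log_step t (M t) Cst (sz t) D (hM t) hCst1 (hsz1 t) (hi.trans_le (hord t i))
  have hlM : ∀ t, 0 ≤ Real.log (M t) := fun t => Real.log_nonneg (hM t)
  have hlog2 : ∀ᶠ t : ℕ in atTop, ((t : ℝ) + 1) / 2 * (1 + Real.log (M t)) ≤ D * H t := by
    filter_upwards [tendsto_natCast_atTop_atTop.eventually_ge_atTop (2 * (1 + Real.log Cst))]
      with t ht
    have h1 := hlog t
    have h2 : (1 + Real.log Cst) * (1 + Real.log (M t)) ≤
        ((t : ℝ) + 1) / 2 * (1 + Real.log (M t)) :=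
      mul_le_mul_of_nonneg_right (by linarith) (by linarith [hlM t])
    linarith
  have hHtop : Tendsto H atTop atTop := by
    rw [tendsto_atTop]
    intro b
    filter_upwards [hlog2, tendsto_natCast_atTop_atTop.eventually_ge_atTop (2 * (D * |b|))]
      with t h1 h2
    have h3 : ((t : ℝ) + 1) / 2 * 1 ≤ ((t : ℝ) + 1) / 2 * (1 + Real.log (M t)) :=
      mul_le_mul_of_nonneg_left (by linarith [hlM t]) (by positivity)
    have h4 : D * |b| ≤ D * H t := by linarith
    exact (le_abs_self b).trans (le_of_mul_le_mul_left h4 (by linarith))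
  have hnegt : ∀ ε' : ℝ, 0 < ε' → ∀ᶠ t : ℕ in atTop, 1 + Real.log (M t) ≤ ε' * H t := by
    intro ε' hε'
    filter_upwards [hlog2, tendsto_natCast_atTop_atTop.eventually_ge_atTop (2 * (D / ε'))]
      with t h1 h2
    have h3 : D / ε' * (1 + Real.log (M t)) ≤ ((t : ℝ) + 1) / 2 * (1 + Real.log (M t)) :=
      mul_le_mul_of_nonneg_right (by linarith) (by linarith [hlM t])
    have h4 : D / ε' * (1 + Real.log (M t)) ≤ D * H t := h3.trans h1
    have h5 : D * (1 + Real.log (M t)) ≤ D * (ε' * H t) := by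
      have h6 := mul_le_mul_of_nonneg_left h4 hε'.le
      have h7 : ε' * (D / ε' * (1 + Real.log (M t))) = D * (1 + Real.log (M t)) := by
        field_simp
      rw [h7] at h6
      linarith
    exact le_of_mul_le_mul_left h5 (by linarith)
  obtain ⟨𝓕, h𝓕⟩ : ∃ 𝓕 : Ultrafilter ℕ, (𝓕 : Filter ℕ) ≤ atTop :=
    ⟨Filter.hyperfilter ℕ, Nat.hyperfilter_le_atTop⟩
  have hH := hHtop.mono_left h𝓕
  have hneg : ∀ ε' : ℝ, 0 < ε' → ∀ᶠ t in (𝓕 : Filter ℕ), 1 + Real.log (M t) ≤ ε' * H t :=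
    fun ε' hε' => (hnegt ε' hε').filter_mono h𝓕
  -- the field
  obtain ⟨qh, hqh⟩ : ∃ qh : ℕ, qh = ∏ i, q i := ⟨_, rfl⟩
  have hqh0 : 0 < qh := by rw [hqh]; exact Finset.prod_pos fun i _ => hq i
  have hsi : ∀ i, ∃ s, 0 < s ∧ qh = s * q i := by
    intro i
    obtain ⟨s, hs⟩ := Finset.dvd_prod_of_mem q (Finset.mem_univ i)
    rw [← hqh] at hs
    refine ⟨s, Nat.pos_of_ne_zero fun h => ?_, by rw [hs, mul_comm]⟩
    rw [h, mul_zero] at hs
    omega
  choose s hs0 hs using hsi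
  obtain ⟨T, hT⟩ := hΓ
  obtain ⟨L, hfd, hgal, -, ψ, hψ, hroot⟩ := exists_L φ T qh hqh0
  have hNF : NumberField L := ⟨⟩
  obtain ⟨Δ, hΔ, hΔσ, hpow⟩ := exists_Gal ψ T qh hroot
  rw [hT] at hpow
  obtain ⟨S, hS, hΔS⟩ := exists_S Δ hΔ
  obtain ⟨dd, hdd, -, hdh⟩ := ht_hom ψ
  choose V hV1 hV2 using fun t => hpow _ (v t).2
  choose W hW1 hW2 using fun t l r => hpow _ (u t l r).2
  have hV3 : ∀ t, (V t : L) ^ qh = ψ ((v t : Kˣ) : K) := fun t => by
    have h1 := congrArg Units.val (hV2 t)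
    rw [Units.val_pow_eq_pow_val] at h1
    exact h1
  obtain ⟨v0, hv0⟩ : ∃ v0 : InfinitePlace L, v0 = InfinitePlace.mk (L.val : L →+* ℂ) := ⟨_, rfl⟩
  have hslowh : ∀ b : ℕ → K, (∀ t, mulHeight₁ (b t) ≤ M t) → Slow 𝓕 H (fun t => ψ (b t)) :=
    fun b hb => slow_of_log hM hneg hdd.le fun t => by
      rw [hdh]
      refine mul_le_mul_of_nonneg_left ?_ hdd.le
      rw [logHeight₁_eq_log_mulHeight₁]
      have h1 := Real.log_le_log (mulHeight₁_pos (b t)) (hb t)
      linarith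
  have hcs : ∀ l, Slow 𝓕 H (fun t => ψ (c t l)) := fun l => hslowh _ fun t => hc t l
  have hxm : ∀ l, Mdr 𝓕 H (fun t => (z t (Sum.inl l) : L)) := fun l =>
    mdr_int hH0 fun t => by rw [hexp]; exact hxsz t l
  have hym : ∀ i, Mdr 𝓕 H (fun t => (z t i : L)) := by
    intro i
    refine ⟨finrank ℚ L * (D + 2), ?_⟩
    filter_upwards [hneg 1 one_pos, hH_le hH (Real.log Cst)] with t h1 h2
    refine (ht_int _).trans ?_
    rw [mul_assoc]
    refine mul_le_mul_of_nonneg_left ?_ (Nat.cast_nonneg _)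
    have hMt := hM t
    have hst := hsz1 t
    have h3 : 1 ≤ Cst * (M t * sz t ^ D) := one_le_mul_of_one_le_of_one_le hCst1
      (one_le_mul_of_one_le_of_one_le hMt (Real.one_le_rpow hst (by linarith)))
    have h4 := Real.log_le_log (by positivity) (max_le h3 (hord t i))
    rw [Real.log_mul (by linarith) (by positivity), Real.log_mul (by linarith) (by positivity),
      Real.log_rpow (by linarith)] at h4
    have h5 : Real.log (sz t) = H t := by rw [hHdef]
    rw [h5] at h4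
    linarith
  have hxsp : ∀ l, Sp (slowF 𝓕 L H hH) (PG 𝓕 H Δ) (mk 𝓕 (fun t => (z t (Sum.inl l) : L))) := by
    intro l
    refine EC.hb_pg hH S hS Δ hΔS (k := k) (fun r t => ψ (a t l r)) (fun r t => W t l r ^ qh) _
      (hxm l) (fun r => hslowh _ fun t => ha t l r) (fun r t => Δ.pow_mem (hW1 t l r) _)
      (Eventually.of_forall fun t => ?_)
    have h1 := congrArg ψ (hx t l)
    rw [map_intCast, map_sum] at h1
    show ((z t (Sum.inl l) : ℤ) : L) = _
    rw [h1]
    refine Finset.sum_congr rfl fun r _ => ?_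
    rw [map_mul]
    congr 1
    exact congrArg Units.val (hW2 t l r).symm
  -- the leading term
  have hVm : Mdr 𝓕 H (fun t => (V t : L)) := by
    refine ⟨dd * (1 + |B|), ?_⟩
    filter_upwards [hneg 1 one_pos] with t h1
    have h3 : logHeight₁ (V t : L) ≤ logHeight₁ ((V t : L) ^ qh) := by
      rw [logHeight₁_pow]
      have h4 := zero_le_logHeight₁ (V t : L)
      have h5 : (1 : ℝ) ≤ qh := by exact_mod_cast hqh0
      exact le_mul_of_one_le_left h4 h5
    refine h3.trans ?_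
    rw [hV3, hdh, mul_assoc]
    refine mul_le_mul_of_nonneg_left ?_ hdd.le
    rw [logHeight₁_eq_log_mulHeight₁]
    have hst := hsz1 t
    have h4 := Real.log_le_log (mulHeight₁_pos _) (hv t)
    have h5 : (1 + ∑ l, |(z t (Sum.inl l) : ℝ)|) = sz t := by rw [hsz]
    rw [h5, Real.log_mul (by linarith [hM t]) (by positivity), Real.log_rpow (by linarith)] at h4
    have h6 : Real.log (sz t) = H t := by rw [hHdef]
    rw [h6] at h4
    have h7 : B * H t ≤ |B| * H t := mul_le_mul_of_nonneg_right (le_abs_self B) (hH0 t)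
    linarith
  -- the gap
  have hgap' : ∀ l t, av (Sum.inl v0 : Pl L)
      ((z t (Sum.inl l) : L) - ψ (c t l) * ψ ((v t : Kˣ) : K)) ≤
      M t * (1 + ∑ l, |(z t (Sum.inl l) : ℝ)|) ^ (1 - δ) := by
    intro l t
    refine le_trans (le_of_eq ?_) (hgap t l)
    have h5 : (z t (Sum.inl l) : L) - ψ (c t l) * ψ ((v t : Kˣ) : K) =
        ψ ((z t (Sum.inl l) : K) - c t l * ((v t : Kˣ) : K)) := by
      rw [map_sub, map_mul, map_intCast]
    rw [h5, hv0]
    show ‖((ψ ((z t (Sum.inl l) : K) - c t l * ((v t : Kˣ) : K)) : L) : ℂ)‖ = _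
    rw [hψ]
  obtain ⟨⟨c', hc', hlow⟩, hclose⟩ := gap hH v0 (fun l t => z t (Sum.inl l))
    (fun l t => ψ (c t l)) hcs (fun t => ψ ((v t : Kˣ) : K)) M hM hneg
    (fun t => by rw [hexp, hsz]) δ hδ hgap'
  have hVs : Sm 𝓕 H (Sum.inl v0 : Pl L) (fun t => (V t : L)⁻¹) := by
    have hqh' : (0 : ℝ) < qh := by exact_mod_cast hqh0
    refine ⟨c' / qh, by positivity, ?_⟩
    filter_upwards [hlow] with t ht
    have hV0 : (V t : L) ≠ 0 := (V t).ne_zero
    have hVpos : 0 < av (Sum.inl v0 : Pl L) (V t : L) := (av _).pos_iff.2 hV0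
    rw [map_inv₀, ← Real.exp_log (inv_pos.2 hVpos)]
    refine Real.exp_le_exp.2 ?_
    rw [Real.log_inv]
    rw [← hV3, map_pow] at ht
    have h1 := Real.log_le_log (Real.exp_pos _) ht
    rw [Real.log_exp, Real.log_pow] at h1
    have h2 : c' / qh * H t ≤ Real.log (av (Sum.inl v0 : Pl L) (V t : L)) := by
      have h3 : c' / qh * H t = c' * H t / qh := by ring
      rw [h3, div_le_iff₀ hqh']
      linarith
    linarith
  -- the integral coordinates
  have hysp : ∀ i, Sp (slowF 𝓕 L H hH) (PU 𝓕 H S)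
      (mk 𝓕 (fun t => (z t (Sum.inr i) : L))) := by
    intro i
    refine ord_sp hH Δ hΔσ S hS hΔS v0 (hq i) (hs0 i) M hM hneg (fun t => F t i)
      (fun t => hF t i) (fun l t => ψ (c t l)) hcs ?_ ?_ V hV1 hVm hVs
      (fun l t => z t (Sum.inl l)) hxsp ?_ (fun t => z t (Sum.inr i)) (hym _)
      (fun t => hzero t i)
    · intro t
      rw [← topAt_map ψ]
      exact (hsep t i).map
    · intro t
      rw [← topAt_map ψ]
      exact (hspl t i).map ψ
    · intro l
      have h1 := hclose l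
      rw [← hs i]
      simpa only [hV3] using h1
  have hzsp : ∀ i, Sp (slowF 𝓕 L H hH) (PU 𝓕 H S) (mk 𝓕 (fun t => (z t i : L))) := by
    intro i
    rcases i with l | i
    · exact Sp.mono (PG.toPU hΔS) (hxsp l)
    · exact hysp i
  -- the parametrisation
  obtain ⟨Z, hZ1, hZ2, hZ3⟩ := paramP hH S hS (σ := Fin n ⊕ Fin m) (fun i t => (z t i : L)) hzsp
    (d + 1) (by omega) ℂ (L.val : L →+* ℂ)
  -- the largest coordinate
  have hn0 : ∀ t, ∃ l, z t (Sum.inl l) ≠ 0 := by
    intro t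
    by_contra hcon
    push Not at hcon
    obtain ⟨b, hb⟩ := hcop t
    rw [Finset.sum_eq_zero fun l _ => by rw [hcon l, mul_zero]] at hb
    exact zero_ne_one hb
  obtain ⟨l0, hl0⟩ : ∃ l0, ∀ᶠ t in (𝓕 : Filter ℕ),
      ∀ l, |(z t (Sum.inl l) : ℝ)| ≤ |(z t (Sum.inl l0) : ℝ)| := by
    rw [← Ultrafilter.eventually_exists_iff]
    refine Eventually.of_forall fun t => ?_
    obtain ⟨l1, -⟩ := hn0 t
    haveI : Nonempty (Fin n) := ⟨l1⟩
    exact Finite.exists_max fun l => |(z t (Sum.inl l) : ℝ)|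
  have hl0' : ∀ᶠ t in (𝓕 : Filter ℕ), (z t (Sum.inl l0) : L) ≠ 0 := by
    filter_upwards [hl0] with t ht h
    obtain ⟨l1, hl1⟩ := hn0 t
    have h1 : z t (Sum.inl l0) = 0 := by exact_mod_cast h
    have h2 := ht l1
    rw [h1, Int.cast_zero, abs_zero] at h2
    exact hl1 (by exact_mod_cast abs_nonpos_iff.1 h2)
  have hns : ∃ l, ¬ Slow 𝓕 H (fun t => (z t (Sum.inl l) : L) / (z t (Sum.inl l0) : L)) := by
    by_contra hcon
    push Not at hcon
    have hn' : (0 : ℝ) < n + 1 := by positivity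
    have hall : ∀ᶠ t in (𝓕 : Filter ℕ), ∀ l,
        logHeight₁ ((z t (Sum.inl l) : L) / (z t (Sum.inl l0) : L)) ≤ 1 / (4 * (n + 1)) * H t :=
      eventually_all.2 fun l => hcon l _ (by positivity)
    obtain ⟨t, h1, h2, h3, h4, h5⟩ := (hall.and (hl0.and (hl0'.and
      ((hH_le hH 1).and (hH_le hH (4 * Real.log (n + 1))))))).exists
    have h6 : z t (Sum.inl l0) ≠ 0 := by exact_mod_cast h3
    have h7 := coprime_height (L := L) (fun l => z t (Sum.inl l)) (hcop t) l0 h6
    have h8 := h7.trans (Finset.sum_le_sum fun l _ => h1 l)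
    rw [Finset.sum_const, Finset.card_univ, Fintype.card_fin, nsmul_eq_mul] at h8
    have h9 : (n : ℝ) * (1 / (4 * (n + 1)) * H t) ≤ 1 / 4 * H t := by
      have h10 : (n : ℝ) * (1 / (4 * (n + 1)) * H t) = (n / (n + 1)) * (1 / 4 * H t) := by
        field_simp
      rw [h10]
      refine mul_le_of_le_one_left (by linarith) ?_
      rw [div_le_one hn']
      linarith
    have h10 : (1 : ℝ) ≤ |(z t (Sum.inl l0) : ℝ)| := by
      have : (1 : ℤ) ≤ |z t (Sum.inl l0)| := Int.one_le_abs h6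
      exact_mod_cast this
    have h11 : Real.exp (H t) ≤ (n + 1) * |(z t (Sum.inl l0) : ℝ)| := by
      rw [hexp, hsz]
      have h12 := Finset.sum_le_sum fun l (_ : l ∈ Finset.univ) => h2 l
      rw [Finset.sum_const, Finset.card_univ, Fintype.card_fin, nsmul_eq_mul] at h12
      simp only
      linarith
    have h12 := Real.log_le_log (Real.exp_pos _) h11
    rw [Real.log_exp, Real.log_mul (by positivity) (by linarith)] at h12
    have h13 : Real.log |(z t (Sum.inl l0) : ℝ)| ≤ 1 / 4 * H t := h8.trans h9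
    linarith
  obtain ⟨l1, hl1⟩ := hns
  have hz3 : ∀ j, ∀ᶠ t in (𝓕 : Filter ℕ), ∑ e ∈ expo (Fin n ⊕ Fin m) d,
      LaurentPolynomial.C ((L.val : L →+* ℂ) (((G t j).coeff e : ℤ) : L)) *
        ∏ i, Z i t ^ e i = 0 := by
    intro j
    refine hZ3 (expo (Fin n ⊕ Fin m) d) (fun e t => (((G t j).coeff e : ℤ) : L))
      (fun e _ => slow_int hM hneg _ fun t => hGb t j e) (fun e he => ?_)
      (Eventually.of_forall fun t => ?_)
    · have h1 := mem_expo.1 he
      omega
    · have h1 := hz t j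
      rw [← aeval_expo (G t j) (hGd t j), cast_eval, h1, Int.cast_zero]
  obtain ⟨t, h1, h2, h3⟩ := ((eventually_all.2 hZ1).and
    ((hZ2 (Sum.inl l1) (Sum.inl l0) hl0' hl1).and (eventually_all.2 hz3))).exists
  refine hno t (fun i => Z i t) ⟨Sum.inl l1, Sum.inl l0, ?_⟩ (fun i => ?_) |>.elim fun j hj => hj ?_
  · have h4 : ∀ i, (L.val : L →+* ℂ) ((z t i : ℤ) : L) = ((z t i : ℤ) : ℂ) := fun i => map_intCast _ _
    rw [h4, h4] at h2
    exact h2
  · rw [h1 i]
    show (L.val : L →+* ℂ) ((z t i : ℤ) : L) = _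
    rw [map_intCast]
  · rw [aeval_expo (G t j) (hGd t j), ← h3 j]
    refine Finset.sum_congr rfl fun e _ => ?_
    rw [map_intCast, map_intCast]

end Pool.Agent.Run7.h28.BV
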