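import Mathlib
import Pool.Agent.Run7.h28.BV.Ord

/-!
# Project BV (helper28): functions approximated by sums of units at a place
-/

set_option autoImplicit false
set_option linter.unusedSectionVars false

open Filter Topology

namespace Pool.Agent.Run7.h28.BV

open NumberField IsDedekindDomain Height Module
open Pool.Agent.W180.OP (Pl av wt nrm le_nrm nrm_pos wt_nonneg exists_nrm nrm_nonneg)
open Pool.Agent.N750
open Pool.Agent.Run7.h28.HK
open Pool.Agent.Run7.h28.EC (SubE)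

variable {L : Type} [Field L] [NumberField L] {α : Type} {𝓕 : Ultrafilter α} {H : α → ℝ}

/-- at most a power of `exp H` at the place `v` -/
def LB (𝓕 : Ultrafilter α) (H : α → ℝ) (v : Pl L) (f : α → L) : Prop :=
  ∃ C : ℝ, 0 ≤ C ∧ ∀ᶠ t in (𝓕 : Filter α), av v (f t) ≤ Real.exp (C * H t)

variable {v : Pl L}

lemma two_le (hH : Tendsto H 𝓕 atTop) : ∀ᶠ t in (𝓕 : Filter α), (2 : ℝ) ≤ Real.exp (H t) := by
  filter_upwards [hH_le hH (Real.log 2)] with t ht
  calc (2 : ℝ) = Real.exp (Real.log 2) := (Real.exp_log (by norm_num)).symm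
    _ ≤ _ := Real.exp_le_exp.2 ht

lemma LB.of (hH : Tendsto H 𝓕 atTop) {f : α → L} {C : ℝ}
    (h : ∀ᶠ t in (𝓕 : Filter α), av v (f t) ≤ Real.exp (C * H t)) : LB 𝓕 H v f := by
  refine ⟨|C|, abs_nonneg _, ?_⟩
  filter_upwards [h, hH_le hH 0] with t h1 h2
  exact h1.trans (Real.exp_le_exp.2 (mul_le_mul_of_nonneg_right (le_abs_self C) h2))

lemma LB.add (hH : Tendsto H 𝓕 atTop) {f g : α → L} (hf : LB 𝓕 H v f) (hg : LB 𝓕 H v g) :
    LB 𝓕 H v (fun t => f t + g t) := by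
  obtain ⟨C, hC, h⟩ := hf
  obtain ⟨C', hC', h'⟩ := hg
  refine ⟨C + C' + 1, by linarith, ?_⟩
  filter_upwards [h, h', hH_le hH 0, two_le hH] with t h1 h2 h3 h4
  have h5 : Real.exp (C * H t) ≤ Real.exp ((C + C') * H t) :=
    Real.exp_le_exp.2 (mul_le_mul_of_nonneg_right (by linarith) h3)
  have h6 : Real.exp (C' * H t) ≤ Real.exp ((C + C') * H t) :=
    Real.exp_le_exp.2 (mul_le_mul_of_nonneg_right (by linarith) h3)
  calc av v (f t + g t) ≤ av v (f t) + av v (g t) := (av v).add_le _ _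
    _ ≤ 2 * Real.exp ((C + C') * H t) := by linarith
    _ ≤ Real.exp (H t) * Real.exp ((C + C') * H t) :=
        mul_le_mul_of_nonneg_right h4 (Real.exp_pos _).le
    _ = Real.exp ((C + C' + 1) * H t) := by
        rw [← Real.exp_add]
        congr 1
        ring

lemma LB.mul {f g : α → L} (hf : LB 𝓕 H v f) (hg : LB 𝓕 H v g) :
    LB 𝓕 H v (fun t => f t * g t) := by
  obtain ⟨C, hC, h⟩ := hf
  obtain ⟨C', hC', h'⟩ := hg
  refine ⟨C + C', by linarith, ?_⟩
  filter_upwards [h, h'] with t h1 h2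
  rw [map_mul, add_mul, Real.exp_add]
  exact mul_le_mul h1 h2 ((av v).nonneg _) (Real.exp_pos _).le

lemma LB.zero (hH : Tendsto H 𝓕 atTop) : LB 𝓕 H v (fun _ => (0 : L)) := by
  refine ⟨0, le_rfl, Eventually.of_forall fun t => ?_⟩
  rw [map_zero]
  exact (Real.exp_pos _).le

lemma LB.slow (hH : Tendsto H 𝓕 atTop) {f : α → L} (hf : Slow 𝓕 H f) : LB 𝓕 H v f :=
  LB.of hH (slow_le hf v one_pos)

lemma LB.mdr (hH : Tendsto H 𝓕 atTop) {f : α → L} (hf : Mdr 𝓕 H f) : LB 𝓕 H v f := by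
  obtain ⟨C, hC⟩ := EC.mdr_av hf v
  exact LB.of hH hC

lemma LB.congr {f g : α → L} (hf : LB 𝓕 H v f) (h : ∀ᶠ t in (𝓕 : Filter α), f t = g t) :
    LB 𝓕 H v g := by
  obtain ⟨C, hC, h1⟩ := hf
  refine ⟨C, hC, ?_⟩
  filter_upwards [h1, h] with t h2 h3
  rwa [← h3]

lemma LB.sum (hH : Tendsto H 𝓕 atTop) {ι : Type} (A : Finset ι) (f : ι → α → L)
    (hf : ∀ i ∈ A, LB 𝓕 H v (f i)) : LB 𝓕 H v (fun t => ∑ i ∈ A, f i t) := by
  classical
  induction A using Finset.induction_on with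
  | empty => simpa only [Finset.sum_empty] using LB.zero hH
  | insert a A ha ih =>
    simp only [Finset.sum_insert ha]
    exact (hf a (Finset.mem_insert_self _ _)).add hH
      (ih fun i hi => hf i (Finset.mem_insert_of_mem hi))

/-- sums of moderate units are moderate -/
lemma LB.sp (hH : Tendsto H 𝓕 atTop) {Γ : Subgroup Lˣ} {f : α → L}
    (hf : Sp (slowF 𝓕 L H hH) (PG 𝓕 H Γ) (mk 𝓕 f)) : LB 𝓕 H v f := by
  obtain ⟨n, u, c, hu, hs⟩ := hf
  choose a ha1 ha2 ha3 using hu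
  choose c' hc1 hc2 using fun i => (c i).2
  have h1 : mk 𝓕 f = mk 𝓕 (fun t => ∑ i, c' i t * (a i t : L)) := by
    rw [hs, ← mk_sum c' (fun i t => (a i t : L))]
    exact Finset.sum_congr rfl fun i _ => by rw [hc1, ha1]
  refine (LB.sum hH Finset.univ (fun i t => c' i t * (a i t : L)) fun i _ =>
    (LB.slow hH (hc2 i)).mul (LB.mdr hH (ha3 i))).congr ?_
  filter_upwards [mk_eq.1 h1] with t ht
  exact ht.symm

/-- functions approximated by sums of units at the place `v`, to any power of `exp H` -/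
def Ap (hH : Tendsto H 𝓕 atTop) (Γ : Subgroup Lˣ) (v : Pl L) (f : α → L) : Prop :=
  ∀ κ : ℝ, ∃ R : α → L, Sp (slowF 𝓕 L H hH) (PG 𝓕 H Γ) (mk 𝓕 R) ∧
    ∀ᶠ t in (𝓕 : Filter α), av v (f t - R t) ≤ Real.exp (-(κ * H t))

variable {hH : Tendsto H 𝓕 atTop} {Γ : Subgroup Lˣ}

lemma Ap.lb {f : α → L} (hf : Ap hH Γ v f) : LB 𝓕 H v f := by
  obtain ⟨R, hR, h⟩ := hf 0
  have h1 : LB 𝓕 H v (fun t => f t - R t) := LB.of hH (C := 0) (by
    filter_upwards [h] with t ht
    simpa using ht)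
  refine (h1.add hH (LB.sp hH hR)).congr (Eventually.of_forall fun t => ?_)
  ring

lemma Ap.sp {f : α → L} (hf : Sp (slowF 𝓕 L H hH) (PG 𝓕 H Γ) (mk 𝓕 f)) : Ap hH Γ v f := by
  intro κ
  refine ⟨f, hf, Eventually.of_forall fun t => ?_⟩
  rw [sub_self, map_zero]
  exact (Real.exp_pos _).le

lemma sp_slow {f : α → L} (hf : Slow 𝓕 H f) : Sp (slowF 𝓕 L H hH) (PG 𝓕 H Γ) (mk 𝓕 f) := by
  rw [← mul_one (mk 𝓕 f)]
  exact Sp.smul (mk_slow.2 hf) (Sp.of PG.one)

lemma Ap.slow {f : α → L} (hf : Slow 𝓕 H f) : Ap hH Γ v f := Ap.sp (sp_slow hf)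

lemma Ap.congr {f g : α → L} (hf : Ap hH Γ v f) (h : ∀ᶠ t in (𝓕 : Filter α), f t = g t) :
    Ap hH Γ v g := by
  intro κ
  obtain ⟨R, hR, h1⟩ := hf κ
  refine ⟨R, hR, ?_⟩
  filter_upwards [h1, h] with t h2 h3
  rwa [← h3]

/-- limits -/
lemma Ap.lim {f : α → L} (h : ∀ κ : ℝ, ∃ g : α → L, Ap hH Γ v g ∧
    ∀ᶠ t in (𝓕 : Filter α), av v (f t - g t) ≤ Real.exp (-(κ * H t))) : Ap hH Γ v f := by
  intro κ
  obtain ⟨g, hg, h1⟩ := h (κ + 1)
  obtain ⟨R, hR, h2⟩ := hg (κ + 1)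
  refine ⟨R, hR, ?_⟩
  filter_upwards [h1, h2, two_le hH] with t h3 h4 h5
  have h6 : f t - R t = (f t - g t) + (g t - R t) := by ring
  rw [h6]
  calc av v ((f t - g t) + (g t - R t)) ≤ av v (f t - g t) + av v (g t - R t) := (av v).add_le _ _
    _ ≤ 2 * Real.exp (-((κ + 1) * H t)) := by linarith
    _ ≤ Real.exp (H t) * Real.exp (-((κ + 1) * H t)) :=
        mul_le_mul_of_nonneg_right h5 (Real.exp_pos _).le
    _ = Real.exp (-(κ * H t)) := by
        rw [← Real.exp_add]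
        congr 1
        ring

lemma Ap.add {f g : α → L} (hf : Ap hH Γ v f) (hg : Ap hH Γ v g) :
    Ap hH Γ v (fun t => f t + g t) := by
  intro κ
  obtain ⟨R, hR, h1⟩ := hf (κ + 1)
  obtain ⟨R', hR', h2⟩ := hg (κ + 1)
  refine ⟨fun t => R t + R' t, ?_, ?_⟩
  · have h3 : mk 𝓕 (fun t => R t + R' t) = mk 𝓕 R + mk 𝓕 R' := by rw [← map_add]; rfl
    rw [h3]
    exact hR.add hR'
  filter_upwards [h1, h2, two_le hH] with t h3 h4 h5
  have h6 : f t + g t - (R t + R' t) = (f t - R t) + (g t - R' t) := by ring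
  rw [h6]
  calc av v ((f t - R t) + (g t - R' t)) ≤ av v (f t - R t) + av v (g t - R' t) :=
        (av v).add_le _ _
    _ ≤ 2 * Real.exp (-((κ + 1) * H t)) := by linarith
    _ ≤ Real.exp (H t) * Real.exp (-((κ + 1) * H t)) :=
        mul_le_mul_of_nonneg_right h5 (Real.exp_pos _).le
    _ = Real.exp (-(κ * H t)) := by
        rw [← Real.exp_add]
        congr 1
        ring

lemma Ap.mul {f g : α → L} (hf : Ap hH Γ v f) (hg : Ap hH Γ v g) :
    Ap hH Γ v (fun t => f t * g t) := by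
  intro κ
  obtain ⟨C, hC, h⟩ := hf.lb
  obtain ⟨R', hR', h2⟩ := hg (κ + C + 1)
  obtain ⟨C', hC', h'⟩ := LB.sp (v := v) hH hR'
  obtain ⟨R, hR, h1⟩ := hf (κ + C' + 1)
  refine ⟨fun t => R t * R' t, ?_, ?_⟩
  · have h3 : mk 𝓕 (fun t => R t * R' t) = mk 𝓕 R * mk 𝓕 R' := by rw [← map_mul]; rfl
    rw [h3]
    exact Sp.mul (fun _ _ => PG.mul) hR hR'
  filter_upwards [h, h2, h', h1, two_le hH] with t h3 h4 h5 h6 h7
  have h8 : f t * g t - R t * R' t = f t * (g t - R' t) + (f t - R t) * R' t := by ring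
  rw [h8]
  calc av v (f t * (g t - R' t) + (f t - R t) * R' t) ≤
        av v (f t) * av v (g t - R' t) + av v (f t - R t) * av v (R' t) := by
        rw [← map_mul, ← map_mul]
        exact (av v).add_le _ _
    _ ≤ Real.exp (C * H t) * Real.exp (-((κ + C + 1) * H t)) +
          Real.exp (-((κ + C' + 1) * H t)) * Real.exp (C' * H t) :=
        add_le_add (mul_le_mul h3 h4 ((av v).nonneg _) (Real.exp_pos _).le)
          (mul_le_mul h6 h5 ((av v).nonneg _) (Real.exp_pos _).le)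
    _ = 2 * Real.exp (-((κ + 1) * H t)) := by
        rw [← Real.exp_add, ← Real.exp_add, two_mul]
        congr 2 <;> ring
    _ ≤ Real.exp (H t) * Real.exp (-((κ + 1) * H t)) :=
        mul_le_mul_of_nonneg_right h7 (Real.exp_pos _).le
    _ = Real.exp (-(κ * H t)) := by
        rw [← Real.exp_add]
        congr 1
        ring

lemma Ap.neg {f : α → L} (hf : Ap hH Γ v f) : Ap hH Γ v (fun t => -f t) := by
  refine ((Ap.slow (f := fun _ => (-1 : L)) (slow_const hH _)).mul hf).congr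
    (Eventually.of_forall fun t => ?_)
  ring

lemma Ap.pow {f : α → L} (hf : Ap hH Γ v f) (n : ℕ) : Ap hH Γ v (fun t => f t ^ n) := by
  induction n with
  | zero => simpa only [pow_zero] using Ap.slow (f := fun _ => (1 : L)) (slow_const hH _)
  | succ n ih => simpa only [pow_succ] using ih.mul hf

lemma Ap.sum {ι : Type} (A : Finset ι) (f : ι → α → L)
    (hf : ∀ i ∈ A, Ap hH Γ v (f i)) : Ap hH Γ v (fun t => ∑ i ∈ A, f i t) := by
  classical
  induction A using Finset.induction_on with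
  | empty => simpa only [Finset.sum_empty] using Ap.slow (f := fun _ => (0 : L)) (slow_const hH _)
  | insert a A ha ih =>
    simp only [Finset.sum_insert ha]
    exact (hf a (Finset.mem_insert_self _ _)).add
      (ih fun i hi => hf i (Finset.mem_insert_of_mem hi))

/-- bounded from below by slow functions -/
lemma inv_bd {e : α → L} (he : Slow 𝓕 H e) {ε : ℝ} (hε : 0 < ε) :
    ∀ᶠ t in (𝓕 : Filter α), av v (e t)⁻¹ ≤ Real.exp (ε * H t) := slow_le he.inv v hε

/-- inverses -/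
lemma Ap.inv {β e : α → L} (hβ : Ap hH Γ v β) (he : Slow 𝓕 H e)
    (he0 : ∀ᶠ t in (𝓕 : Filter α), e t ≠ 0) (hs : Sm 𝓕 H v (fun t => β t - e t)) :
    Ap hH Γ v (fun t => (β t)⁻¹) := by
  -- the small quantity
  obtain ⟨η, hη⟩ : ∃ η : α → L, η = fun t => (e t - β t) * (e t)⁻¹ := ⟨_, rfl⟩
  have hηs : Sm 𝓕 H v η := by
    have h1 := (hs.neg).mul (Bd.slow he.inv v)
    rw [hη]
    have h2 : (fun t => -(β t - e t) * (e t)⁻¹) = fun t => (e t - β t) * (e t)⁻¹ := by
      funext t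
      ring
    rwa [h2] at h1
  have hηa : Ap hH Γ v η := by
    rw [hη]
    refine (((Ap.slow he).add hβ.neg).mul (Ap.slow he.inv)).congr
      (Eventually.of_forall fun t => ?_)
    ring
  obtain ⟨c, hc, hηc⟩ := hηs
  refine Ap.lim fun κ => ?_
  obtain ⟨N, hN⟩ := exists_nat_gt ((|κ| + 2) / c)
  refine ⟨fun t => (e t)⁻¹ * ∑ k ∈ Finset.range N, η t ^ k,
    (Ap.slow he.inv).mul (Ap.sum _ (fun k t => η t ^ k) fun k _ => hηa.pow k), ?_⟩
  filter_upwards [he0, hηc, hH_le hH 0, inv_bd (v := v) he (ε := 1) one_pos, two_le hH,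
    hH_le hH (Real.log 2 / c)] with t h1 h2 h3 h4 h5 h6
  have hη1 : av v (η t) ≤ 1 / 2 := by
    refine h2.trans ?_
    rw [div_le_iff₀ hc] at h6
    rw [Real.exp_neg, one_div]
    refine inv_anti₀ (by norm_num) ?_
    calc (2 : ℝ) = Real.exp (Real.log 2) := (Real.exp_log (by norm_num)).symm
      _ ≤ _ := Real.exp_le_exp.2 (by linarith)
  have hβe : β t = e t * (1 - η t) := by
    rw [hη]
    field_simp
    ring
  have h1η : 1 / 2 ≤ av v (1 - η t) := by
    have h7 : av v ((1 - η t) + η t) ≤ av v (1 - η t) + av v (η t) := (av v).add_le _ _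
    have h8 : (1 - η t) + η t = 1 := by ring
    rw [h8, map_one] at h7
    linarith
  have h1η0 : (1 - η t) ≠ 0 := by
    intro h
    rw [h, map_zero] at h1η
    linarith
  have hgeo : (∑ k ∈ Finset.range N, η t ^ k) * (1 - η t) = 1 - η t ^ N := by
    have := geom_sum_mul (η t) N
    linear_combination -this
  have hdiff : (β t)⁻¹ - (e t)⁻¹ * ∑ k ∈ Finset.range N, η t ^ k =
      (e t)⁻¹ * (η t ^ N * (1 - η t)⁻¹) := by
    have h9 : (∑ k ∈ Finset.range N, η t ^ k) = (1 - η t ^ N) * (1 - η t)⁻¹ := by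
      rw [← hgeo, mul_assoc, mul_inv_cancel₀ h1η0, mul_one]
    rw [hβe, h9, mul_inv]
    ring
  rw [hdiff, map_mul, map_mul, map_pow, map_inv₀ (av v) (1 - η t)]
  have h10 : (av v (1 - η t))⁻¹ ≤ 2 := by
    have := inv_anti₀ (by norm_num) h1η
    simpa using this
  have h11 : av v (η t) ^ N ≤ Real.exp (-((|κ| + 2) * H t)) := by
    refine (pow_le_pow_left₀ ((av v).nonneg _) h2 _).trans ?_
    rw [← Real.exp_nat_mul]
    refine Real.exp_le_exp.2 ?_
    rw [div_lt_iff₀ hc] at hN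
    have h12 := mul_le_mul_of_nonneg_right hN.le h3
    linarith
  calc av v (e t)⁻¹ * (av v (η t) ^ N * (av v (1 - η t))⁻¹) ≤
        Real.exp (1 * H t) * (Real.exp (-((|κ| + 2) * H t)) * Real.exp (H t)) := by
        refine mul_le_mul h4 (mul_le_mul h11 (h10.trans h5) (inv_nonneg.2 ((av v).nonneg _))
          (Real.exp_pos _).le) ?_ (Real.exp_pos _).le
        exact mul_nonneg (pow_nonneg ((av v).nonneg _) _) (inv_nonneg.2 ((av v).nonneg _))
    _ = Real.exp (-(|κ| * H t)) := by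
        rw [← Real.exp_add, ← Real.exp_add]
        congr 1
        ring
    _ ≤ Real.exp (-(κ * H t)) := Real.exp_le_exp.2 (neg_le_neg
        (mul_le_mul_of_nonneg_right (le_abs_self κ) h3))

end Pool.Agent.Run7.h28.BV
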