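import Mathlib
import Pool.Agent.Run7.h28.BV.Ap

/-!
# Project BV (helper28): roots of polynomials near polynomials with slow coefficients
-/

set_option autoImplicit false
set_option linter.unusedSectionVars false

open Filter Topology

namespace Pool.Agent.Run7.h28.BV

open NumberField IsDedekindDomain Height Module
open Pool.Agent.W180.OP (Pl av wt nrm le_nrm nrm_pos wt_nonneg exists_nrm nrm_nonneg)
open Pool.Agent.N750
open Pool.Agent.Run7.h28.HK
open Pool.Agent.Run7.h28.EC (SubE fv it aA aB newton)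

variable {L : Type} [Field L] [NumberField L] {α : Type} {𝓕 : Ultrafilter α} {H : α → ℝ}
  {v : Pl L} {hH : Tendsto H 𝓕 atTop} {Γ : Subgroup Lˣ}

/-- **Roots are approximated by sums of units.** -/
theorem ap_root {q : ℕ} (hq : 0 < q) (E : α → Polynomial L) (hE : ∀ t, (E t).Monic)
    (hdeg : ∀ t, (E t).natDegree = q) (hEs : ∀ j, Slow 𝓕 H (fun t => (E t).coeff j))
    (ρ : Fin q → α → L) (hρs : ∀ i, Slow 𝓕 H (ρ i))
    (hprod : ∀ t Y, (E t).eval Y = ∏ i, (Y - ρ i t)) (hinj : ∀ t i j, i ≠ j → ρ i t ≠ ρ j t)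
    (hder : ∀ t i, (E t).derivative.eval (ρ i t) ≠ 0) (β : ℕ → α → L)
    (hβ : ∀ j < q, Ap hH Γ v (β j))
    (hβs : ∀ j < q, Sm 𝓕 H v (fun t => β j t - (E t).coeff j)) (Y : α → L)
    (heq : ∀ᶠ t in (𝓕 : Filter α), Y t ^ q + ∑ j ∈ Finset.range q, β j t * Y t ^ j = 0) :
    Ap hH Γ v Y := by
  classical
  obtain ⟨b, hb⟩ : ∃ b : α → ℕ → L, b = fun t j => β j t - (E t).coeff j := ⟨_, rfl⟩
  -- the value of the perturbed polynomial
  have hfv : ∀ t Z, fv (E t) (b t) Z = Z ^ q + ∑ j ∈ Finset.range q, β j t * Z ^ j := by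
    intro t Z
    unfold fv
    rw [Polynomial.eval_eq_sum_range, hdeg t, Finset.sum_range_succ]
    have h3 : (E t).coeff q = 1 := by rw [← hdeg t]; exact (hE t).coeff_natDegree
    rw [h3, one_mul, add_comm _ (Z ^ q), add_assoc, ← Finset.sum_add_distrib, hb]
    congr 1
    exact Finset.sum_congr rfl fun j _ => by ring
  -- the derivatives at the roots are slow
  have hders : ∀ i, Slow 𝓕 H (fun t => (E t).derivative.eval (ρ i t)) := by
    intro i
    have h1 : (fun t => (E t).derivative.eval (ρ i t)) = fun t => ∑ j ∈ Finset.range (q + 1),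
        (E t).coeff j * ((j : L) * ρ i t ^ (j - 1)) := by
      funext t
      rw [Polynomial.derivative_eval, Polynomial.sum_over_range, hdeg t]
      · exact Finset.sum_congr rfl fun j _ => by ring
      · intro j
        simp
    rw [h1]
    refine slow_sum hH _ fun j _ => ?_
    exact (hEs j).mul ((slow_const hH _).mul ((hρs i).pow hH _))
  -- the quantity `Q`
  obtain ⟨Q, hQ⟩ : ∃ Q : α → ℝ, Q = fun t => 1 +
      ((∑ j ∈ Finset.range (q + 1), av v ((E t).coeff j)) +
      ((∑ i, ∑ j, av v ((ρ i t - ρ j t)⁻¹)) +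
      ∑ i, av v (((E t).derivative.eval (ρ i t))⁻¹))) := ⟨_, rfl⟩
  have hs1 : ∀ t, 0 ≤ ∑ j ∈ Finset.range (q + 1), av v ((E t).coeff j) :=
    fun t => Finset.sum_nonneg fun _ _ => (av _).nonneg _
  have hs2 : ∀ t, 0 ≤ ∑ i, ∑ j, av v ((ρ i t - ρ j t)⁻¹) :=
    fun t => Finset.sum_nonneg fun _ _ => Finset.sum_nonneg fun _ _ => (av _).nonneg _
  have hs3 : ∀ t, 0 ≤ ∑ i, av v (((E t).derivative.eval (ρ i t))⁻¹) :=
    fun t => Finset.sum_nonneg fun _ _ => (av _).nonneg _
  have hQs : SubE 𝓕 H Q := by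
    rw [hQ]
    refine (SubE.const hH zero_le_one).add hH ((SubE.sum hH _ _ fun j _ =>
      SubE.slow (hEs j) _).add hH ((SubE.sum hH _ _ fun i _ => SubE.sum hH _ _ fun j _ =>
      SubE.slow (a := fun t => (ρ i t - ρ j t)⁻¹) ?_ _).add hH
      (SubE.sum hH _ _ fun i _ => SubE.slow (hders i).inv _)))
    have h1 : Slow 𝓕 H (fun t => ρ i t - ρ j t) := by
      have h2 := (hρs i).add hH (hρs j).neg
      simpa only [← sub_eq_add_neg] using h2
    exact h1.inv
  have hQ1 : ∀ t, 1 ≤ Q t := fun t => by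
    rw [hQ]
    simp only
    linarith [hs1 t, hs2 t, hs3 t]
  have hQc : ∀ t j, av v ((E t).coeff j) ≤ Q t := by
    intro t j
    by_cases hj : j ∈ Finset.range (q + 1)
    · have h1 := Finset.single_le_sum (f := fun j => av v ((E t).coeff j))
        (fun _ _ => (av _).nonneg _) hj
      have h2 : av v ((E t).coeff j) ≤
        ∑ j ∈ Finset.range (q + 1), av v ((E t).coeff j) := h1
      rw [hQ]
      simp only
      linarith [hs1 t, hs2 t, hs3 t]
    · rw [Polynomial.coeff_eq_zero_of_natDegree_lt, map_zero]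
      · linarith [hQ1 t]
      · rw [hdeg t]
        rw [Finset.mem_range] at hj
        omega
  have hQd : ∀ t i j, i ≠ j → 1 ≤ Q t * av v (ρ i t - ρ j t) := by
    intro t i j hij
    have hne : ρ i t - ρ j t ≠ 0 := sub_ne_zero.2 (hinj t i j hij)
    have hpos : 0 < av v (ρ i t - ρ j t) := (av _).pos_iff.2 hne
    rw [← inv_le_iff_one_le_mul₀ hpos, ← map_inv₀]
    have h1 := Finset.single_le_sum (f := fun j => av v ((ρ i t - ρ j t)⁻¹))
        (fun _ _ => (av _).nonneg _) (Finset.mem_univ j)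
    have h2 := Finset.single_le_sum (f := fun i => ∑ j, av v
      ((ρ i t - ρ j t)⁻¹)) (fun _ _ => Finset.sum_nonneg fun _ _ => (av _).nonneg _)
      (Finset.mem_univ i)
    have h3 : av v (ρ i t - ρ j t)⁻¹ ≤
        ∑ i, ∑ j, av v ((ρ i t - ρ j t)⁻¹) := h1.trans h2
    rw [hQ]
    simp only
    linarith [hs1 t, hs2 t, hs3 t]
  have hQe : ∀ t i, 1 ≤ Q t * av v ((E t).derivative.eval (ρ i t)) := by
    intro t i
    have hpos : 0 < av v ((E t).derivative.eval (ρ i t)) :=
      (av _).pos_iff.2 (hder t i)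
    rw [← inv_le_iff_one_le_mul₀ hpos, ← map_inv₀]
    have h1 := Finset.single_le_sum (f := fun i => av v
      (((E t).derivative.eval (ρ i t))⁻¹)) (fun _ _ => (av _).nonneg _) (Finset.mem_univ i)
    have h3 : av v (((E t).derivative.eval (ρ i t))⁻¹) ≤
        ∑ i, av v (((E t).derivative.eval (ρ i t))⁻¹) := h1
    rw [hQ]
    simp only
    linarith [hs1 t, hs2 t, hs3 t]
  -- the constant of the iteration
  obtain ⟨A0, hA0⟩ : ∃ A0 : α → ℝ, A0 = fun t => 1 + aA q (Q t) + aB q (Q t) := ⟨_, rfl⟩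
  have hA0s : SubE 𝓕 H A0 := by
    rw [hA0]
    exact ((SubE.const hH zero_le_one).add hH (SubE.aA hH q hQs)).add hH (SubE.aB hH q hQs)
  -- a common exponent
  have hsm : ∀ j, ∃ e : ℝ, 0 < e ∧ (j < q → ∀ᶠ t in (𝓕 : Filter α),
      av v (b t j) ≤ Real.exp (-(e * H t))) := by
    intro j
    by_cases hj : j < q
    · obtain ⟨e, he, h⟩ := hβs j hj
      refine ⟨e, he, fun _ => ?_⟩
      rw [hb]
      exact h
    · exact ⟨1, one_pos, fun h => absurd h hj⟩
  choose e he1 he2 using hsm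
  obtain ⟨c, hc, hce⟩ := exists_pos_le (Finset.range q) e fun j _ => he1 j
  have hsm : ∀ᶠ t in (𝓕 : Filter α), A0 t * Real.exp (-(c * H t)) ≤ Real.exp (-(c / 2 * H t)) := by
    filter_upwards [hA0s.2 (c / 2) (by positivity)] with t ht
    calc A0 t * Real.exp (-(c * H t)) ≤ Real.exp (c / 2 * H t) * Real.exp (-(c * H t)) :=
          mul_le_mul_of_nonneg_right ht (Real.exp_pos _).le
      _ = Real.exp (-(c / 2 * H t)) := by
          rw [← Real.exp_add]
          congr 1
          ring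
  have hρ : ∃ i : Fin q, ∀ᶠ t in (𝓕 : Filter α), ∀ n,
      av v (it (E t) (b t) (ρ i t) n - Y t) ≤ (A0 t * Real.exp (-(c * H t))) ^ (n + 1) := by
    rw [← Ultrafilter.eventually_exists_iff]
    have hall : ∀ᶠ t in (𝓕 : Filter α), ∀ j ∈ Finset.range q,
        av v (b t j) ≤ Real.exp (-(c * H t)) := by
      rw [Filter.eventually_all_finset]
      intro j hj
      filter_upwards [he2 j (Finset.mem_range.1 hj), hH_le hH 0] with t h1 h2
      exact h1.trans (Real.exp_le_exp.2 (neg_le_neg (mul_le_mul_of_nonneg_right (hce j hj) h2)))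
    filter_upwards [hall, heq, hsm, hH_le hH 0] with t h1 h2 h3 h4
    have h5 : A0 t * Real.exp (-(c * H t)) ≤ 1 := by
      refine h3.trans ?_
      rw [Real.exp_le_one_iff]
      have : 0 ≤ c / 2 * H t := by positivity
      linarith
    rw [hA0] at h5 ⊢
    exact newton (av v) (E t) (hE t) hq (hdeg t) (fun i => ρ i t) (hprod t)
      (Q t) (hQ1 t) (hQc t) (hQd t) (hQe t) (b t) _ (Real.exp_pos _).le h5
      (fun j hj => h1 j (Finset.mem_range.2 hj)) _ (by rw [hfv]; exact h2)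
  obtain ⟨i0, hρ2⟩ := hρ
  -- the iterates
  have hit : ∀ n, Ap hH Γ v (fun t => it (E t) (b t) (ρ i0 t) n) := by
    intro n
    induction n with
    | zero => exact Ap.slow (hρs i0)
    | succ n ih =>
      have h1 : Ap hH Γ v (fun t => it (E t) (b t) (ρ i0 t) n +
          (-((E t).derivative.eval (ρ i0 t))⁻¹) * (it (E t) (b t) (ρ i0 t) n ^ q +
            ∑ j ∈ Finset.range q, β j t * it (E t) (b t) (ρ i0 t) n ^ j)) :=
        ih.add ((Ap.slow (hders i0).inv.neg).mul ((ih.pow q).add (Ap.sum _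
          (fun j t => β j t * it (E t) (b t) (ρ i0 t) n ^ j)
          fun j hj => (hβ j (Finset.mem_range.1 hj)).mul (ih.pow j))))
      refine h1.congr (Eventually.of_forall fun t => ?_)
      rw [← hfv]
      show _ = it (E t) (b t) (ρ i0 t) n - fv (E t) (b t) (it (E t) (b t) (ρ i0 t) n) /
          (E t).derivative.eval (ρ i0 t)
      rw [div_eq_mul_inv]
      ring
  refine Ap.lim fun κ => ?_
  obtain ⟨n, hn⟩ := exists_nat_gt (κ / (c / 2))
  refine ⟨_, hit n, ?_⟩
  filter_upwards [hρ2, hH_le hH 0, hsm] with t h1 h3 h6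
  have h7 : (A0 t * Real.exp (-(c * H t))) ^ (n + 1) ≤ Real.exp (-(κ * H t)) := by
    refine (pow_le_pow_left₀ (mul_nonneg (hA0s.1 t) (Real.exp_pos _).le) h6 _).trans ?_
    rw [← Real.exp_nat_mul]
    refine Real.exp_le_exp.2 ?_
    push_cast
    rw [div_lt_iff₀ (by positivity)] at hn
    have h8 := mul_le_mul_of_nonneg_right hn.le h3
    have h9 : 0 ≤ c / 2 * H t := by positivity
    linarith
  rw [← map_neg_eq_map, neg_sub]
  exact (h1 n).trans h7

variable [IsGalois ℚ L]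

/-- **Integers approximated by sums of units are sums of units.** -/
theorem ap_int (hΓσ : ∀ σ : L ≃ₐ[ℚ] L, ∀ g ∈ Γ, Units.map (σ : L →* L) g ∈ Γ) (S : Finset (Pl L))
    (hS : ∀ w : InfinitePlace L, (Sum.inl w : Pl L) ∈ S) (hΓS : ∀ g ∈ Γ, IsU S (g : L))
    (v0 : InfinitePlace L) (y : α → ℤ) (hy : Mdr 𝓕 H (fun t => (y t : L)))
    (hap : Ap hH Γ (Sum.inl v0 : Pl L) (fun t => (y t : L))) :
    Sp (slowF 𝓕 L H hH) (PU 𝓕 H S) (mk 𝓕 (fun t => (y t : L))) := by
  obtain ⟨R, hRsp, hap⟩ := hap 1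
  choose σ hσ using exists_aut v0
  refine lemP hH S hS (fun t => (y t : L)) hy
    (fun t v => av_int v _) (fun w t => σ w (R t))
    (fun w => Sp.mono (PG.toPU hΓS) (sp_aut hH (σ w) (hΓσ (σ w)) _ hRsp)) 1 one_pos fun w => ?_
  filter_upwards [hap] with t ht
  refine le_trans (le_of_eq ?_) ht
  show w ((y t : L) - σ w (R t)) = v0 ((y t : L) - R t)
  rw [hσ w, map_sub, AlgEquiv.symm_apply_apply, map_intCast]

end Pool.Agent.Run7.h28.BV
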