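import Mathlib
import Pool.Agent.Run7.h28.BV.ApRoot

/-!
# Project BV (helper28): roots of polynomials at sparse points near a direction, not monic
-/

set_option autoImplicit false
set_option linter.unusedSectionVars false

open Filter Topology

namespace Pool.Agent.Run7.h28.BV

open NumberField IsDedekindDomain Height Module
open Pool.Agent.W180.OP (Pl av wt nrm le_nrm nrm_pos wt_nonneg exists_nrm nrm_nonneg)
open Pool.Agent.N750
open Pool.Agent.Run7.h28.HK
open Pool.Agent.Run7.h28.EC (SubE)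

/-- the part of `P` of weight `q D + p q` at the point `(c, Y)`, where the variables of the
coefficients have weight `q` and `Y` has weight `p` -/
noncomputable def topQ {n : ℕ} {K : Type} [Field K] (p q D : ℕ)
    (P : Polynomial (MvPolynomial (Fin n) ℤ)) (c : Fin n → K) : Polynomial K :=
  ∑ j ∈ Finset.range (q + 1),
    Polynomial.C (∑ m ∈ (P.coeff j).support with q * ∑ l, m l = q * D + p * (q - j),
      (((P.coeff j).coeff m : ℤ) : K) * ∏ l, c l ^ m l) * Polynomial.X ^ j

/-- the polynomials `P` of degree at most `q` with coefficients at most `M`, such that the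
coefficient of `Y ^ j` has degree at most `D + p (q - j) / q` -/
structure AdmQ {n : ℕ} (p q D : ℕ) (M : ℝ) (P : Polynomial (MvPolynomial (Fin n) ℤ)) : Prop where
  deg : P.natDegree ≤ q
  bd : ∀ j m, |(((P.coeff j).coeff m : ℤ) : ℝ)| ≤ M
  wt : ∀ j ≤ q, q * (P.coeff j).totalDegree ≤ q * D + p * (q - j)

lemma topQ_map {n : ℕ} {K L : Type} [Field K] [Field L] (ψ : K →+* L) (p q D : ℕ)
    (P : Polynomial (MvPolynomial (Fin n) ℤ)) (c : Fin n → K) :
    (topQ p q D P c).map ψ = topQ p q D P (fun l => ψ (c l)) := by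
  unfold topQ
  rw [Polynomial.map_sum]
  refine Finset.sum_congr rfl fun j _ => ?_
  rw [Polynomial.map_mul, Polynomial.map_C, Polynomial.map_pow, Polynomial.map_X, map_sum]
  refine congrArg (fun w => Polynomial.C w * Polynomial.X ^ j)
    (Finset.sum_congr rfl fun m _ => ?_)
  rw [map_mul, map_intCast, map_prod]
  congr 1
  refine Finset.prod_congr rfl fun l _ => ?_
  rw [map_pow]

section adm

variable {n p q D : ℕ} (hq : 0 < q) {M : ℝ} {P : Polynomial (MvPolynomial (Fin n) ℤ)}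
  (hP : AdmQ p q D M P)
include hq hP

lemma AdmQ.td {j : ℕ} (hj : j ≤ q) : (P.coeff j).totalDegree ≤ D + p := by
  have h1 := hP.wt j hj
  have h2 : q * D + p * (q - j) ≤ q * (D + p) := by
    rw [mul_add, mul_comm q p]
    exact Nat.add_le_add_left (Nat.mul_le_mul_left _ (Nat.sub_le _ _)) _
  exact Nat.le_of_mul_le_mul_left (h1.trans h2) hq

lemma AdmQ.wt' {j : ℕ} (hj : j ≤ q) {m : Fin n →₀ ℕ} (hm : (P.coeff j).coeff m ≠ 0) :
    q * ∑ l, m l ≤ q * D + p * (q - j) :=
  (Nat.mul_le_mul_left q (coeff_deg _ hm)).trans (hP.wt j hj)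

lemma AdmQ.top_coeff {K : Type} [Field K] (c : Fin n → K) {j : ℕ} (hj : j ≤ q) :
    (topQ p q D P c).coeff j = ∑ m ∈ expo (Fin n) (D + p),
      if q * ∑ l, m l = q * D + p * (q - j) then (((P.coeff j).coeff m : ℤ) : K) * ∏ l, c l ^ m l
        else 0 := by
  classical
  unfold topQ
  simp only [Polynomial.finsetSum_coeff, Polynomial.coeff_C_mul_X_pow]
  rw [Finset.sum_ite_eq, if_pos (Finset.mem_range.2 (by omega)), Finset.sum_filter]
  refine Finset.sum_subset (fun m hm => mem_expo.2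
    ((coeff_deg _ (MvPolynomial.mem_support_iff.1 hm)).trans (hP.td hq hj))) fun m _ hm => ?_
  rw [MvPolynomial.notMem_support_iff.1 hm, Int.cast_zero, zero_mul, ite_self]

/-- the value of the polynomial -/
lemma AdmQ.eval {R : Type} [CommRing R] (x : Fin n → ℤ) (y : ℤ)
    (h : P.eval₂ (MvPolynomial.eval x) y = 0) :
    ∑ j ∈ Finset.range (q + 1),
      MvPolynomial.aeval (fun l => (x l : R)) (P.coeff j) * (y : R) ^ j = 0 := by
  rw [Polynomial.eval₂_eq_sum_range' _ (show P.natDegree < q + 1 from Nat.lt_succ_of_le hP.deg)]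
    at h
  have h1 := congrArg (Int.cast : ℤ → R) h
  push_cast at h1
  rw [← h1]
  refine Finset.sum_congr rfl fun j _ => ?_
  congr 1
  exact cast_eval x _

end adm

section seq

variable {L : Type} [Field L] [NumberField L] {α : Type} {𝓕 : Ultrafilter α} {H : α → ℝ}

/-- inverses of functions close to slow functions -/
lemma Cg.inv (hH : Tendsto H 𝓕 atTop) {v : Pl L} {β e : α → L} (he : Slow 𝓕 H e)
    (he0 : ∀ᶠ t in (𝓕 : Filter α), e t ≠ 0) (hs : Sm 𝓕 H v (fun t => β t - e t)) :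
    (∀ᶠ t in (𝓕 : Filter α), β t ≠ 0) ∧ Cg 𝓕 H v (fun t => (β t)⁻¹) (fun t => (e t)⁻¹) := by
  obtain ⟨c, hc, h⟩ := hs
  have hall : ∀ᶠ t in (𝓕 : Filter α), β t ≠ 0 ∧ av v ((β t)⁻¹ - (e t)⁻¹) ≤
      Real.exp (-(c / 4 * H t)) := by
    filter_upwards [he0, h, hH_le hH 0, inv_bd (v := v) he (ε := c / 8) (by positivity),
      (SubE.const hH (c := 2) (by norm_num)).2 (c / 2) (by positivity)] with t h1 h2 h3 h4 h5
    have he1 : 0 < av v (e t) := (av v).pos_iff.2 h1
    have h6 : Real.exp (-(c / 8 * H t)) ≤ av v (e t) := by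
      rw [map_inv₀] at h4
      rw [Real.exp_neg]
      exact inv_le_of_inv_le₀ he1 h4
    have h7 : av v (β t - e t) ≤ av v (e t) / 2 := by
      refine h2.trans ?_
      have h8 : Real.exp (-(c * H t)) * 2 ≤ Real.exp (-(c / 8 * H t)) := by
        calc Real.exp (-(c * H t)) * 2 ≤ Real.exp (-(c * H t)) * Real.exp (c / 2 * H t) :=
              mul_le_mul_of_nonneg_left h5 (Real.exp_pos _).le
          _ = Real.exp (-(c / 2 * H t)) := by
              rw [← Real.exp_add]
              congr 1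
              ring
          _ ≤ _ := Real.exp_le_exp.2 (neg_le_neg (mul_le_mul_of_nonneg_right (by linarith) h3))
      linarith
    have h8 : av v (e t) / 2 ≤ av v (β t) := by
      have h9 : av v (e t) ≤ av v (β t) + av v (β t - e t) := by
        have h10 : e t = β t - (β t - e t) := by ring
        calc av v (e t) = av v (β t - (β t - e t)) := by rw [← h10]
          _ ≤ _ := (av v).sub_le_add _ _
      linarith
    have hβ0 : 0 < av v (β t) := by linarith
    have hβ : β t ≠ 0 := (av v).pos_iff.1 hβ0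
    refine ⟨hβ, ?_⟩
    have h9 : (β t)⁻¹ - (e t)⁻¹ = -(β t - e t) * ((β t)⁻¹ * (e t)⁻¹) := by
      field_simp
      ring
    have h10 : av v (β t)⁻¹ ≤ 2 * av v (e t)⁻¹ := by
      rw [map_inv₀, map_inv₀]
      have h11 := inv_anti₀ (by positivity) h8
      calc (av v (β t))⁻¹ ≤ (av v (e t) / 2)⁻¹ := h11
        _ = 2 * (av v (e t))⁻¹ := by
            field_simp
    rw [h9, map_mul, map_mul, map_neg_eq_map]
    calc av v (β t - e t) * (av v (β t)⁻¹ * av v (e t)⁻¹) ≤
          Real.exp (-(c * H t)) * ((2 * av v (e t)⁻¹) * av v (e t)⁻¹) := by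
          refine mul_le_mul h2 (mul_le_mul_of_nonneg_right h10 ((av v).nonneg _)) ?_
            (Real.exp_pos _).le
          exact mul_nonneg ((av v).nonneg _) ((av v).nonneg _)
      _ ≤ Real.exp (-(c * H t)) * ((Real.exp (c / 2 * H t) * Real.exp (c / 8 * H t)) *
            Real.exp (c / 8 * H t)) := by
          refine mul_le_mul_of_nonneg_left ?_ (Real.exp_pos _).le
          exact mul_le_mul (mul_le_mul h5 h4 ((av v).nonneg _) (Real.exp_pos _).le) h4
            ((av v).nonneg _) (by positivity)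
      _ = Real.exp (-(c / 4 * H t)) := by
          rw [← Real.exp_add, ← Real.exp_add, ← Real.exp_add]
          congr 1
          ring
  exact ⟨hall.mono fun t ht => ht.1, ⟨c / 4, by positivity, hall.mono fun t ht => ht.2⟩,
    Bd.slow he.inv v⟩

/-- the monomials in terms of the quotients by the power of the unit -/
lemma mono_eq2 {L : Type} [Field L] {n : ℕ} {q s N : ℕ} (e : Fin n → ℕ)
    (h : q * ∑ l, e l ≤ N) (x : Fin n → L) (V : L) :
    (∏ l, x l ^ e l) * (V⁻¹) ^ (s * N) =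
      (∏ l, (x l / V ^ (s * q)) ^ e l) * (V⁻¹) ^ (s * (N - q * ∑ l, e l)) := by
  have h1 : s * N = s * q * (∑ l, e l) + s * (N - q * ∑ l, e l) := by
    obtain ⟨r, hr⟩ := Nat.exists_eq_add_of_le h
    rw [hr, Nat.add_sub_cancel_left]
    ring
  simp_rw [div_pow]
  rw [Finset.prod_div_distrib]
  conv_lhs => rw [h1, pow_add]
  have h2 : (∏ l, (V ^ (s * q)) ^ e l)⁻¹ = V⁻¹ ^ (s * q * ∑ l, e l) := by
    rw [Finset.prod_pow_eq_pow_sum, ← pow_mul, inv_pow]
  rw [div_eq_mul_inv, h2]
  ring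

/-- the closeness of the coefficients -/
lemma coef_close2 (hH : Tendsto H 𝓕 atTop) (v : Pl L) {n q s N : ℕ} (hs : 0 < s)
    (M : α → ℝ) (hM : ∀ t, 1 ≤ M t)
    (hneg : ∀ ε' : ℝ, 0 < ε' → ∀ᶠ t in (𝓕 : Filter α), 1 + Real.log (M t) ≤ ε' * H t)
    (f : α → (Fin n →₀ ℕ) → ℤ) (hf : ∀ t m, |(f t m : ℝ)| ≤ M t)
    (hf2 : ∀ t m, f t m ≠ 0 → q * ∑ l, m l ≤ N)
    (c : Fin n → α → L) (hc : ∀ l, Slow 𝓕 H (c l)) (V : α → Lˣ)
    (hVs : Sm 𝓕 H v (fun t => (V t : L)⁻¹)) (x : Fin n → α → L)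
    (hxc : ∀ l, Sm 𝓕 H v (fun t => x l t / (V t : L) ^ (s * q) - c l t)) (A : Finset (Fin n →₀ ℕ)) :
    Sm 𝓕 H v (fun t => (∑ m ∈ A, (f t m : L) * ∏ l, x l t ^ m l) *
      ((V t : L)⁻¹) ^ (s * N) -
      ∑ m ∈ A, if q * ∑ l, m l = N then (f t m : L) * ∏ l, c l t ^ m l else 0) := by
  have hcg : ∀ l, Cg 𝓕 H v (fun t => x l t / (V t : L) ^ (s * q)) (c l) := fun l =>
    ⟨hxc l, Bd.slow (hc l) v⟩
  have hmon : ∀ m : Fin n →₀ ℕ, Cg 𝓕 H v (fun t => ∏ l, (x l t / (V t : L) ^ (s * q)) ^ m l)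
      (fun t => ∏ l, c l t ^ m l) := fun m =>
    Cg.prod hH _ (fun l t => (x l t / (V t : L) ^ (s * q)) ^ m l) (fun l t => c l t ^ m l)
      fun l _ => (hcg l).pow hH _
  have hterm : ∀ m ∈ A, Sm 𝓕 H v (fun t => (f t m : L) * (∏ l, x l t ^ m l) *
      ((V t : L)⁻¹) ^ (s * N) -
      if q * ∑ l, m l = N then (f t m : L) * ∏ l, c l t ^ m l else 0) := by
    intro m _
    have hfb : Bd 𝓕 H v (fun t => (f t m : L)) :=
      Bd.slow (slow_int hM hneg (fun t => f t m) fun t => hf t m) v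
    rcases lt_trichotomy (q * ∑ l, m l) N with hlt | heq | hgt
    · have h1 : (fun t => (f t m : L) * (∏ l, x l t ^ m l) *
          ((V t : L)⁻¹) ^ (s * N) -
          if q * ∑ l, m l = N then (f t m : L) * ∏ l, c l t ^ m l else 0) =
          fun t => (V t : L)⁻¹ ^ (s * (N - q * ∑ l, m l)) *
            ((f t m : L) * ∏ l, (x l t / (V t : L) ^ (s * q)) ^ m l) := by
        funext t
        rw [if_neg hlt.ne, sub_zero, mul_assoc, mono_eq2 (fun l => m l) hlt.le]
        ring
      rw [h1]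
      refine (hVs.pow hH ?_).mul (hfb.mul ((hmon m).bd hH))
      have h2 : 0 < N - q * ∑ l, m l := by omega
      exact (Nat.mul_pos hs h2).ne'
    · have h1 : (fun t => (f t m : L) * (∏ l, x l t ^ m l) *
          ((V t : L)⁻¹) ^ (s * N) -
          if q * ∑ l, m l = N then (f t m : L) * ∏ l, c l t ^ m l else 0) =
          fun t => ((∏ l, (x l t / (V t : L) ^ (s * q)) ^ m l) - ∏ l, c l t ^ m l) *
            (f t m : L) := by
        funext t
        rw [if_pos heq, mul_assoc, mono_eq2 (fun l => m l) heq.le, heq, Nat.sub_self, mul_zero,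
          pow_zero]
        ring
      rw [h1]
      exact (hmon m).1.mul hfb
    · have h1 : (fun t => (f t m : L) * (∏ l, x l t ^ m l) *
          ((V t : L)⁻¹) ^ (s * N) -
          if q * ∑ l, m l = N then (f t m : L) * ∏ l, c l t ^ m l else 0) =
          fun _ => (0 : L) := by
        funext t
        have h2 : f t m = 0 := by
          by_contra h
          have h3 := hf2 t m h
          omega
        rw [if_neg hgt.ne', h2, Int.cast_zero, zero_mul, zero_mul, sub_zero]
      rw [h1]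
      exact Sm.zero
  have h2 := Sm.sum hH A _ hterm
  have h3 : (fun t => (∑ m ∈ A, (f t m : L) * ∏ l, x l t ^ m l) *
      ((V t : L)⁻¹) ^ (s * N) -
      ∑ m ∈ A, if q * ∑ l, m l = N then (f t m : L) * ∏ l, c l t ^ m l else 0) =
      fun t => ∑ m ∈ A, ((f t m : L) * (∏ l, x l t ^ m l) *
      ((V t : L)⁻¹) ^ (s * N) -
      if q * ∑ l, m l = N then (f t m : L) * ∏ l, c l t ^ m l else 0) := by
    funext t
    rw [Finset.sum_sub_distrib, Finset.sum_mul]
  rw [h3]
  exact h2

/-- **Algebraic functions at sparse points near a direction are approximated by sums of units.** -/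
theorem ord_ap {hH : Tendsto H 𝓕 atTop} {Γ : Subgroup Lˣ}
    {v : Pl L} {n p q D s : ℕ} (hq : 0 < q) (hs : 0 < s) (M : α → ℝ)
    (hM : ∀ t, 1 ≤ M t)
    (hneg : ∀ ε' : ℝ, 0 < ε' → ∀ᶠ t in (𝓕 : Filter α), 1 + Real.log (M t) ≤ ε' * H t)
    (P : α → Polynomial (MvPolynomial (Fin n) ℤ)) (hP : ∀ t, AdmQ p q D (M t) (P t))
    (c : Fin n → α → L) (hc : ∀ l, Slow 𝓕 H (c l))
    (hdeg : ∀ t, (topQ p q D (P t) (fun l => c l t)).natDegree = q)
    (hsep : ∀ t, (topQ p q D (P t) (fun l => c l t)).Separable)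
    (hspl : ∀ t, (topQ p q D (P t) (fun l => c l t)).Splits)
    (V : α → Lˣ) (hV : ∀ t, V t ∈ Γ) (hVm : Mdr 𝓕 H (fun t => (V t : L)))
    (hVs : Sm 𝓕 H v (fun t => (V t : L)⁻¹))
    (x : Fin n → α → L)
    (hx : ∀ l, Sp (slowF 𝓕 L H hH) (PG 𝓕 H Γ) (mk 𝓕 (x l)))
    (hxc : ∀ l, Sm 𝓕 H v (fun t => x l t / (V t : L) ^ (s * q) - c l t))
    (y : α → L)
    (hzero : ∀ t, ∑ j ∈ Finset.range (q + 1),
      MvPolynomial.aeval (fun l => x l t) ((P t).coeff j) * y t ^ j = 0) :
    Ap hH Γ v y := by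
  classical
  obtain ⟨E, hE⟩ : ∃ E : α → Polynomial L, E = fun t => topQ p q D (P t) (fun l => c l t) :=
    ⟨_, rfl⟩
  have hEdeg : ∀ t, (E t).natDegree = q := fun t => by rw [hE]; exact hdeg t
  have hfs : ∀ j m, Slow 𝓕 H (fun t => ((((P t).coeff j).coeff m : ℤ) : L)) := fun j m =>
    slow_int hM hneg (fun t => ((P t).coeff j).coeff m) fun t => (hP t).bd j m
  have hEcoef : ∀ t, ∀ j ≤ q, (E t).coeff j = ∑ m ∈ expo (Fin n) (D + p),
      if q * ∑ l, m l = q * D + p * (q - j) then ((((P t).coeff j).coeff m : ℤ) : L) *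
        ∏ l, c l t ^ m l else 0 := fun t j hj => by rw [hE]; exact (hP t).top_coeff hq _ hj
  have hEs : ∀ j, Slow 𝓕 H (fun t => (E t).coeff j) := by
    intro j
    rcases le_or_gt j q with hj | hj
    · have h1 : (fun t => (E t).coeff j) = fun t => ∑ m ∈ expo (Fin n) (D + p),
          if q * ∑ l, m l = q * D + p * (q - j) then ((((P t).coeff j).coeff m : ℤ) : L) *
            ∏ l, c l t ^ m l else 0 := funext fun t => hEcoef t j hj
      rw [h1]
      refine slow_sum hH _ fun m _ => ?_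
      split_ifs
      · exact (hfs j m).mul (slow_prod hH _ (a := fun l t => c l t ^ m l)
          fun l _ => (hc l).pow hH _)
      · exact slow_const hH 0
    · have h1 : (fun t => (E t).coeff j) = fun _ => (0 : L) := funext fun t =>
        Polynomial.coeff_eq_zero_of_natDegree_lt (by rw [hEdeg]; exact hj)
      rw [h1]
      exact slow_const hH 0
  -- the leading coefficient
  have hl0 : ∀ t, (E t).coeff q ≠ 0 := by
    intro t h
    have h1 : (E t).leadingCoeff = 0 := by rw [Polynomial.leadingCoeff, hEdeg t, h]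
    rw [Polynomial.leadingCoeff_eq_zero] at h1
    have h2 := hEdeg t
    rw [h1, Polynomial.natDegree_zero] at h2
    omega
  obtain ⟨E', hE'⟩ : ∃ E' : α → Polynomial L,
      E' = fun t => Polynomial.C ((E t).coeff q)⁻¹ * E t := ⟨_, rfl⟩
  have hE'c : ∀ t j, (E' t).coeff j = ((E t).coeff q)⁻¹ * (E t).coeff j := fun t j => by
    rw [hE', Polynomial.coeff_C_mul]
  have hE'deg : ∀ t, (E' t).natDegree = q := fun t => by
    rw [hE', Polynomial.natDegree_C_mul (inv_ne_zero (hl0 t)), hEdeg]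
  have hE'mon : ∀ t, (E' t).Monic := fun t => by
    rw [Polynomial.Monic, Polynomial.leadingCoeff, hE'deg, hE'c, inv_mul_cancel₀ (hl0 t)]
  have hE's : ∀ j, Slow 𝓕 H (fun t => (E' t).coeff j) := fun j => by
    have h1 : (fun t => (E' t).coeff j) = fun t => ((E t).coeff q)⁻¹ * (E t).coeff j :=
      funext fun t => hE'c t j
    rw [h1]
    exact (hEs q).inv.mul (hEs j)
  have hE'sep : ∀ t, (E' t).Separable := fun t => by
    rw [hE']
    refine Polynomial.Separable.unit_mul ?_ (by rw [hE]; exact hsep t)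
    exact Polynomial.isUnit_C.2 (isUnit_iff_ne_zero.2 (inv_ne_zero (hl0 t)))
  have hE'spl : ∀ t, (E' t).Splits := fun t => by
    rw [hE']
    exact (Polynomial.Splits.C _).mul (by rw [hE]; exact hspl t)
  choose r hr1 hr2 hr3 using fun t => EC.enum_roots (E' t) (hE'mon t) (hE'deg t)
    (hE'sep t) (hE'spl t)
  have hrs : ∀ i, Slow 𝓕 H (fun t => r t i) := by
    intro i
    refine slow_root hH hq (fun j t => (E' t).coeff j) hE's _ fun t => ?_
    have h0 : (E' t).eval (r t i) = 0 := by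
      rw [hr2]
      exact Finset.prod_eq_zero (Finset.mem_univ i) (sub_self _)
    rw [Polynomial.eval_eq_sum_range, hE'deg, Finset.sum_range_succ] at h0
    have h3 : (E' t).coeff q = 1 := by
      have h4 := (hE'mon t).coeff_natDegree
      rwa [hE'deg] at h4
    rw [h3, one_mul] at h0
    rw [← h0, add_comm]
  -- the coefficients
  obtain ⟨β, hβ⟩ : ∃ β : ℕ → α → L, β = fun j t => (∑ m ∈ expo (Fin n) (D + p),
      ((((P t).coeff j).coeff m : ℤ) : L) * ∏ l, (x l t) ^ m l) *
        ((V t : L)⁻¹) ^ (s * (q * D + p * (q - j))) := ⟨_, rfl⟩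
  have hβe : ∀ j ≤ q, ∀ t, β j t = MvPolynomial.aeval (fun l => x l t) ((P t).coeff j) *
      ((V t : L)⁻¹) ^ (s * (q * D + p * (q - j))) := by
    intro j hj t
    rw [hβ, aeval_expo _ ((hP t).td hq hj)]
  have hmul : ∀ a b : Gm 𝓕 L, PG 𝓕 H Γ a → PG 𝓕 H Γ b → PG 𝓕 H Γ (a * b) := fun _ _ => PG.mul
  have hVpg : PG 𝓕 H Γ (mk 𝓕 (fun t => (V t : L))) := ⟨V, rfl, hV, hVm⟩
  have hVinv : PG 𝓕 H Γ (mk 𝓕 (fun t => (V t : L)⁻¹)) := by
    have h2 := hVpg.inv
    rwa [mk_inv] at h2
  have hVa : Ap hH Γ v (fun t => (V t : L)) := Ap.sp (Sp.of hVpg)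
  have hVia : Ap hH Γ v (fun t => (V t : L)⁻¹) := Ap.sp (Sp.of hVinv)
  have hprodap : ∀ (A : Finset (Fin n)) (m : Fin n →₀ ℕ),
      Ap hH Γ v (fun t => ∏ l ∈ A, (x l t) ^ m l) := by
    intro A m
    induction A using Finset.induction_on with
    | empty => simpa only [Finset.prod_empty] using
        Ap.slow (f := fun _ => (1 : L)) (slow_const hH _)
    | insert a A ha ih =>
      simp only [Finset.prod_insert ha]
      exact ((Ap.sp (hx a)).pow _).mul ih
  have hβa : ∀ j, Ap hH Γ v (β j) := by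
    intro j
    rw [hβ]
    exact (Ap.sum _ (fun m t => ((((P t).coeff j).coeff m : ℤ) : L) * ∏ l, (x l t) ^ m l)
      fun m _ => (Ap.slow (hfs j m)).mul (hprodap _ m)).mul (hVia.pow _)
  have hβs : ∀ j ≤ q, Sm 𝓕 H v (fun t => β j t - (E t).coeff j) := by
    intro j hj
    have h1 := coef_close2 hH v (n := n) (q := q) (N := q * D + p * (q - j)) hs M hM hneg
        (fun t m => ((P t).coeff j).coeff m) (fun t m => (hP t).bd j m)
        (fun t m hm => (hP t).wt' hq hj hm) c hc V hVs x hxc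
        (expo (Fin n) (D + p))
    have h2 : (fun t => β j t - (E t).coeff j) = fun t => (∑ m ∈ expo (Fin n) (D + p),
        ((((P t).coeff j).coeff m : ℤ) : L) * ∏ l, (x l t) ^ m l) *
        ((V t : L)⁻¹) ^ (s * (q * D + p * (q - j))) - ∑ m ∈ expo (Fin n) (D + p),
      if q * ∑ l, m l = q * D + p * (q - j) then ((((P t).coeff j).coeff m : ℤ) : L) *
        ∏ l, c l t ^ m l else 0 := by
      funext t
      rw [hEcoef t j hj, hβ]
    rw [h2]
    exact h1
  -- division by the leading coefficient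
  obtain ⟨hβ0, hinv⟩ := Cg.inv hH (hEs q) (Eventually.of_forall hl0) (hβs q le_rfl)
  have hβi : Ap hH Γ v (fun t => (β q t)⁻¹) :=
    Ap.inv (hβa q) (hEs q) (Eventually.of_forall hl0) (hβs q le_rfl)
  have hY : Ap hH Γ v (fun t => y t * ((V t : L)⁻¹) ^ (s * p)) := by
    refine ap_root hq E' hE'mon hE'deg hE's (fun i t => r t i) hrs hr2
      (fun t i j hij h => hij (hr1 t h)) hr3 (fun j t => (β q t)⁻¹ * β j t)
      (fun j _ => hβi.mul (hβa j)) (fun j hj => ?_) _ ?_
    · have h1 := (hinv.mul hH (⟨hβs j hj.le, Bd.slow (hEs j) v⟩ :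
        Cg 𝓕 H v (β j) (fun t => (E t).coeff j))).1
      have h2 : (fun t => (β q t)⁻¹ * β j t - (E' t).coeff j) =
          fun t => (β q t)⁻¹ * β j t - ((E t).coeff q)⁻¹ * (E t).coeff j := by
        funext t
        rw [hE'c]
      rw [h2]
      exact h1
    · filter_upwards [hβ0] with t ht
      have hV0 : (V t : L) ≠ 0 := (V t).ne_zero
      have h1 : ∑ j ∈ Finset.range (q + 1), β j t * (y t * ((V t : L)⁻¹) ^ (s * p)) ^ j = 0 := by
        have h2 : ∑ j ∈ Finset.range (q + 1), β j t * (y t * ((V t : L)⁻¹) ^ (s * p)) ^ j =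
            (∑ j ∈ Finset.range (q + 1), MvPolynomial.aeval (fun l => x l t) ((P t).coeff j) *
              y t ^ j) * ((V t : L)⁻¹) ^ (s * (q * D + p * q)) := by
          rw [Finset.sum_mul]
          refine Finset.sum_congr rfl fun j hj => ?_
          have hj' : j ≤ q := by
            have := Finset.mem_range.1 hj
            omega
          rw [hβe j hj', mul_pow, ← pow_mul]
          have h3 : s * (q * D + p * q) = s * (q * D + p * (q - j)) + s * p * j := by
            obtain ⟨r, hr⟩ := Nat.exists_eq_add_of_le hj'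
            rw [hr, Nat.add_sub_cancel_left]
            ring
          rw [h3, pow_add]
          ring
        rw [h2, hzero t, zero_mul]
      rw [Finset.sum_range_succ] at h1
      have h4 : (β q t)⁻¹ * (∑ j ∈ Finset.range q, β j t * (y t * ((V t : L)⁻¹) ^ (s * p)) ^ j +
          β q t * (y t * ((V t : L)⁻¹) ^ (s * p)) ^ q) = 0 := by rw [h1, mul_zero]
      rw [mul_add, ← mul_assoc, inv_mul_cancel₀ ht, one_mul, Finset.mul_sum, add_comm] at h4
      rw [← h4]
      congr 1
      refine Finset.sum_congr rfl fun j _ => ?_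
      ring
  refine (hY.mul (hVa.pow (s * p))).congr (Eventually.of_forall fun t => ?_)
  have hV0 : (V t : L) ≠ 0 := (V t).ne_zero
  rw [mul_assoc, ← mul_pow, inv_mul_cancel₀ hV0, one_pow, mul_one]

end seq

end Pool.Agent.Run7.h28.BV
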