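import Mathlib
import Pool.Agent.Run7.h28.BV.OrdQ
import Pool.Agent.Run7.h28.BV.MainP

/-!
# Project BV (helper28): sequences of points above sparse points near a direction
-/

set_option autoImplicit false
set_option linter.unusedSectionVars false

open Filter Topology

namespace Pool.Agent.Run7.h28.BV

open NumberField IsDedekindDomain Height Module
open Pool.Agent.W180.OP (Pl av wt nrm le_nrm nrm_pos wt_nonneg exists_nrm nrm_nonneg)
open Pool.Agent.N750
open Pool.Agent.Run7.h28.HK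
open Pool.Agent.Run7.h28.EC (SubE)

/-- an integer which is not too large at an infinite place is moderate -/
lemma mdr_of_lb {L : Type} [Field L] [NumberField L] {α : Type} {𝓕 : Ultrafilter α} {H : α → ℝ}
    (hH : Tendsto H 𝓕 atTop) (v0 : InfinitePlace L) (y : α → ℤ)
    (h : LB 𝓕 H (Sum.inl v0 : Pl L) (fun t => (y t : L))) : Mdr 𝓕 H (fun t => (y t : L)) := by
  obtain ⟨C, hC, h1⟩ := h
  refine ⟨finrank ℚ L * C, ?_⟩
  filter_upwards [h1, hH_le hH 0] with t h2 h3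
  refine (ht_int _).trans ?_
  rw [mul_assoc]
  refine mul_le_mul_of_nonneg_left ?_ (Nat.cast_nonneg _)
  rw [av_inf] at h2
  have h4 : max 1 |(y t : ℝ)| ≤ Real.exp (C * H t) :=
    max_le (Real.one_le_exp (mul_nonneg hC h3)) h2
  have h5 := Real.log_le_log (by positivity) h4
  rwa [Real.log_exp] at h5

/-- from powers to logarithms -/
lemma log_step2 (t : ℕ) (M sz : ℝ) (hM : 1 ≤ M)
    (h : (Real.exp 1 * ((t : ℝ) + 1) * M) ^ (Real.exp 1 * ((t : ℝ) + 1)) < sz) :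
    ((t : ℝ) + 1) * (1 + Real.log M) ≤ Real.log sz := by
  have ht : (0 : ℝ) ≤ t := Nat.cast_nonneg t
  have h2 : 0 < Real.exp 1 * ((t : ℝ) + 1) * M := by positivity
  have h4 := Real.log_lt_log (Real.rpow_pos_of_pos h2 _) h
  rw [Real.log_rpow h2, Real.log_mul (by positivity) (by linarith),
    Real.log_mul (Real.exp_pos _).ne' (by positivity), Real.log_exp] at h4
  have h5 : 0 ≤ Real.log ((t : ℝ) + 1) := Real.log_nonneg (by linarith)
  have h6 : 0 ≤ Real.log M := Real.log_nonneg hM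
  have h7 : (1 : ℝ) ≤ Real.exp 1 := Real.one_le_exp zero_le_one
  have h8 : ((t : ℝ) + 1) ≤ Real.exp 1 * ((t : ℝ) + 1) :=
    le_mul_of_one_le_left (by positivity) h7
  have h9 : ((t : ℝ) + 1) * (1 + Real.log M) ≤
      Real.exp 1 * ((t : ℝ) + 1) * (1 + Real.log ((t : ℝ) + 1) + Real.log M) :=
    mul_le_mul h8 (by linarith) (by linarith) (by positivity)
  linarith

/-- **Sequences of points above sparse points near a direction**: the germs of the coordinates are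
sums of units. -/
theorem seq {K : Type} [Field K] [NumberField K] (φ : K →+* ℂ) (Γ : Subgroup Kˣ) (hΓ : Γ.FG)
    (n m k : ℕ) (p q D : Fin m → ℕ) (hq : ∀ i, 0 < q i) (B δ : ℝ) (hδ : 0 < δ)
    (M : ℕ → ℝ) (F : ℕ → Fin m → Polynomial (MvPolynomial (Fin n) ℤ)) (c : ℕ → Fin n → K)
    (hM : ∀ t, 1 ≤ M t) (hF : ∀ t i, AdmQ (p i) (q i) (D i) (M t) (F t i))
    (hc : ∀ t l, mulHeight₁ (c t l) ≤ M t)
    (htop : ∀ t i, (topQ (p i) (q i) (D i) (F t i) (c t)).natDegree = q i)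
    (hsep : ∀ t i, (topQ (p i) (q i) (D i) (F t i) (c t)).Separable)
    (hspl : ∀ t i, (topQ (p i) (q i) (D i) (F t i) (c t)).Splits)
    (v : ℕ → Γ) (u : ℕ → Fin n → Fin k → Γ) (a : ℕ → Fin n → Fin k → K)
    (z : ℕ → Fin n ⊕ Fin m → ℤ)
    (hzero : ∀ t i, (F t i).eval₂ (MvPolynomial.eval fun l => z t (Sum.inl l))
      (z t (Sum.inr i)) = 0)
    (ha : ∀ t l r, mulHeight₁ (a t l r) ≤ M t)
    (hx : ∀ t l, (z t (Sum.inl l) : K) = ∑ r, a t l r * ((u t l r : Kˣ) : K))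
    (hv : ∀ t, mulHeight₁ ((v t : Kˣ) : K) ≤ M t * (1 + ∑ l, |(z t (Sum.inl l) : ℝ)|) ^ B)
    (hgap : ∀ t l, ‖φ ((z t (Sum.inl l) : K) - c t l * ((v t : Kˣ) : K))‖ ≤
      M t * (1 + ∑ l, |(z t (Sum.inl l) : ℝ)|) ^ (1 - δ))
    (hbig : ∀ t : ℕ, ∃ l, (Real.exp 1 * ((t : ℝ) + 1) * M t) ^ (Real.exp 1 * ((t : ℝ) + 1)) <
      |(z t (Sum.inl l) : ℝ)|) :
    ∃ (L : IntermediateField ℚ ℂ) (_ : NumberField L) (ψ : K →+* L) (𝓕 : Ultrafilter ℕ)
      (H : ℕ → ℝ) (hH : Tendsto H 𝓕 atTop) (S : Finset (Pl L)),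
      (∀ x, ((ψ x : L) : ℂ) = φ x) ∧ (𝓕 : Filter ℕ) ≤ atTop ∧
      (∀ w : InfinitePlace L, (Sum.inl w : Pl L) ∈ S) ∧
      (∀ t, Real.exp (H t) = 1 + ∑ l, |(z t (Sum.inl l) : ℝ)|) ∧
      (∀ ε' : ℝ, 0 < ε' → ∀ᶠ t in (𝓕 : Filter ℕ), 1 + Real.log (M t) ≤ ε' * H t) ∧
      (∀ b : ℕ → K, (∀ t, mulHeight₁ (b t) ≤ M t) → Slow 𝓕 H (fun t => ψ (b t))) ∧
      (∀ i, Sp (slowF 𝓕 L H hH) (PU 𝓕 H S) (mk 𝓕 (fun t => (z t i : L)))) := by
  classical
  -- the size of the point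
  obtain ⟨sz, hsz⟩ : ∃ sz : ℕ → ℝ, sz = fun t => 1 + ∑ l, |(z t (Sum.inl l) : ℝ)| := ⟨_, rfl⟩
  have hsz1 : ∀ t, 1 ≤ sz t := fun t => by
    rw [hsz]
    have : 0 ≤ ∑ l, |(z t (Sum.inl l) : ℝ)| := Finset.sum_nonneg fun _ _ => abs_nonneg _
    linarith
  have hxsz : ∀ t l, |(z t (Sum.inl l) : ℝ)| ≤ sz t := fun t l => by
    rw [hsz]
    have h1 := Finset.single_le_sum (f := fun l => |(z t (Sum.inl l) : ℝ)|)
      (fun _ _ => abs_nonneg _) (Finset.mem_univ l)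
    have h2 : |(z t (Sum.inl l) : ℝ)| ≤ ∑ l, |(z t (Sum.inl l) : ℝ)| := h1
    linarith
  obtain ⟨H, hHdef⟩ : ∃ H : ℕ → ℝ, H = fun t => Real.log (sz t) := ⟨_, rfl⟩
  have hH0 : ∀ t, 0 ≤ H t := fun t => by rw [hHdef]; exact Real.log_nonneg (hsz1 t)
  have hexp : ∀ t, Real.exp (H t) = sz t := fun t => by
    rw [hHdef]
    exact Real.exp_log (by linarith [hsz1 t])
  have hlog : ∀ t : ℕ, ((t : ℝ) + 1) * (1 + Real.log (M t)) ≤ H t := by
    intro t
    obtain ⟨i, hi⟩ := hbig t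
    rw [hHdef]
    exact log_step2 t (M t) (sz t) (hM t) (hi.trans_le (hxsz t i))
  have hlM : ∀ t, 0 ≤ Real.log (M t) := fun t => Real.log_nonneg (hM t)
  have hHtop : Tendsto H atTop atTop := by
    rw [tendsto_atTop]
    intro b
    filter_upwards [tendsto_natCast_atTop_atTop.eventually_ge_atTop |b|] with t h2
    have h3 : ((t : ℝ) + 1) * 1 ≤ ((t : ℝ) + 1) * (1 + Real.log (M t)) :=
      mul_le_mul_of_nonneg_left (by linarith [hlM t]) (by positivity)
    have h4 := hlog t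
    exact (le_abs_self b).trans (by linarith)
  have hnegt : ∀ ε' : ℝ, 0 < ε' → ∀ᶠ t : ℕ in atTop, 1 + Real.log (M t) ≤ ε' * H t := by
    intro ε' hε'
    filter_upwards [tendsto_natCast_atTop_atTop.eventually_ge_atTop (1 / ε')] with t h2
    have h3 : 1 / ε' * (1 + Real.log (M t)) ≤ ((t : ℝ) + 1) * (1 + Real.log (M t)) :=
      mul_le_mul_of_nonneg_right (by linarith) (by linarith [hlM t])
    have h4 : 1 / ε' * (1 + Real.log (M t)) ≤ H t := h3.trans (hlog t)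
    have h6 := mul_le_mul_of_nonneg_left h4 hε'.le
    have h7 : ε' * (1 / ε' * (1 + Real.log (M t))) = 1 + Real.log (M t) := by
      field_simp
    rwa [h7] at h6
  obtain ⟨𝓕, h𝓕⟩ : ∃ 𝓕 : Ultrafilter ℕ, (𝓕 : Filter ℕ) ≤ atTop :=
    ⟨Filter.hyperfilter ℕ, Nat.hyperfilter_le_atTop⟩
  have hH := hHtop.mono_left h𝓕
  have hneg : ∀ ε' : ℝ, 0 < ε' → ∀ᶠ t in (𝓕 : Filter ℕ), 1 + Real.log (M t) ≤ ε' * H t :=
    fun ε' hε' => (hnegt ε' hε').filter_mono h𝓕
  -- the field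
  obtain ⟨qh, hqh⟩ : ∃ qh : ℕ, qh = ∏ i, q i := ⟨_, rfl⟩
  have hqh0 : 0 < qh := by rw [hqh]; exact Finset.prod_pos fun i _ => hq i
  have hsi : ∀ i, ∃ s, 0 < s ∧ qh = s * q i := by
    intro i
    obtain ⟨s, hs⟩ := Finset.dvd_prod_of_mem q (Finset.mem_univ i)
    rw [← hqh] at hs
    refine ⟨s, Nat.pos_of_ne_zero fun h => ?_, by rw [hs, mul_comm]⟩
    rw [h, mul_zero] at hs
    omega
  choose s hs0 hs using hsi
  obtain ⟨T, hT⟩ := hΓ
  obtain ⟨L, hfd, hgal, -, ψ, hψ, hroot⟩ := exists_L φ T qh hqh0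
  have hNF : NumberField L := ⟨⟩
  obtain ⟨Δ, hΔ, hΔσ, hpow⟩ := exists_Gal ψ T qh hroot
  rw [hT] at hpow
  obtain ⟨S, hS, hΔS⟩ := exists_S Δ hΔ
  obtain ⟨dd, hdd, -, hdh⟩ := ht_hom ψ
  choose V hV1 hV2 using fun t => hpow _ (v t).2
  choose W hW1 hW2 using fun t l r => hpow _ (u t l r).2
  have hV3 : ∀ t, (V t : L) ^ qh = ψ ((v t : Kˣ) : K) := fun t => by
    have h1 := congrArg Units.val (hV2 t)
    rw [Units.val_pow_eq_pow_val] at h1
    exact h1
  obtain ⟨v0, hv0⟩ : ∃ v0 : InfinitePlace L, v0 = InfinitePlace.mk (L.val : L →+* ℂ) := ⟨_, rfl⟩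
  have hslowh : ∀ b : ℕ → K, (∀ t, mulHeight₁ (b t) ≤ M t) → Slow 𝓕 H (fun t => ψ (b t)) :=
    fun b hb => slow_of_log hM hneg hdd.le fun t => by
      rw [hdh]
      refine mul_le_mul_of_nonneg_left ?_ hdd.le
      rw [logHeight₁_eq_log_mulHeight₁]
      have h1 := Real.log_le_log (mulHeight₁_pos (b t)) (hb t)
      linarith
  have hcs : ∀ l, Slow 𝓕 H (fun t => ψ (c t l)) := fun l => hslowh _ fun t => hc t l
  have hxm : ∀ l, Mdr 𝓕 H (fun t => (z t (Sum.inl l) : L)) := fun l =>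
    mdr_int hH0 fun t => by rw [hexp]; exact hxsz t l
  have hxsp : ∀ l, Sp (slowF 𝓕 L H hH) (PG 𝓕 H Δ) (mk 𝓕 (fun t => (z t (Sum.inl l) : L))) := by
    intro l
    refine EC.hb_pg hH S hS Δ hΔS (k := k) (fun r t => ψ (a t l r)) (fun r t => W t l r ^ qh) _
      (hxm l) (fun r => hslowh _ fun t => ha t l r) (fun r t => Δ.pow_mem (hW1 t l r) _)
      (Eventually.of_forall fun t => ?_)
    have h1 := congrArg ψ (hx t l)
    rw [map_intCast, map_sum] at h1
    show ((z t (Sum.inl l) : ℤ) : L) = _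
    rw [h1]
    refine Finset.sum_congr rfl fun r _ => ?_
    rw [map_mul]
    congr 1
    exact congrArg Units.val (hW2 t l r).symm
  -- the leading term
  have hVm : Mdr 𝓕 H (fun t => (V t : L)) := by
    refine ⟨dd * (1 + |B|), ?_⟩
    filter_upwards [hneg 1 one_pos] with t h1
    have h3 : logHeight₁ (V t : L) ≤ logHeight₁ ((V t : L) ^ qh) := by
      rw [logHeight₁_pow]
      have h4 := zero_le_logHeight₁ (V t : L)
      have h5 : (1 : ℝ) ≤ qh := by exact_mod_cast hqh0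
      exact le_mul_of_one_le_left h4 h5
    refine h3.trans ?_
    rw [hV3, hdh, mul_assoc]
    refine mul_le_mul_of_nonneg_left ?_ hdd.le
    rw [logHeight₁_eq_log_mulHeight₁]
    have hst := hsz1 t
    have h4 := Real.log_le_log (mulHeight₁_pos _) (hv t)
    have h5 : (1 + ∑ l, |(z t (Sum.inl l) : ℝ)|) = sz t := by rw [hsz]
    rw [h5, Real.log_mul (by linarith [hM t]) (by positivity), Real.log_rpow (by linarith)] at h4
    have h6 : Real.log (sz t) = H t := by rw [hHdef]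
    rw [h6] at h4
    have h7 : B * H t ≤ |B| * H t := mul_le_mul_of_nonneg_right (le_abs_self B) (hH0 t)
    linarith
  -- the gap
  have hgap' : ∀ l t, av (Sum.inl v0 : Pl L)
      ((z t (Sum.inl l) : L) - ψ (c t l) * ψ ((v t : Kˣ) : K)) ≤
      M t * (1 + ∑ l, |(z t (Sum.inl l) : ℝ)|) ^ (1 - δ) := by
    intro l t
    refine le_trans (le_of_eq ?_) (hgap t l)
    have h5 : (z t (Sum.inl l) : L) - ψ (c t l) * ψ ((v t : Kˣ) : K) =
        ψ ((z t (Sum.inl l) : K) - c t l * ((v t : Kˣ) : K)) := by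
      rw [map_sub, map_mul, map_intCast]
    rw [h5, hv0]
    show ‖((ψ ((z t (Sum.inl l) : K) - c t l * ((v t : Kˣ) : K)) : L) : ℂ)‖ = _
    rw [hψ]
  obtain ⟨⟨c', hc', hlow⟩, hclose⟩ := gap hH v0 (fun l t => z t (Sum.inl l))
    (fun l t => ψ (c t l)) hcs (fun t => ψ ((v t : Kˣ) : K)) M hM hneg
    (fun t => by rw [hexp, hsz]) δ hδ hgap'
  have hVs : Sm 𝓕 H (Sum.inl v0 : Pl L) (fun t => (V t : L)⁻¹) := by
    have hqh' : (0 : ℝ) < qh := by exact_mod_cast hqh0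
    refine ⟨c' / qh, by positivity, ?_⟩
    filter_upwards [hlow] with t ht
    have hV0 : (V t : L) ≠ 0 := (V t).ne_zero
    have hVpos : 0 < av (Sum.inl v0 : Pl L) (V t : L) := (av _).pos_iff.2 hV0
    rw [map_inv₀, ← Real.exp_log (inv_pos.2 hVpos)]
    refine Real.exp_le_exp.2 ?_
    rw [Real.log_inv]
    rw [← hV3, map_pow] at ht
    have h1 := Real.log_le_log (Real.exp_pos _) ht
    rw [Real.log_exp, Real.log_pow] at h1
    have h2 : c' / qh * H t ≤ Real.log (av (Sum.inl v0 : Pl L) (V t : L)) := by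
      have h3 : c' / qh * H t = c' * H t / qh := by ring
      rw [h3, div_le_iff₀ hqh']
      linarith
    linarith
  -- the algebraic coordinates
  have hyap : ∀ i, Ap hH Δ (Sum.inl v0 : Pl L) (fun t => (z t (Sum.inr i) : L)) := by
    intro i
    refine ord_ap (hq i) (hs0 i) M hM hneg (fun t => F t i)
      (fun t => hF t i) (fun l t => ψ (c t l)) hcs ?_ ?_ ?_ V hV1 hVm hVs
      (fun l t => (z t (Sum.inl l) : L)) hxsp ?_ (fun t => (z t (Sum.inr i) : L))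
      (fun t => AdmQ.eval (hq i) (hF t i) (fun l => z t (Sum.inl l)) (z t (Sum.inr i)) (hzero t i))
    · intro t
      rw [← topQ_map ψ, Polynomial.natDegree_map]
      exact htop t i
    · intro t
      rw [← topQ_map ψ]
      exact (hsep t i).map
    · intro t
      rw [← topQ_map ψ]
      exact (hspl t i).map ψ
    · intro l
      have h1 := hclose l
      rw [← hs i]
      simpa only [hV3] using h1
  have hzsp : ∀ i, Sp (slowF 𝓕 L H hH) (PU 𝓕 H S) (mk 𝓕 (fun t => (z t i : L))) := by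
    intro i
    rcases i with l | i
    · exact Sp.mono (PG.toPU hΔS) (hxsp l)
    · exact ap_int hΔσ S hS hΔS v0 (fun t => z t (Sum.inr i))
        (mdr_of_lb hH v0 _ (hyap i).lb) (hyap i)
  exact ⟨L, hNF, ψ, 𝓕, H, hH, S, hψ, h𝓕, hS, fun t => by rw [hexp, hsz], hneg, hslowh, hzsp⟩

section tail

variable {L : Type} [Field L] [NumberField L] {α : Type} {𝓕 : Ultrafilter α} {H : α → ℝ}

/-- some coordinate is not slow -/
lemma not_slow (hH : Tendsto H 𝓕 atTop) {n : ℕ} (x : Fin n → α → ℤ)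
    (hexp : ∀ t, Real.exp (H t) = 1 + ∑ l, |(x l t : ℝ)|) :
    ∃ l, ¬ Slow 𝓕 H (fun t => (x l t : L)) := by
  by_contra hcon
  push Not at hcon
  obtain ⟨v0⟩ : Nonempty (InfinitePlace L) := inferInstance
  have h1 : SubE 𝓕 H (fun t => 1 + ∑ l, av (Sum.inl v0 : Pl L) (x l t : L)) :=
    (SubE.const hH zero_le_one).add hH (SubE.sum hH _ _ fun l _ => SubE.slow (hcon l) _)
  obtain ⟨t, h2, h3⟩ := ((h1.2 (1 / 2) (by norm_num)).and (hH_le hH 1)).exists
  simp only [av_inf] at h2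
  rw [← hexp t] at h2
  have h5 := Real.exp_le_exp.1 h2
  linarith

/-- some ratio of the coordinates is not slow -/
lemma ratio_not_slow (hH : Tendsto H 𝓕 atTop) {n : ℕ} (x : Fin n → α → ℤ)
    (hexp : ∀ t, Real.exp (H t) = 1 + ∑ l, |(x l t : ℝ)|)
    (hcop : ∀ t, ∃ b : Fin n → ℤ, ∑ l, b l * x l t = 1) :
    ∃ l0 l1, (∀ᶠ t in (𝓕 : Filter α), (x l0 t : L) ≠ 0) ∧
      ¬ Slow 𝓕 H (fun t => (x l1 t : L) / (x l0 t : L)) := by
  have hn0 : ∀ t, ∃ l, x l t ≠ 0 := by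
    intro t
    by_contra hcon
    push Not at hcon
    obtain ⟨b, hb⟩ := hcop t
    rw [Finset.sum_eq_zero fun l _ => by rw [hcon l, mul_zero]] at hb
    exact zero_ne_one hb
  obtain ⟨l0, hl0⟩ : ∃ l0, ∀ᶠ t in (𝓕 : Filter α),
      ∀ l, |(x l t : ℝ)| ≤ |(x l0 t : ℝ)| := by
    rw [← Ultrafilter.eventually_exists_iff]
    refine Eventually.of_forall fun t => ?_
    obtain ⟨l1, -⟩ := hn0 t
    have : Nonempty (Fin n) := ⟨l1⟩
    exact Finite.exists_max fun l => |(x l t : ℝ)|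
  have hl0' : ∀ᶠ t in (𝓕 : Filter α), (x l0 t : L) ≠ 0 := by
    filter_upwards [hl0] with t ht h
    obtain ⟨l1, hl1⟩ := hn0 t
    have h1 : x l0 t = 0 := by exact_mod_cast h
    have h2 := ht l1
    rw [h1, Int.cast_zero, abs_zero] at h2
    exact hl1 (by exact_mod_cast abs_nonpos_iff.1 h2)
  have hns : ∃ l, ¬ Slow 𝓕 H (fun t => (x l t : L) / (x l0 t : L)) := by
    by_contra hcon
    push Not at hcon
    have hn' : (0 : ℝ) < n + 1 := by positivity
    have hall : ∀ᶠ t in (𝓕 : Filter α), ∀ l,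
        logHeight₁ ((x l t : L) / (x l0 t : L)) ≤ 1 / (4 * (n + 1)) * H t :=
      eventually_all.2 fun l => hcon l _ (by positivity)
    obtain ⟨t, h1, h2, h3, h4, h5⟩ := (hall.and (hl0.and (hl0'.and
      ((hH_le hH 1).and (hH_le hH (4 * Real.log (n + 1))))))).exists
    have h6 : x l0 t ≠ 0 := by exact_mod_cast h3
    have h7 := coprime_height (L := L) (fun l => x l t) (hcop t) l0 h6
    have h8 := h7.trans (Finset.sum_le_sum fun l _ => h1 l)
    rw [Finset.sum_const, Finset.card_univ, Fintype.card_fin, nsmul_eq_mul] at h8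
    have h9 : (n : ℝ) * (1 / (4 * (n + 1)) * H t) ≤ 1 / 4 * H t := by
      have h10 : (n : ℝ) * (1 / (4 * (n + 1)) * H t) = (n / (n + 1)) * (1 / 4 * H t) := by
        field_simp
      rw [h10]
      refine mul_le_of_le_one_left (by linarith) ?_
      rw [div_le_one hn']
      linarith
    have h10 : (1 : ℝ) ≤ |(x l0 t : ℝ)| := by
      have : (1 : ℤ) ≤ |x l0 t| := Int.one_le_abs h6
      exact_mod_cast this
    have h11 : Real.exp (H t) ≤ (n + 1) * |(x l0 t : ℝ)| := by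
      rw [hexp]
      have h12 := Finset.sum_le_sum fun l (_ : l ∈ Finset.univ) => h2 l
      rw [Finset.sum_const, Finset.card_univ, Fintype.card_fin, nsmul_eq_mul] at h12
      linarith
    have h12 := Real.log_le_log (Real.exp_pos _) h11
    rw [Real.log_exp, Real.log_mul (by positivity) (by linarith)] at h12
    have h13 : Real.log |(x l0 t : ℝ)| ≤ 1 / 4 * H t := h8.trans h9
    linarith
  obtain ⟨l1, hl1⟩ := hns
  exact ⟨l0, l1, hl0', hl1⟩

end tail

end Pool.Agent.Run7.h28.BV
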