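import Mathlib
import Pool.Agent.Run7.h28.BV.ApRoot

/-!
# Project BV (helper28): sums of a given number of units
-/

set_option autoImplicit false
set_option linter.unusedSectionVars false

open Filter Topology

namespace Pool.Agent.Run7.h28.BV

open NumberField IsDedekindDomain Height Module
open Pool.Agent.W180.OP (Pl av wt nrm le_nrm nrm_pos wt_nonneg exists_nrm nrm_nonneg)
open Pool.Agent.N750
open Pool.Agent.Run7.h28.HK

section field

variable {G : Type} [Field G] {F : Subfield G} {P : G → Prop}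

/-- sums of `N` elements of `P` with coefficients in `F` -/
def SpN (F : Subfield G) (P : G → Prop) (N : ℕ) (z : G) : Prop :=
  ∃ (u : Fin N → G) (c : Fin N → F), (∀ i, P (u i)) ∧ z = ∑ i, (c i : G) * u i

lemma SpN.sp {N : ℕ} {z : G} (h : SpN F P N z) : Sp F P z := by
  obtain ⟨u, c, hu, hz⟩ := h
  exact ⟨N, u, c, hu, hz⟩

lemma SpN.imp {P' : G → Prop} (hPP : ∀ a, P a → P' a) {N : ℕ} {z : G} (h : SpN F P N z) :
    SpN F P' N z := by
  obtain ⟨u, c, hu, hz⟩ := h
  exact ⟨u, c, fun i => hPP _ (hu i), hz⟩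

lemma SpN.of {u : G} (hu : P u) : SpN F P 1 u :=
  ⟨fun _ => u, fun _ => 1, fun _ => hu, by simp⟩

lemma SpN.smul {N : ℕ} {z a : G} (ha : a ∈ F) (h : SpN F P N z) : SpN F P N (a * z) := by
  obtain ⟨u, c, hu, rfl⟩ := h
  refine ⟨u, fun i => ⟨a, ha⟩ * c i, hu, ?_⟩
  rw [Finset.mul_sum]
  refine Finset.sum_congr rfl fun i _ => ?_
  rw [MulMemClass.coe_mul]
  ring

lemma SpN.add {N N' : ℕ} {z z' : G} (h : SpN F P N z) (h' : SpN F P N' z') :
    SpN F P (N + N') (z + z') := by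
  obtain ⟨u, c, hu, rfl⟩ := h
  obtain ⟨u', c', hu', rfl⟩ := h'
  refine ⟨Fin.append u u', Fin.append c c', fun i => ?_, ?_⟩
  · refine Fin.addCases (fun i => ?_) (fun i => ?_) i
    · rw [Fin.append_left]
      exact hu i
    · rw [Fin.append_right]
      exact hu' i
  · rw [Fin.sum_univ_add]
    simp only [Fin.append_left, Fin.append_right]

lemma SpN.mono (h1 : P 1) {N N' : ℕ} (hN : N ≤ N') {z : G} (h : SpN F P N z) :
    SpN F P N' z := by
  obtain ⟨r, rfl⟩ := Nat.exists_eq_add_of_le hN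
  have h2 : SpN F P r (0 : G) := ⟨fun _ => 1, fun _ => 0, fun _ => h1, by simp⟩
  have h3 := h.add h2
  rwa [add_zero] at h3

lemma SpN.mul (hmul : ∀ a b, P a → P b → P (a * b)) {N N' : ℕ} {z z' : G} (h : SpN F P N z)
    (h' : SpN F P N' z') : SpN F P (N * N') (z * z') := by
  obtain ⟨u, c, hu, rfl⟩ := h
  obtain ⟨u', c', hu', rfl⟩ := h'
  refine ⟨fun i => u (finProdFinEquiv.symm i).1 * u' (finProdFinEquiv.symm i).2,
    fun i => c (finProdFinEquiv.symm i).1 * c' (finProdFinEquiv.symm i).2,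
    fun i => hmul _ _ (hu _) (hu' _), ?_⟩
  rw [Equiv.sum_comp finProdFinEquiv.symm (fun p : Fin N × Fin N' =>
    (((c p.1 * c' p.2 : F)) : G) * (u p.1 * u' p.2)), Fintype.sum_prod_type, Finset.sum_mul]
  refine Finset.sum_congr rfl fun i _ => ?_
  rw [Finset.mul_sum]
  refine Finset.sum_congr rfl fun j _ => ?_
  rw [MulMemClass.coe_mul]
  ring

lemma SpN.mem (h1 : P 1) {a : G} (ha : a ∈ F) : SpN F P 1 a := by
  have h2 := SpN.smul ha (SpN.of (F := F) h1)
  rwa [mul_one] at h2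

lemma SpN.sum {ι : Type} (h1 : P 1) (A : Finset ι) (f : ι → G) {N : ℕ}
    (hf : ∀ i ∈ A, SpN F P N (f i)) : SpN F P (A.card * N) (∑ i ∈ A, f i) := by
  classical
  induction A using Finset.induction_on with
  | empty =>
    rw [Finset.sum_empty, Finset.card_empty, zero_mul]
    exact ⟨fun i => i.elim0, fun i => i.elim0, fun i => i.elim0, by simp⟩
  | insert a A ha ih =>
    rw [Finset.sum_insert ha, Finset.card_insert_of_notMem ha, add_mul, one_mul, add_comm (_ * _)]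
    exact (hf a (Finset.mem_insert_self _ _)).add
      (ih fun i hi => hf i (Finset.mem_insert_of_mem hi))

lemma SpN.fin {ι : Type} (h1 : P 1) (A : Finset ι) (u c : ι → G) (hu : ∀ i ∈ A, P (u i))
    (hc : ∀ i ∈ A, c i ∈ F) {N : ℕ} (hA : A.card ≤ N) :
    SpN F P N (∑ i ∈ A, c i * u i) := by
  have h2 := SpN.sum h1 A (fun i => c i * u i) (N := 1) fun i hi =>
    SpN.smul (hc i hi) (SpN.of (F := F) (hu i hi))
  exact h2.mono h1 (by rwa [mul_one])

/-- a sum of elements of a small set -/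
lemma SpN.span (h1 : P 1) (T : Finset G) (hT : ∀ g ∈ T, P g) {z : G}
    (hz : z ∈ Submodule.span F (T : Set G)) {N : ℕ} (hN : T.card ≤ N) : SpN F P N z := by
  classical
  rw [Submodule.mem_span_finset] at hz
  obtain ⟨f, -, rfl⟩ := hz
  have h2 := SpN.fin (F := F) h1 T (fun g => g) (fun g => (f g : G)) hT (fun g _ => (f g).2) hN
  exact h2

lemma SpN.mem_span {N : ℕ} {z : G} (u : Fin N → G) (c : Fin N → F)
    (h : z = ∑ i, (c i : G) * u i) : z ∈ Submodule.span F (Set.range u) := by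
  rw [h]
  exact Submodule.sum_mem _ fun i _ =>
    Submodule.smul_mem _ (c i) (Submodule.subset_span ⟨i, rfl⟩)

end field

section pg

variable {K : Type} [Field K] [NumberField K] {α : Type} {𝓕 : Ultrafilter α} {H : α → ℝ}

/-- the germ of a moderate sum of elements of a group -/
theorem hb_pgN (hH : Tendsto H 𝓕 atTop) (S : Finset (Pl K))
    (hS : ∀ w : InfinitePlace K, (Sum.inl w : Pl K) ∈ S) (Γ : Subgroup Kˣ)
    (hΓS : ∀ g ∈ Γ, IsU S (g : K)) {k : ℕ} (c : Fin k → α → K) (u : Fin k → α → Kˣ)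
    (X : α → K) (hX : Mdr 𝓕 H X) (hc : ∀ i, Slow 𝓕 H (c i)) (hu : ∀ i t, u i t ∈ Γ)
    (h : ∀ᶠ t in (𝓕 : Filter α), X t = ∑ i, c i t * (u i t : K)) :
    SpN (slowF 𝓕 K H hH) (PG 𝓕 H Γ) k (mk 𝓕 X) := by
  classical
  obtain ⟨J, -, hJ2, hJ3⟩ := HK.hb hH S hS c (fun i t => (u i t : K)) X hX Finset.univ
    (fun i _ => hc i) (fun i _ t => hΓS _ (hu i t)) h
  rw [mk_eq.2 hJ3, mk_finsum J c (fun i t => (u i t : K))]
  exact SpN.fin PG.one J _ _ (fun i hi => ⟨u i, rfl, hu i, hJ2 i hi⟩)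
    (fun i _ => mk_slow.2 (hc i)) ((Finset.card_le_univ J).trans (le_of_eq (Fintype.card_fin k)))

end pg

end Pool.Agent.Run7.h28.BV
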