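import Mathlib
import Pool.Agent.Run7.h28.BV.SpN

/-!
# Project BV (helper28): almost integral functions close to sums of units at one place
-/

set_option autoImplicit false
set_option linter.unusedSectionVars false

open Filter Topology

namespace Pool.Agent.Run7.h28.BV

open NumberField IsDedekindDomain Height Module
open Pool.Agent.W180.OP (Pl av wt nrm le_nrm nrm_pos wt_nonneg exists_nrm nrm_nonneg)
open Pool.Agent.N750
open Pool.Agent.Run7.h28.HK

variable {K : Type} [Field K] [NumberField K] {α : Type} {𝓕 : Ultrafilter α} {H : α → ℝ}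

/-- a part of the height of a number -/
lemma part1 (a : K) (W : Finset (Pl K)) :
    ∑ p ∈ W, wt p * Real.log (max 1 (av p a)) ≤ logHeight₁ a := by
  have h1 := part_le ![a, 1] 1 rfl W
  rw [← logHeight₁_eq_logHeight] at h1
  refine (Finset.sum_le_sum fun p _ => mul_le_mul_of_nonneg_left
    (Real.log_le_log (by positivity) ?_) (wt_nonneg p)).trans h1
  refine max_le ?_ ?_
  · have := le_nrm (av p) ![a, 1] 1
    simpa using this
  · exact le_nrm (av p) ![a, 1] 0

/-- a part of the height of a number, finite places -/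
lemma part2 (a : K) (T : Finset (HeightOneSpectrum (𝓞 K))) :
    ∑ v ∈ T, Real.log (max 1 (av (Sum.inr v : Pl K) a)) ≤ logHeight₁ a := by
  classical
  have h1 := part1 a (T.map Function.Embedding.inr)
  rw [Finset.sum_map] at h1
  refine le_trans (le_of_eq (Finset.sum_congr rfl fun v _ => ?_)) h1
  show _ = 1 * Real.log (max 1 (av (Sum.inr v : Pl K) a))
  rw [one_mul]

/-- almost integral outside `S` -/
def AI (𝓕 : Ultrafilter α) (H : α → ℝ) (S : Finset (Pl K)) (f : α → K) : Prop :=
  ∀ ε : ℝ, 0 < ε → ∀ᶠ t in (𝓕 : Filter α), ∀ T : Finset (HeightOneSpectrum (𝓞 K)),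
    (∀ v ∈ T, (Sum.inr v : Pl K) ∉ S) →
      ∑ v ∈ T, Real.log (max 1 (av (Sum.inr v : Pl K) (f t))) ≤ ε * H t

variable {S : Finset (Pl K)}

lemma AI.slow {f : α → K} (hf : Slow 𝓕 H f) : AI 𝓕 H S f := by
  intro ε hε
  filter_upwards [hf ε hε] with t ht T _
  exact (part2 _ T).trans ht

lemma AI.int (hH : Tendsto H 𝓕 atTop) {f : α → K}
    (hf : ∀ t, ∀ v : HeightOneSpectrum (𝓞 K), (Sum.inr v : Pl K) ∉ S →
      av (Sum.inr v : Pl K) (f t) ≤ 1) : AI 𝓕 H S f := by
  intro ε hε
  filter_upwards [hH_le hH 0] with t ht T hT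
  rw [Finset.sum_eq_zero fun v hv => by rw [max_eq_left (hf t v (hT v hv)), Real.log_one]]
  positivity

lemma AI.unit (hH : Tendsto H 𝓕 atTop) {f : α → K} (hf : ∀ t, IsU S (f t)) : AI 𝓕 H S f :=
  AI.int hH fun t _ hv => ((hf t).2 _ hv).le

/-- comparison -/
lemma AI.of_le {f g h : α → K} (hf : AI 𝓕 H S f) (hg : AI 𝓕 H S g)
    (hle : ∀ᶠ t in (𝓕 : Filter α), ∀ v : HeightOneSpectrum (𝓞 K),
      max 1 (av (Sum.inr v : Pl K) (h t)) ≤ max 1 (av (Sum.inr v : Pl K) (f t)) *
        max 1 (av (Sum.inr v : Pl K) (g t))) : AI 𝓕 H S h := by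
  intro ε hε
  filter_upwards [hf (ε / 2) (by positivity), hg (ε / 2) (by positivity), hle] with t h1 h2 h3 T hT
  calc ∑ v ∈ T, Real.log (max 1 (av (Sum.inr v : Pl K) (h t))) ≤
        ∑ v ∈ T, (Real.log (max 1 (av (Sum.inr v : Pl K) (f t))) +
          Real.log (max 1 (av (Sum.inr v : Pl K) (g t)))) := by
        refine Finset.sum_le_sum fun v _ => ?_
        rw [← Real.log_mul (by positivity) (by positivity)]
        exact Real.log_le_log (by positivity) (h3 v)
    _ = _ := Finset.sum_add_distrib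
    _ ≤ ε / 2 * H t + ε / 2 * H t := add_le_add (h1 T hT) (h2 T hT)
    _ = ε * H t := by ring

lemma AI.congr {f g : α → K} (hf : AI 𝓕 H S f) (h : ∀ᶠ t in (𝓕 : Filter α), f t = g t) :
    AI 𝓕 H S g := by
  intro ε hε
  filter_upwards [hf ε hε, h] with t h1 h2 T hT
  rw [← h2]
  exact h1 T hT

lemma av_add_max (v : HeightOneSpectrum (𝓞 K)) (a b : K) :
    av (Sum.inr v : Pl K) (a + b) ≤ max (av (Sum.inr v : Pl K) a) (av (Sum.inr v : Pl K) b) := by
  classical
  have h1 := av_sum (Sum.inr v : Pl K) (Finset.univ : Finset (Fin 2)) ![a, b]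
    (max (av (Sum.inr v : Pl K) a) (av (Sum.inr v : Pl K) b))
    (le_max_of_le_left ((av _).nonneg _)) (fun i _ => by
      fin_cases i
      · exact le_max_left _ _
      · exact le_max_right _ _) (2 : ℝ) (by simp)
  rw [Fin.sum_univ_two] at h1
  have h2 : N750.cst (2 : ℝ) (Sum.inr v : Pl K) = 1 := rfl
  rw [h2, one_mul] at h1
  exact h1

lemma AI.add {f g : α → K} (hf : AI 𝓕 H S f) (hg : AI 𝓕 H S g) :
    AI 𝓕 H S (fun t => f t + g t) := by
  refine AI.of_le hf hg (Eventually.of_forall fun t v => ?_)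
  have h1 := av_add_max v (f t) (g t)
  have h2 : (1 : ℝ) ≤ max 1 (av (Sum.inr v : Pl K) (f t)) := le_max_left _ _
  have h3 : (1 : ℝ) ≤ max 1 (av (Sum.inr v : Pl K) (g t)) := le_max_left _ _
  refine max_le (one_le_mul_of_one_le_of_one_le h2 h3) (h1.trans (max_le ?_ ?_))
  · exact (le_max_right 1 _).trans (le_mul_of_one_le_right (by positivity) h3)
  · exact (le_max_right 1 _).trans (le_mul_of_one_le_left (by positivity) h2)

lemma AI.mul {f g : α → K} (hf : AI 𝓕 H S f) (hg : AI 𝓕 H S g) :
    AI 𝓕 H S (fun t => f t * g t) := by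
  refine AI.of_le hf hg (Eventually.of_forall fun t v => ?_)
  have h2 : (1 : ℝ) ≤ max 1 (av (Sum.inr v : Pl K) (f t)) := le_max_left _ _
  have h3 : (1 : ℝ) ≤ max 1 (av (Sum.inr v : Pl K) (g t)) := le_max_left _ _
  refine max_le (one_le_mul_of_one_le_of_one_le h2 h3) ?_
  rw [map_mul]
  exact mul_le_mul (le_max_right _ _) (le_max_right _ _) ((av _).nonneg _) (by positivity)

lemma AI.sum (hH : Tendsto H 𝓕 atTop) {ι : Type} (A : Finset ι) (f : ι → α → K)
    (hf : ∀ i ∈ A, AI 𝓕 H S (f i)) : AI 𝓕 H S (fun t => ∑ i ∈ A, f i t) := by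
  classical
  induction A using Finset.induction_on with
  | empty => simpa only [Finset.sum_empty] using AI.slow (f := fun _ => (0 : K)) (slow_const hH _)
  | insert a A ha ih =>
    simp only [Finset.sum_insert ha]
    exact (hf a (Finset.mem_insert_self _ _)).add
      (ih fun i hi => hf i (Finset.mem_insert_of_mem hi))

lemma AI.prod (hH : Tendsto H 𝓕 atTop) {ι : Type} (A : Finset ι) (f : ι → α → K)
    (hf : ∀ i ∈ A, AI 𝓕 H S (f i)) :
    AI 𝓕 H S (fun t => ∏ i ∈ A, f i t) := by
  classical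
  induction A using Finset.induction_on with
  | empty => simpa only [Finset.prod_empty] using AI.slow (f := fun _ => (1 : K)) (slow_const hH _)
  | insert a A ha ih =>
    simp only [Finset.prod_insert ha]
    exact (hf a (Finset.mem_insert_self _ _)).mul
      (ih fun i hi => hf i (Finset.mem_insert_of_mem hi))

lemma AI.pow (hH : Tendsto H 𝓕 atTop) {f : α → K} (hf : AI 𝓕 H S f) (n : ℕ) :
    AI 𝓕 H S (fun t => f t ^ n) := by
  have h1 := AI.prod hH (Finset.range n) (fun _ => f) fun _ _ => hf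
  simpa only [Finset.prod_const, Finset.card_range] using h1

/-- roots of monic polynomials with almost integral coefficients -/
lemma AI.root (hH : Tendsto H 𝓕 atTop) {q : ℕ} (hq : 0 < q) (b : ℕ → α → K)
    (hb : ∀ j < q, AI 𝓕 H S (b j)) {y : α → K}
    (h : ∀ᶠ t in (𝓕 : Filter α), y t ^ q + ∑ j ∈ Finset.range q, b j t * y t ^ j = 0) :
    AI 𝓕 H S y := by
  classical
  intro ε hε
  have hall : ∀ᶠ t in (𝓕 : Filter α), ∀ j ∈ Finset.range q,
      ∀ T : Finset (HeightOneSpectrum (𝓞 K)), (∀ v ∈ T, (Sum.inr v : Pl K) ∉ S) →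
      ∑ v ∈ T, Real.log (max 1 (av (Sum.inr v : Pl K) (b j t))) ≤ ε / q * H t := by
    rw [Filter.eventually_all_finset]
    intro j hj
    have : (0 : ℝ) < q := by exact_mod_cast hq
    exact hb j (Finset.mem_range.1 hj) _ (by positivity)
  filter_upwards [hall, h] with t h1 h2 T hT
  have hq0 : (0 : ℝ) < q := by exact_mod_cast hq
  have key : ∀ v ∈ T, Real.log (max 1 (av (Sum.inr v : Pl K) (y t))) ≤
      ∑ j ∈ Finset.range q, Real.log (max 1 (av (Sum.inr v : Pl K) (b j t))) := by
    intro v _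
    have hnn : ∀ j ∈ Finset.range q, 0 ≤ Real.log (max 1 (av (Sum.inr v : Pl K) (b j t))) :=
      fun j _ => Real.log_nonneg (le_max_left _ _)
    rcases le_or_gt (av (Sum.inr v : Pl K) (y t)) 1 with hy | hy
    · rw [max_eq_left hy, Real.log_one]
      exact Finset.sum_nonneg hnn
    · obtain ⟨B, hB⟩ : ∃ B : ℝ, B = ∏ j ∈ Finset.range q, max 1 (av (Sum.inr v : Pl K) (b j t)) :=
        ⟨_, rfl⟩
      have hB1 : ∀ j ∈ Finset.range q, av (Sum.inr v : Pl K) (b j t) ≤ B := by
        intro j hj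
        rw [hB, ← Finset.mul_prod_erase _ _ hj]
        have h3 : 1 ≤ ∏ j ∈ (Finset.range q).erase j, max 1 (av (Sum.inr v : Pl K) (b j t)) := by
          have := Finset.prod_le_prod (s := (Finset.range q).erase j) (f := fun _ => (1 : ℝ))
            (g := fun j => max 1 (av (Sum.inr v : Pl K) (b j t)))
            (fun _ _ => zero_le_one) (fun _ _ => le_max_left _ _)
          simpa using this
        exact (le_max_right 1 _).trans (le_mul_of_one_le_right (by positivity) h3)
      have hBp : 0 < B := by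
        rw [hB]
        exact Finset.prod_pos fun j _ => by positivity
      have h3 : av (Sum.inr v : Pl K) (y t) ^ q ≤ B * av (Sum.inr v : Pl K) (y t) ^ (q - 1) := by
        have h4 : y t ^ q = -∑ j ∈ Finset.range q, b j t * y t ^ j := by linear_combination h2
        rw [← map_pow, h4, map_neg_eq_map]
        have h5 := av_sum (Sum.inr v : Pl K) (Finset.range q) (fun j => b j t * y t ^ j)
          (B * av (Sum.inr v : Pl K) (y t) ^ (q - 1)) (by positivity) (fun j hj => by
            have hj' := Finset.mem_range.1 hj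
            rw [map_mul, map_pow]
            exact mul_le_mul (hB1 j hj) (pow_le_pow_right₀ hy.le (by omega)) (by positivity)
              hBp.le) (q : ℝ) (by rw [Finset.card_range])
        have h6 : N750.cst (q : ℝ) (Sum.inr v : Pl K) = 1 := rfl
        rw [h6, one_mul] at h5
        exact h5
      have h4 : av (Sum.inr v : Pl K) (y t) ^ q =
          av (Sum.inr v : Pl K) (y t) * av (Sum.inr v : Pl K) (y t) ^ (q - 1) := by
        rw [← pow_succ']
        congr 1
        omega
      rw [h4] at h3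
      have h5 := le_of_mul_le_mul_right h3 (pow_pos (by linarith) _)
      have h6 : max 1 (av (Sum.inr v : Pl K) (y t)) ≤ B := by
        refine max_le ?_ h5
        linarith
      calc Real.log (max 1 (av (Sum.inr v : Pl K) (y t))) ≤ Real.log B :=
            Real.log_le_log (by positivity) h6
        _ = _ := by
            rw [hB, Real.log_prod fun j _ => (show (max 1 (av (Sum.inr v : Pl K) (b j t))) ≠ 0 by
              positivity)]
  calc ∑ v ∈ T, Real.log (max 1 (av (Sum.inr v : Pl K) (y t))) ≤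
        ∑ v ∈ T, ∑ j ∈ Finset.range q, Real.log (max 1 (av (Sum.inr v : Pl K) (b j t))) :=
        Finset.sum_le_sum key
    _ = ∑ j ∈ Finset.range q, ∑ v ∈ T, Real.log (max 1 (av (Sum.inr v : Pl K) (b j t))) :=
        Finset.sum_comm
    _ ≤ ∑ _j ∈ Finset.range q, ε / q * H t := Finset.sum_le_sum fun j hj => h1 j hj T hT
    _ = ε * H t := by
        rw [Finset.sum_const, Finset.card_range, nsmul_eq_mul]
        field_simp

/-- **Almost integral germs of moderate height close to sums of units at one place are sums of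
units.** -/
theorem lemQN (hH : Tendsto H 𝓕 atTop) (S : Finset (Pl K))
    (hS : ∀ w : InfinitePlace K, (Sum.inl w : Pl K) ∈ S) (v0 : Pl K) (hv0 : v0 ∈ S)
    (Y : α → K) (CY : ℝ) (hCYn : 0 ≤ CY)
    (hCY : ∀ᶠ t in (𝓕 : Filter α), logHeight₁ (Y t) ≤ CY * H t) (hI : AI 𝓕 H S Y) (N : ℕ)
    (R : α → K) (hR : SpN (slowF 𝓕 K H hH) (PU 𝓕 H S) N (mk 𝓕 R))
    (happ : ∀ᶠ t in (𝓕 : Filter α), av v0 (Y t - R t) ≤ Real.exp (-((CY + 2) * H t))) :
    SpN (slowF 𝓕 K H hH) (PU 𝓕 H S) (N + 1) (mk 𝓕 Y) := by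
  classical
  by_contra hcon
  set F := slowF 𝓕 K H hH with hF
  have hP := ps hH S hS
  -- a finite set of units
  obtain ⟨u0, c0, hu0, hR0⟩ := hR
  obtain ⟨T, hTdef⟩ : ∃ T : Finset (Gm 𝓕 K), T = Finset.univ.image u0 := ⟨_, rfl⟩
  have hT1 : ∀ g ∈ T, PU 𝓕 H S g := by
    intro g hg
    rw [hTdef, Finset.mem_image] at hg
    obtain ⟨i, -, rfl⟩ := hg
    exact hu0 i
  have hT2 : mk 𝓕 R ∈ Submodule.span F (T : Set (Gm 𝓕 K)) := by
    rw [hTdef, Finset.coe_image, Finset.coe_univ, Set.image_univ]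
    exact SpN.mem_span u0 c0 hR0
  have hTcard : T.card ≤ N := by
    rw [hTdef]
    exact Finset.card_image_le.trans (le_of_eq (by rw [Finset.card_univ, Fintype.card_fin]))
  set T0 : Finset (Gm 𝓕 K) := {1} ∪ T with hT0
  have hT0card : T0.card ≤ N + 1 := by
    rw [hT0]
    refine (Finset.card_union_le _ _).trans ?_
    rw [Finset.card_singleton]
    omega
  have hT0P : ∀ g ∈ T0, PU 𝓕 H S g := by
    intro g hg
    rw [hT0, Finset.mem_union, Finset.mem_singleton] at hg
    rcases hg with rfl | hw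
    · exact hP.one
    · exact hT1 _ hw
  have h1T0 : (1 : Gm 𝓕 K) ∈ T0 := by
    rw [hT0]
    exact Finset.mem_union_left _ (Finset.mem_singleton_self _)
  have hTT0 : T ⊆ T0 := by
    rw [hT0]
    exact Finset.subset_union_right
  obtain ⟨f, hf⟩ : ∃ f : Fin T0.card → Gm 𝓕 K, f = fun i => (T0.equivFin.symm i).1 := ⟨_, rfl⟩
  have hfP : ∀ i, PU 𝓕 H S (f i) := fun i => by
    rw [hf]
    exact hT0P _ (T0.equivFin.symm i).2
  have hfmem : ∀ g ∈ T0, ∃ i, f i = g := fun g hg => ⟨T0.equivFin ⟨g, hg⟩, by rw [hf]; simp⟩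
  obtain ⟨n, idx, -, hli, hspan, -⟩ := exists_sub (F := F) f
  have hspT : ∀ g ∈ T0, g ∈ Submodule.span F (Set.range fun i => f (idx i)) := by
    intro g hg
    obtain ⟨i, rfl⟩ := hfmem g hg
    exact hspan i
  have hn : 0 < n := by
    by_contra h0
    have hn0 : n = 0 := by omega
    subst hn0
    have h1 := hspT 1 h1T0
    rw [Set.range_eq_empty, Submodule.span_empty, Submodule.mem_bot] at h1
    exact one_ne_zero h1
  have hYn : mk 𝓕 Y ∉ Submodule.span F (Set.range fun i => f (idx i)) := by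
    intro h1
    apply hcon
    refine SpN.span hP.one T0 hT0P ?_ hT0card
    refine Submodule.span_mono ?_ h1
    rintro _ ⟨i, rfl⟩
    show f (idx i) ∈ T0
    rw [hf]
    exact (T0.equivFin.symm _).2
  have hli' := linearIndependent_finCons.2 ⟨hli, hYn⟩
  choose a ha1 ha2 ha3 using fun i => hfP (idx i)
  -- the approximation
  have hRc : ∃ c : Fin n → F, ∑ i, c i • f (idx i) = mk 𝓕 R := by
    have h1 : mk 𝓕 R ∈ Submodule.span F (Set.range fun i => f (idx i)) := by
      refine Submodule.span_le.2 ?_ hT2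
      intro g hg
      exact hspT g (hTT0 hg)
    rw [Submodule.mem_span_range_iff_exists_fun] at h1
    exact h1
  obtain ⟨c, hc⟩ := hRc
  choose e he1 he2 using fun i => (c i).2
  have hRe : ∀ᶠ t in (𝓕 : Filter α), R t = ∑ i, e i t * a i t := by
    rw [← mk_eq, ← hc, ← mk_sum]
    refine Finset.sum_congr rfl fun i _ => ?_
    rw [he1, ha1]
    rfl
  -- the family and the forms
  obtain ⟨g, hg⟩ : ∃ g : Fin (n + 1) → α → K, g = Fin.cons Y a := ⟨_, rfl⟩
  have hg0 : g 0 = Y := by rw [hg]; rfl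
  have hgs : ∀ i : Fin n, g i.succ = a i := fun i => by rw [hg]; rfl
  obtain ⟨E, hE⟩ : ∃ E : Pl K → Fin (n + 1) → α → K, E = fun v => Fin.cons (fun _ => 1)
    (fun i t => if v = v0 then -(e i t) else 0) := ⟨_, rfl⟩
  have hE0 : ∀ v t, E v 0 t = 1 := fun v t => by rw [hE]; rfl
  have hEs' : ∀ v (i : Fin n) t, E v i.succ t = if v = v0 then -(e i t) else 0 := fun v i t => by
    rw [hE]; rfl
  have hEs : ∀ v i, Slow 𝓕 H (E v i) := by
    intro v i
    refine Fin.cases ?_ (fun j => ?_) i
    · have h1 : E v 0 = fun _ => 1 := funext fun t => hE0 v t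
      rw [h1]
      exact slow_const hH 1
    · by_cases hv : v = v0
      · have h1 : E v j.succ = fun t => -(e j t) := funext fun t => by rw [hEs', if_pos hv]
        rw [h1]
        exact (he2 j).neg
      · have h1 : E v j.succ = fun _ => 0 := funext fun t => by rw [hEs', if_neg hv]
        rw [h1]
        exact slow_const hH 0
  choose Ca hCa using ha3
  have hgC : ∀ i, ∀ᶠ t in (𝓕 : Filter α), logHeight₁ (g i t) ≤ (CY + ∑ i, |Ca i|) * H t := by
    intro i
    refine Fin.cases ?_ (fun j => ?_) i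
    · rw [hg0]
      filter_upwards [hCY, hH_le hH 0] with t h1 h2
      refine h1.trans (mul_le_mul_of_nonneg_right ?_ h2)
      have h3 : 0 ≤ ∑ i, |Ca i| := Finset.sum_nonneg fun _ _ => abs_nonneg _
      linarith
    · rw [hgs]
      filter_upwards [hCa j, hH_le hH 0] with t h1 h2
      refine h1.trans (mul_le_mul_of_nonneg_right ?_ h2)
      have h3 := Finset.single_le_sum (f := fun i => |Ca i|) (fun _ _ => abs_nonneg _)
        (Finset.mem_univ j)
      have h4 : |Ca j| ≤ ∑ i, |Ca i| := h3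
      linarith [le_abs_self (Ca j)]
  have hind : ∀ c : Fin (n + 1) → α → K, (∀ i, Slow 𝓕 H (c i)) →
      (∀ᶠ t in (𝓕 : Filter α), ∑ i, c i t * g i t = 0) →
      ∀ i, ∀ᶠ t in (𝓕 : Filter α), c i t = 0 := by
    intro c' hc' h0
    rw [Fintype.linearIndependent_iff] at hli'
    have h1 := hli' (fun i => (⟨mk 𝓕 (c' i), mk_slow.2 (hc' i)⟩ : F)) (by
      rw [← mk_eq_zero, ← mk_sum] at h0
      rw [← h0]
      refine Finset.sum_congr rfl fun i _ => ?_
      show mk 𝓕 (c' i) * _ = _
      congr 1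
      refine Fin.cases ?_ (fun j => ?_) i
      · rw [hg0]
        rfl
      · rw [hgs, ha1]
        rfl)
    intro i
    have h2 := congrArg Subtype.val (h1 i)
    rw [← mk_eq_zero]
    exact h2
  have h1 := moving hH (by omega : 2 ≤ n + 1) S g _ (ht_fam g hgC) hind
    (fun v b i t => if b = 0 then E v i t else if b = i then 1 else 0)
    (fun v b i => slow_row hH 0 (E v) (hEs v) b i)
    (fun v _ => Eventually.of_forall fun t => by
      refine row_det 0 (fun i => E v i t) ?_
      rw [hE0]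
      exact one_ne_zero) (1 / 2) (by norm_num)
  have hYne : ∀ᶠ t in (𝓕 : Filter α), Y t ≠ 0 := by
    rw [← mk_ne_zero]
    intro h
    apply hYn
    rw [h]
    exact Submodule.zero_mem _
  have hYR : ∀ᶠ t in (𝓕 : Filter α), Y t - R t ≠ 0 := by
    rw [← mk_ne_zero]
    intro h
    apply hYn
    have h2 : mk 𝓕 Y = mk 𝓕 R := by
      have h3 : mk 𝓕 (fun t => Y t - R t) = mk 𝓕 Y - mk 𝓕 R := by
        rw [← map_sub]
        rfl
      rw [h3] at h
      exact sub_eq_zero.1 h
    rw [h2, ← hc]
    exact Submodule.sum_mem _ fun i _ => Submodule.smul_mem _ _ (Submodule.subset_span ⟨i, rfl⟩)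
  obtain ⟨t, h2, h3, h4, h5, h6, h7, hIt, hCYt⟩ := (h1.and (hRe.and (happ.and (hYne.and
    (hYR.and ((hH_le hH 1).and ((hI (1 / (n + 1)) (by positivity)).and hCY))))))).exists
  -- the rows
  set Z : Pl K → K := fun v => if v = v0 then Y t - R t else Y t with hZ
  have hval0 : ∀ v, ∑ i, E v i t * g i t = Z v := by
    intro v
    rw [Fin.sum_univ_succ, hE0, one_mul, hg0, hZ]
    by_cases hv : v = v0
    · simp only [if_pos hv]
      rw [h3, sub_eq_add_neg, ← Finset.sum_neg_distrib]
      congr 1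
      refine Finset.sum_congr rfl fun i _ => ?_
      rw [hEs', if_pos hv, hgs, neg_mul]
    · simp only [if_neg hv]
      have h8 : ∑ i : Fin n, E v i.succ t * g i.succ t = 0 :=
        Finset.sum_eq_zero fun i _ => by rw [hEs', if_neg hv, zero_mul]
      rw [h8, add_zero]
  have hrow : ∀ v ∈ S, ∑ b, (Real.log (nrm (av v) (fun i => g i t)) -
      Real.log (av v (∑ i, (if b = 0 then E v i t else if b = i then 1 else 0) * g i t))) =
      (n + 1) * Real.log (nrm (av v) (fun i => g i t)) - ∑ i, Real.log (av v (a i t)) -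
        Real.log (av v (Z v)) := by
    intro v _
    have h9 : ∑ i, (if (0 : Fin (n + 1)) = 0 then E v i t else if 0 = i then 1 else 0) * g i t =
        Z v := by
      rw [← hval0 v]
      exact Finset.sum_congr rfl fun i _ => by rw [if_pos rfl]
    rw [Fin.sum_univ_succ, h9]
    have h8 : ∀ j : Fin n, Real.log (nrm (av v) (fun i => g i t)) -
        Real.log (av v (∑ i, (if j.succ = 0 then E v i t else if j.succ = i then 1 else 0) *
          g i t)) = Real.log (nrm (av v) (fun i => g i t)) - Real.log (av v (a j t)) := by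
      intro j
      simp only [Fin.succ_ne_zero, if_false, ite_mul, one_mul, zero_mul, Finset.sum_ite_eq,
        Finset.mem_univ, if_true]
      rw [hgs]
    rw [Finset.sum_congr rfl fun j _ => h8 j, Finset.sum_sub_distrib, Finset.sum_const,
      Finset.card_univ, Fintype.card_fin, nsmul_eq_mul]
    ring
  rw [Finset.sum_congr rfl fun v hv => by rw [hrow v hv]] at h2
  -- the height
  have hgne : (fun i => g i t) ≠ 0 := fun h => h5 (by
    have h8 := congrFun h 0
    rwa [hg0] at h8)
  have hnrm : ∀ v : HeightOneSpectrum (𝓞 K), (Sum.inr v : Pl K) ∉ S →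
      nrm (av (Sum.inr v : Pl K)) (fun i => g i t) ≤ max 1 (av (Sum.inr v : Pl K) (Y t)) := by
    intro v hv
    obtain ⟨j, hj⟩ := exists_nrm (av (Sum.inr v : Pl K)) (Nat.succ_pos n) (fun i => g i t)
    rw [← hj]
    refine Fin.cases ?_ (fun i => ?_) j
    · rw [hg0]
      exact le_max_right _ _
    · rw [hgs]
      exact ((ha2 i t).2 _ hv).le.trans (le_max_left _ _)
  obtain ⟨T', hT'⟩ : ∃ T' : Finset (HeightOneSpectrum (𝓞 K)), T' = S.toRight ∪
      (Pool.Agent.R405.nrm_finite (fun i => g i t) hgne).toFinset := ⟨_, rfl⟩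
  have hht0 := Pool.Agent.R405.logHeight_sum (fun i => g i t) hgne T' (fun v hv => by
    by_contra hcon
    apply hv
    rw [hT', Finset.mem_union]
    right
    rw [Set.Finite.mem_toFinset]
    exact hcon)
  have hsplit : ∑ v ∈ T', Real.log (nrm (Pool.Agent.W180.OP.fv v) (fun i => g i t)) =
      ∑ v ∈ S.toRight, Real.log (nrm (Pool.Agent.W180.OP.fv v) (fun i => g i t)) +
      ∑ v ∈ T' \ S.toRight, Real.log (nrm (Pool.Agent.W180.OP.fv v) (fun i => g i t)) := by
    have hsub : S.toRight ⊆ T' := by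
      rw [hT']
      exact Finset.subset_union_left
    exact (Finset.sum_sdiff hsub).symm.trans (add_comm _ _)
  have hout : ∑ v ∈ T' \ S.toRight, Real.log (nrm (Pool.Agent.W180.OP.fv v) (fun i => g i t)) ≤
      1 / (n + 1) * H t := by
    refine le_trans (Finset.sum_le_sum fun v hv => ?_) (hIt (T' \ S.toRight) fun v hv => ?_)
    · have hv' : (Sum.inr v : Pl K) ∉ S := fun h =>
        (Finset.mem_sdiff.1 hv).2 (Finset.mem_toRight.2 h)
      exact Real.log_le_log (nrm_pos _ hgne) (hnrm v hv')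
    · exact fun h => (Finset.mem_sdiff.1 hv).2 (Finset.mem_toRight.2 h)
  have hSsum : ∑ v ∈ S, wt v * Real.log (nrm (av v) (fun i => g i t)) =
      ∑ w : InfinitePlace K, (w.mult : ℝ) * Real.log (nrm w.1 (fun i => g i t)) +
      ∑ v ∈ S.toRight, Real.log (nrm (Pool.Agent.W180.OP.fv v) (fun i => g i t)) := by
    have h1 : S.toLeft = Finset.univ := by
      ext w
      simp [Finset.mem_toLeft, hS w]
    conv_lhs => rw [← Finset.toLeft_disjSum_toRight (u := S)]
    rw [Finset.sum_disjSum, h1]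
    congr 1
    refine Finset.sum_congr rfl fun v _ => ?_
    show 1 * _ = _
    rw [one_mul]
    rfl
  have hht : logHeight (fun i => g i t) - 1 / (n + 1) * H t ≤
      ∑ v ∈ S, wt v * Real.log (nrm (av v) (fun i => g i t)) := by
    rw [hSsum, hht0, hsplit]
    linarith
  have h8 : ∑ v ∈ S, wt v * ((n + 1) * Real.log (nrm (av v) (fun i => g i t)) -
      ∑ i, Real.log (av v (a i t)) - Real.log (av v (Z v))) =
      (n + 1) * (∑ v ∈ S, wt v * Real.log (nrm (av v) (fun i => g i t))) -
        ∑ v ∈ S, wt v * Real.log (av v (Z v)) := by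
    have h11 : ∑ v ∈ S, wt v * ∑ i, Real.log (av v (a i t)) = 0 := by
      simp only [Finset.mul_sum]
      rw [Finset.sum_comm]
      exact Finset.sum_eq_zero fun i _ => prodU hS (ha2 i t)
    have h12 : ∀ v ∈ S, wt v * ((n + 1) * Real.log (nrm (av v) (fun i => g i t)) -
        ∑ i, Real.log (av v (a i t)) - Real.log (av v (Z v))) =
        (n + 1) * (wt v * Real.log (nrm (av v) (fun i => g i t))) -
        wt v * ∑ i, Real.log (av v (a i t)) - wt v * Real.log (av v (Z v)) := by
      intro v _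
      ring
    rw [Finset.sum_congr rfl h12, Finset.sum_sub_distrib, Finset.sum_sub_distrib,
      ← Finset.mul_sum, h11]
    ring
  rw [h8] at h2
  have h9 : ∑ v ∈ S, wt v * Real.log (av v (Z v)) ≤ -(2 * H t) := by
    rw [← Finset.add_sum_erase S _ hv0]
    have e1 : wt v0 * Real.log (av v0 (Z v0)) ≤ -((CY + 2) * H t) := by
      have h10 : 0 < av v0 (Y t - R t) := (av _).pos_iff.2 h6
      have h11 := Real.log_le_log h10 h4
      rw [Real.log_exp] at h11
      have h12 : Z v0 = Y t - R t := by rw [hZ]; simp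
      rw [h12]
      have h13 : 0 ≤ (CY + 2) * H t := by
        have : 0 < H t := by linarith
        positivity
      have h14 := EC.one_le_wt v0
      nlinarith
    have e2 : ∑ v ∈ S.erase v0, wt v * Real.log (av v (Z v)) ≤ CY * H t := by
      refine le_trans (Finset.sum_le_sum fun v hv => ?_) ((part1 (Y t) (S.erase v0)).trans hCYt)
      have h12 : Z v = Y t := by
        rw [hZ]
        exact if_neg (Finset.ne_of_mem_erase hv)
      rw [h12]
      refine mul_le_mul_of_nonneg_left (Real.log_le_log ((av _).pos_iff.2 h5) (le_max_right _ _))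
        (wt_nonneg v)
    linarith
  have hn' : (0 : ℝ) < (n : ℝ) + 1 := by positivity
  have h10 : ((n : ℝ) + 1) * (logHeight (fun i => g i t) - 1 / (n + 1) * H t) ≤
      ((n : ℝ) + 1) * ∑ v ∈ S, wt v * Real.log (nrm (av v) (fun i => g i t)) :=
    mul_le_mul_of_nonneg_left hht hn'.le
  have h11 : ((n : ℝ) + 1) * (logHeight (fun i => g i t) - 1 / (n + 1) * H t) =
      ((n : ℝ) + 1) * logHeight (fun i => g i t) - H t := by
    field_simp
  rw [h11] at h10
  push_cast at h2
  linarith

end Pool.Agent.Run7.h28.BV
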