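import Mathlib
import Pool.Agent.Run7.h28.BV.SpN

/-!
# Project BV (helper28): families of functions approximated by sums of units, uniformly
-/

set_option autoImplicit false
set_option linter.unusedSectionVars false

open Filter Topology

namespace Pool.Agent.Run7.h28.BV

open NumberField IsDedekindDomain Height Module
open Pool.Agent.W180.OP (Pl av wt nrm le_nrm nrm_pos wt_nonneg exists_nrm nrm_nonneg)
open Pool.Agent.N750
open Pool.Agent.Run7.h28.HK
open Pool.Agent.Run7.h28.EC (SubE)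

universe w

variable {ι : Type w} {α : Type} {L : ι → Type} [∀ s, Field (L s)] [∀ s, NumberField (L s)]
  {𝓕 : ι → Ultrafilter α} {H : ι → α → ℝ} {v : ∀ s, Pl (L s)}

/-! ### Uniformly small functions -/

/-- uniformly exponentially small -/
def USm (𝓕 : ι → Ultrafilter α) (H : ι → α → ℝ) (v : ∀ s, Pl (L s)) (f : ∀ s, α → L s) : Prop :=
  ∃ c : ℝ, 0 < c ∧ ∀ s, ∀ᶠ t in (𝓕 s : Filter α), av (v s) (f s t) ≤ Real.exp (-(c * H s t))

lemma USm.mul {a b : ∀ s, α → L s} (ha : USm 𝓕 H v a) (hb : ∀ s, Bd (𝓕 s) (H s) (v s) (b s)) :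
    USm 𝓕 H v (fun s t => a s t * b s t) := by
  obtain ⟨c, hc, h⟩ := ha
  refine ⟨c / 2, by positivity, fun s => ?_⟩
  filter_upwards [h s, hb s (c / 2) (by positivity)] with t h1 h2
  rw [map_mul]
  calc av (v s) (a s t) * av (v s) (b s t) ≤
        Real.exp (-(c * H s t)) * Real.exp (c / 2 * H s t) :=
        mul_le_mul h1 h2 ((av _).nonneg _) (Real.exp_pos _).le
    _ = Real.exp (-(c / 2 * H s t)) := by
        rw [← Real.exp_add]
        congr 1
        ring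

lemma USm.zero : USm 𝓕 H v (fun _ _ => 0) := by
  refine ⟨1, one_pos, fun s => Eventually.of_forall fun t => ?_⟩
  rw [map_zero]
  exact (Real.exp_pos _).le

lemma USm.neg {a : ∀ s, α → L s} (ha : USm 𝓕 H v a) : USm 𝓕 H v (fun s t => - a s t) := by
  obtain ⟨c, hc, h⟩ := ha
  refine ⟨c, hc, fun s => ?_⟩
  filter_upwards [h s] with t h1
  rwa [map_neg_eq_map]

lemma USm.congr {a b : ∀ s, α → L s} (ha : USm 𝓕 H v a)
    (h : ∀ s, ∀ᶠ t in (𝓕 s : Filter α), a s t = b s t) : USm 𝓕 H v b := by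
  obtain ⟨c, hc, h1⟩ := ha
  refine ⟨c, hc, fun s => ?_⟩
  filter_upwards [h1 s, h s] with t h2 h3
  rwa [← h3]

lemma USm.add (hH : ∀ s, Tendsto (H s) (𝓕 s) atTop) {a b : ∀ s, α → L s} (ha : USm 𝓕 H v a)
    (hb : USm 𝓕 H v b) : USm 𝓕 H v (fun s t => a s t + b s t) := by
  obtain ⟨c, hc, h⟩ := ha
  obtain ⟨c', hc', h'⟩ := hb
  obtain ⟨e, he⟩ : ∃ e, e = min c c' := ⟨_, rfl⟩
  have he0 : 0 < e := by rw [he]; exact lt_min hc hc'
  refine ⟨e / 2, by positivity, fun s => ?_⟩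
  filter_upwards [h s, h' s, hH_le (hH s) 0, hH_le (hH s) (Real.log 2 / (e / 2))] with t h1 h2 h3 h4
  have h5 : Real.exp (-(c * H s t)) ≤ Real.exp (-(e * H s t)) := by
    refine Real.exp_le_exp.2 (neg_le_neg (mul_le_mul_of_nonneg_right ?_ h3))
    rw [he]
    exact min_le_left _ _
  have h6 : Real.exp (-(c' * H s t)) ≤ Real.exp (-(e * H s t)) := by
    refine Real.exp_le_exp.2 (neg_le_neg (mul_le_mul_of_nonneg_right ?_ h3))
    rw [he]
    exact min_le_right _ _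
  have h7 : (2 : ℝ) ≤ Real.exp (e / 2 * H s t) := by
    rw [div_le_iff₀ (by positivity)] at h4
    calc (2 : ℝ) = Real.exp (Real.log 2) := (Real.exp_log (by norm_num)).symm
      _ ≤ _ := Real.exp_le_exp.2 (by linarith)
  calc av (v s) (a s t + b s t) ≤ av (v s) (a s t) + av (v s) (b s t) := (av _).add_le _ _
    _ ≤ 2 * Real.exp (-(e * H s t)) := by linarith
    _ ≤ Real.exp (e / 2 * H s t) * Real.exp (-(e * H s t)) :=
        mul_le_mul_of_nonneg_right h7 (Real.exp_pos _).le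
    _ = Real.exp (-(e / 2 * H s t)) := by
        rw [← Real.exp_add]
        congr 1
        ring

lemma USm.sum (hH : ∀ s, Tendsto (H s) (𝓕 s) atTop) {κ : Type} (A : Finset κ)
    (f : κ → ∀ s, α → L s) (hf : ∀ i ∈ A, USm 𝓕 H v (f i)) :
    USm 𝓕 H v (fun s t => ∑ i ∈ A, f i s t) := by
  classical
  induction A using Finset.induction_on with
  | empty => simpa only [Finset.sum_empty] using USm.zero
  | insert a A ha ih =>
    simp only [Finset.sum_insert ha]
    exact (hf a (Finset.mem_insert_self _ _)).add hH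
      (ih fun i hi => hf i (Finset.mem_insert_of_mem hi))

lemma USm.bd (hH : ∀ s, Tendsto (H s) (𝓕 s) atTop) {a : ∀ s, α → L s} (ha : USm 𝓕 H v a)
    (s : ι) : Bd (𝓕 s) (H s) (v s) (a s) := by
  obtain ⟨c, hc, h⟩ := ha
  exact Sm.bd (hH s) ⟨c, hc, h s⟩

lemma USm.pow (hH : ∀ s, Tendsto (H s) (𝓕 s) atTop) {a : ∀ s, α → L s} (ha : USm 𝓕 H v a)
    {n : ℕ} (hn : n ≠ 0) : USm 𝓕 H v (fun s t => a s t ^ n) := by
  obtain ⟨k, rfl⟩ := Nat.exists_eq_succ_of_ne_zero hn
  refine (ha.mul fun s => (ha.bd hH s).pow (hH s) k).congr fun s => Eventually.of_forall fun t => ?_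
  rw [Nat.succ_eq_add_one, pow_succ']

/-- uniform congruence modulo small functions -/
def UCg (𝓕 : ι → Ultrafilter α) (H : ι → α → ℝ) (v : ∀ s, Pl (L s)) (a b : ∀ s, α → L s) :
    Prop := USm 𝓕 H v (fun s t => a s t - b s t) ∧ ∀ s, Bd (𝓕 s) (H s) (v s) (b s)

lemma UCg.bd (hH : ∀ s, Tendsto (H s) (𝓕 s) atTop) {a b : ∀ s, α → L s} (h : UCg 𝓕 H v a b)
    (s : ι) : Bd (𝓕 s) (H s) (v s) (a s) := by
  have h1 := (h.1.bd hH s).add (hH s) (h.2 s)
  have h2 : (fun t => a s t - b s t + b s t) = a s := by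
    funext t
    ring
  rwa [h2] at h1

lemma UCg.refl {a : ∀ s, α → L s} (ha : ∀ s, Bd (𝓕 s) (H s) (v s) (a s)) : UCg 𝓕 H v a a := by
  refine ⟨USm.zero.congr fun s => Eventually.of_forall fun t => ?_, ha⟩
  ring

lemma UCg.mul (hH : ∀ s, Tendsto (H s) (𝓕 s) atTop) {a b a' b' : ∀ s, α → L s}
    (h : UCg 𝓕 H v a b) (h' : UCg 𝓕 H v a' b') :
    UCg 𝓕 H v (fun s t => a s t * a' s t) (fun s t => b s t * b' s t) := by
  refine ⟨?_, fun s => (h.2 s).mul (h'.2 s)⟩
  refine ((h.1.mul (h'.bd hH)).add hH (h'.1.mul h.2)).congr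
    fun s => Eventually.of_forall fun t => ?_
  ring

lemma UCg.pow (hH : ∀ s, Tendsto (H s) (𝓕 s) atTop) {a b : ∀ s, α → L s} (h : UCg 𝓕 H v a b)
    (n : ℕ) : UCg 𝓕 H v (fun s t => a s t ^ n) (fun s t => b s t ^ n) := by
  induction n with
  | zero =>
    simp only [pow_zero]
    exact UCg.refl fun s => Bd.const (hH s) _ _
  | succ n ih =>
    simp only [pow_succ]
    exact ih.mul hH h

lemma UCg.prod (hH : ∀ s, Tendsto (H s) (𝓕 s) atTop) {κ : Type} (A : Finset κ)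
    (f g : κ → ∀ s, α → L s) (hf : ∀ i ∈ A, UCg 𝓕 H v (f i) (g i)) :
    UCg 𝓕 H v (fun s t => ∏ i ∈ A, f i s t) (fun s t => ∏ i ∈ A, g i s t) := by
  classical
  induction A using Finset.induction_on with
  | empty =>
    simp only [Finset.prod_empty]
    exact UCg.refl fun s => Bd.const (hH s) _ _
  | insert a A ha ih =>
    simp only [Finset.prod_insert ha]
    exact (hf a (Finset.mem_insert_self _ _)).mul hH
      (ih fun i hi => hf i (Finset.mem_insert_of_mem hi))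

/-! ### Uniform exponential bounds -/

/-- uniformly at most exponential -/
def ULB (𝓕 : ι → Ultrafilter α) (H : ι → α → ℝ) (v : ∀ s, Pl (L s)) (f : ∀ s, α → L s) : Prop :=
  ∃ C : ℝ, 0 ≤ C ∧ ∀ s, ∀ᶠ t in (𝓕 s : Filter α), av (v s) (f s t) ≤ Real.exp (C * H s t)

lemma ULB.add (hH : ∀ s, Tendsto (H s) (𝓕 s) atTop) {f g : ∀ s, α → L s} (hf : ULB 𝓕 H v f)
    (hg : ULB 𝓕 H v g) : ULB 𝓕 H v (fun s t => f s t + g s t) := by
  obtain ⟨C, hC, h⟩ := hf
  obtain ⟨C', hC', h'⟩ := hg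
  refine ⟨C + C' + 1, by linarith, fun s => ?_⟩
  filter_upwards [h s, h' s, hH_le (hH s) 0, two_le (hH s)] with t h1 h2 h3 h4
  have h5 : Real.exp (C * H s t) ≤ Real.exp ((C + C') * H s t) :=
    Real.exp_le_exp.2 (mul_le_mul_of_nonneg_right (by linarith) h3)
  have h6 : Real.exp (C' * H s t) ≤ Real.exp ((C + C') * H s t) :=
    Real.exp_le_exp.2 (mul_le_mul_of_nonneg_right (by linarith) h3)
  calc av (v s) (f s t + g s t) ≤ av (v s) (f s t) + av (v s) (g s t) := (av _).add_le _ _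
    _ ≤ 2 * Real.exp ((C + C') * H s t) := by linarith
    _ ≤ Real.exp (H s t) * Real.exp ((C + C') * H s t) :=
        mul_le_mul_of_nonneg_right h4 (Real.exp_pos _).le
    _ = Real.exp ((C + C' + 1) * H s t) := by
        rw [← Real.exp_add]
        congr 1
        ring

lemma ULB.mul {f g : ∀ s, α → L s} (hf : ULB 𝓕 H v f) (hg : ULB 𝓕 H v g) :
    ULB 𝓕 H v (fun s t => f s t * g s t) := by
  obtain ⟨C, hC, h⟩ := hf
  obtain ⟨C', hC', h'⟩ := hg
  refine ⟨C + C', by linarith, fun s => ?_⟩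
  filter_upwards [h s, h' s] with t h1 h2
  rw [map_mul, add_mul, Real.exp_add]
  exact mul_le_mul h1 h2 ((av _).nonneg _) (Real.exp_pos _).le

lemma ULB.congr {f g : ∀ s, α → L s} (hf : ULB 𝓕 H v f)
    (h : ∀ s, ∀ᶠ t in (𝓕 s : Filter α), f s t = g s t) : ULB 𝓕 H v g := by
  obtain ⟨C, hC, h1⟩ := hf
  refine ⟨C, hC, fun s => ?_⟩
  filter_upwards [h1 s, h s] with t h2 h3
  rwa [← h3]

lemma ULB.bd {f : ∀ s, α → L s} (hf : ∀ s, Bd (𝓕 s) (H s) (v s) (f s)) : ULB 𝓕 H v f :=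
  ⟨1, zero_le_one, fun s => hf s 1 one_pos⟩

lemma ULB.sm (hH : ∀ s, Tendsto (H s) (𝓕 s) atTop) {f : ∀ s, α → L s} (hf : USm 𝓕 H v f) :
    ULB 𝓕 H v f := ULB.bd fun s => hf.bd hH s

/-! ### Approximation -/

/-- a family of functions approximated by sums of units, with a uniform number of terms -/
def UAp (hH : ∀ s, Tendsto (H s) (𝓕 s) atTop) (Γ : ∀ s, Subgroup (L s)ˣ) (v : ∀ s, Pl (L s))
    (f : ∀ s, α → L s) : Prop :=
  ULB 𝓕 H v f ∧ ∃ N : ℕ → ℕ, ∀ s κ, ∃ R : α → L s,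
    SpN (slowF (𝓕 s) (L s) (H s) (hH s)) (PG (𝓕 s) (H s) (Γ s)) (N κ) (mk (𝓕 s) R) ∧
    ∀ᶠ t in (𝓕 s : Filter α), av (v s) (f s t - R t) ≤ Real.exp (-((κ : ℝ) * H s t))

variable {hH : ∀ s, Tendsto (H s) (𝓕 s) atTop} {Γ : ∀ s, Subgroup (L s)ˣ}

lemma UAp.spn {f : ∀ s, α → L s} (hf : ULB 𝓕 H v f) (k : ℕ)
    (h : ∀ s, SpN (slowF (𝓕 s) (L s) (H s) (hH s)) (PG (𝓕 s) (H s) (Γ s)) k (mk (𝓕 s) (f s))) :
    UAp hH Γ v f := by
  refine ⟨hf, fun _ => k, fun s κ => ⟨f s, h s, Eventually.of_forall fun t => ?_⟩⟩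
  rw [sub_self, map_zero]
  exact (Real.exp_pos _).le

lemma UAp.slow {f : ∀ s, α → L s} (hf : ∀ s, Slow (𝓕 s) (H s) (f s)) : UAp hH Γ v f :=
  UAp.spn (ULB.bd fun s => Bd.slow (hf s) _) 1 fun s => SpN.mem PG.one (mk_slow.2 (hf s))

lemma UAp.congr {f g : ∀ s, α → L s} (hf : UAp hH Γ v f)
    (h : ∀ s, ∀ᶠ t in (𝓕 s : Filter α), f s t = g s t) : UAp hH Γ v g := by
  obtain ⟨h1, N, h2⟩ := hf
  refine ⟨h1.congr h, N, fun s κ => ?_⟩
  obtain ⟨R, hR, h3⟩ := h2 s κ
  refine ⟨R, hR, ?_⟩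
  filter_upwards [h3, h s] with t h4 h5
  rwa [← h5]

lemma exp_two {x a : ℝ} (h : (2 : ℝ) ≤ Real.exp x) :
    2 * Real.exp (-((a + 1) * x)) ≤ Real.exp (-(a * x)) := by
  calc 2 * Real.exp (-((a + 1) * x)) ≤ Real.exp x * Real.exp (-((a + 1) * x)) :=
        mul_le_mul_of_nonneg_right h (Real.exp_pos _).le
    _ = Real.exp (-(a * x)) := by
        rw [← Real.exp_add]
        congr 1
        ring

/-- limits -/
lemma UAp.lim {f : ∀ s, α → L s} (h : ∀ κ : ℕ, ∃ g : ∀ s, α → L s, UAp hH Γ v g ∧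
    ∀ s, ∀ᶠ t in (𝓕 s : Filter α), av (v s) (f s t - g s t) ≤ Real.exp (-((κ : ℝ) * H s t))) :
    UAp hH Γ v f := by
  choose g hg h1 using h
  have hlb : ULB 𝓕 H v f := by
    have h2 : ULB 𝓕 H v (fun s t => f s t - g 0 s t) := by
      refine ⟨0, le_rfl, fun s => ?_⟩
      filter_upwards [h1 0 s] with t ht
      simpa using ht
    refine (h2.add hH (hg 0).1).congr fun s => Eventually.of_forall fun t => ?_
    ring
  choose N hN using fun κ => (hg κ).2
  refine ⟨hlb, fun κ => N (κ + 1) (κ + 1), fun s κ => ?_⟩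
  obtain ⟨R, hR, h2⟩ := hN (κ + 1) s (κ + 1)
  refine ⟨R, hR, ?_⟩
  filter_upwards [h1 (κ + 1) s, h2, two_le (hH s)] with t h3 h4 h5
  have h6 : f s t - R t = (f s t - g (κ + 1) s t) + (g (κ + 1) s t - R t) := by ring
  rw [h6]
  push_cast at h3 h4
  refine ((av _).add_le _ _).trans (le_trans ?_ (exp_two (a := (κ : ℝ)) h5))
  linarith

lemma UAp.add {f g : ∀ s, α → L s} (hf : UAp hH Γ v f) (hg : UAp hH Γ v g) :
    UAp hH Γ v (fun s t => f s t + g s t) := by
  obtain ⟨h1, N, hN⟩ := hf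
  obtain ⟨h1', N', hN'⟩ := hg
  refine ⟨h1.add hH h1', fun κ => N (κ + 1) + N' (κ + 1), fun s κ => ?_⟩
  obtain ⟨R, hR, h2⟩ := hN s (κ + 1)
  obtain ⟨R', hR', h2'⟩ := hN' s (κ + 1)
  refine ⟨fun t => R t + R' t, ?_, ?_⟩
  · have h3 : mk (𝓕 s) (fun t => R t + R' t) = mk (𝓕 s) R + mk (𝓕 s) R' := by
      rw [← map_add]; rfl
    rw [h3]
    exact hR.add hR'
  filter_upwards [h2, h2', two_le (hH s)] with t h3 h4 h5
  have h6 : f s t + g s t - (R t + R' t) = (f s t - R t) + (g s t - R' t) := by ring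
  rw [h6]
  push_cast at h3 h4
  refine ((av _).add_le _ _).trans (le_trans ?_ (exp_two (a := (κ : ℝ)) h5))
  linarith

lemma UAp.mul {f g : ∀ s, α → L s} (hf : UAp hH Γ v f) (hg : UAp hH Γ v g) :
    UAp hH Γ v (fun s t => f s t * g s t) := by
  obtain ⟨⟨C, hC, h1⟩, N, hN⟩ := hf
  obtain ⟨⟨C', hC', h1'⟩, N', hN'⟩ := hg
  obtain ⟨c, hc⟩ := exists_nat_ge C
  obtain ⟨c', hc'⟩ := exists_nat_ge C'
  refine ⟨ULB.mul ⟨C, hC, h1⟩ ⟨C', hC', h1'⟩,
    fun κ => N (κ + c' + 1 + 1) * N' (κ + c + 1), fun s κ => ?_⟩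
  obtain ⟨R, hR, h2⟩ := hN s (κ + c' + 1 + 1)
  obtain ⟨R', hR', h2'⟩ := hN' s (κ + c + 1)
  refine ⟨fun t => R t * R' t, ?_, ?_⟩
  · have h3 : mk (𝓕 s) (fun t => R t * R' t) = mk (𝓕 s) R * mk (𝓕 s) R' := by
      rw [← map_mul]; rfl
    rw [h3]
    exact SpN.mul (fun _ _ => PG.mul) hR hR'
  filter_upwards [h1 s, h1' s, h2, h2', two_le (hH s), hH_le (hH s) 0] with t h3 h4 h5 h6 h7 h8
  have h9 : f s t * g s t - R t * R' t = f s t * (g s t - R' t) + (f s t - R t) * R' t := by ring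
  rw [h9]
  push_cast at h5 h6
  have h10 : av (v s) (R' t) ≤ Real.exp ((c' + 1) * H s t) := by
    have h11 : R' t = g s t - (g s t - R' t) := by ring
    have h12 : av (v s) (R' t) ≤ av (v s) (g s t) + av (v s) (g s t - R' t) := by
      calc av (v s) (R' t) = av (v s) (g s t - (g s t - R' t)) := by rw [← h11]
        _ ≤ _ := (av _).sub_le_add _ _
    have h13 : av (v s) (g s t) ≤ Real.exp (c' * H s t) :=
      h4.trans (Real.exp_le_exp.2 (mul_le_mul_of_nonneg_right hc' h8))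
    have h14 : av (v s) (g s t - R' t) ≤ Real.exp (c' * H s t) := by
      refine h6.trans (Real.exp_le_exp.2 ?_)
      have : 0 ≤ ((κ : ℝ) + c + 1) * H s t := by positivity
      have : 0 ≤ (c' : ℝ) * H s t := by positivity
      linarith
    calc av (v s) (R' t) ≤ 2 * Real.exp (c' * H s t) := by linarith
      _ ≤ Real.exp (H s t) * Real.exp (c' * H s t) :=
          mul_le_mul_of_nonneg_right h7 (Real.exp_pos _).le
      _ = _ := by
          rw [← Real.exp_add]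
          congr 1
          ring
  have h15 : av (v s) (f s t) ≤ Real.exp (c * H s t) :=
    h3.trans (Real.exp_le_exp.2 (mul_le_mul_of_nonneg_right hc h8))
  refine ((av _).add_le _ _).trans (le_trans ?_ (exp_two (a := (κ : ℝ)) h7))
  rw [map_mul, map_mul]
  calc av (v s) (f s t) * av (v s) (g s t - R' t) + av (v s) (f s t - R t) * av (v s) (R' t) ≤
        Real.exp (c * H s t) * Real.exp (-((κ + c + 1) * H s t)) +
        Real.exp (-((κ + c' + 1 + 1) * H s t)) * Real.exp ((c' + 1) * H s t) :=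
        add_le_add (mul_le_mul h15 h6 ((av _).nonneg _) (Real.exp_pos _).le)
          (mul_le_mul h5 h10 ((av _).nonneg _) (Real.exp_pos _).le)
    _ = 2 * Real.exp (-((κ + 1) * H s t)) := by
        rw [← Real.exp_add, ← Real.exp_add, two_mul]
        congr 2 <;> ring

lemma UAp.neg {f : ∀ s, α → L s} (hf : UAp hH Γ v f) : UAp hH Γ v (fun s t => -f s t) := by
  have h1 : UAp hH Γ v (fun _ _ => -1) := UAp.slow fun s => slow_const (hH s) _
  refine (h1.mul hf).congr fun s => Eventually.of_forall fun t => ?_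
  ring

lemma UAp.pow {f : ∀ s, α → L s} (hf : UAp hH Γ v f) (n : ℕ) :
    UAp hH Γ v (fun s t => f s t ^ n) := by
  induction n with
  | zero =>
    simp only [pow_zero]
    exact UAp.slow (f := fun _ _ => 1) fun s => slow_const (hH s) _
  | succ n ih =>
    simp only [pow_succ]
    exact ih.mul hf

lemma UAp.sum {κ : Type} (A : Finset κ) (f : κ → ∀ s, α → L s)
    (hf : ∀ i ∈ A, UAp hH Γ v (f i)) : UAp hH Γ v (fun s t => ∑ i ∈ A, f i s t) := by
  classical
  induction A using Finset.induction_on with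
  | empty =>
    simp only [Finset.sum_empty]
    exact UAp.slow (f := fun _ _ => 0) fun s => slow_const (hH s) _
  | insert a A ha ih =>
    simp only [Finset.sum_insert ha]
    exact (hf a (Finset.mem_insert_self _ _)).add
      (ih fun i hi => hf i (Finset.mem_insert_of_mem hi))

lemma UAp.prod {κ : Type} (A : Finset κ) (f : κ → ∀ s, α → L s)
    (hf : ∀ i ∈ A, UAp hH Γ v (f i)) : UAp hH Γ v (fun s t => ∏ i ∈ A, f i s t) := by
  classical
  induction A using Finset.induction_on with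
  | empty =>
    simp only [Finset.prod_empty]
    exact UAp.slow (f := fun _ _ => 1) fun s => slow_const (hH s) _
  | insert a A ha ih =>
    simp only [Finset.prod_insert ha]
    exact (hf a (Finset.mem_insert_self _ _)).mul
      (ih fun i hi => hf i (Finset.mem_insert_of_mem hi))

/-- inverses -/
lemma UAp.inv {β e : ∀ s, α → L s} (hβ : UAp hH Γ v β) (he : ∀ s, Slow (𝓕 s) (H s) (e s))
    (he0 : ∀ s, ∀ᶠ t in (𝓕 s : Filter α), e s t ≠ 0)
    (hs : USm 𝓕 H v (fun s t => β s t - e s t)) : UAp hH Γ v (fun s t => (β s t)⁻¹) := by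
  -- the small quantity
  obtain ⟨η, hη⟩ : ∃ η : ∀ s, α → L s, η = fun s t => (e s t - β s t) * (e s t)⁻¹ := ⟨_, rfl⟩
  have hηs : USm 𝓕 H v η := by
    rw [hη]
    refine ((hs.neg).mul fun s => Bd.slow (he s).inv _).congr
      fun s => Eventually.of_forall fun t => ?_
    ring
  have hηa : UAp hH Γ v η := by
    rw [hη]
    refine (((UAp.slow he).add hβ.neg).mul (UAp.slow fun s => (he s).inv)).congr
      fun s => Eventually.of_forall fun t => ?_
    ring
  obtain ⟨c, hc, hηc⟩ := hηs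
  refine UAp.lim fun κ => ?_
  obtain ⟨N, hN⟩ := exists_nat_gt (((κ : ℝ) + 2) / c)
  refine ⟨fun s t => (e s t)⁻¹ * ∑ k ∈ Finset.range N, η s t ^ k,
    (UAp.slow fun s => (he s).inv).mul (UAp.sum _ (fun k s t => η s t ^ k)
      fun k _ => hηa.pow k), fun s => ?_⟩
  filter_upwards [he0 s, hηc s, hH_le (hH s) 0, inv_bd (v := v s) (he s) (ε := 1) one_pos,
    two_le (hH s), hH_le (hH s) (Real.log 2 / c)] with t h1 h2 h3 h4 h5 h6
  have hη1 : av (v s) (η s t) ≤ 1 / 2 := by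
    refine h2.trans ?_
    rw [div_le_iff₀ hc] at h6
    rw [Real.exp_neg, one_div]
    refine inv_anti₀ (by norm_num) ?_
    calc (2 : ℝ) = Real.exp (Real.log 2) := (Real.exp_log (by norm_num)).symm
      _ ≤ _ := Real.exp_le_exp.2 (by linarith)
  have hβe : β s t = e s t * (1 - η s t) := by
    rw [hη]
    field_simp
    ring
  have h1η : 1 / 2 ≤ av (v s) (1 - η s t) := by
    have h7 : av (v s) ((1 - η s t) + η s t) ≤ av (v s) (1 - η s t) + av (v s) (η s t) :=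
      (av _).add_le _ _
    have h8 : (1 - η s t) + η s t = 1 := by ring
    rw [h8, map_one] at h7
    linarith
  have h1η0 : (1 - η s t) ≠ 0 := by
    intro h
    rw [h, map_zero] at h1η
    linarith
  have hgeo : (∑ k ∈ Finset.range N, η s t ^ k) * (1 - η s t) = 1 - η s t ^ N := by
    have := geom_sum_mul (η s t) N
    linear_combination -this
  have hdiff : (β s t)⁻¹ - (e s t)⁻¹ * ∑ k ∈ Finset.range N, η s t ^ k =
      (e s t)⁻¹ * (η s t ^ N * (1 - η s t)⁻¹) := by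
    have h9 : (∑ k ∈ Finset.range N, η s t ^ k) = (1 - η s t ^ N) * (1 - η s t)⁻¹ := by
      rw [← hgeo, mul_assoc, mul_inv_cancel₀ h1η0, mul_one]
    rw [hβe, h9, mul_inv]
    ring
  rw [hdiff, map_mul, map_mul, map_pow, map_inv₀ (av (v s)) (1 - η s t)]
  have h10 : (av (v s) (1 - η s t))⁻¹ ≤ 2 := by
    have := inv_anti₀ (by norm_num) h1η
    simpa using this
  have h11 : av (v s) (η s t) ^ N ≤ Real.exp (-(((κ : ℝ) + 2) * H s t)) := by
    refine (pow_le_pow_left₀ ((av _).nonneg _) h2 _).trans ?_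
    rw [← Real.exp_nat_mul]
    refine Real.exp_le_exp.2 ?_
    rw [div_lt_iff₀ hc] at hN
    have h12 := mul_le_mul_of_nonneg_right hN.le h3
    linarith
  calc av (v s) (e s t)⁻¹ * (av (v s) (η s t) ^ N * (av (v s) (1 - η s t))⁻¹) ≤
        Real.exp (1 * H s t) * (Real.exp (-(((κ : ℝ) + 2) * H s t)) * Real.exp (H s t)) := by
        refine mul_le_mul h4 (mul_le_mul h11 (h10.trans h5) (inv_nonneg.2 ((av _).nonneg _))
          (Real.exp_pos _).le) ?_ (Real.exp_pos _).le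
        exact mul_nonneg (pow_nonneg ((av _).nonneg _) _) (inv_nonneg.2 ((av _).nonneg _))
    _ = Real.exp (-((κ : ℝ) * H s t)) := by
        rw [← Real.exp_add, ← Real.exp_add]
        congr 1
        ring

end Pool.Agent.Run7.h28.BV
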