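import Mathlib
import Pool.Agent.Run7.h28.BV.UAp
import Pool.Agent.Run7.h28.BV.OrdQ

/-!
# Project BV (helper28): roots of polynomials near polynomials with slow coefficients, uniformly
-/

set_option autoImplicit false
set_option linter.unusedSectionVars false

open Filter Topology

namespace Pool.Agent.Run7.h28.BV

open NumberField IsDedekindDomain Height Module
open Pool.Agent.W180.OP (Pl av wt nrm le_nrm nrm_pos wt_nonneg exists_nrm nrm_nonneg)
open Pool.Agent.N750
open Pool.Agent.Run7.h28.HK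
open Pool.Agent.Run7.h28.EC (SubE fv it aA aB newton)

/-- Newton's iteration converges to a root. -/
theorem near_root {L : Type} [Field L] [NumberField L] {α : Type} {𝓕 : Ultrafilter α} {H : α → ℝ}
    (hH : Tendsto H 𝓕 atTop) (v : Pl L) {q : ℕ} (hq : 0 < q) (E : α → Polynomial L)
    (hE : ∀ t, (E t).Monic)
    (hdeg : ∀ t, (E t).natDegree = q) (hEs : ∀ j, Slow 𝓕 H (fun t => (E t).coeff j))
    (ρ : Fin q → α → L) (hρs : ∀ i, Slow 𝓕 H (ρ i))
    (hprod : ∀ t Y, (E t).eval Y = ∏ i, (Y - ρ i t)) (hinj : ∀ t i j, i ≠ j → ρ i t ≠ ρ j t)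
    (hder : ∀ t i, (E t).derivative.eval (ρ i t) ≠ 0) (b : α → ℕ → L) (c : ℝ) (hc : 0 < c)
    (hb : ∀ j < q, ∀ᶠ t in (𝓕 : Filter α), av v (b t j) ≤ Real.exp (-(c * H t))) (Y : α → L)
    (heq : ∀ᶠ t in (𝓕 : Filter α), fv (E t) (b t) (Y t) = 0) :
    ∃ i : Fin q, ∀ n : ℕ, ∀ᶠ t in (𝓕 : Filter α),
      av v (it (E t) (b t) (ρ i t) n - Y t) ≤ Real.exp (-(((n : ℝ) + 1) * (c / 2) * H t)) := by
  classical
  -- the derivatives at the roots are slow
  have hders : ∀ i, Slow 𝓕 H (fun t => (E t).derivative.eval (ρ i t)) := by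
    intro i
    have h1 : (fun t => (E t).derivative.eval (ρ i t)) = fun t => ∑ j ∈ Finset.range (q + 1),
        (E t).coeff j * ((j : L) * ρ i t ^ (j - 1)) := by
      funext t
      rw [Polynomial.derivative_eval, Polynomial.sum_over_range, hdeg t]
      · exact Finset.sum_congr rfl fun j _ => by ring
      · intro j
        simp
    rw [h1]
    refine slow_sum hH _ fun j _ => ?_
    exact (hEs j).mul ((slow_const hH _).mul ((hρs i).pow hH _))
  -- the quantity `Q`
  obtain ⟨Q, hQ⟩ : ∃ Q : α → ℝ, Q = fun t => 1 +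
      ((∑ j ∈ Finset.range (q + 1), av v ((E t).coeff j)) +
      ((∑ i, ∑ j, av v ((ρ i t - ρ j t)⁻¹)) +
      ∑ i, av v (((E t).derivative.eval (ρ i t))⁻¹))) := ⟨_, rfl⟩
  have hs1 : ∀ t, 0 ≤ ∑ j ∈ Finset.range (q + 1), av v ((E t).coeff j) :=
    fun t => Finset.sum_nonneg fun _ _ => (av _).nonneg _
  have hs2 : ∀ t, 0 ≤ ∑ i, ∑ j, av v ((ρ i t - ρ j t)⁻¹) :=
    fun t => Finset.sum_nonneg fun _ _ => Finset.sum_nonneg fun _ _ => (av _).nonneg _
  have hs3 : ∀ t, 0 ≤ ∑ i, av v (((E t).derivative.eval (ρ i t))⁻¹) :=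
    fun t => Finset.sum_nonneg fun _ _ => (av _).nonneg _
  have hQs : SubE 𝓕 H Q := by
    rw [hQ]
    refine (SubE.const hH zero_le_one).add hH ((SubE.sum hH _ _ fun j _ =>
      SubE.slow (hEs j) _).add hH ((SubE.sum hH _ _ fun i _ => SubE.sum hH _ _ fun j _ =>
      SubE.slow (a := fun t => (ρ i t - ρ j t)⁻¹) ?_ _).add hH
      (SubE.sum hH _ _ fun i _ => SubE.slow (hders i).inv _)))
    have h1 : Slow 𝓕 H (fun t => ρ i t - ρ j t) := by
      have h2 := (hρs i).add hH (hρs j).neg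
      simpa only [← sub_eq_add_neg] using h2
    exact h1.inv
  have hQ1 : ∀ t, 1 ≤ Q t := fun t => by
    rw [hQ]
    simp only
    linarith [hs1 t, hs2 t, hs3 t]
  have hQc : ∀ t j, av v ((E t).coeff j) ≤ Q t := by
    intro t j
    by_cases hj : j ∈ Finset.range (q + 1)
    · have h1 := Finset.single_le_sum (f := fun j => av v ((E t).coeff j))
        (fun _ _ => (av _).nonneg _) hj
      have h2 : av v ((E t).coeff j) ≤
        ∑ j ∈ Finset.range (q + 1), av v ((E t).coeff j) := h1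
      rw [hQ]
      simp only
      linarith [hs1 t, hs2 t, hs3 t]
    · rw [Polynomial.coeff_eq_zero_of_natDegree_lt, map_zero]
      · linarith [hQ1 t]
      · rw [hdeg t]
        rw [Finset.mem_range] at hj
        omega
  have hQd : ∀ t i j, i ≠ j → 1 ≤ Q t * av v (ρ i t - ρ j t) := by
    intro t i j hij
    have hne : ρ i t - ρ j t ≠ 0 := sub_ne_zero.2 (hinj t i j hij)
    have hpos : 0 < av v (ρ i t - ρ j t) := (av _).pos_iff.2 hne
    rw [← inv_le_iff_one_le_mul₀ hpos, ← map_inv₀]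
    have h1 := Finset.single_le_sum (f := fun j => av v ((ρ i t - ρ j t)⁻¹))
        (fun _ _ => (av _).nonneg _) (Finset.mem_univ j)
    have h2 := Finset.single_le_sum (f := fun i => ∑ j, av v
      ((ρ i t - ρ j t)⁻¹)) (fun _ _ => Finset.sum_nonneg fun _ _ => (av _).nonneg _)
      (Finset.mem_univ i)
    have h3 : av v (ρ i t - ρ j t)⁻¹ ≤
        ∑ i, ∑ j, av v ((ρ i t - ρ j t)⁻¹) := h1.trans h2
    rw [hQ]
    simp only
    linarith [hs1 t, hs2 t, hs3 t]
  have hQe : ∀ t i, 1 ≤ Q t * av v ((E t).derivative.eval (ρ i t)) := by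
    intro t i
    have hpos : 0 < av v ((E t).derivative.eval (ρ i t)) :=
      (av _).pos_iff.2 (hder t i)
    rw [← inv_le_iff_one_le_mul₀ hpos, ← map_inv₀]
    have h1 := Finset.single_le_sum (f := fun i => av v
      (((E t).derivative.eval (ρ i t))⁻¹)) (fun _ _ => (av _).nonneg _) (Finset.mem_univ i)
    have h3 : av v (((E t).derivative.eval (ρ i t))⁻¹) ≤
        ∑ i, av v (((E t).derivative.eval (ρ i t))⁻¹) := h1
    rw [hQ]
    simp only
    linarith [hs1 t, hs2 t, hs3 t]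
  -- the constant of the iteration
  obtain ⟨A0, hA0⟩ : ∃ A0 : α → ℝ, A0 = fun t => 1 + aA q (Q t) + aB q (Q t) := ⟨_, rfl⟩
  have hA0s : SubE 𝓕 H A0 := by
    rw [hA0]
    exact ((SubE.const hH zero_le_one).add hH (SubE.aA hH q hQs)).add hH (SubE.aB hH q hQs)
  have hsm : ∀ᶠ t in (𝓕 : Filter α), A0 t * Real.exp (-(c * H t)) ≤ Real.exp (-(c / 2 * H t)) := by
    filter_upwards [hA0s.2 (c / 2) (by positivity)] with t ht
    calc A0 t * Real.exp (-(c * H t)) ≤ Real.exp (c / 2 * H t) * Real.exp (-(c * H t)) :=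
          mul_le_mul_of_nonneg_right ht (Real.exp_pos _).le
      _ = Real.exp (-(c / 2 * H t)) := by
          rw [← Real.exp_add]
          congr 1
          ring
  have hρ : ∃ i : Fin q, ∀ᶠ t in (𝓕 : Filter α), ∀ n,
      av v (it (E t) (b t) (ρ i t) n - Y t) ≤ (A0 t * Real.exp (-(c * H t))) ^ (n + 1) := by
    rw [← Ultrafilter.eventually_exists_iff]
    have hall : ∀ᶠ t in (𝓕 : Filter α), ∀ j ∈ Finset.range q,
        av v (b t j) ≤ Real.exp (-(c * H t)) := by
      rw [Filter.eventually_all_finset]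
      intro j hj
      exact hb j (Finset.mem_range.1 hj)
    filter_upwards [hall, heq, hsm, hH_le hH 0] with t h1 h2 h3 h4
    have h5 : A0 t * Real.exp (-(c * H t)) ≤ 1 := by
      refine h3.trans ?_
      rw [Real.exp_le_one_iff]
      have : 0 ≤ c / 2 * H t := by positivity
      linarith
    rw [hA0] at h5 ⊢
    exact newton (av v) (E t) (hE t) hq (hdeg t) (fun i => ρ i t) (hprod t)
      (Q t) (hQ1 t) (hQc t) (hQd t) (hQe t) (b t) _ (Real.exp_pos _).le h5
      (fun j hj => h1 j (Finset.mem_range.2 hj)) _ h2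
  obtain ⟨i0, hρ2⟩ := hρ
  refine ⟨i0, fun n => ?_⟩
  filter_upwards [hρ2, hH_le hH 0, hsm] with t h1 h3 h6
  refine (h1 n).trans ((pow_le_pow_left₀ (mul_nonneg (hA0s.1 t) (Real.exp_pos _).le) h6 _).trans ?_)
  rw [← Real.exp_nat_mul]
  refine Real.exp_le_exp.2 ?_
  push_cast
  linarith

universe w

variable {ι : Type w} {α : Type} {L : ι → Type} [∀ s, Field (L s)] [∀ s, NumberField (L s)]
  {𝓕 : ι → Ultrafilter α} {H : ι → α → ℝ} {v : ∀ s, Pl (L s)}
  {hH : ∀ s, Tendsto (H s) (𝓕 s) atTop} {Γ : ∀ s, Subgroup (L s)ˣ}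

/-- **Roots are approximated by sums of units, uniformly.** -/
theorem uap_root {q : ℕ} (hq : 0 < q) (E : ∀ s, α → Polynomial (L s)) (hE : ∀ s t, (E s t).Monic)
    (hdeg : ∀ s t, (E s t).natDegree = q)
    (hEs : ∀ s j, Slow (𝓕 s) (H s) (fun t => (E s t).coeff j))
    (ρ : ∀ s, Fin q → α → L s) (hρs : ∀ s i, Slow (𝓕 s) (H s) (ρ s i))
    (hprod : ∀ s t Y, (E s t).eval Y = ∏ i, (Y - ρ s i t))
    (hinj : ∀ s t i j, i ≠ j → ρ s i t ≠ ρ s j t)
    (hder : ∀ s t i, (E s t).derivative.eval (ρ s i t) ≠ 0) (β : ℕ → ∀ s, α → L s)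
    (hβ : ∀ j < q, UAp hH Γ v (β j))
    (hβs : ∀ j < q, USm 𝓕 H v (fun s t => β j s t - (E s t).coeff j)) (Y : ∀ s, α → L s)
    (heq : ∀ s, ∀ᶠ t in (𝓕 s : Filter α),
      Y s t ^ q + ∑ j ∈ Finset.range q, β j s t * Y s t ^ j = 0) :
    UAp hH Γ v Y := by
  classical
  obtain ⟨b, hb⟩ : ∃ b : ∀ s, α → ℕ → L s, b = fun s t j => β j s t - (E s t).coeff j :=
    ⟨_, rfl⟩
  -- the value of the perturbed polynomial
  have hfv : ∀ s t Z, fv (E s t) (b s t) Z =
      Z ^ q + ∑ j ∈ Finset.range q, β j s t * Z ^ j := by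
    intro s t Z
    unfold fv
    rw [Polynomial.eval_eq_sum_range, hdeg s t, Finset.sum_range_succ]
    have h3 : (E s t).coeff q = 1 := by rw [← hdeg s t]; exact (hE s t).coeff_natDegree
    rw [h3, one_mul, add_comm _ (Z ^ q), add_assoc, ← Finset.sum_add_distrib, hb]
    congr 1
    exact Finset.sum_congr rfl fun j _ => by ring
  -- a common exponent
  have hsm : ∀ j, ∃ e : ℝ, 0 < e ∧ (j < q → ∀ s, ∀ᶠ t in (𝓕 s : Filter α),
      av (v s) (b s t j) ≤ Real.exp (-(e * H s t))) := by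
    intro j
    by_cases hj : j < q
    · obtain ⟨e, he, h⟩ := hβs j hj
      refine ⟨e, he, fun _ => ?_⟩
      rw [hb]
      exact h
    · exact ⟨1, one_pos, fun h => absurd h hj⟩
  choose e he1 he2 using hsm
  obtain ⟨c, hc, hce⟩ := exists_pos_le (Finset.range q) e fun j _ => he1 j
  have hnear : ∀ s, ∃ i : Fin q, ∀ n : ℕ, ∀ᶠ t in (𝓕 s : Filter α),
      av (v s) (it (E s t) (b s t) (ρ s i t) n - Y s t) ≤
        Real.exp (-(((n : ℝ) + 1) * (c / 2) * H s t)) := by
    intro s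
    refine near_root (hH s) (v s) hq (E s) (hE s) (hdeg s) (hEs s) (ρ s) (hρs s) (hprod s)
      (hinj s) (hder s) (b s) c hc (fun j hj => ?_) (Y s) ?_
    · filter_upwards [he2 j hj s, hH_le (hH s) 0] with t h1 h2
      exact h1.trans (Real.exp_le_exp.2 (neg_le_neg (mul_le_mul_of_nonneg_right
        (hce j (Finset.mem_range.2 hj)) h2)))
    · filter_upwards [heq s] with t ht
      rw [hfv]
      exact ht
  choose i0 hi0 using hnear
  -- the derivatives at the roots are slow
  have hders : ∀ s, Slow (𝓕 s) (H s) (fun t => (E s t).derivative.eval (ρ s (i0 s) t)) := by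
    intro s
    have h1 : (fun t => (E s t).derivative.eval (ρ s (i0 s) t)) =
        fun t => ∑ j ∈ Finset.range (q + 1),
        (E s t).coeff j * ((j : L s) * ρ s (i0 s) t ^ (j - 1)) := by
      funext t
      rw [Polynomial.derivative_eval, Polynomial.sum_over_range, hdeg s t]
      · exact Finset.sum_congr rfl fun j _ => by ring
      · intro j
        simp
    rw [h1]
    refine slow_sum (hH s) _ fun j _ => ?_
    exact (hEs s j).mul ((slow_const (hH s) _).mul ((hρs s (i0 s)).pow (hH s) _))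
  -- the iterates
  have hit : ∀ n, UAp hH Γ v (fun s t => it (E s t) (b s t) (ρ s (i0 s) t) n) := by
    intro n
    induction n with
    | zero => exact UAp.slow fun s => hρs s (i0 s)
    | succ n ih =>
      have h0 : UAp hH Γ v (fun s t => (-((E s t).derivative.eval (ρ s (i0 s) t))⁻¹)) :=
        UAp.slow fun s => (hders s).inv.neg
      have h1 : UAp hH Γ v (fun s t => it (E s t) (b s t) (ρ s (i0 s) t) n +
          (-((E s t).derivative.eval (ρ s (i0 s) t))⁻¹) *
            (it (E s t) (b s t) (ρ s (i0 s) t) n ^ q +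
            ∑ j ∈ Finset.range q, β j s t * it (E s t) (b s t) (ρ s (i0 s) t) n ^ j)) :=
        ih.add (h0.mul ((ih.pow q).add (UAp.sum _
          (fun j s t => β j s t * it (E s t) (b s t) (ρ s (i0 s) t) n ^ j)
          fun j hj => (hβ j (Finset.mem_range.1 hj)).mul (ih.pow j))))
      refine h1.congr fun s => Eventually.of_forall fun t => ?_
      rw [← hfv]
      show _ = it (E s t) (b s t) (ρ s (i0 s) t) n -
        fv (E s t) (b s t) (it (E s t) (b s t) (ρ s (i0 s) t) n) /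
          (E s t).derivative.eval (ρ s (i0 s) t)
      rw [div_eq_mul_inv]
      ring
  refine UAp.lim fun κ => ?_
  obtain ⟨n, hn⟩ := exists_nat_gt ((κ : ℝ) / (c / 2))
  refine ⟨_, hit n, fun s => ?_⟩
  filter_upwards [hi0 s n, hH_le (hH s) 0] with t h1 h3
  rw [← map_neg_eq_map, neg_sub]
  refine h1.trans (Real.exp_le_exp.2 (neg_le_neg (mul_le_mul_of_nonneg_right ?_ h3)))
  rw [div_lt_iff₀ (by positivity)] at hn
  have h9 : 0 ≤ c / 2 := by positivity
  linarith

/-- **Roots of polynomials which need not be monic are approximated by sums of units.** -/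
theorem uap_poly {q : ℕ} (hq : 0 < q) (E : ∀ s, α → Polynomial (L s))
    (hEdeg : ∀ s t, (E s t).natDegree = q)
    (hEs : ∀ s j, Slow (𝓕 s) (H s) (fun t => (E s t).coeff j))
    (hsep : ∀ s t, (E s t).Separable) (hspl : ∀ s t, (E s t).Splits) (β : ℕ → ∀ s, α → L s)
    (hβ : ∀ j ≤ q, UAp hH Γ v (β j))
    (hβs : ∀ j ≤ q, USm 𝓕 H v (fun s t => β j s t - (E s t).coeff j)) (Y : ∀ s, α → L s)
    (heq : ∀ s, ∀ᶠ t in (𝓕 s : Filter α),
      ∑ j ∈ Finset.range (q + 1), β j s t * Y s t ^ j = 0) :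
    (∀ s, ∀ᶠ t in (𝓕 s : Filter α), β q s t ≠ 0) ∧ UAp hH Γ v Y := by
  classical
  have hl0 : ∀ s t, (E s t).coeff q ≠ 0 := by
    intro s t h
    have h1 : (E s t).leadingCoeff = 0 := by rw [Polynomial.leadingCoeff, hEdeg s t, h]
    rw [Polynomial.leadingCoeff_eq_zero] at h1
    have h2 := hEdeg s t
    rw [h1, Polynomial.natDegree_zero] at h2
    omega
  obtain ⟨E', hE'⟩ : ∃ E' : ∀ s, α → Polynomial (L s),
      E' = fun s t => Polynomial.C ((E s t).coeff q)⁻¹ * E s t := ⟨_, rfl⟩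
  have hE'c : ∀ s t j, (E' s t).coeff j = ((E s t).coeff q)⁻¹ * (E s t).coeff j :=
    fun s t j => by rw [hE', Polynomial.coeff_C_mul]
  have hE'deg : ∀ s t, (E' s t).natDegree = q := fun s t => by
    rw [hE', Polynomial.natDegree_C_mul (inv_ne_zero (hl0 s t)), hEdeg]
  have hE'mon : ∀ s t, (E' s t).Monic := fun s t => by
    rw [Polynomial.Monic, Polynomial.leadingCoeff, hE'deg, hE'c, inv_mul_cancel₀ (hl0 s t)]
  have hE's : ∀ s j, Slow (𝓕 s) (H s) (fun t => (E' s t).coeff j) := fun s j => by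
    have h1 : (fun t => (E' s t).coeff j) = fun t => ((E s t).coeff q)⁻¹ * (E s t).coeff j :=
      funext fun t => hE'c s t j
    rw [h1]
    exact (hEs s q).inv.mul (hEs s j)
  have hE'sep : ∀ s t, (E' s t).Separable := fun s t => by
    rw [hE']
    refine Polynomial.Separable.unit_mul ?_ (hsep s t)
    exact Polynomial.isUnit_C.2 (isUnit_iff_ne_zero.2 (inv_ne_zero (hl0 s t)))
  have hE'spl : ∀ s t, (E' s t).Splits := fun s t => by
    rw [hE']
    exact (Polynomial.Splits.C _).mul (hspl s t)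
  choose r hr1 hr2 hr3 using fun s t => EC.enum_roots (E' s t) (hE'mon s t) (hE'deg s t)
    (hE'sep s t) (hE'spl s t)
  have hrs : ∀ s i, Slow (𝓕 s) (H s) (fun t => r s t i) := by
    intro s i
    refine slow_root (hH s) hq (fun j t => (E' s t).coeff j) (hE's s) _ fun t => ?_
    have h0 : (E' s t).eval (r s t i) = 0 := by
      rw [hr2]
      exact Finset.prod_eq_zero (Finset.mem_univ i) (sub_self _)
    rw [Polynomial.eval_eq_sum_range, hE'deg, Finset.sum_range_succ] at h0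
    have h3 : (E' s t).coeff q = 1 := by
      have h4 := (hE'mon s t).coeff_natDegree
      rwa [hE'deg] at h4
    rw [h3, one_mul] at h0
    rw [← h0, add_comm]
  -- division by the leading coefficient
  have hβi : UAp hH Γ v (fun s t => (β q s t)⁻¹) :=
    UAp.inv (hβ q le_rfl) (fun s => hEs s q) (fun s => Eventually.of_forall (hl0 s))
      (hβs q le_rfl)
  have hβ0 : ∀ s, ∀ᶠ t in (𝓕 s : Filter α), β q s t ≠ 0 := fun s => by
    obtain ⟨c, hc, h⟩ := hβs q le_rfl
    exact (Cg.inv (hH s) (hEs s q) (Eventually.of_forall (hl0 s)) ⟨c, hc, h s⟩).1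
  have hinv : UCg 𝓕 H v (fun s t => (β q s t)⁻¹) (fun s t => ((E s t).coeff q)⁻¹) := by
    refine ⟨?_, fun s => Bd.slow (hEs s q).inv _⟩
    have h1 : USm 𝓕 H v (fun s t => -(β q s t - (E s t).coeff q) *
        ((β q s t)⁻¹ * ((E s t).coeff q)⁻¹)) := by
      refine (hβs q le_rfl).neg.mul fun s => ?_
      obtain ⟨c, hc, h⟩ := hβs q le_rfl
      exact (Cg.bd (hH s) (Cg.inv (hH s) (hEs s q) (Eventually.of_forall (hl0 s))
        ⟨c, hc, h s⟩).2).mul (Bd.slow (hEs s q).inv _)
    refine h1.congr fun s => ?_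
    filter_upwards [hβ0 s] with t ht
    have := hl0 s t
    field_simp
    ring
  refine ⟨hβ0, ?_⟩
  refine uap_root hq E' hE'mon hE'deg hE's (fun s i t => r s t i) hrs hr2
    (fun s t i j hij h => hij (hr1 s t h)) hr3 (fun j s t => (β q s t)⁻¹ * β j s t)
    (fun j hj => hβi.mul (hβ j hj.le)) (fun j hj => ?_) _ fun s => ?_
  · have h1 := (hinv.mul hH (⟨hβs j hj.le, fun s => Bd.slow (hEs s j) _⟩ :
      UCg 𝓕 H v (β j) (fun s t => (E s t).coeff j))).1
    refine h1.congr fun s => Eventually.of_forall fun t => ?_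
    rw [hE'c]
  · filter_upwards [hβ0 s, heq s] with t ht h1
    rw [Finset.sum_range_succ] at h1
    have h4 : (β q s t)⁻¹ * (∑ j ∈ Finset.range q, β j s t * Y s t ^ j +
        β q s t * Y s t ^ q) = 0 := by rw [h1, mul_zero]
    rw [mul_add, ← mul_assoc, inv_mul_cancel₀ ht, one_mul, Finset.mul_sum, add_comm] at h4
    rw [← h4]
    congr 1
    refine Finset.sum_congr rfl fun j _ => ?_
    ring

end Pool.Agent.Run7.h28.BV
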