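import Mathlib
import Pool.Agent.Run7.h28.BV.URoot
import Pool.Agent.Run7.h28.BV.LemQ

/-!
# Project BV (helper28): algebraic functions at sparse points near a point, uniformly
-/

set_option autoImplicit false
set_option linter.unusedSectionVars false

open Filter Topology

namespace Pool.Agent.Run7.h28.BV

open NumberField IsDedekindDomain Height Module
open Pool.Agent.W180.OP (Pl av wt nrm le_nrm nrm_pos wt_nonneg exists_nrm nrm_nonneg)
open Pool.Agent.N750
open Pool.Agent.Run7.h28.HK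
open Pool.Agent.Run7.h28.EC (SubE)

/-- the value of a polynomial as a sum over all exponents of bounded degree -/
lemma eval_expo {σ R : Type} [Fintype σ] [CommRing R] (P : MvPolynomial σ R) {d : ℕ}
    (hP : P.totalDegree ≤ d) (x : σ → R) :
    MvPolynomial.eval x P = ∑ m ∈ expo σ d, P.coeff m * ∏ i, x i ^ m i := by
  rw [MvPolynomial.eval_eq']
  refine Finset.sum_subset (fun m hm => mem_expo.2 ?_) fun m _ hm => ?_
  · have h1 := MvPolynomial.le_totalDegree hm
    rw [Finsupp.sum_fintype _ _ (by simp)] at h1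
    exact h1.trans hP
  · rw [MvPolynomial.notMem_support_iff.1 hm, zero_mul]

universe w

variable {ι : Type w} {α : Type} {L : ι → Type} [∀ s, Field (L s)] [∀ s, NumberField (L s)]
  {𝓕 : ι → Ultrafilter α} {H : ι → α → ℝ} {v : ∀ s, Pl (L s)}
  {hH : ∀ s, Tendsto (H s) (𝓕 s) atTop} {Γ : ∀ s, Subgroup (L s)ˣ}

/-! ### Uniformly moderate functions -/

/-- uniformly moderate -/
def UMdr (𝓕 : ι → Ultrafilter α) (H : ι → α → ℝ) (f : ∀ s, α → L s) : Prop :=
  ∃ C : ℝ, 0 ≤ C ∧ ∀ s, ∀ᶠ t in (𝓕 s : Filter α), logHeight₁ (f s t) ≤ C * H s t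

lemma UMdr.slow {f : ∀ s, α → L s} (hf : ∀ s, Slow (𝓕 s) (H s) (f s)) : UMdr 𝓕 H f :=
  ⟨1, zero_le_one, fun s => hf s 1 one_pos⟩

lemma UMdr.congr {f g : ∀ s, α → L s} (hf : UMdr 𝓕 H f)
    (h : ∀ s, ∀ᶠ t in (𝓕 s : Filter α), f s t = g s t) : UMdr 𝓕 H g := by
  obtain ⟨C, hC, h1⟩ := hf
  refine ⟨C, hC, fun s => ?_⟩
  filter_upwards [h1 s, h s] with t h2 h3
  rwa [← h3]

lemma UMdr.mul {f g : ∀ s, α → L s} (hf : UMdr 𝓕 H f) (hg : UMdr 𝓕 H g) :
    UMdr 𝓕 H (fun s t => f s t * g s t) := by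
  obtain ⟨C, hC, h1⟩ := hf
  obtain ⟨C', hC', h1'⟩ := hg
  refine ⟨C + C', by linarith, fun s => ?_⟩
  filter_upwards [h1 s, h1' s] with t h2 h3
  refine (logHeight₁_mul_le _ _).trans ?_
  linarith

lemma UMdr.inv {f : ∀ s, α → L s} (hf : UMdr 𝓕 H f) : UMdr 𝓕 H (fun s t => (f s t)⁻¹) := by
  obtain ⟨C, hC, h1⟩ := hf
  refine ⟨C, hC, fun s => ?_⟩
  filter_upwards [h1 s] with t h2
  rwa [logHeight₁_inv]

lemma UMdr.pow (hH : ∀ s, Tendsto (H s) (𝓕 s) atTop) {f : ∀ s, α → L s} (hf : UMdr 𝓕 H f)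
    (n : ℕ) : UMdr 𝓕 H (fun s t => f s t ^ n) := by
  induction n with
  | zero =>
    simp only [pow_zero]
    exact UMdr.slow (f := fun _ _ => 1) fun s => slow_const (hH s) _
  | succ n ih =>
    simp only [pow_succ]
    exact ih.mul hf

lemma UMdr.prod (hH : ∀ s, Tendsto (H s) (𝓕 s) atTop) {κ : Type} (A : Finset κ)
    (f : κ → ∀ s, α → L s) (hf : ∀ i ∈ A, UMdr 𝓕 H (f i)) :
    UMdr 𝓕 H (fun s t => ∏ i ∈ A, f i s t) := by
  classical
  induction A using Finset.induction_on with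
  | empty =>
    simp only [Finset.prod_empty]
    exact UMdr.slow (f := fun _ _ => 1) fun s => slow_const (hH s) _
  | insert a A ha ih =>
    simp only [Finset.prod_insert ha]
    exact (hf a (Finset.mem_insert_self _ _)).mul
      (ih fun i hi => hf i (Finset.mem_insert_of_mem hi))

lemma UMdr.add (hH : ∀ s, Tendsto (H s) (𝓕 s) atTop) {f g : ∀ s, α → L s} (hf : UMdr 𝓕 H f)
    (hg : UMdr 𝓕 H g) : UMdr 𝓕 H (fun s t => f s t + g s t) := by
  obtain ⟨C, hC, h1⟩ := hf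
  obtain ⟨C', hC', h1'⟩ := hg
  refine ⟨C + C' + 1, by linarith, fun s => ?_⟩
  filter_upwards [h1 s, h1' s, hH_le (hH s) (totalWeight (L s) * Real.log 2)] with t h2 h3 h4
  refine (logHeight₁_add_le _ _).trans ?_
  linarith

lemma UMdr.sum (hH : ∀ s, Tendsto (H s) (𝓕 s) atTop) {κ : Type} (A : Finset κ)
    (f : κ → ∀ s, α → L s) (hf : ∀ i ∈ A, UMdr 𝓕 H (f i)) :
    UMdr 𝓕 H (fun s t => ∑ i ∈ A, f i s t) := by
  classical
  induction A using Finset.induction_on with
  | empty =>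
    simp only [Finset.sum_empty]
    exact UMdr.slow (f := fun _ _ => 0) fun s => slow_const (hH s) _
  | insert a A ha ih =>
    simp only [Finset.sum_insert ha]
    exact (hf a (Finset.mem_insert_self _ _)).add hH
      (ih fun i hi => hf i (Finset.mem_insert_of_mem hi))

lemma UMdr.root (hH : ∀ s, Tendsto (H s) (𝓕 s) atTop) {q : ℕ} (hq : 0 < q)
    (e : ℕ → ∀ s, α → L s) (he : ∀ j < q, UMdr 𝓕 H (e j)) {y : ∀ s, α → L s}
    (h : ∀ s, ∀ᶠ t in (𝓕 s : Filter α),
      y s t ^ q + ∑ j ∈ Finset.range q, e j s t * y s t ^ j = 0) : UMdr 𝓕 H y := by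
  classical
  have h1 : ∀ j, ∃ C : ℝ, 0 ≤ C ∧ (j < q → ∀ s, ∀ᶠ t in (𝓕 s : Filter α),
      logHeight₁ (e j s t) ≤ C * H s t) := by
    intro j
    by_cases hj : j < q
    · obtain ⟨C, hC, h2⟩ := he j hj
      exact ⟨C, hC, fun _ => h2⟩
    · exact ⟨0, le_rfl, fun h => absurd h hj⟩
  choose C hC hC2 using h1
  refine ⟨(∑ j ∈ Finset.range q, C j) + 1, by
    have := Finset.sum_nonneg fun j (_ : j ∈ Finset.range q) => hC j
    linarith, fun s => ?_⟩
  have hall : ∀ᶠ t in (𝓕 s : Filter α), ∀ j ∈ Finset.range q,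
      logHeight₁ (e j s t) ≤ C j * H s t := by
    rw [Filter.eventually_all_finset]
    intro j hj
    exact hC2 j (Finset.mem_range.1 hj) s
  filter_upwards [hall, h s, hH_le (hH s) (finrank ℚ (L s) * Real.log q)] with t h2 h3 h4
  refine (ht_root hq (fun j => e j s t) (y s t) h3).trans ?_
  have h5 := Finset.sum_le_sum h2
  rw [← Finset.sum_mul] at h5
  linarith

lemma UMdr.lb {f : ∀ s, α → L s} (hf : UMdr 𝓕 H f) : ULB 𝓕 H v f := by
  obtain ⟨C, hC, h⟩ := hf
  refine ⟨C, hC, fun s => ?_⟩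
  filter_upwards [h s] with t ht
  exact (EC.av_le_exp (v s) _).trans (Real.exp_le_exp.2 ht)

/-! ### Values of polynomials -/

/-- the values of a polynomial with slow coefficients at close points -/
theorem uev {n D : ℕ} (P : ∀ s, α → MvPolynomial (Fin n) (L s))
    (hP : ∀ s t, (P s t).totalDegree ≤ D) (hPs : ∀ s m, Slow (𝓕 s) (H s) (fun t => (P s t).coeff m))
    (c : Fin n → ∀ s, α → L s) (hc : ∀ l s, Slow (𝓕 s) (H s) (c l s)) (x : Fin n → ∀ s, α → L s)
    (hx : ∀ l, UAp hH Γ v (x l)) (hxm : ∀ l, UMdr 𝓕 H (x l))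
    (hxc : ∀ l, USm 𝓕 H v (fun s t => x l s t - c l s t)) :
    UAp hH Γ v (fun s t => MvPolynomial.eval (fun l => x l s t) (P s t)) ∧
    UMdr 𝓕 H (fun s t => MvPolynomial.eval (fun l => x l s t) (P s t)) ∧
    USm 𝓕 H v (fun s t => MvPolynomial.eval (fun l => x l s t) (P s t) -
      MvPolynomial.eval (fun l => c l s t) (P s t)) ∧
    ∀ s, Slow (𝓕 s) (H s) (fun t => MvPolynomial.eval (fun l => c l s t) (P s t)) := by
  classical
  have e1 : (fun s t => MvPolynomial.eval (fun l => x l s t) (P s t)) =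
      fun s t => ∑ m ∈ expo (Fin n) D, (P s t).coeff m * ∏ l, x l s t ^ m l := by
    funext s t
    exact eval_expo _ (hP s t) _
  have e2 : ∀ s t, MvPolynomial.eval (fun l => c l s t) (P s t) =
      ∑ m ∈ expo (Fin n) D, (P s t).coeff m * ∏ l, c l s t ^ m l := fun s t =>
    eval_expo _ (hP s t) _
  refine ⟨?_, ?_, ?_, ?_⟩
  · rw [e1]
    refine UAp.sum _ (fun m s t => (P s t).coeff m * ∏ l, x l s t ^ m l) fun m _ => ?_
    exact (UAp.slow (f := fun s t => (P s t).coeff m) fun s => hPs s m).mul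
      (UAp.prod Finset.univ (fun l s t => x l s t ^ m l) fun l _ => (hx l).pow _)
  · rw [e1]
    refine UMdr.sum hH _ (fun m s t => (P s t).coeff m * ∏ l, x l s t ^ m l) fun m _ => ?_
    exact (UMdr.slow (f := fun s t => (P s t).coeff m) fun s => hPs s m).mul
      (UMdr.prod hH Finset.univ (fun l s t => x l s t ^ m l) fun l _ => (hxm l).pow hH _)
  · have h1 : USm 𝓕 H v (fun s t => ∑ m ∈ expo (Fin n) D,
        ((∏ l, x l s t ^ m l) - ∏ l, c l s t ^ m l) * (P s t).coeff m) := by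
      refine USm.sum hH _ (fun m s t => ((∏ l, x l s t ^ m l) - ∏ l, c l s t ^ m l) *
        (P s t).coeff m) fun m _ => ?_
      refine USm.mul ?_ fun s => Bd.slow (hPs s m) _
      exact (UCg.prod hH Finset.univ (fun l s t => x l s t ^ m l) (fun l s t => c l s t ^ m l)
        fun l _ => UCg.pow hH ⟨hxc l, fun s => Bd.slow (hc l s) _⟩ _).1
    refine h1.congr fun s => Eventually.of_forall fun t => ?_
    rw [eval_expo _ (hP s t), e2, ← Finset.sum_sub_distrib]
    exact Finset.sum_congr rfl fun m _ => by ring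
  · intro s
    have h1 : (fun t => MvPolynomial.eval (fun l => c l s t) (P s t)) =
        fun t => ∑ m ∈ expo (Fin n) D, (P s t).coeff m * ∏ l, c l s t ^ m l := funext fun t => e2 s t
    rw [h1]
    refine slow_sum (hH s) _ fun m _ => ?_
    exact (hPs s m).mul (slow_prod (hH s) _ (a := fun l t => c l s t ^ m l)
      fun l _ => (hc l s).pow (hH s) _)

/-- **Algebraic functions at sparse points near a point**, uniformly. -/
theorem ucoreA {n q D k : ℕ} (hq : 0 < q) (P : ∀ s, α → Polynomial (MvPolynomial (Fin n) (L s)))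
    (hPt : ∀ s t j, j ≤ q → ((P s t).coeff j).totalDegree ≤ D)
    (hPs : ∀ s j m, j ≤ q → Slow (𝓕 s) (H s) (fun t => ((P s t).coeff j).coeff m))
    (c : Fin n → ∀ s, α → L s) (hc : ∀ l s, Slow (𝓕 s) (H s) (c l s))
    (hdeg : ∀ s t, ((P s t).map (MvPolynomial.eval fun l => c l s t)).natDegree = q)
    (hsep : ∀ s t, ((P s t).map (MvPolynomial.eval fun l => c l s t)).Separable)
    (hspl : ∀ s t, ((P s t).map (MvPolynomial.eval fun l => c l s t)).Splits)
    (x : Fin n → ∀ s, α → L s)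
    (hx : ∀ l s, SpN (slowF (𝓕 s) (L s) (H s) (hH s)) (PG (𝓕 s) (H s) (Γ s)) k
      (mk (𝓕 s) (x l s)))
    (hxm : ∀ l, UMdr 𝓕 H (x l)) (hxc : ∀ l, USm 𝓕 H v (fun s t => x l s t - c l s t))
    (y : ∀ s, α → L s)
    (hy : ∀ s, ∀ᶠ t in (𝓕 s : Filter α), ∑ j ∈ Finset.range (q + 1),
      MvPolynomial.eval (fun l => x l s t) ((P s t).coeff j) * y s t ^ j = 0) :
    UAp hH Γ v y ∧ UMdr 𝓕 H y := by
  classical
  have hxa : ∀ l, UAp hH Γ v (x l) := fun l => UAp.spn (hxm l).lb k (hx l)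
  obtain ⟨β, hβ⟩ : ∃ β : ℕ → ∀ s, α → L s, β = fun j s t =>
      MvPolynomial.eval (fun l => x l s t) ((P s t).coeff j) := ⟨_, rfl⟩
  have hev : ∀ j ≤ q, _ := fun j hj => uev (hH := hH) (Γ := Γ) (v := v) (D := D)
    (fun s t => (P s t).coeff j) (fun s t => hPt s t j hj) (fun s m => hPs s j m hj) c hc x
    hxa hxm hxc
  have hco : ∀ j s t, ((P s t).map (MvPolynomial.eval fun l => c l s t)).coeff j =
      MvPolynomial.eval (fun l => c l s t) ((P s t).coeff j) := fun j s t =>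
    Polynomial.coeff_map _ _
  have hEs : ∀ s j, Slow (𝓕 s) (H s) (fun t =>
      ((P s t).map (MvPolynomial.eval fun l => c l s t)).coeff j) := by
    intro s j
    rcases le_or_gt j q with hj | hj
    · have h1 := (hev j hj).2.2.2 s
      refine h1.congr (Eventually.of_forall fun t => ?_)
      exact (hco j s t).symm
    · refine (slow_const (hH s) (0 : L s)).congr (Eventually.of_forall fun t => ?_)
      exact (Polynomial.coeff_eq_zero_of_natDegree_lt (by rw [hdeg]; exact hj)).symm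
  have hmain := uap_poly (hH := hH) (Γ := Γ) (v := v) hq
    (fun s t => (P s t).map (MvPolynomial.eval fun l => c l s t)) hdeg hEs hsep hspl β
    (fun j hj => by rw [hβ]; exact (hev j hj).1) (fun j hj => by
      refine ((hev j hj).2.2.1).congr fun s => Eventually.of_forall fun t => ?_
      rw [hβ, hco]) y (fun s => by rw [hβ]; exact hy s)
  refine ⟨hmain.2, ?_⟩
  -- the height
  have hβm : ∀ j ≤ q, UMdr 𝓕 H (β j) := fun j hj => by rw [hβ]; exact (hev j hj).2.1
  refine UMdr.root hH hq (fun j s t => (β q s t)⁻¹ * β j s t)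
    (fun j hj => (hβm q le_rfl).inv.mul (hβm j hj.le)) fun s => ?_
  filter_upwards [hmain.1 s, hy s] with t ht h1
  have h2 : ∑ j ∈ Finset.range (q + 1), β j s t * y s t ^ j = 0 := by rw [hβ]; exact h1
  rw [Finset.sum_range_succ] at h2
  have h4 : (β q s t)⁻¹ * (∑ j ∈ Finset.range q, β j s t * y s t ^ j +
      β q s t * y s t ^ q) = 0 := by rw [h2, mul_zero]
  rw [mul_add, ← mul_assoc, inv_mul_cancel₀ ht, one_mul, Finset.mul_sum, add_comm] at h4
  rw [← h4]
  congr 1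
  refine Finset.sum_congr rfl fun j _ => ?_
  ring

/-- **Almost integral functions approximated by sums of units are sums of units**, with a uniform
number of terms. -/
theorem ucoreB (S : ∀ s, Finset (Pl (L s)))
    (hS : ∀ s, ∀ w : InfinitePlace (L s), (Sum.inl w : Pl (L s)) ∈ S s)
    (hΓS : ∀ s, ∀ g ∈ Γ s, IsU (S s) (g : L s)) (hv : ∀ s, v s ∈ S s) (y : ∀ s, α → L s)
    (hya : UAp hH Γ v y) (hym : UMdr 𝓕 H y) (hyI : ∀ s, AI (𝓕 s) (H s) (S s) (y s)) :
    ∃ N : ℕ, ∀ s, SpN (slowF (𝓕 s) (L s) (H s) (hH s)) (PU (𝓕 s) (H s) (S s)) N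
      (mk (𝓕 s) (y s)) := by
  obtain ⟨C, hC, h1⟩ := hym
  obtain ⟨-, N, hN⟩ := hya
  obtain ⟨κ, hκ⟩ := exists_nat_ge (C + 2)
  refine ⟨N κ + 1, fun s => ?_⟩
  obtain ⟨R, hR, h2⟩ := hN s κ
  refine lemQN (hH s) (S s) (hS s) (v s) (hv s) (y s) C hC (h1 s) (hyI s) (N κ) R
    (hR.imp (PG.toPU (hΓS s))) ?_
  filter_upwards [h2, hH_le (hH s) 0] with t h3 h4
  exact h3.trans (Real.exp_le_exp.2 (neg_le_neg (mul_le_mul_of_nonneg_right hκ h4)))

end Pool.Agent.Run7.h28.BV
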