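import Mathlib
import Pool.Agent.Run7.h28.BV.UOrd

/-!
# Project BV (helper28): algebraic functions at sparse points, after scaling by units, uniformly
-/

set_option autoImplicit false
set_option linter.unusedSectionVars false

open Filter Topology

namespace Pool.Agent.Run7.h28.BV

open NumberField IsDedekindDomain Height Module
open Pool.Agent.W180.OP (Pl av wt nrm le_nrm nrm_pos wt_nonneg exists_nrm nrm_nonneg)
open Pool.Agent.N750
open Pool.Agent.Run7.h28.HK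
open Pool.Agent.Run7.h28.EC (SubE)

universe w

variable {ι : Type w} {α : Type} {L : ι → Type} [∀ s, Field (L s)] [∀ s, NumberField (L s)]
  {𝓕 : ι → Ultrafilter α} {H : ι → α → ℝ} {v : ∀ s, Pl (L s)}
  {hH : ∀ s, Tendsto (H s) (𝓕 s) atTop} {Γ : ∀ s, Subgroup (L s)ˣ}

/-- units of the groups are approximated by sums of units -/
lemma UAp.unit {z : ∀ s, α → (L s)ˣ} (hz : ∀ s t, z s t ∈ Γ s)
    (hzm : UMdr 𝓕 H (fun s t => (z s t : L s))) : UAp hH Γ v (fun s t => (z s t : L s)) := by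
  refine UAp.spn hzm.lb 1 fun s => SpN.of ⟨z s, rfl, hz s, ?_⟩
  obtain ⟨C, -, h⟩ := hzm
  exact ⟨C, h s⟩

/-- the values of a polynomial with slow coefficients -/
theorem uev2 {n D : ℕ} (P : ∀ s, α → MvPolynomial (Fin n) (L s))
    (hP : ∀ s t, (P s t).totalDegree ≤ D) (hPs : ∀ s m, Slow (𝓕 s) (H s) (fun t => (P s t).coeff m))
    (x : Fin n → ∀ s, α → L s) (hx : ∀ l, UAp hH Γ v (x l)) (hxm : ∀ l, UMdr 𝓕 H (x l)) :
    UAp hH Γ v (fun s t => MvPolynomial.eval (fun l => x l s t) (P s t)) ∧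
    UMdr 𝓕 H (fun s t => MvPolynomial.eval (fun l => x l s t) (P s t)) := by
  classical
  have e1 : (fun s t => MvPolynomial.eval (fun l => x l s t) (P s t)) =
      fun s t => ∑ m ∈ expo (Fin n) D, (P s t).coeff m * ∏ l, x l s t ^ m l := by
    funext s t
    exact eval_expo _ (hP s t) _
  rw [e1]
  refine ⟨?_, ?_⟩
  · refine UAp.sum _ (fun m s t => (P s t).coeff m * ∏ l, x l s t ^ m l) fun m _ => ?_
    exact (UAp.slow (f := fun s t => (P s t).coeff m) fun s => hPs s m).mul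
      (UAp.prod Finset.univ (fun l s t => x l s t ^ m l) fun l _ => (hx l).pow _)
  · refine UMdr.sum hH _ (fun m s t => (P s t).coeff m * ∏ l, x l s t ^ m l) fun m _ => ?_
    exact (UMdr.slow (f := fun s t => (P s t).coeff m) fun s => hPs s m).mul
      (UMdr.prod hH Finset.univ (fun l s t => x l s t ^ m l) fun l _ => (hxm l).pow hH _)

/-- **Algebraic functions at sparse points**, close to a split polynomial after scaling. -/
theorem ucoreN {n q D k : ℕ} (hq : 0 < q) (P : ∀ s, α → Polynomial (MvPolynomial (Fin n) (L s)))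
    (hPt : ∀ s t j, j ≤ q → ((P s t).coeff j).totalDegree ≤ D)
    (hPs : ∀ s j m, j ≤ q → Slow (𝓕 s) (H s) (fun t => ((P s t).coeff j).coeff m))
    (x : Fin n → ∀ s, α → L s)
    (hx : ∀ l s, SpN (slowF (𝓕 s) (L s) (H s) (hH s)) (PG (𝓕 s) (H s) (Γ s)) k
      (mk (𝓕 s) (x l s)))
    (hxm : ∀ l, UMdr 𝓕 H (x l))
    (lam z : ∀ s, α → (L s)ˣ) (hlam : ∀ s t, lam s t ∈ Γ s) (hz : ∀ s t, z s t ∈ Γ s)
    (hlamm : UMdr 𝓕 H (fun s t => (lam s t : L s))) (hzm : UMdr 𝓕 H (fun s t => (z s t : L s)))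
    (E : ∀ s, α → Polynomial (L s)) (hEdeg : ∀ s t, (E s t).natDegree = q)
    (hEs : ∀ s j, Slow (𝓕 s) (H s) (fun t => (E s t).coeff j))
    (hsep : ∀ s t, (E s t).Separable) (hspl : ∀ s t, (E s t).Splits)
    (hclose : ∀ j ≤ q, USm 𝓕 H v (fun s t => (lam s t : L s) * (z s t : L s) ^ j *
      MvPolynomial.eval (fun l => x l s t) ((P s t).coeff j) - (E s t).coeff j))
    (y : ∀ s, α → L s)
    (hy : ∀ s, ∀ᶠ t in (𝓕 s : Filter α), ∑ j ∈ Finset.range (q + 1),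
      MvPolynomial.eval (fun l => x l s t) ((P s t).coeff j) * y s t ^ j = 0) :
    UAp hH Γ v y ∧ UMdr 𝓕 H y := by
  classical
  have hxa : ∀ l, UAp hH Γ v (x l) := fun l => UAp.spn (hxm l).lb k (hx l)
  have hev : ∀ j ≤ q, _ := fun j hj => uev2 (hH := hH) (Γ := Γ) (v := v) (D := D)
    (fun s t => (P s t).coeff j) (fun s t => hPt s t j hj) (fun s m => hPs s j m hj) x
    hxa hxm
  obtain ⟨β, hβ⟩ : ∃ β : ℕ → ∀ s, α → L s, β = fun j s t => (lam s t : L s) *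
      (z s t : L s) ^ j * MvPolynomial.eval (fun l => x l s t) ((P s t).coeff j) := ⟨_, rfl⟩
  have hβa : ∀ j ≤ q, UAp hH Γ v (β j) := fun j hj => by
    rw [hβ]
    exact ((UAp.unit hlam hlamm).mul ((UAp.unit hz hzm).pow j)).mul (hev j hj).1
  have hβm : ∀ j ≤ q, UMdr 𝓕 H (β j) := fun j hj => by
    rw [hβ]
    exact (hlamm.mul (hzm.pow hH j)).mul (hev j hj).2
  obtain ⟨Y, hY⟩ : ∃ Y : ∀ s, α → L s, Y = fun s t => (z s t : L s)⁻¹ * y s t := ⟨_, rfl⟩
  have hYeq : ∀ s, ∀ᶠ t in (𝓕 s : Filter α),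
      ∑ j ∈ Finset.range (q + 1), β j s t * Y s t ^ j = 0 := by
    intro s
    filter_upwards [hy s] with t ht
    have hz0 : (z s t : L s) ≠ 0 := (z s t).ne_zero
    have h1 : ∑ j ∈ Finset.range (q + 1), β j s t * Y s t ^ j = (lam s t : L s) *
        ∑ j ∈ Finset.range (q + 1),
          MvPolynomial.eval (fun l => x l s t) ((P s t).coeff j) * y s t ^ j := by
      rw [Finset.mul_sum]
      refine Finset.sum_congr rfl fun j _ => ?_
      rw [hβ, hY]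
      simp only
      rw [mul_pow, inv_pow]
      field_simp
    rw [h1, ht, mul_zero]
  have hmain := uap_poly (hH := hH) (Γ := Γ) (v := v) hq E hEdeg hEs hsep hspl β hβa
    (fun j hj => by rw [hβ]; exact hclose j hj) Y hYeq
  have hYm : UMdr 𝓕 H Y := by
    refine UMdr.root hH hq (fun j s t => (β q s t)⁻¹ * β j s t)
      (fun j hj => (hβm q le_rfl).inv.mul (hβm j hj.le)) fun s => ?_
    filter_upwards [hmain.1 s, hYeq s] with t ht h2
    rw [Finset.sum_range_succ] at h2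
    have h4 : (β q s t)⁻¹ * (∑ j ∈ Finset.range q, β j s t * Y s t ^ j +
        β q s t * Y s t ^ q) = 0 := by rw [h2, mul_zero]
    rw [mul_add, ← mul_assoc, inv_mul_cancel₀ ht, one_mul, Finset.mul_sum, add_comm] at h4
    rw [← h4]
    congr 1
    refine Finset.sum_congr rfl fun j _ => ?_
    ring
  have hyY : ∀ s, ∀ᶠ t in (𝓕 s : Filter α), (z s t : L s) * Y s t = y s t := fun s =>
    Eventually.of_forall fun t => by
      rw [hY]
      simp only
      rw [← mul_assoc, mul_inv_cancel₀ (z s t).ne_zero, one_mul]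
  exact ⟨((UAp.unit hz hzm).mul hmain.2).congr hyY, (hzm.mul hYm).congr hyY⟩

/-- germs of points above sparse points: the data -/
structure Sit (n m k : ℕ) (q D : Fin m → ℕ) (B δ : ℝ) : Type 1 where
  L : Type
  [iF : Field L]
  [iN : NumberField L]
  𝓕 : Ultrafilter ℕ
  H : ℕ → ℝ
  hH : Tendsto H 𝓕 atTop
  Γ : Subgroup Lˣ
  S : Finset (Pl L)
  hS : ∀ w : InfinitePlace L, (Sum.inl w : Pl L) ∈ S
  hΓS : ∀ g ∈ Γ, IsU S (g : L)
  v : Pl L
  hv : v ∈ S
  P : Fin m → ℕ → Polynomial (MvPolynomial (Fin n) L)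
  hPt : ∀ i t j, j ≤ q i → ((P i t).coeff j).totalDegree ≤ D i
  hPs : ∀ i j e, j ≤ q i → Slow 𝓕 H (fun t => ((P i t).coeff j).coeff e)
  x : Fin n → ℕ → L
  hx : ∀ l, SpN (slowF 𝓕 L H hH) (PG 𝓕 H Γ) k (mk 𝓕 (x l))
  hxm : ∀ l, ∀ᶠ t in (𝓕 : Filter ℕ), logHeight₁ (x l t) ≤ B * H t
  lam : Fin m → ℕ → Lˣ
  z : Fin m → ℕ → Lˣ
  hlam : ∀ i t, lam i t ∈ Γ
  hz : ∀ i t, z i t ∈ Γ
  hlamm : ∀ i, ∀ᶠ t in (𝓕 : Filter ℕ), logHeight₁ (lam i t : L) ≤ B * H t
  hzm : ∀ i, ∀ᶠ t in (𝓕 : Filter ℕ), logHeight₁ (z i t : L) ≤ B * H t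
  E : Fin m → ℕ → Polynomial L
  hEdeg : ∀ i t, (E i t).natDegree = q i
  hEs : ∀ i j, Slow 𝓕 H (fun t => (E i t).coeff j)
  hsep : ∀ i t, (E i t).Separable
  hspl : ∀ i t, (E i t).Splits
  hclose : ∀ i, ∀ j ≤ q i, ∀ᶠ t in (𝓕 : Filter ℕ), av v ((lam i t : L) * (z i t : L) ^ j *
      MvPolynomial.eval (fun l => x l t) ((P i t).coeff j) - (E i t).coeff j) ≤
        Real.exp (-(δ * H t))
  y : Fin m → ℕ → L
  hy : ∀ i, ∀ᶠ t in (𝓕 : Filter ℕ), ∑ j ∈ Finset.range (q i + 1),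
      MvPolynomial.eval (fun l => x l t) ((P i t).coeff j) * y i t ^ j = 0
  hyI : ∀ i, AI 𝓕 H S (y i)

attribute [instance] Sit.iF Sit.iN

/-- **The number of terms is uniformly bounded.** -/
theorem unif (n m k : ℕ) (q D : Fin m → ℕ) (hq : ∀ i, 0 < q i) (B δ : ℝ) (hB : 0 ≤ B)
    (hδ : 0 < δ) : ∃ N : ℕ, k ≤ N ∧ ∀ (s : Sit n m k q D B δ) (i : Fin m),
      SpN (slowF s.𝓕 s.L s.H s.hH) (PU s.𝓕 s.H s.S) N (mk s.𝓕 (s.y i)) := by
  have h1 : ∀ i, ∃ N : ℕ, ∀ s : Sit n m k q D B δ,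
      SpN (slowF s.𝓕 s.L s.H s.hH) (PU s.𝓕 s.H s.S) N (mk s.𝓕 (s.y i)) := by
    intro i
    obtain ⟨hA, hM⟩ := ucoreN (ι := Sit n m k q D B δ) (L := fun s => s.L) (𝓕 := fun s => s.𝓕)
      (H := fun s => s.H) (v := fun s => s.v) (hH := fun s => s.hH) (Γ := fun s => s.Γ)
      (D := D i) (k := k) (hq i)
      (fun s => s.P i) (fun s t j hj => s.hPt i t j hj) (fun s j e hj => s.hPs i j e hj)
      (fun l s => s.x l) (fun l s => s.hx l) (fun l => ⟨B, hB, fun s => s.hxm l⟩)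
      (fun s => s.lam i) (fun s => s.z i) (fun s => s.hlam i) (fun s => s.hz i)
      ⟨B, hB, fun s => s.hlamm i⟩ ⟨B, hB, fun s => s.hzm i⟩
      (fun s => s.E i) (fun s => s.hEdeg i) (fun s => s.hEs i) (fun s => s.hsep i)
      (fun s => s.hspl i) (fun j hj => ⟨δ, hδ, fun s => s.hclose i j hj⟩)
      (fun s => s.y i) (fun s => s.hy i)
    exact ucoreB (fun s => s.S) (fun s => s.hS) (fun s => s.hΓS) (fun s => s.hv) _ hA hM
      (fun s => s.hyI i)
  choose N hN using h1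
  refine ⟨k + ∑ i, N i, Nat.le_add_right _ _, fun s i => ?_⟩
  refine SpN.mono (ps s.hH s.S s.hS).one ?_ (hN i s)
  have := Finset.single_le_sum (f := N) (fun _ _ => Nat.zero_le _) (Finset.mem_univ i)
  omega

end Pool.Agent.Run7.h28.BV
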