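import Mathlib
import Pool.Agent.Run7.h28.BV.UCore
import Pool.Agent.Run7.h28.BV.Seq

/-!
# Project BV (helper28): sequences of points above sparse points, uniformly in the number field
-/

set_option autoImplicit false
set_option linter.unusedSectionVars false

open Filter Topology

namespace Pool.Agent.Run7.h28.BV

open NumberField IsDedekindDomain Height Module
open Pool.Agent.W180.OP (Pl av wt nrm le_nrm nrm_pos wt_nonneg exists_nrm nrm_nonneg)
open Pool.Agent.N750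
open Pool.Agent.Run7.h28.HK
open Pool.Agent.Run7.h28.EC (SubE)

/-- `x` is a sum of `k` elements of `Γ` with coefficients of height at most `M` -/
def Sparse {K : Type} [Field K] [NumberField K] (Γ : Subgroup Kˣ) (k : ℕ) (M : ℝ) (x : K) : Prop :=
  ∃ (a : Fin k → K) (u : Fin k → Kˣ), (∀ r, mulHeight₁ (a r) ≤ M) ∧ (∀ r, u r ∈ Γ) ∧
    x = ∑ r, a r * (u r : K)

/-- After scaling the polynomial and the variable by elements of `Γ` of height at most `M h ^ B`,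
the polynomial `F` is close at the place `v` to a separable polynomial of degree `q` which splits
over `K` and has coefficients of height at most `M`. -/
def Near {K : Type} [Field K] [NumberField K] (Γ : Subgroup Kˣ) (v : Pl K) (B δ M h : ℝ) (q : ℕ)
    (F : Polynomial K) : Prop :=
  ∃ (a z : Kˣ) (E : Polynomial K), a ∈ Γ ∧ z ∈ Γ ∧ E.natDegree = q ∧ E.Separable ∧ E.Splits ∧
    (∀ j, mulHeight₁ (E.coeff j) ≤ M) ∧ mulHeight₁ (a : K) ≤ M * h ^ B ∧
    mulHeight₁ (z : K) ≤ M * h ^ B ∧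
    ∀ j ≤ q, av v ((a : K) * (z : K) ^ j * F.coeff j - E.coeff j) ≤ M * h ^ (-δ)

section

variable {K : Type} [Field K] [NumberField K] {𝓕 : Ultrafilter ℕ} {H : ℕ → ℝ}

lemma slow_of_ht {M : ℕ → ℝ} (hneg : ∀ ε' : ℝ, 0 < ε' → ∀ᶠ t in (𝓕 : Filter ℕ),
    1 + Real.log (M t) ≤ ε' * H t) {b : ℕ → K} (hb : ∀ t, mulHeight₁ (b t) ≤ M t) :
    Slow 𝓕 H b := by
  intro ε hε
  filter_upwards [hneg ε hε] with t ht
  rw [logHeight₁_eq_log_mulHeight₁]
  have h1 := Real.log_le_log (mulHeight₁_pos (b t)) (hb t)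
  linarith

lemma mdr_of_ht (hH : Tendsto H 𝓕 atTop) {M : ℕ → ℝ} {B : ℝ} (hM : ∀ t, 1 ≤ M t)
    (hneg : ∀ ε' : ℝ, 0 < ε' → ∀ᶠ t in (𝓕 : Filter ℕ),
    1 + Real.log (M t) ≤ ε' * H t) {b : ℕ → K}
    (hb : ∀ t, mulHeight₁ (b t) ≤ M t * Real.exp (H t) ^ B) :
    ∀ᶠ t in (𝓕 : Filter ℕ), logHeight₁ (b t) ≤ (|B| + 1) * H t := by
  filter_upwards [hneg 1 one_pos, hH_le hH 0] with t ht h0
  rw [logHeight₁_eq_log_mulHeight₁]
  have h1 := Real.log_le_log (mulHeight₁_pos (b t)) (hb t)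
  rw [Real.log_mul (by linarith [hM t]) (Real.rpow_pos_of_pos (Real.exp_pos _) _).ne',
    Real.log_rpow (Real.exp_pos _), Real.log_exp] at h1
  have h2 : B * H t ≤ |B| * H t := mul_le_mul_of_nonneg_right (le_abs_self B) h0
  linarith

lemma sm_of_bd (hH : Tendsto H 𝓕 atTop) {M : ℕ → ℝ} {δ : ℝ} (hδ : 0 < δ) (hM : ∀ t, 1 ≤ M t)
    (hneg : ∀ ε' : ℝ, 0 < ε' → ∀ᶠ t in (𝓕 : Filter ℕ),
    1 + Real.log (M t) ≤ ε' * H t) {f : ℕ → ℝ}
    (hf : ∀ t, f t ≤ M t * Real.exp (H t) ^ (-δ)) :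
    ∀ᶠ t in (𝓕 : Filter ℕ), f t ≤ Real.exp (-(δ / 2 * H t)) := by
  filter_upwards [hneg (δ / 2) (by positivity)] with t ht
  refine (hf t).trans ?_
  have hM0 : 0 < M t := by linarith [hM t]
  rw [← Real.exp_mul, ← Real.exp_log hM0, ← Real.exp_add]
  refine Real.exp_le_exp.2 ?_
  linarith

lemma sparse_spN (hH : Tendsto H 𝓕 atTop) {M : ℕ → ℝ}
    (hneg : ∀ ε' : ℝ, 0 < ε' → ∀ᶠ t in (𝓕 : Filter ℕ),
    1 + Real.log (M t) ≤ ε' * H t) (S : Finset (Pl K))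
    (hS : ∀ w : InfinitePlace K, (Sum.inl w : Pl K) ∈ S) (Γ : Subgroup Kˣ)
    (hΓS : ∀ g ∈ Γ, IsU S (g : K)) {k : ℕ} {x : ℕ → K} (hxm : Mdr 𝓕 H x)
    (hx : ∀ t, Sparse Γ k (M t) (x t)) : SpN (slowF 𝓕 K H hH) (PG 𝓕 H Γ) k (mk 𝓕 x) := by
  choose a u ha hu hxe using hx
  exact hb_pgN hH S hS Γ hΓS (fun r t => a t r) (fun r t => u t r) x hxm
    (fun r => slow_of_ht hneg fun t => ha t r) (fun r t => hu t r)
    (Eventually.of_forall hxe)

lemma sparse_AI (hH : Tendsto H 𝓕 atTop) {M : ℕ → ℝ}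
    (hneg : ∀ ε' : ℝ, 0 < ε' → ∀ᶠ t in (𝓕 : Filter ℕ),
    1 + Real.log (M t) ≤ ε' * H t) (S : Finset (Pl K)) (Γ : Subgroup Kˣ)
    (hΓS : ∀ g ∈ Γ, IsU S (g : K)) {k : ℕ} {x : ℕ → K}
    (hx : ∀ t, Sparse Γ k (M t) (x t)) : AI 𝓕 H S x := by
  choose a u ha hu hxe using hx
  have h1 : AI 𝓕 H S (fun t => ∑ r, a t r * (u t r : K)) :=
    AI.sum hH Finset.univ (fun r t => a t r * (u t r : K)) fun r _ =>
      (AI.slow (slow_of_ht hneg fun t => ha t r)).mul (AI.unit hH fun t => hΓS _ (hu t r))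
  exact h1.congr (Eventually.of_forall fun t => (hxe t).symm)

end

/-- **Germs of points above sparse points are sums of a uniformly bounded number of units.** -/
theorem unif_seq (n m k : ℕ) (q D : Fin m → ℕ) (hq : ∀ i, 0 < q i) (B δ : ℝ) (hδ : 0 < δ) :
    ∃ N : ℕ, ∀ (K : Type) [Field K] [NumberField K] (𝓕 : Ultrafilter ℕ) (H : ℕ → ℝ)
      (hH : Tendsto H 𝓕 atTop) (Γ : Subgroup Kˣ) (S : Finset (Pl K))
      (_ : ∀ w : InfinitePlace K, (Sum.inl w : Pl K) ∈ S) (_ : ∀ g ∈ Γ, IsU S (g : K))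
      (v : Pl K) (_ : v ∈ S) (M : ℕ → ℝ) (_ : ∀ t, 1 ≤ M t)
      (_ : ∀ ε' : ℝ, 0 < ε' → ∀ᶠ t in (𝓕 : Filter ℕ), 1 + Real.log (M t) ≤ ε' * H t)
      (P : Fin m → ℕ → Polynomial (MvPolynomial (Fin n) K))
      (_ : ∀ i t, (P i t).natDegree ≤ q i)
      (_ : ∀ i t j, j ≤ q i → ((P i t).coeff j).totalDegree ≤ D i)
      (_ : ∀ i t j e, mulHeight₁ (((P i t).coeff j).coeff e) ≤ M t)
      (x : ℕ → Fin n → K) (y : ℕ → Fin m → K) (_ : ∀ t l, Sparse Γ k (M t) (x t l))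
      (_ : ∀ t l, mulHeight₁ (x t l) ≤ M t * Real.exp (H t) ^ B)
      (_ : ∀ t i, Near Γ v B δ (M t) (Real.exp (H t)) (q i)
        ((P i t).map (MvPolynomial.eval (x t))))
      (_ : ∀ t i, ((P i t).map (MvPolynomial.eval (x t))).eval (y t i) = 0)
      (_ : ∀ i, AI 𝓕 H S (fun t => y t i)),
      (∀ l, SpN (slowF 𝓕 K H hH) (PU 𝓕 H S) N (mk 𝓕 (fun t => x t l))) ∧
      ∀ i, SpN (slowF 𝓕 K H hH) (PU 𝓕 H S) N (mk 𝓕 (fun t => y t i)) := by
  obtain ⟨N, hkN, hN⟩ := unif n m k q D hq (|B| + 1) (δ / 2) (by positivity) (by positivity)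
  refine ⟨N, fun K _ _ 𝓕 H hH Γ S hS hΓS v hv M hM hneg P hPd hPt hPs x y hx hxm hnear hy hyI =>
    ?_⟩
  have hxm' : ∀ l, ∀ᶠ t in (𝓕 : Filter ℕ), logHeight₁ (x t l) ≤ (|B| + 1) * H t := fun l =>
    mdr_of_ht hH hM hneg fun t => hxm t l
  have hxsp : ∀ l, SpN (slowF 𝓕 K H hH) (PG 𝓕 H Γ) k (mk 𝓕 (fun t => x t l)) := fun l =>
    sparse_spN hH hneg S hS Γ hΓS ⟨_, hxm' l⟩ fun t => hx t l
  choose a z E ha hz hEdeg hEsep hEspl hEc ham hzm hcl using hnear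
  refine ⟨fun l => ((hxsp l).imp (PG.toPU hΓS)).mono (ps hH S hS).one hkN, fun i => ?_⟩
  exact hN ⟨K, 𝓕, H, hH, Γ, S, hS, hΓS, v, hv, P, fun i t j hj => hPt i t j hj,
    fun i j e _ => slow_of_ht hneg fun t => hPs i t j e, fun l t => x t l, hxsp, hxm',
    fun i t => a t i, fun i t => z t i, fun i t => ha t i, fun i t => hz t i,
    fun i => mdr_of_ht hH hM hneg fun t => ham t i,
    fun i => mdr_of_ht hH hM hneg fun t => hzm t i,
    fun i t => E t i, fun i t => hEdeg t i, fun i j => slow_of_ht hneg fun t => hEc t i j,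
    fun i t => hEsep t i, fun i t => hEspl t i,
    fun i j hj => by
      have h1 := sm_of_bd hH hδ hM hneg (fun t => hcl t i j hj)
      refine h1.mono fun t ht => ?_
      rw [Polynomial.coeff_map] at ht
      exact ht,
    fun i t => y t i, fun i => Eventually.of_forall fun t => by
      have h1 := hy t i
      rw [Polynomial.eval_eq_sum_range' (n := q i + 1) (lt_of_le_of_lt
        (Polynomial.natDegree_map_le.trans (hPd i t)) (Nat.lt_succ_self _))] at h1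
      simp only [Polynomial.coeff_map] at h1
      exact h1, hyI⟩ i

/-- the limit along an ultrafilter -/
lemma seq_filter (M h : ℕ → ℝ) (hM : ∀ t, 1 ≤ M t)
    (hbig : ∀ t : ℕ, (Real.exp 1 * ((t : ℝ) + 1) * M t) ^ (Real.exp 1 * ((t : ℝ) + 1)) < h t) :
    ∃ 𝓕 : Ultrafilter ℕ, Tendsto (fun t => Real.log (h t)) 𝓕 atTop ∧
      ∀ ε' : ℝ, 0 < ε' → ∀ᶠ t in (𝓕 : Filter ℕ), 1 + Real.log (M t) ≤ ε' * Real.log (h t) := by
  have hlog : ∀ t : ℕ, ((t : ℝ) + 1) * (1 + Real.log (M t)) ≤ Real.log (h t) := fun t =>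
    log_step2 t (M t) (h t) (hM t) (hbig t)
  have hlM : ∀ t, 0 ≤ Real.log (M t) := fun t => Real.log_nonneg (hM t)
  have hHtop : Tendsto (fun t => Real.log (h t)) atTop atTop := by
    rw [tendsto_atTop]
    intro b
    filter_upwards [tendsto_natCast_atTop_atTop.eventually_ge_atTop |b|] with t h2
    have h3 : ((t : ℝ) + 1) * 1 ≤ ((t : ℝ) + 1) * (1 + Real.log (M t)) :=
      mul_le_mul_of_nonneg_left (by linarith [hlM t]) (by positivity)
    have h4 := hlog t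
    exact (le_abs_self b).trans (by linarith)
  refine ⟨Filter.hyperfilter ℕ, hHtop.mono_left Nat.hyperfilter_le_atTop, fun ε' hε' => ?_⟩
  refine Filter.Eventually.filter_mono Nat.hyperfilter_le_atTop ?_
  filter_upwards [tendsto_natCast_atTop_atTop.eventually_ge_atTop (1 / ε')] with t h2
  have h3 : 1 / ε' * (1 + Real.log (M t)) ≤ ((t : ℝ) + 1) * (1 + Real.log (M t)) :=
    mul_le_mul_of_nonneg_right (by linarith) (by linarith [hlM t])
  have h4 : 1 / ε' * (1 + Real.log (M t)) ≤ Real.log (h t) := h3.trans (hlog t)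
  have h6 := mul_le_mul_of_nonneg_left h4 hε'.le
  have h7 : ε' * (1 / ε' * (1 + Real.log (M t))) = 1 + Real.log (M t) := by
    field_simp
  rwa [h7] at h6

lemma IsU.mono {K : Type} [Field K] [NumberField K] {S S' : Finset (Pl K)} (h : S ⊆ S') {z : K}
    (hz : IsU S z) : IsU S' z := ⟨hz.1, fun v hv => hz.2 v fun h1 => hv (h h1)⟩

/-- a finite set of places -/
theorem exists_S' {K : Type} [Field K] [NumberField K] (Γ : Subgroup Kˣ) (hΓ : Γ.FG)
    (S0 : Finset (Pl K)) :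
    ∃ S : Finset (Pl K), (∀ w : InfinitePlace K, (Sum.inl w : Pl K) ∈ S) ∧
      (∀ g ∈ Γ, IsU S (g : K)) ∧ S0 ⊆ S := by
  classical
  obtain ⟨S, h1, h2⟩ := exists_S Γ hΓ
  exact ⟨S ∪ S0, fun w => Finset.mem_union_left _ (h1 w),
    fun g hg => IsU.mono Finset.subset_union_left (h2 g hg), Finset.subset_union_right⟩

/-! ### Families over the spectrum of a ring -/

section ring

variable {A : Type} [CommRing A]

/-- the equation `F(x, y_i) = 0` -/
noncomputable def eqA {n m : ℕ} (F : Polynomial (MvPolynomial (Fin n) A)) (i : Fin m) :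
    MvPolynomial (Fin n ⊕ Fin m) A :=
  F.eval₂ (MvPolynomial.rename Sum.inl :
    MvPolynomial (Fin n) A →ₐ[A] MvPolynomial (Fin n ⊕ Fin m) A).toRingHom
    (MvPolynomial.X (Sum.inr i))

lemma eval_eqA {n m : ℕ} {R : Type} [CommRing R] (s : A →+* R)
    (F : Polynomial (MvPolynomial (Fin n) A)) (i : Fin m) (x : Fin n → R) (y : Fin m → R) :
    MvPolynomial.eval₂ s (Sum.elim x y) (eqA F i) =
      (F.map (MvPolynomial.eval₂Hom s x)).eval (y i) := by
  unfold eqA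
  rw [← MvPolynomial.coe_eval₂Hom, Polynomial.hom_eval₂, MvPolynomial.coe_eval₂Hom,
    MvPolynomial.eval₂_X, Polynomial.eval_map]
  congr 1
  refine RingHom.ext fun Q => ?_
  rw [RingHom.comp_apply]
  show MvPolynomial.eval₂ s (Sum.elim x y) (MvPolynomial.rename Sum.inl Q) = _
  rw [MvPolynomial.eval₂_rename]
  rfl

lemma eval_span {σ R ι : Type} [CommRing R] (s : A →+* R) (G : ι → MvPolynomial σ A) (z : σ → R)
    (h : ∀ j, MvPolynomial.eval₂ s z (G j) = 0) {P : MvPolynomial σ A}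
    (hP : P ∈ Ideal.span (Set.range G)) : MvPolynomial.eval₂ s z P = 0 := by
  have h1 : Ideal.span (Set.range G) ≤ RingHom.ker (MvPolynomial.eval₂Hom s z) := by
    rw [Ideal.span_le]
    rintro _ ⟨j, rfl⟩
    exact h j
  exact h1 hP

variable {K : Type} [Field K] [NumberField K] {𝓕 : Ultrafilter ℕ}

/-- the homomorphism to the field of germs -/
noncomputable def germ (𝓕 : Ultrafilter ℕ) (s : ℕ → A →+* K) : A →+* Gm 𝓕 K :=
  (mk 𝓕).comp (RingHom.pi s)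

lemma germ_apply (s : ℕ → A →+* K) (a : A) : germ 𝓕 s a = mk 𝓕 (fun t => s t a) := rfl

lemma germ_eval {σ : Type} (s : ℕ → A →+* K) (z : ℕ → σ → K) (P : MvPolynomial σ A) :
    MvPolynomial.eval₂ (germ 𝓕 s) (fun i => mk 𝓕 (fun t => z t i)) P =
      mk 𝓕 (fun t => MvPolynomial.eval₂ (s t) (z t) P) := by
  have h1 := MvPolynomial.eval₂_comp_left (mk 𝓕) (RingHom.pi s) (fun i t => z t i) P
  refine h1.symm.trans ?_
  congr 1
  funext t
  have h2 := MvPolynomial.eval₂_comp_left (Pi.evalRingHom (fun _ : ℕ => K) t)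
    (RingHom.pi s) (fun i t => z t i) P
  exact h2

/-- the polynomial over the slow germs -/
noncomputable def slowP {σ : Type} {H : ℕ → ℝ} (hH : Tendsto H 𝓕 atTop) (s : ℕ → A →+* K)
    (P : MvPolynomial σ A) (hP : ∀ e, Slow 𝓕 H (fun t => s t (P.coeff e))) :
    MvPolynomial σ (slowF 𝓕 K H hH) :=
  ∑ e ∈ P.support, MvPolynomial.monomial e ⟨germ 𝓕 s (P.coeff e), mk_slow.2 (hP e)⟩

lemma slowP_hom {σ : Type} {H : ℕ → ℝ} (hH : Tendsto H 𝓕 atTop) (s : ℕ → A →+* K)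
    (P : MvPolynomial σ A) (hP : ∀ e, Slow 𝓕 H (fun t => s t (P.coeff e))) {d : ℕ}
    (hd : P.IsHomogeneous d) : (slowP hH s P hP).IsHomogeneous d := by
  unfold slowP
  refine MvPolynomial.IsHomogeneous.sum _ _ _ fun e he => ?_
  refine MvPolynomial.isHomogeneous_monomial _ ?_
  have h1 := hd (MvPolynomial.mem_support_iff.1 he)
  rw [Finsupp.degree_eq_weight_one]
  exact h1

lemma slowP_eval {σ R : Type} [Finite σ] [CommRing R] {H : ℕ → ℝ} (hH : Tendsto H 𝓕 atTop)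
    (s : ℕ → A →+* K) (P : MvPolynomial σ A) (hP : ∀ e, Slow 𝓕 H (fun t => s t (P.coeff e)))
    (f : Gm 𝓕 K →+* R) (z : σ → R) :
    MvPolynomial.eval₂ (f.comp (slowF 𝓕 K H hH).subtype) z (slowP hH s P hP) =
      MvPolynomial.eval₂ (f.comp (germ 𝓕 s)) z P := by
  cases nonempty_fintype σ
  rw [MvPolynomial.eval₂_eq' (f.comp (germ 𝓕 s)) z P]
  unfold slowP
  have h1 : MvPolynomial.eval₂Hom (f.comp (slowF 𝓕 K H hH).subtype) z
      (∑ e ∈ P.support, MvPolynomial.monomial e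
        (⟨germ 𝓕 s (P.coeff e), mk_slow.2 (hP e)⟩ : slowF 𝓕 K H hH)) =
      ∑ e ∈ P.support, MvPolynomial.eval₂Hom (f.comp (slowF 𝓕 K H hH).subtype) z
        (MvPolynomial.monomial e
        (⟨germ 𝓕 s (P.coeff e), mk_slow.2 (hP e)⟩ : slowF 𝓕 K H hH)) := map_sum _ _ _
  refine h1.trans (Finset.sum_congr rfl fun e _ => ?_)
  rw [MvPolynomial.coe_eval₂Hom, MvPolynomial.eval₂_monomial, Finsupp.prod_fintype _ _
    (fun i => pow_zero _)]
  rfl

end ring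

end Pool.Agent.Run7.h28.BV
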