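import Mathlib
import Pool.Agent.Run7.h28.BV.USq

/-!
# Project BV (helper28): points close to unramified points, or to directions at infinity, are `Near`
-/

set_option autoImplicit false
set_option linter.unusedSectionVars false

namespace Pool.Agent.Run7.h28.BV

open NumberField IsDedekindDomain Height Module
open Pool.Agent.W180.OP (Pl av wt nrm le_nrm nrm_pos wt_nonneg exists_nrm nrm_nonneg)
open Pool.Agent.N750
open Pool.Agent.Run7.h28.HK

variable {K : Type} [Field K] [NumberField K]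

/-- `g` has height at most `W ^ N` and `f` is close to `g` at `v` -/
structure QQ (v : Pl K) (W θ : ℝ) (N : ℕ) (f g : K) : Prop where
  ht : mulHeight₁ g ≤ W ^ N
  ab : av v f ≤ W ^ N
  cl : av v (f - g) ≤ W ^ N * θ

lemma av_le_ht (v : Pl K) (a : K) : av v a ≤ mulHeight₁ a := by
  refine (EC.av_le_exp v a).trans (le_of_eq ?_)
  rw [logHeight₁_eq_log_mulHeight₁, Real.exp_log (mulHeight₁_pos a)]

section

variable {v : Pl K} {W θ : ℝ} (hW : 2 ^ (totalWeight K) ≤ W) (hθ : 0 ≤ θ)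
include hW hθ

lemma W2 : 2 ≤ W := by
  refine le_trans ?_ hW
  have h1 : 1 ≤ totalWeight K := totalWeight_pos K
  calc (2 : ℝ) = 2 ^ 1 := (pow_one _).symm
    _ ≤ _ := pow_le_pow_right₀ (by norm_num) h1

lemma QQ.mono {N N' : ℕ} (hN : N ≤ N') {f g : K} (h : QQ v W θ N f g) : QQ v W θ N' f g := by
  have hW1 : 1 ≤ W := by linarith [W2 hW hθ]
  have h1 : W ^ N ≤ W ^ N' := pow_le_pow_right₀ hW1 hN
  exact ⟨h.ht.trans h1, h.ab.trans h1, h.cl.trans (mul_le_mul_of_nonneg_right h1 hθ)⟩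

lemma QQ.add {N N' : ℕ} {f g f' g' : K} (h : QQ v W θ N f g) (h' : QQ v W θ N' f' g') :
    QQ v W θ (N + N' + 1) (f + f') (g + g') := by
  have hW2 := W2 hW hθ
  have hW1 : 1 ≤ W := by linarith
  have e1 : 1 ≤ W ^ N := one_le_pow₀ hW1
  have e2 : 1 ≤ W ^ N' := one_le_pow₀ hW1
  have e3 : W ^ (N + N' + 1) = W * (W ^ N * W ^ N') := by ring
  have e4 : W ^ N + W ^ N' ≤ W ^ (N + N' + 1) := by
    rw [e3]
    have : W ^ N + W ^ N' ≤ 2 * (W ^ N * W ^ N') := by nlinarith
    nlinarith [mul_pos (show 0 < W ^ N by linarith) (show 0 < W ^ N' by linarith)]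
  refine ⟨?_, ?_, ?_⟩
  · refine (mulHeight₁_add_le g g').trans ?_
    rw [e3, mul_assoc]
    exact mul_le_mul hW (mul_le_mul h.ht h'.ht (mulHeight₁_pos _).le (by positivity))
      (mul_nonneg (mulHeight₁_pos _).le (mulHeight₁_pos _).le) (by linarith)
  · exact ((av v).add_le _ _).trans ((add_le_add h.ab h'.ab).trans e4)
  · have e5 : f + f' - (g + g') = (f - g) + (f' - g') := by ring
    rw [e5]
    refine ((av v).add_le _ _).trans ((add_le_add h.cl h'.cl).trans ?_)
    rw [← add_mul]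
    exact mul_le_mul_of_nonneg_right e4 hθ

lemma QQ.mul {N N' : ℕ} {f g f' g' : K} (h : QQ v W θ N f g) (h' : QQ v W θ N' f' g') :
    QQ v W θ (N + N' + 1) (f * f') (g * g') := by
  have hW2 := W2 hW hθ
  have hW1 : 1 ≤ W := by linarith
  have e1 : 1 ≤ W ^ N := one_le_pow₀ hW1
  have e2 : 1 ≤ W ^ N' := one_le_pow₀ hW1
  have e3 : W ^ (N + N' + 1) = W * (W ^ N * W ^ N') := by ring
  have e4 : W ^ N * W ^ N' ≤ W ^ (N + N' + 1) := by
    rw [e3]
    exact le_mul_of_one_le_left (by positivity) hW1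
  refine ⟨?_, ?_, ?_⟩
  · refine (mulHeight₁_mul_le g g').trans (le_trans ?_ e4)
    exact mul_le_mul h.ht h'.ht (mulHeight₁_pos _).le (by positivity)
  · rw [map_mul]
    exact (mul_le_mul h.ab h'.ab ((av v).nonneg _) (by positivity)).trans e4
  · have e5 : f * f' - g * g' = f * (f' - g') + (f - g) * g' := by ring
    rw [e5]
    refine ((av v).add_le _ _).trans ?_
    rw [map_mul, map_mul]
    have e6 : av v g' ≤ W ^ N' := (av_le_ht v g').trans h'.ht
    calc av v f * av v (f' - g') + av v (f - g) * av v g' ≤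
          W ^ N * (W ^ N' * θ) + W ^ N * θ * W ^ N' :=
          add_le_add (mul_le_mul h.ab h'.cl ((av v).nonneg _) (by positivity))
            (mul_le_mul h.cl e6 ((av v).nonneg _) (by positivity))
      _ = 2 * (W ^ N * W ^ N') * θ := by ring
      _ ≤ W ^ (N + N' + 1) * θ := by
          refine mul_le_mul_of_nonneg_right ?_ hθ
          rw [e3]
          exact mul_le_mul_of_nonneg_right hW2 (by positivity)

lemma QQ.same {N : ℕ} {a : K} (h : mulHeight₁ a ≤ W ^ N) : QQ v W θ N a a := by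
  have hW1 : 1 ≤ W := by linarith [W2 hW hθ]
  refine ⟨h, (av_le_ht v a).trans h, ?_⟩
  rw [sub_self, map_zero]
  positivity

lemma QQ.one : QQ v W θ 0 1 1 := QQ.same hW hθ (by simp)

lemma QQ.pow {N : ℕ} {f g : K} (h : QQ v W θ N f g) (e : ℕ) :
    QQ v W θ (e * (N + 1)) (f ^ e) (g ^ e) := by
  induction e with
  | zero =>
    rw [pow_zero, pow_zero, zero_mul]
    exact QQ.one hW hθ
  | succ e ih =>
    rw [pow_succ, pow_succ]
    refine (ih.mul hW hθ h).mono hW hθ (le_of_eq ?_)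
    ring

lemma QQ.prod {ι : Type} (A : Finset ι) (N : ι → ℕ) (f g : ι → K)
    (h : ∀ i ∈ A, QQ v W θ (N i) (f i) (g i)) :
    QQ v W θ (∑ i ∈ A, (N i + 1)) (∏ i ∈ A, f i) (∏ i ∈ A, g i) := by
  classical
  induction A using Finset.induction_on with
  | empty =>
    simp only [Finset.prod_empty, Finset.sum_empty]
    exact QQ.one hW hθ
  | insert a A ha ih =>
    rw [Finset.prod_insert ha, Finset.prod_insert ha, Finset.sum_insert ha]
    refine ((h a (Finset.mem_insert_self _ _)).mul hW hθ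
      (ih fun i hi => h i (Finset.mem_insert_of_mem hi))).mono hW hθ (le_of_eq ?_)
    ring

lemma QQ.sum {ι : Type} (A : Finset ι) (N : ι → ℕ) (f g : ι → K)
    (h : ∀ i ∈ A, QQ v W θ (N i) (f i) (g i)) :
    QQ v W θ (∑ i ∈ A, (N i + 1)) (∑ i ∈ A, f i) (∑ i ∈ A, g i) := by
  classical
  induction A using Finset.induction_on with
  | empty =>
    simp only [Finset.sum_empty]
    exact ⟨by simp, by simp, by simpa using hθ⟩
  | insert a A ha ih =>
    rw [Finset.sum_insert ha, Finset.sum_insert ha, Finset.sum_insert ha]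
    refine ((h a (Finset.mem_insert_self _ _)).add hW hθ
      (ih fun i hi => h i (Finset.mem_insert_of_mem hi))).mono hW hθ (le_of_eq ?_)
    ring

end

/-- the constants -/
lemma pow_bd {W M : ℝ} {d N : ℕ} (hM : 1 ≤ M) (hW : W = 2 ^ d * M) :
    W ^ N ≤ ((2 ^ d + N : ℝ) * M) ^ ((2 : ℝ) ^ d + N) := by
  have h2 : (1 : ℝ) ≤ 2 ^ d := one_le_pow₀ (by norm_num)
  have h0 : (0 : ℝ) ≤ N := Nat.cast_nonneg N
  have h1 : 1 ≤ (2 ^ d + N : ℝ) * M := one_le_mul_of_one_le_of_one_le (by linarith) hM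
  calc W ^ N = W ^ (N : ℝ) := (Real.rpow_natCast _ _).symm
    _ ≤ ((2 ^ d + N : ℝ) * M) ^ (N : ℝ) := by
        refine Real.rpow_le_rpow (by rw [hW]; positivity) ?_ h0
        rw [hW]
        exact mul_le_mul_of_nonneg_right (by linarith) (by linarith)
    _ ≤ _ := Real.rpow_le_rpow_of_exponent_le h1 (by linarith)

/-- **Points close to unramified points.** If the point `x` is close at `v` to a point `c` with
coordinates of height at most `M` at which the polynomial `F` is separable, of full degree and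
split, then the polynomial `F (x, Y)` is `Near` (with `M` replaced by `(C M) ^ C`). -/
theorem near_of_close {A : Type} [CommRing A] {n : ℕ} (F : Polynomial (MvPolynomial (Fin n) A))
    (K : Type) [Field K] [NumberField K] : ∃ C : ℝ, 1 ≤ C ∧
      ∀ (Γ : Subgroup Kˣ) (v : Pl K) (B δ M h : ℝ) (s : A →+* K) (x c : Fin n → K), 0 ≤ B →
        0 ≤ δ → 1 ≤ M → 1 ≤ h → (∀ j e, mulHeight₁ (s ((F.coeff j).coeff e)) ≤ M) →
        (∀ l, mulHeight₁ (c l) ≤ M) → (∀ l, av v (x l - c l) ≤ M * h ^ (-δ)) →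
        (F.map (MvPolynomial.eval₂Hom s c)).natDegree = F.natDegree →
        (F.map (MvPolynomial.eval₂Hom s c)).Separable →
        (F.map (MvPolynomial.eval₂Hom s c)).Splits →
        Near Γ v B δ ((C * M) ^ C) h F.natDegree (F.map (MvPolynomial.eval₂Hom s x)) := by
  classical
  obtain ⟨N, hN⟩ : ∃ N : ℕ, N = ∑ j ∈ Finset.range (F.natDegree + 1),
      ∑ e ∈ (F.coeff j).support, ((1 + (∑ l, (e l * (1 + 1) + 1)) + 1) + 1) := ⟨_, rfl⟩
  obtain ⟨C, hC⟩ : ∃ C : ℝ, C = 2 ^ (totalWeight K) + (N : ℝ) := ⟨_, rfl⟩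
  have h2 : (1 : ℝ) ≤ 2 ^ (totalWeight K) := one_le_pow₀ (by norm_num)
  have hC1 : 1 ≤ C := by
    rw [hC]
    have : (0 : ℝ) ≤ N := Nat.cast_nonneg N
    linarith
  refine ⟨C, hC1, fun Γ v B δ M h s x c hB hδ hM hh hF hc hx hdeg hsep hspl => ?_⟩
  obtain ⟨W, hWdef⟩ : ∃ W : ℝ, W = 2 ^ (totalWeight K) * M := ⟨_, rfl⟩
  obtain ⟨θ, hθdef⟩ : ∃ θ : ℝ, θ = h ^ (-δ) := ⟨_, rfl⟩
  have hθ : 0 ≤ θ := by rw [hθdef]; positivity
  have hθ1 : θ ≤ 1 := by
    rw [hθdef]
    exact Real.rpow_le_one_of_one_le_of_nonpos hh (by linarith)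
  have hW : 2 ^ (totalWeight K) ≤ W := by
    rw [hWdef]
    exact le_mul_of_one_le_right (by linarith) hM
  have hMW : M ≤ W := by
    rw [hWdef]
    exact le_mul_of_one_le_left (by linarith) h2
  have hW2 := W2 hW hθ
  have h2M : 2 * M ≤ W := by
    rw [hWdef]
    refine mul_le_mul_of_nonneg_right ?_ (by linarith)
    have h1 : 1 ≤ totalWeight K := totalWeight_pos K
    calc (2 : ℝ) = 2 ^ 1 := (pow_one _).symm
      _ ≤ _ := pow_le_pow_right₀ (by norm_num) h1
  have hvar : ∀ l, QQ v W θ 1 (x l) (c l) := fun l => by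
    refine ⟨by rw [pow_one]; exact (hc l).trans hMW, ?_, ?_⟩
    · rw [pow_one]
      have h3 : x l = c l + (x l - c l) := by ring
      rw [h3]
      refine ((av v).add_le _ _).trans (le_trans ?_ h2M)
      have h4 := (av_le_ht v (c l)).trans (hc l)
      have h5 : av v (x l - c l) ≤ M := by
        refine (hx l).trans ?_
        rw [← hθdef]
        exact mul_le_of_le_one_right (by linarith) hθ1
      linarith
    · rw [pow_one]
      refine (hx l).trans ?_
      rw [← hθdef]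
      exact mul_le_mul_of_nonneg_right hMW hθ
  have hco : ∀ (z : Fin n → K) j, (F.map (MvPolynomial.eval₂Hom s z)).coeff j =
      ∑ e ∈ (F.coeff j).support, s ((F.coeff j).coeff e) * ∏ l, z l ^ e l := fun z j => by
    rw [Polynomial.coeff_map, MvPolynomial.coe_eval₂Hom, MvPolynomial.eval₂_eq']
  have hQ : ∀ j ≤ F.natDegree, QQ v W θ N ((F.map (MvPolynomial.eval₂Hom s x)).coeff j)
      ((F.map (MvPolynomial.eval₂Hom s c)).coeff j) := by
    intro j hj
    rw [hco, hco]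
    refine QQ.mono hW hθ ?_ (QQ.sum hW hθ (F.coeff j).support
      (fun e => 1 + (∑ l, (e l * (1 + 1) + 1)) + 1)
      (fun e => s ((F.coeff j).coeff e) * ∏ l, x l ^ e l)
      (fun e => s ((F.coeff j).coeff e) * ∏ l, c l ^ e l) fun e _ => ?_)
    · rw [hN]
      exact Finset.single_le_sum (f := fun j => ∑ e ∈ (F.coeff j).support,
        ((1 + (∑ l, (e l * (1 + 1) + 1)) + 1) + 1)) (fun _ _ => Nat.zero_le _)
        (Finset.mem_range.2 (Nat.lt_succ_of_le hj))
    · refine QQ.mul hW hθ (QQ.same hW hθ ?_) (QQ.prod hW hθ Finset.univ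
        (fun l => e l * (1 + 1)) (fun l => x l ^ e l) (fun l => c l ^ e l)
        fun l _ => (hvar l).pow hW hθ (e l))
      rw [pow_one]
      exact (hF j e).trans hMW
  have hbd : W ^ N ≤ (C * M) ^ C := by
    rw [hC]
    exact pow_bd hM hWdef
  have hbd1 : 1 ≤ (C * M) ^ C := (one_le_pow₀ (by linarith : (1 : ℝ) ≤ W)).trans hbd
  have hhB : 1 ≤ h ^ B := Real.one_le_rpow hh hB
  refine ⟨1, 1, F.map (MvPolynomial.eval₂Hom s c), Γ.one_mem, Γ.one_mem, hdeg, hsep, hspl,
    fun j => ?_, ?_, ?_, fun j hj => ?_⟩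
  · rcases le_or_gt j F.natDegree with hj | hj
    · exact (hQ j hj).ht.trans hbd
    · rw [Polynomial.coeff_eq_zero_of_natDegree_lt (by rw [hdeg]; exact hj), mulHeight₁_zero]
      exact hbd1
  · rw [Units.val_one, mulHeight₁_one]
    exact one_le_mul_of_one_le_of_one_le hbd1 hhB
  · rw [Units.val_one, mulHeight₁_one]
    exact one_le_mul_of_one_le_of_one_le hbd1 hhB
  · rw [Units.val_one, one_pow, one_mul, one_mul, ← hθdef]
    exact (hQ j hj).cl.trans (mul_le_mul_of_nonneg_right hbd hθ)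

/-- the part of `F` of weight `q D + p q` at the point `(c, Y)`, where the variables of the
coefficients have weight `q` and `Y` has weight `p` -/
noncomputable def topA {A K : Type} [CommRing A] [Field K] {n : ℕ} (p q D : ℕ) (s : A →+* K)
    (F : Polynomial (MvPolynomial (Fin n) A)) (c : Fin n → K) : Polynomial K :=
  ∑ j ∈ Finset.range (q + 1),
    Polynomial.C (∑ e ∈ (F.coeff j).support with q * ∑ l, e l = q * D + p * (q - j),
      s ((F.coeff j).coeff e) * ∏ l, c l ^ e l) * Polynomial.X ^ j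

/-- **Points close to a direction at infinity.** -/
theorem near_of_direction {A : Type} [CommRing A] {n : ℕ}
    (F : Polynomial (MvPolynomial (Fin n) A)) (q p D : ℕ) (hq : 0 < q)
    (hw : ∀ j ≤ q, ∀ e, (F.coeff j).coeff e ≠ 0 → q * ∑ l, e l ≤ q * D + p * (q - j))
    (K : Type) [Field K] [NumberField K] : ∃ C : ℝ, 1 ≤ C ∧
      ∀ (Γ : Subgroup Kˣ) (v : Pl K) (B δ M h : ℝ) (s : A →+* K) (x c : Fin n → K) (w : Kˣ),
        0 ≤ B → 0 ≤ δ → 1 ≤ M → 1 ≤ h → (∀ j e, mulHeight₁ (s ((F.coeff j).coeff e)) ≤ M) →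
        (∀ l, mulHeight₁ (c l) ≤ M) → w ∈ Γ → mulHeight₁ (w : K) ≤ M * h ^ B →
        av v ((w : K)⁻¹) ≤ M * h ^ (-δ) →
        (∀ l, av v (x l / (w : K) ^ q - c l) ≤ M * h ^ (-δ)) →
        (topA p q D s F c).natDegree = q → (topA p q D s F c).Separable →
        (topA p q D s F c).Splits →
        Near Γ v (B * (q * D + p * q)) δ ((C * M) ^ C) h q
          (F.map (MvPolynomial.eval₂Hom s x)) := by
  classical
  obtain ⟨r, hr⟩ : ∃ r : ℕ, r = q * D + p * q := ⟨_, rfl⟩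
  obtain ⟨N, hN⟩ : ∃ N : ℕ, N = r + ∑ j ∈ Finset.range (q + 1),
      ∑ e ∈ (F.coeff j).support, ((1 + (∑ l, (e l * (1 + 1) + 1)) + 1) + r * (1 + 1) + 1 + 1) :=
    ⟨_, rfl⟩
  obtain ⟨C, hC⟩ : ∃ C : ℝ, C = 2 ^ (totalWeight K) + (N : ℝ) := ⟨_, rfl⟩
  have h2 : (1 : ℝ) ≤ 2 ^ (totalWeight K) := one_le_pow₀ (by norm_num)
  have hC1 : 1 ≤ C := by
    rw [hC]
    have : (0 : ℝ) ≤ N := Nat.cast_nonneg N
    linarith
  refine ⟨C, hC1, fun Γ v B δ M h s x c w hB hδ hM hh hF hc hwΓ hwh hwv hx hdeg hsep hspl => ?_⟩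
  obtain ⟨W, hWdef⟩ : ∃ W : ℝ, W = 2 ^ (totalWeight K) * M := ⟨_, rfl⟩
  obtain ⟨θ, hθdef⟩ : ∃ θ : ℝ, θ = h ^ (-δ) := ⟨_, rfl⟩
  have hθ : 0 ≤ θ := by rw [hθdef]; positivity
  have hθ1 : θ ≤ 1 := by
    rw [hθdef]
    exact Real.rpow_le_one_of_one_le_of_nonpos hh (by linarith)
  have hW : 2 ^ (totalWeight K) ≤ W := by
    rw [hWdef]
    exact le_mul_of_one_le_right (by linarith) hM
  have hMW : M ≤ W := by
    rw [hWdef]
    exact le_mul_of_one_le_left (by linarith) h2
  have hW2 := W2 hW hθ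
  have h2M : 2 * M ≤ W := by
    rw [hWdef]
    refine mul_le_mul_of_nonneg_right ?_ (by linarith)
    have h1 : 1 ≤ totalWeight K := totalWeight_pos K
    calc (2 : ℝ) = 2 ^ 1 := (pow_one _).symm
      _ ≤ _ := pow_le_pow_right₀ (by norm_num) h1
  have hw0 : (w : K) ≠ 0 := w.ne_zero
  have hvar : ∀ l, QQ v W θ 1 (x l / (w : K) ^ q) (c l) := fun l => by
    refine ⟨by rw [pow_one]; exact (hc l).trans hMW, ?_, ?_⟩
    · rw [pow_one]
      have h3 : x l / (w : K) ^ q = c l + (x l / (w : K) ^ q - c l) := by ring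
      rw [h3]
      refine ((av v).add_le _ _).trans (le_trans ?_ h2M)
      have h4 := (av_le_ht v (c l)).trans (hc l)
      have h5 : av v (x l / (w : K) ^ q - c l) ≤ M := by
        refine (hx l).trans ?_
        rw [← hθdef]
        exact mul_le_of_le_one_right (by linarith) hθ1
      linarith
    · rw [pow_one]
      refine (hx l).trans ?_
      rw [← hθdef]
      exact mul_le_mul_of_nonneg_right hMW hθ
  have hwq : QQ v W θ 1 ((w : K)⁻¹) 0 := by
    have h3 : av v ((w : K)⁻¹) ≤ W * θ := by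
      refine hwv.trans ?_
      rw [← hθdef]
      exact mul_le_mul_of_nonneg_right hMW hθ
    refine ⟨?_, ?_, ?_⟩
    · rw [pow_one, mulHeight₁_zero]
      linarith
    · rw [pow_one]
      exact h3.trans (mul_le_of_le_one_right (by linarith) hθ1)
    · rw [pow_one, sub_zero]
      exact h3
  have htop : ∀ j ≤ q, (topA p q D s F c).coeff j =
      ∑ e ∈ (F.coeff j).support, (s ((F.coeff j).coeff e) * ∏ l, c l ^ e l) *
        (0 : K) ^ (q * D + p * (q - j) - q * ∑ l, e l) := by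
    intro j hj
    unfold topA
    simp only [Polynomial.finsetSum_coeff, Polynomial.coeff_C_mul_X_pow]
    rw [Finset.sum_ite_eq, if_pos (Finset.mem_range.2 (by omega)), Finset.sum_filter]
    refine Finset.sum_congr rfl fun e he => ?_
    have h3 := hw j hj e (MvPolynomial.mem_support_iff.1 he)
    by_cases h4 : q * ∑ l, e l = q * D + p * (q - j)
    · rw [if_pos h4, h4, Nat.sub_self, pow_zero, mul_one]
    · rw [if_neg h4, zero_pow (by omega), mul_zero]
  have hval : ∀ j ≤ q, (((w⁻¹ : Kˣ) ^ r : Kˣ) : K) * (((w : Kˣ) ^ p : Kˣ) : K) ^ j *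
      (F.map (MvPolynomial.eval₂Hom s x)).coeff j =
      ∑ e ∈ (F.coeff j).support, (s ((F.coeff j).coeff e) *
        ∏ l, (x l / (w : K) ^ q) ^ e l) *
        ((w : K)⁻¹) ^ (q * D + p * (q - j) - q * ∑ l, e l) := by
    intro j hj
    rw [Polynomial.coeff_map, MvPolynomial.coe_eval₂Hom, MvPolynomial.eval₂_eq', Finset.mul_sum]
    refine Finset.sum_congr rfl fun e he => ?_
    have h3 := hw j hj e (MvPolynomial.mem_support_iff.1 he)
    have h4 : ∏ l, (x l / (w : K) ^ q) ^ e l =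
        (∏ l, x l ^ e l) * ((w : K)⁻¹) ^ (q * ∑ l, e l) := by
      simp_rw [div_pow]
      rw [Finset.prod_div_distrib, div_eq_mul_inv]
      congr 1
      simp_rw [← pow_mul]
      rw [Finset.prod_pow_eq_pow_sum, ← Finset.mul_sum, inv_pow]
    rw [h4]
    have h5 : ((w : K)⁻¹) ^ (q * ∑ l, e l) * ((w : K)⁻¹) ^ (q * D + p * (q - j) -
        q * ∑ l, e l) = ((w : K)⁻¹) ^ (q * D + p * (q - j)) := by
      rw [← pow_add, Nat.add_sub_cancel' h3]
    have h6 : (((w⁻¹ : Kˣ) ^ r : Kˣ) : K) * (((w : Kˣ) ^ p : Kˣ) : K) ^ j =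
        ((w : K)⁻¹) ^ (q * D + p * (q - j)) := by
      rw [Units.val_pow_eq_pow_val, Units.val_pow_eq_pow_val, Units.val_inv_eq_inv_val, ← pow_mul]
      have h7 : r = (q * D + p * (q - j)) + p * j := by
        rw [hr, add_assoc, ← mul_add, Nat.sub_add_cancel hj]
      rw [h7, pow_add, mul_assoc, ← mul_pow, inv_mul_cancel₀ hw0, one_pow, mul_one]
    rw [h6, ← h5]
    ring
  have hQ : ∀ j ≤ q, QQ v W θ N ((((w⁻¹ : Kˣ) ^ r : Kˣ) : K) *
      (((w : Kˣ) ^ p : Kˣ) : K) ^ j * (F.map (MvPolynomial.eval₂Hom s x)).coeff j)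
      ((topA p q D s F c).coeff j) := by
    intro j hj
    rw [hval j hj, htop j hj]
    refine QQ.mono hW hθ ?_ (QQ.sum hW hθ (F.coeff j).support
      (fun e => (1 + (∑ l, (e l * (1 + 1) + 1)) + 1) + r * (1 + 1) + 1)
      (fun e => (s ((F.coeff j).coeff e) * ∏ l, (x l / (w : K) ^ q) ^ e l) *
        ((w : K)⁻¹) ^ (q * D + p * (q - j) - q * ∑ l, e l))
      (fun e => (s ((F.coeff j).coeff e) * ∏ l, c l ^ e l) *
        (0 : K) ^ (q * D + p * (q - j) - q * ∑ l, e l)) fun e _ => ?_)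
    · rw [hN]
      refine le_trans (Finset.single_le_sum (f := fun j => ∑ e ∈ (F.coeff j).support,
        ((1 + (∑ l, (e l * (1 + 1) + 1)) + 1) + r * (1 + 1) + 1 + 1)) (fun _ _ => Nat.zero_le _)
        (Finset.mem_range.2 (Nat.lt_succ_of_le hj))) (Nat.le_add_left _ _)
    · refine QQ.mul hW hθ (QQ.mul hW hθ (QQ.same hW hθ ?_) (QQ.prod hW hθ Finset.univ
        (fun l => e l * (1 + 1)) (fun l => (x l / (w : K) ^ q) ^ e l) (fun l => c l ^ e l)
        fun l _ => (hvar l).pow hW hθ (e l))) ((hwq.pow hW hθ _).mono hW hθ ?_)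
      · rw [pow_one]
        exact (hF j e).trans hMW
      · refine Nat.mul_le_mul_right _ ?_
        rw [hr]
        refine (Nat.sub_le _ _).trans ?_
        exact Nat.add_le_add_left (Nat.mul_le_mul_left _ (Nat.sub_le _ _)) _
  have hbd : W ^ N ≤ (C * M) ^ C := by
    rw [hC]
    exact pow_bd hM hWdef
  have hbd1 : 1 ≤ (C * M) ^ C := (one_le_pow₀ (by linarith : (1 : ℝ) ≤ W)).trans hbd
  have hhB : 1 ≤ h ^ B := Real.one_le_rpow hh hB
  have hr0 : p ≤ r := by
    rw [hr]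
    exact (Nat.le_mul_of_pos_right p hq).trans (Nat.le_add_left _ _)
  have hpw : ∀ e ≤ r, mulHeight₁ (w : K) ^ e ≤ (C * M) ^ C * h ^ (B * (q * D + p * q)) := by
    intro e he
    have h3 : 1 ≤ M * h ^ B := one_le_mul_of_one_le_of_one_le hM hhB
    calc mulHeight₁ (w : K) ^ e ≤ (M * h ^ B) ^ e :=
          pow_le_pow_left₀ (mulHeight₁_pos _).le hwh e
      _ ≤ (M * h ^ B) ^ r := pow_le_pow_right₀ h3 he
      _ = M ^ r * h ^ (B * (q * D + p * q)) := by
          rw [mul_pow, ← Real.rpow_natCast (h ^ B) r, ← Real.rpow_mul (by linarith)]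
          congr 2
          rw [hr]
          push_cast
          ring
      _ ≤ _ := by
          refine mul_le_mul_of_nonneg_right (le_trans ?_ hbd) (Real.rpow_nonneg (by linarith) _)
          calc M ^ r ≤ W ^ r := pow_le_pow_left₀ (by linarith) hMW r
            _ ≤ W ^ N := pow_le_pow_right₀ (by linarith) (by rw [hN]; exact Nat.le_add_right _ _)
  refine ⟨(w⁻¹) ^ r, w ^ p, topA p q D s F c, Γ.pow_mem (Γ.inv_mem hwΓ) _, Γ.pow_mem hwΓ _,
    hdeg, hsep, hspl, fun j => ?_, ?_, ?_, fun j hj => ?_⟩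
  · rcases le_or_gt j q with hj | hj
    · exact (hQ j hj).ht.trans hbd
    · rw [Polynomial.coeff_eq_zero_of_natDegree_lt (by rw [hdeg]; exact hj), mulHeight₁_zero]
      exact hbd1
  · rw [Units.val_pow_eq_pow_val, Units.val_inv_eq_inv_val, mulHeight₁_pow, mulHeight₁_inv]
    exact hpw r le_rfl
  · rw [Units.val_pow_eq_pow_val, mulHeight₁_pow]
    exact hpw p hr0
  · rw [← hθdef]
    exact (hQ j hj).cl.trans (mul_le_mul_of_nonneg_right hbd hθ)

end Pool.Agent.Run7.h28.BV
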