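import Mathlib
import Pool.Agent.Run7.h28.BV.Main

/-!
# Project BV (helper28): Laurent polynomials in the exponential function are entire curves
-/

set_option autoImplicit false
set_option linter.unusedSectionVars false

namespace Pool.Agent.Run7.h28.BV

/-- the value of a Laurent polynomial at `exp w` -/
noncomputable def ev (w : ℂ) : LaurentPolynomial ℂ →+* ℂ :=
  LaurentPolynomial.eval₂ (RingHom.id ℂ) (Units.mk0 (Complex.exp w) (Complex.exp_ne_zero w))

lemma ev_CT (w a : ℂ) (n : ℤ) :
    ev w (LaurentPolynomial.C a * LaurentPolynomial.T n) = a * Complex.exp (n * w) := by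
  rw [ev, map_mul, LaurentPolynomial.eval₂_C, LaurentPolynomial.eval₂_T, RingHom.id_apply,
    Units.val_zpow_eq_zpow_val, Units.val_mk0, Complex.exp_int_mul]

lemma ev_diff (Z : LaurentPolynomial ℂ) : Differentiable ℂ (fun w => ev w Z) := by
  induction Z using LaurentPolynomial.induction_on' with
  | add p q hp hq =>
    simp only [map_add]
    exact hp.add hq
  | C_mul_T n a =>
    simp only [ev_CT]
    fun_prop

lemma ev_zero (Z : LaurentPolynomial ℂ) :
    ev 0 Z = LaurentPolynomial.eval₂ (RingHom.id ℂ) 1 Z := by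
  unfold ev
  congr 2
  apply Units.ext
  simp

/-- a nonconstant Laurent polynomial gives a nonconstant function -/
lemma ev_nonconst (Z : LaurentPolynomial ℂ) (hZ : ¬ ∃ c, Z = LaurentPolynomial.C c) :
    ∃ w, ev w Z ≠ ev 0 Z := by
  by_contra hcon
  push Not at hcon
  apply hZ
  refine ⟨ev 0 Z, ?_⟩
  obtain ⟨n, P, hP⟩ := LaurentPolynomial.exists_T_pow (Z - LaurentPolynomial.C (ev 0 Z))
  have h1 : ∀ w, P.eval (Complex.exp w) = 0 := by
    intro w
    have h2 := congrArg (ev w) hP
    rw [map_mul, map_sub] at h2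
    have h3 : ev w (LaurentPolynomial.C (ev 0 Z)) = ev 0 Z := by
      rw [ev, LaurentPolynomial.eval₂_C, RingHom.id_apply]
    rw [h3, hcon w, sub_self, zero_mul] at h2
    have h4 : ev w (Polynomial.toLaurent P) = P.eval (Complex.exp w) := by
      rw [ev, LaurentPolynomial.eval₂_toLaurent, Units.val_mk0, Polynomial.eval₂_id]
    rw [← h4]
    exact h2
  have h2 : P = 0 := by
    refine Polynomial.eq_zero_of_infinite_isRoot P ?_
    refine Set.Infinite.mono (s := {z : ℂ | z ≠ 0}) ?_ ?_
    · intro z hz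
      have h3 := h1 (Complex.log z)
      rw [Complex.exp_log hz] at h3
      exact h3
    · exact (Set.finite_singleton (0 : ℂ)).infinite_compl
  rw [h2, map_zero] at hP
  have h3 : (Z - LaurentPolynomial.C (ev 0 Z)) * LaurentPolynomial.T (n : ℤ) *
      LaurentPolynomial.T (-(n : ℤ)) = 0 := by
    rw [← hP, zero_mul]
  rw [mul_assoc, ← LaurentPolynomial.T_add, add_neg_cancel, LaurentPolynomial.T_zero,
    mul_one] at h3
  exact sub_eq_zero.1 h3

/-- ring homomorphisms commute with polynomials with integer coefficients -/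
lemma hom_aeval {σ A B : Type} [CommRing A] [CommRing B] [Algebra ℤ A] [Algebra ℤ B]
    (E : A →+* B) (Z : σ → A)
    (G : MvPolynomial σ ℤ) :
    MvPolynomial.aeval (fun i => E (Z i)) G = E (MvPolynomial.aeval Z G) := by
  induction G using MvPolynomial.induction_on with
  | C a => simp
  | add a b ha hb => rw [map_add, map_add, map_add, ha, hb]
  | mul_X a i ha => rw [map_mul, map_mul, map_mul, ha, MvPolynomial.aeval_X,
      MvPolynomial.aeval_X]

/-- every entire curve in `G = 0` lies in `T = 0` -/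
def EntIn {σ ι : Type} (G : ι → MvPolynomial σ ℤ) (T : Set (MvPolynomial σ ℤ)) : Prop :=
  ∀ f : σ → ℂ → ℂ, (∀ i, Differentiable ℂ (f i)) → (∃ i w, f i w ≠ f i 0) →
    (∀ j w, MvPolynomial.aeval (fun i => f i w) (G j) = 0) →
    ∀ P ∈ T, ∀ w, MvPolynomial.aeval (fun i => f i w) P = 0

/-- points on Laurent curves lie in the exceptional set -/
lemma ent {σ ι : Type} (G : ι → MvPolynomial σ ℤ) (T : Set (MvPolynomial σ ℤ)) (h : EntIn G T)
    (Z : σ → LaurentPolynomial ℂ) (i0 : σ) (hi0 : ¬ ∃ c, Z i0 = LaurentPolynomial.C c)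
    (z : σ → ℤ) (hz : ∀ i, LaurentPolynomial.eval₂ (RingHom.id ℂ) 1 (Z i) = z i)
    (hG : ∀ j, MvPolynomial.aeval Z (G j) = 0) : ∀ P ∈ T, MvPolynomial.eval z P = 0 := by
  intro P hP
  have h1 := h (fun i w => ev w (Z i)) (fun i => ev_diff (Z i))
    (by
      obtain ⟨w, hw⟩ := ev_nonconst (Z i0) hi0
      exact ⟨i0, w, hw⟩)
    (fun j w => by
      rw [hom_aeval (ev w) Z (G j), hG j, map_zero]) P hP 0
  have h2 : (fun i => ev 0 (Z i)) = fun i => ((z i : ℤ) : ℂ) := by
    funext i
    rw [ev_zero, hz]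
  simp only [h2] at h1
  rw [cast_eval] at h1
  exact_mod_cast h1

end Pool.Agent.Run7.h28.BV
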