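import Mathlib
import Pool.Agent.Run7.h28.BV.Ent

/-!
# Project BV (helper28): from Laurent polynomials on the cone to rational curves on the variety
-/

set_option autoImplicit false
set_option linter.unusedSectionVars false

namespace Pool.Agent.Run7.h28.BV

lemma hom_deg {σ : Type} [Fintype σ] {G : MvPolynomial σ ℤ} {e : ℕ} (hG : G.IsHomogeneous e)
    {s : σ →₀ ℕ} (hs : s ∈ G.support) : ∑ i, s i = e := by
  have h1 := hG (MvPolynomial.mem_support_iff.1 hs)
  rw [Finsupp.weight_apply, Finsupp.sum_fintype _ _ (by simp)] at h1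
  simpa using h1

/-- homogeneity -/
lemma aeval_homog {σ : Type} [Fintype σ] {e : ℕ} {S : Type} [CommRing S] [Algebra ℤ S]
    (G : MvPolynomial σ ℤ) (hG : G.IsHomogeneous e) (g : S) (q : σ → S) :
    MvPolynomial.aeval (fun i => g * q i) G = g ^ e * MvPolynomial.aeval q G := by
  rw [MvPolynomial.aeval_def, MvPolynomial.aeval_def, MvPolynomial.eval₂_eq',
    MvPolynomial.eval₂_eq', Finset.mul_sum]
  refine Finset.sum_congr rfl fun s hs => ?_
  simp_rw [mul_pow]
  rw [Finset.prod_mul_distrib, Finset.prod_pow_eq_pow_sum, hom_deg hG hs]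
  ring

/-- **From Laurent polynomials on the cone to rational curves.** -/
theorem curve {σ ι : Type} [Fintype σ] (G : ι → MvPolynomial σ ℤ)
    (hG : ∀ j, ∃ e, (G j).IsHomogeneous e) (Z : σ → LaurentPolynomial ℂ) (z : σ → ℂ)
    (hz : ∀ i, LaurentPolynomial.eval₂ (RingHom.id ℂ) 1 (Z i) = z i) (hz0 : ∃ i, z i ≠ 0)
    (hZ : ∀ j, MvPolynomial.aeval Z (G j) = 0)
    (hnc : ∃ i j, Z i * LaurentPolynomial.C (z j) ≠ Z j * LaurentPolynomial.C (z i)) :
    ∃ Q : σ → Polynomial ℂ, (∀ i, (Q i).eval 1 = z i) ∧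
      (∀ j, MvPolynomial.aeval Q (G j) = 0) ∧ (∀ s, ∃ i, (Q i).eval s ≠ 0) ∧
      ∃ i j, Q i * Polynomial.C (z j) ≠ Q j * Polynomial.C (z i) := by
  classical
  -- common denominator
  choose n P' hP' using fun i => LaurentPolynomial.exists_T_pow (Z i)
  obtain ⟨N, hN⟩ : ∃ N : ℕ, ∀ i, n i ≤ N := ⟨∑ i, n i, fun i =>
    Finset.single_le_sum (fun _ _ => Nat.zero_le _) (Finset.mem_univ i)⟩
  obtain ⟨P, hPdef⟩ : ∃ P : σ → Polynomial ℂ, P = fun i => P' i * Polynomial.X ^ (N - n i) :=
    ⟨_, rfl⟩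
  have hP : ∀ i, Polynomial.toLaurent (P i) = LaurentPolynomial.T (N : ℤ) * Z i := by
    intro i
    rw [hPdef]
    simp only
    rw [map_mul, hP', Polynomial.toLaurent_X_pow, mul_assoc, ← LaurentPolynomial.T_add, mul_comm]
    congr 2
    have := hN i
    push_cast [Nat.cast_sub this]
    ring
  have hP1 : ∀ i, (P i).eval 1 = z i := by
    intro i
    have h1 := congrArg (LaurentPolynomial.eval₂ (RingHom.id ℂ) 1) (hP i)
    rw [LaurentPolynomial.eval₂_toLaurent, map_mul, LaurentPolynomial.eval₂_T, hz, one_zpow,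
      Units.val_one, one_mul, Polynomial.eval₂_id] at h1
    exact h1
  have hPG : ∀ j, MvPolynomial.aeval P (G j) = 0 := by
    intro j
    obtain ⟨e, he⟩ := hG j
    apply Polynomial.toLaurent_injective
    rw [map_zero, ← hom_aeval (Polynomial.toLaurent (R := ℂ)) P (G j)]
    simp_rw [hP]
    rw [aeval_homog (G j) he, hZ j, mul_zero]
  -- the greatest common divisor
  obtain ⟨D, hD⟩ := (IsPrincipalIdealRing.principal (Ideal.span (Set.range P))).principal
  have hDP : ∀ i, D ∣ P i := by
    intro i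
    have h1 : P i ∈ Ideal.span (Set.range P) := Ideal.subset_span ⟨i, rfl⟩
    rw [hD] at h1
    exact Ideal.mem_span_singleton.1 h1
  have hDs : ∃ a : σ → Polynomial ℂ, ∑ i, a i * P i = D := by
    have h1 : D ∈ Ideal.span (Set.range P) := by
      rw [hD]
      exact Ideal.mem_span_singleton_self D
    exact Ideal.mem_span_range_iff_exists_fun.1 h1
  obtain ⟨a, ha⟩ := hDs
  obtain ⟨i0, hi0⟩ := hz0
  have hD1 : D.eval 1 ≠ 0 := by
    intro h
    obtain ⟨q, hq⟩ := hDP i0
    apply hi0
    rw [← hP1, hq, Polynomial.eval_mul, h, zero_mul]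
  have hD0 : D ≠ 0 := fun h => hD1 (by rw [h, Polynomial.eval_zero])
  choose Q' hQ' using hDP
  have hQ'G : ∀ j, MvPolynomial.aeval Q' (G j) = 0 := by
    intro j
    obtain ⟨e, he⟩ := hG j
    have h1 : P = fun i => D * Q' i := funext hQ'
    have h2 := hPG j
    rw [h1, aeval_homog (G j) he] at h2
    exact (mul_eq_zero.1 h2).resolve_left (pow_ne_zero _ hD0)
  have hQ's : ∑ i, a i * Q' i = 1 := by
    have h1 : D * ∑ i, a i * Q' i = D * 1 := by
      rw [mul_one, Finset.mul_sum]
      refine Eq.trans ?_ ha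
      refine Finset.sum_congr rfl fun i _ => ?_
      rw [hQ' i]
      ring
    exact mul_left_cancel₀ hD0 h1
  refine ⟨fun i => Polynomial.C (D.eval 1) * Q' i, ?_, ?_, ?_, ?_⟩
  · intro i
    rw [Polynomial.eval_mul, Polynomial.eval_C, ← hP1, hQ' i, Polynomial.eval_mul]
  · intro j
    obtain ⟨e, he⟩ := hG j
    rw [aeval_homog (G j) he, hQ'G, mul_zero]
  · intro s
    by_contra hcon
    push Not at hcon
    have h1 := congrArg (Polynomial.eval s) hQ's
    rw [Polynomial.eval_finsetSum, Polynomial.eval_one] at h1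
    have h2 : ∑ i, (a i * Q' i).eval s = 0 := by
      refine Finset.sum_eq_zero fun i _ => ?_
      have h3 := hcon i
      rw [Polynomial.eval_mul, Polynomial.eval_C] at h3
      rw [Polynomial.eval_mul, (mul_eq_zero.1 h3).resolve_left hD1, mul_zero]
    rw [h2] at h1
    exact zero_ne_one h1
  · obtain ⟨i, j, hij⟩ := hnc
    refine ⟨i, j, fun h => hij ?_⟩
    have h1 : P i * Polynomial.C (z j) = P j * Polynomial.C (z i) := by
      have h2 : Polynomial.C (D.eval 1) * (P i * Polynomial.C (z j)) =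
          Polynomial.C (D.eval 1) * (P j * Polynomial.C (z i)) := by
        rw [hQ' i, hQ' j]
        linear_combination D * h
      exact mul_left_cancel₀ (Polynomial.C_ne_zero.2 hD1) h2
    have h2 := congrArg Polynomial.toLaurent h1
    rw [map_mul, map_mul, hP, hP, Polynomial.toLaurent_C, Polynomial.toLaurent_C] at h2
    have h3 : (LaurentPolynomial.T (-(N : ℤ)) : LaurentPolynomial ℂ) *
        LaurentPolynomial.T (N : ℤ) = 1 := by
      rw [← LaurentPolynomial.T_add, neg_add_cancel, LaurentPolynomial.T_zero]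
    have h4 := congrArg (fun w => LaurentPolynomial.T (-(N : ℤ)) * w) h2
    calc Z i * LaurentPolynomial.C (z j) = (LaurentPolynomial.T (-(N : ℤ)) *
          LaurentPolynomial.T (N : ℤ)) * (Z i * LaurentPolynomial.C (z j)) := by rw [h3, one_mul]
      _ = LaurentPolynomial.T (-(N : ℤ)) * (LaurentPolynomial.T (N : ℤ) * Z i *
          LaurentPolynomial.C (z j)) := by ring
      _ = LaurentPolynomial.T (-(N : ℤ)) * (LaurentPolynomial.T (N : ℤ) * Z j *
          LaurentPolynomial.C (z i)) := h4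
      _ = (LaurentPolynomial.T (-(N : ℤ)) *
          LaurentPolynomial.T (N : ℤ)) * (Z j * LaurentPolynomial.C (z i)) := by ring
      _ = Z j * LaurentPolynomial.C (z i) := by rw [h3, one_mul]

end Pool.Agent.Run7.h28.BV
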