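import Mathlib
import Pool.Agent.Run7.h28.BV.Seq
import Pool.Agent.Run7.h28.BV.Curve

/-!
# Project BV (helper28): generic points with germs of sums of units as coordinates
-/

set_option autoImplicit false
set_option linter.unusedSectionVars false

open Filter Topology

namespace Pool.Agent.Run7.h28.BV

open NumberField IsDedekindDomain Height Module
open Pool.Agent.W180.OP (Pl av wt nrm le_nrm nrm_pos wt_nonneg exists_nrm nrm_nonneg)
open Pool.Agent.N750
open Pool.Agent.Run7.h28.HK

/-! ### Embeddings in the complex numbers -/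

open Cardinal in
/-- fields of characteristic zero which are not too large embed in the complex numbers -/
theorem emb (κ : Type) [Field κ] [CharZero κ] (h : #κ ≤ 𝔠) : Nonempty (κ →+* ℂ) := by
  let R := MvPolynomial ℝ κ
  let K := FractionRing R
  let M := AlgebraicClosure K
  have hR : #R = 𝔠 := by
    rw [MvPolynomial.cardinalMk_eq_max, Cardinal.mk_real]
    have h2 : (ℵ₀ : Cardinal.{0}) ≤ 𝔠 := Cardinal.aleph0_le_continuum
    rw [max_eq_right h, max_eq_left h2]
  have hK : #K = 𝔠 := by
    rw [← hR]
    exact IsFractionRing.cardinalMk R K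
  have hM : #M = 𝔠 := by
    apply le_antisymm
    · have h1 := Algebra.IsAlgebraic.cardinalMk_le_max K M
      rw [hK, max_eq_left Cardinal.aleph0_le_continuum] at h1
      exact h1
    · rw [← hK]
      exact Cardinal.mk_le_of_injective (algebraMap K M).injective
  have hch : CharZero M := by
    have h1 : CharZero R := by infer_instance
    have h2 : CharZero K := IsFractionRing.charZero R
    infer_instance
  have h3 : Nonempty (M ≃ ℂ) := by
    rw [← Cardinal.eq, hM, Cardinal.mk_complex]
  obtain ⟨e⟩ := IsAlgClosed.ringEquiv_of_equiv_of_charZero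
    (by rw [hM]; exact Cardinal.aleph0_lt_continuum) h3
  exact ⟨e.toRingHom.comp ((algebraMap K M).comp ((algebraMap R K).comp MvPolynomial.C))⟩

open Cardinal in
/-- the field of germs embeds in the complex numbers -/
theorem emb_gm (L : Type) [Field L] [NumberField L] (𝓕 : Ultrafilter ℕ) :
    Nonempty (Gm 𝓕 L →+* ℂ) := by
  have hc : Countable L := by
    have h1 : Countable (Fin (finrank ℚ L) → ℚ) := inferInstance
    exact (Module.finBasis ℚ L).equivFun.toEquiv.injective.countable
  have h0 : CharZero (Gm 𝓕 L) := by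
    have h1 : CharZero L := inferInstance
    exact charZero_of_injective_algebraMap (algebraMap L (Gm 𝓕 L)).injective
  refine emb (Gm 𝓕 L) ?_
  have h2 : #(Gm 𝓕 L) ≤ #(ℕ → L) := Cardinal.mk_le_of_surjective (f := mk 𝓕) mk_surj
  refine h2.trans ?_
  have h3 : #(ℕ → L) = #L ^ #ℕ := by rw [Cardinal.power_def]
  rw [h3, Cardinal.mk_nat]
  calc #L ^ ℵ₀ ≤ ℵ₀ ^ ℵ₀ := Cardinal.power_le_power_right Cardinal.mk_le_aleph0
    _ = 𝔠 := Cardinal.aleph0_power_aleph0

/-! ### Enumeration -/

/-- countably many elements of a multiplicative set divide almost all terms of a sequence -/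
theorem exists_seq {R : Type} [CommRing R] [Countable R] (N : R → Prop) (h1 : N 1)
    (hmul : ∀ f g, N f → N g → N (f * g)) :
    ∃ f : ℕ → R, (∀ t, N (f t)) ∧ ∀ g, N g → ∃ t0, ∀ t ≥ t0, g ∣ f t := by
  classical
  obtain ⟨e, he⟩ := exists_surjective_nat R
  refine ⟨fun t => ∏ k ∈ Finset.range t, if N (e k) then e k else 1, fun t => ?_,
    fun g hg => ?_⟩
  · refine Finset.prod_induction _ N hmul h1 fun k _ => ?_
    split_ifs with h
    · exact h
    · exact h1
  · obtain ⟨k, rfl⟩ := he g
    refine ⟨k + 1, fun t ht => ?_⟩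
    have h2 := Finset.dvd_prod_of_mem (fun k => if N (e k) then e k else 1)
      (Finset.mem_range.2 (Nat.lt_of_succ_le ht))
    simpa only [if_pos hg] using h2

/-! ### Lifting over the slow field -/

/-- sums of units satisfying homogeneous equations lie on curves, ratios -/
theorem liftF {G : Type} [Field G] {F : Subfield G} {P : G → Prop} (hP : PS F P) {σ ι : Type}
    [Fintype σ] [Finite ι] (x : σ → G) (hx : ∀ i, Sp F P (x i)) (E : ι → MvPolynomial σ F)
    (hE : ∀ j, ∃ e, (E j).IsHomogeneous e) (h0 : ∀ j, MvPolynomial.aeval x (E j) = 0) :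
    ∃ X : σ → Polynomial G, (∀ i, (X i).eval 1 = x i) ∧
      (∀ i j, x j ≠ 0 → x i / x j ∉ F →
        ∃ k, (X i).coeff k * x j - (X j).coeff k * x i ≠ 0) ∧
      ∀ j, MvPolynomial.aeval X (E j) = 0 := by
  classical
  cases nonempty_fintype ι
  choose e he using hE
  obtain ⟨d, hd1, hd⟩ : ∃ d, 1 ≤ d ∧ ∀ j, e j ≤ d := ⟨1 + ∑ j, e j, by omega, fun j => by
    have := Finset.single_le_sum (f := e) (fun _ _ => Nat.zero_le _) (Finset.mem_univ j)
    omega⟩
  obtain ⟨l, X, hX1, hX2, hX3⟩ := liftsP hP x hx d hd1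
  refine ⟨X, hX1, hX2, fun j => ?_⟩
  have hdeg : ∀ s ∈ (E j).support, ∑ i, s i = e j := by
    intro s hs
    have h1 := he j (MvPolynomial.mem_support_iff.1 hs)
    rw [Finsupp.weight_apply, Finsupp.sum_fintype _ _ (by simp)] at h1
    simpa using h1
  have h1 := hX3 (E j).support (fun s => (((E j).coeff s : F) : G)) (fun s _ => ((E j).coeff s).2)
    (fun s hs => by rw [hdeg s hs]; exact hd j) (by
      have h2 := h0 j
      rw [MvPolynomial.aeval_def, MvPolynomial.eval₂_eq'] at h2
      exact h2)
  have h2 : (MvPolynomial.aeval X (E j)) * Polynomial.X ^ (l * (d - e j)) = 0 := by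
    rw [← h1, MvPolynomial.aeval_def, MvPolynomial.eval₂_eq', Finset.sum_mul]
    refine Finset.sum_congr rfl fun s hs => ?_
    rw [hdeg s hs]
    rfl
  exact (mul_eq_zero.1 h2).resolve_right (pow_ne_zero _ Polynomial.X_ne_zero)

/-- sums of units satisfying equations lie on Laurent curves -/
theorem liftFL {G : Type} [Field G] {F : Subfield G} {P : G → Prop} (hP : PS F P) {σ ι : Type}
    [Fintype σ] [Finite ι] (x : σ → G) (hx : ∀ i, Sp F P (x i)) (E : ι → MvPolynomial σ F)
    (h0 : ∀ j, MvPolynomial.aeval x (E j) = 0) :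
    ∃ X : σ → LaurentPolynomial G, (∀ i, LaurentPolynomial.eval₂ (RingHom.id G) 1 (X i) = x i) ∧
      (∀ i, x i ∉ F → ¬ ∃ c, X i = LaurentPolynomial.C c) ∧
      ∀ j, MvPolynomial.aeval X (E j) = 0 := by
  classical
  cases nonempty_fintype ι
  obtain ⟨d, hd1, hd⟩ : ∃ d, 1 ≤ d ∧ ∀ j, (E j).totalDegree ≤ d :=
    ⟨1 + ∑ j, (E j).totalDegree, by omega, fun j => by
      have := Finset.single_le_sum (f := fun j => (E j).totalDegree) (fun _ _ => Nat.zero_le _)
        (Finset.mem_univ j)
      omega⟩
  obtain ⟨l, X, hX1, hX2, hX3⟩ := lifts hP x hx d hd1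
  refine ⟨fun i => Polynomial.toLaurent (X i) * LaurentPolynomial.T (-(l : ℤ)), fun i => ?_,
    fun i hi => ?_, fun j => ?_⟩
  · rw [map_mul, LaurentPolynomial.eval₂_toLaurent, LaurentPolynomial.eval₂_T, one_zpow,
      Units.val_one, mul_one, Polynomial.eval₂_id, hX1]
  · rintro ⟨c, hc⟩
    obtain ⟨k, hk1, hk2⟩ := hX2 i hi
    apply hk2
    have h1 : Polynomial.toLaurent (X i) =
        Polynomial.toLaurent (Polynomial.C c * Polynomial.X ^ l) := by
      rw [Polynomial.toLaurent_C_mul_X_pow, ← hc, mul_assoc, ← LaurentPolynomial.T_add]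
      simp
    have h2 := congrArg (fun p => Polynomial.coeff p k) (Polynomial.toLaurent_injective h1)
    rw [Polynomial.coeff_C_mul_X_pow, if_neg hk1] at h2
    exact h2
  · have hdeg : ∀ s ∈ (E j).support, ∑ i, s i ≤ d := by
      intro s hs
      have h1 := MvPolynomial.le_totalDegree hs
      rw [Finsupp.sum_fintype _ _ (by simp)] at h1
      exact h1.trans (hd j)
    have h1 := hX3 (E j).support (fun s => (((E j).coeff s : F) : G)) (fun s _ => ((E j).coeff s).2)
      hdeg (by
        have h2 := h0 j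
        rw [MvPolynomial.aeval_def, MvPolynomial.eval₂_eq'] at h2
        exact h2)
    have hT : ∀ a : ℤ, (LaurentPolynomial.T (-a) : LaurentPolynomial G) *
        LaurentPolynomial.T a = 1 := fun a => by
      rw [← LaurentPolynomial.T_add, neg_add_cancel, LaurentPolynomial.T_zero]
    have h2 : (MvPolynomial.aeval (fun i => Polynomial.toLaurent (X i) *
        LaurentPolynomial.T (-(l : ℤ))) (E j)) * LaurentPolynomial.T ((l * d : ℕ) : ℤ) = 0 := by
      have h3 := congrArg Polynomial.toLaurent h1
      rw [map_zero, map_sum] at h3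
      rw [← h3, MvPolynomial.aeval_def, MvPolynomial.eval₂_eq', Finset.sum_mul]
      refine Finset.sum_congr rfl fun s hs => ?_
      rw [map_mul, map_mul, map_prod, Polynomial.toLaurent_X_pow, Polynomial.toLaurent_C]
      have h4 : ∏ i, (Polynomial.toLaurent (X i) * LaurentPolynomial.T (-(l : ℤ))) ^ s i =
          (∏ i, Polynomial.toLaurent (X i ^ s i)) *
            LaurentPolynomial.T (-((l * ∑ i, s i : ℕ) : ℤ)) := by
        have h9 : ∀ B : Finset σ, ∏ i ∈ B, (Polynomial.toLaurent (X i) *
            LaurentPolynomial.T (-(l : ℤ))) ^ s i =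
            (∏ i ∈ B, Polynomial.toLaurent (X i ^ s i)) *
              LaurentPolynomial.T (-((l * ∑ i ∈ B, s i : ℕ) : ℤ)) := by
          intro B
          induction B using Finset.induction_on with
          | empty => simp
          | insert i B hi ih =>
            rw [Finset.prod_insert hi, Finset.prod_insert hi, Finset.sum_insert hi, ih,
              mul_pow, LaurentPolynomial.T_pow, map_pow]
            have h10 : (-((l * (s i + ∑ i ∈ B, s i) : ℕ) : ℤ)) =
                ((s i : ℕ) : ℤ) * (-(l : ℤ)) + (-((l * ∑ i ∈ B, s i : ℕ) : ℤ)) := by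
              push_cast
              ring
            rw [h10, LaurentPolynomial.T_add]
            ring
        exact h9 Finset.univ
      have h5 : ((l * d : ℕ) : ℤ) =
          ((l * ∑ i, s i : ℕ) : ℤ) + ((l * (d - ∑ i, s i) : ℕ) : ℤ) := by
        rw [← Nat.cast_add, ← mul_add, Nat.add_sub_cancel' (hdeg s hs)]
      rw [h4, h5, LaurentPolynomial.T_add]
      have h6 : (algebraMap F (LaurentPolynomial G)) ((E j).coeff s) =
          LaurentPolynomial.C (((E j).coeff s : F) : G) := rfl
      rw [h6]
      linear_combination (LaurentPolynomial.C (((E j).coeff s : F) : G) *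
        (∏ i, Polynomial.toLaurent (X i ^ s i)) *
          LaurentPolynomial.T ((l * (d - ∑ i, s i) : ℕ) : ℤ)) * hT ((l * ∑ i, s i : ℕ) : ℤ)
    have h3 := congrArg (fun w => w * LaurentPolynomial.T (-((l * d : ℕ) : ℤ))) h2
    simp only [zero_mul] at h3
    rwa [mul_assoc, mul_comm (LaurentPolynomial.T ((l * d : ℕ) : ℤ)), hT, mul_one] at h3

end Pool.Agent.Run7.h28.BV
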