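import Mathlib
import Pool.Agent.Run7.h28.BV.Gen
import Pool.Agent.Run7.h28.BV.SpN
import Pool.Agent.Run7.h28.BV.CurN

/-!
# Project BV (helper28): points which are sums of units lie on curves with few terms
-/

set_option autoImplicit false
set_option linter.unusedSectionVars false

open Filter Topology

namespace Pool.Agent.Run7.h28.BV

open NumberField IsDedekindDomain Height Module
open Pool.Agent.Run7.h28.HK

/-- the properties of curves through a point whose coordinates are sums of units -/
theorem lifts_core {G : Type} [Field G] {F : Subfield G} {P : G → Prop} (hP : PS F P) {σ : Type}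
    [Fintype σ] {r : ℕ} (U : Fin (r + 1) → G) (l : Fin (r + 1) → ℕ) (d : ℕ) (hd : 1 ≤ d)
    (hset : Setup F P U l d) (hU0 : U 0 = 1) (X : σ → Polynomial G)
    (hX : ∀ i, Lift F U l 1 (X i)) (x : σ → G) (hX1 : ∀ i, (X i).eval 1 = x i) :
    (∀ i, x i ∉ F → ∃ k, k ≠ l 0 ∧ (X i).coeff k ≠ 0) ∧
    (∀ i j, x j ≠ 0 → x i / x j ∉ F →
        ∃ k, (X i).coeff k * x j - (X j).coeff k * x i ≠ 0) ∧
      ∀ (A : Finset (σ →₀ ℕ)) (a : (σ →₀ ℕ) → G), (∀ m ∈ A, a m ∈ F) →
        (∀ m ∈ A, ∑ i, m i ≤ d) → ∑ m ∈ A, a m * ∏ i, x i ^ m i = 0 →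
        ∑ m ∈ A, Polynomial.C (a m) * (∏ i, X i ^ m i) * Polynomial.X ^ (l 0 * (d - ∑ i, m i)) =
          0 := by
  classical
  have hEL : Lift F U l 1 (Polynomial.X ^ (l 0)) := by
    have h := Lift.gen (F := F) (U := U) (l := l) 0
    rw [hU0, Polynomial.C_1, one_mul] at h
    exact h
  refine ⟨?_, ?_, ?_⟩
  · intro i hi
    by_contra hcon
    push Not at hcon
    apply hi
    have h1 : (Polynomial.X ^ (l 0) : Polynomial G).coeff (l 0) = 1 := by
      rw [Polynomial.coeff_X_pow_self]
    have h2 := Lift.coeff_div hP hset hd (hX i) hEL (l 0) (by rw [h1]; exact one_ne_zero)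
    rw [h1, div_one] at h2
    have h3 : x i = (X i).coeff (l 0) := by
      rw [← hX1 i, Polynomial.eval_eq_sum_range' (n := max (X i).natDegree (l 0) + 1)
        (by omega)]
      rw [Finset.sum_eq_single (l 0)]
      · simp
      · intro k _ hk
        rw [hcon k hk, zero_mul]
      · intro h
        exfalso
        apply h
        rw [Finset.mem_range]
        omega
    rw [h3]
    exact h2
  · intro i j hj hij
    by_contra hcon
    push Not at hcon
    apply hij
    have hXj : X j ≠ 0 := fun h => hj (by rw [← hX1 j, h, Polynomial.eval_zero])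
    obtain ⟨k, hk⟩ : ∃ k, (X j).coeff k ≠ 0 := by
      by_contra h
      push Not at h
      exact hXj (Polynomial.ext fun k => by rw [h k, Polynomial.coeff_zero])
    have h2 := Lift.coeff_div hP hset hd (hX i) (hX j) k hk
    have h3 : x i / x j = (X i).coeff k / (X j).coeff k := by
      rw [div_eq_div_iff hj hk]
      linear_combination -hcon k
    rw [h3]
    exact h2
  · intro A a ha hAd h0
    have hL : Lift F U l d (∑ m ∈ A, Polynomial.C (a m) * (∏ i, X i ^ m i) *
        Polynomial.X ^ (l 0 * (d - ∑ i, m i))) := by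
      refine Lift.sum _ _ _ fun m hm => ?_
      have h1 : ∀ B : Finset σ, Lift F U l (∑ i ∈ B, m i) (∏ i ∈ B, X i ^ m i) := by
        intro B
        induction B using Finset.induction_on with
        | empty =>
          rw [Finset.sum_empty, Finset.prod_empty]
          exact Lift.one
        | insert i B hi ih =>
          rw [Finset.sum_insert hi, Finset.prod_insert hi]
          have h2 := (hX i).pow (m i)
          rw [one_mul] at h2
          exact h2.mul ih
      have h2 := (h1 Finset.univ).mul (hEL.pow (d - ∑ i, m i))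
      rw [one_mul, Nat.add_sub_cancel' (hAd m hm), ← pow_mul] at h2
      rw [mul_assoc]
      exact h2.smul (ha m hm)
    refine hL.eq_zero hP hset le_rfl ?_
    rw [Polynomial.eval_finsetSum, ← h0]
    refine Finset.sum_congr rfl fun m _ => ?_
    rw [Polynomial.eval_mul, Polynomial.eval_mul, Polynomial.eval_C, Polynomial.eval_prod,
      Polynomial.eval_pow, Polynomial.eval_X, one_pow, mul_one]
    congr 1
    refine Finset.prod_congr rfl fun i _ => ?_
    rw [Polynomial.eval_pow, hX1]

/-- the curve through a point whose coordinates are sums of `N` units, as a vector of polynomials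
with few terms -/
theorem exists_cur {G : Type} [Field G] {F : Subfield G} {P : G → Prop} (hP : PS F P) {σ : Type}
    [Fintype σ] (N : ℕ) (x : σ → G) (hx : ∀ i, SpN F P N (x i)) (d : ℕ) :
    ∃ (r : ℕ) (U : Fin (r + 1) → G) (l : Fin (r + 1) → ℕ) (c : σ × Fin N → σ → G)
      (e : σ × Fin N → Fin (r + 1)), Setup F P U l d ∧ U 0 = 1 ∧
      (∀ i, Lift F U l 1 (CN.cur c (fun j => l (e j)) i)) ∧ ∀ i, ∑ j, c j i = x i := by
  classical
  choose u c hu hs using hx
  let J : Type := σ × Fin N
  let ε : J ≃ Fin (Fintype.card J) := Fintype.equivFin J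
  obtain ⟨U, hU⟩ : ∃ U : Fin (Fintype.card J + 1) → G,
      U = Fin.cons 1 (fun j => u (ε.symm j).1 (ε.symm j).2) := ⟨_, rfl⟩
  have hUP : ∀ j, P (U j) := by
    intro j
    rw [hU]
    refine Fin.cases ?_ (fun j => ?_) j
    · simpa using hP.one
    · rw [Fin.cons_succ]
      exact hu _ _
  obtain ⟨l, hl⟩ := fw hP.rt (Fintype.card J) U (fun j => hP.ne (hUP j)) d
  have hUe : ∀ j : J, U (ε j).succ = u j.1 j.2 := fun j => by
    rw [hU, Fin.cons_succ, Equiv.symm_apply_apply]
  refine ⟨Fintype.card J, U, l, fun j i => if i = j.1 then (c j.1 j.2 : G) * u j.1 j.2 else 0,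
    fun j => (ε j).succ, ⟨hUP, hl⟩, by rw [hU]; rfl, fun i => ?_, fun i => ?_⟩
  · unfold CN.cur
    refine Lift.sum _ _ _ fun j _ => ?_
    simp only
    by_cases h : i = j.1
    · rw [if_pos h, ← hUe j, Polynomial.C_mul, mul_assoc]
      exact (Lift.gen _).smul (c j.1 j.2).2
    · rw [if_neg h, Polynomial.C_0, zero_mul]
      exact Lift.zero _
  · rw [hs i, Fintype.sum_prod_type, Finset.sum_eq_single i]
    · exact Finset.sum_congr rfl fun j _ => if_pos rfl
    · intro i' _ hi'
      exact Finset.sum_eq_zero fun j _ => if_neg (Ne.symm hi')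
    · intro h
      exact absurd (Finset.mem_univ i) h

/-- **Sums of units satisfying homogeneous equations lie on curves with few terms.** -/
theorem liftN {G : Type} [Field G] {F : Subfield G} {P : G → Prop} (hP : PS F P) {σ ι : Type}
    [Fintype σ] [Finite ι] (N : ℕ) (x : σ → G) (hx : ∀ i, SpN F P N (x i))
    (E : ι → MvPolynomial σ F) (hE : ∀ j, ∃ e, (E j).IsHomogeneous e)
    (h0 : ∀ j, MvPolynomial.aeval x (E j) = 0) :
    ∃ (c : σ × Fin N → σ → G) (l : σ × Fin N → ℕ), (∀ i, ∑ j, c j i = x i) ∧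
      (∀ i j, x j ≠ 0 → x i / x j ∉ F →
        CN.cur c l i * Polynomial.C (x j) ≠ CN.cur c l j * Polynomial.C (x i)) ∧
      ∀ j, MvPolynomial.aeval (CN.cur c l) (E j) = 0 := by
  classical
  cases nonempty_fintype ι
  choose e he using hE
  obtain ⟨d, hd1, hd⟩ : ∃ d, 1 ≤ d ∧ ∀ j, e j ≤ d := ⟨1 + ∑ j, e j, by omega, fun j => by
    have := Finset.single_le_sum (f := e) (fun _ _ => Nat.zero_le _) (Finset.mem_univ j)
    omega⟩
  obtain ⟨r, U, l, c, ε, hset, hU0, hL, hc⟩ := exists_cur hP N x hx d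
  obtain ⟨-, hX2, hX3⟩ := lifts_core hP U l d hd1 hset hU0
    (CN.cur c (fun j => l (ε j))) hL x (fun i => by rw [CN.cur_eval_one, hc])
  refine ⟨c, fun j => l (ε j), hc, fun i j hj hij h => ?_, fun j => ?_⟩
  · obtain ⟨k, hk⟩ := hX2 i j hj hij
    apply hk
    have h1 := congrArg (fun p => Polynomial.coeff p k) h
    rw [Polynomial.coeff_mul_C, Polynomial.coeff_mul_C] at h1
    rw [h1, sub_self]
  have hdeg : ∀ s ∈ (E j).support, ∑ i, s i = e j := by
    intro s hs
    have h1 := he j (MvPolynomial.mem_support_iff.1 hs)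
    rw [Finsupp.weight_apply, Finsupp.sum_fintype _ _ (by simp)] at h1
    simpa using h1
  have h1 := hX3 (E j).support (fun s => (((E j).coeff s : F) : G)) (fun s _ => ((E j).coeff s).2)
    (fun s hs => by rw [hdeg s hs]; exact hd j) (by
      have h2 := h0 j
      rw [MvPolynomial.aeval_def, MvPolynomial.eval₂_eq'] at h2
      exact h2)
  have h2 : (MvPolynomial.aeval (CN.cur c (fun j => l (ε j))) (E j)) *
      Polynomial.X ^ (l 0 * (d - e j)) = 0 := by
    rw [← h1, MvPolynomial.aeval_def, MvPolynomial.eval₂_eq', Finset.sum_mul]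
    refine Finset.sum_congr rfl fun s hs => ?_
    rw [hdeg s hs]
    rfl
  exact (mul_eq_zero.1 h2).resolve_right (pow_ne_zero _ Polynomial.X_ne_zero)

/-- the Laurent curve `T ↦ ∑ c j T ^ (l j)` -/
noncomputable def curZ {σ R κ : Type} [CommRing R] [Fintype κ] (c : κ → σ → R) (l : κ → ℤ)
    (i : σ) : LaurentPolynomial R := ∑ j, LaurentPolynomial.C (c j i) * LaurentPolynomial.T (l j)

lemma curZ_eval {σ R κ : Type} [CommRing R] [Fintype κ] (c : κ → σ → R) (l : κ → ℤ) (i : σ) :
    LaurentPolynomial.eval₂ (RingHom.id R) 1 (curZ c l i) = ∑ j, c j i := by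
  unfold curZ
  rw [map_sum]
  refine Finset.sum_congr rfl fun j _ => ?_
  rw [LaurentPolynomial.eval₂_C_mul_T]
  simp

/-- **Sums of units satisfying equations lie on Laurent curves with few terms.** -/
theorem liftNL {G : Type} [Field G] {F : Subfield G} {P : G → Prop} (hP : PS F P) {σ ι : Type}
    [Fintype σ] [Finite ι] (N : ℕ) (x : σ → G) (hx : ∀ i, SpN F P N (x i))
    (E : ι → MvPolynomial σ F) (h0 : ∀ j, MvPolynomial.aeval x (E j) = 0) :
    ∃ (c : σ × Fin N → σ → G) (l : σ × Fin N → ℤ), (∀ i, ∑ j, c j i = x i) ∧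
      (∀ i, x i ∉ F → ¬ ∃ a, curZ c l i = LaurentPolynomial.C a) ∧
      ∀ j, MvPolynomial.aeval (curZ c l) (E j) = 0 := by
  classical
  cases nonempty_fintype ι
  obtain ⟨d, hd1, hd⟩ : ∃ d, 1 ≤ d ∧ ∀ j, (E j).totalDegree ≤ d :=
    ⟨1 + ∑ j, (E j).totalDegree, by omega, fun j => by
      have := Finset.single_le_sum (f := fun j => (E j).totalDegree) (fun _ _ => Nat.zero_le _)
        (Finset.mem_univ j)
      omega⟩
  obtain ⟨r, U, l, c, ε, hset, hU0, hL, hc⟩ := exists_cur hP N x hx d
  obtain ⟨X, hX⟩ : ∃ X : σ → Polynomial G, X = CN.cur c (fun j => l (ε j)) := ⟨_, rfl⟩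
  obtain ⟨hX2, -, hX3⟩ := lifts_core hP U l d hd1 hset hU0 X (by rw [hX]; exact hL) x
    (fun i => by rw [hX, CN.cur_eval_one, hc])
  have hZ : ∀ i, curZ c (fun j => (l (ε j) : ℤ) - l 0) i =
      Polynomial.toLaurent (X i) * LaurentPolynomial.T (-(l 0 : ℤ)) := by
    intro i
    rw [hX]
    unfold curZ CN.cur
    rw [map_sum, Finset.sum_mul]
    refine Finset.sum_congr rfl fun j _ => ?_
    rw [Polynomial.toLaurent_C_mul_X_pow, mul_assoc, ← LaurentPolynomial.T_add]
    rfl
  refine ⟨c, fun j => (l (ε j) : ℤ) - l 0, hc, fun i hi => ?_, fun j => ?_⟩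
  · rintro ⟨a, ha⟩
    obtain ⟨k, hk1, hk2⟩ := hX2 i hi
    apply hk2
    rw [hZ] at ha
    have h1 : Polynomial.toLaurent (X i) =
        Polynomial.toLaurent (Polynomial.C a * Polynomial.X ^ (l 0)) := by
      rw [Polynomial.toLaurent_C_mul_X_pow, ← ha, mul_assoc, ← LaurentPolynomial.T_add]
      simp
    have h2 := congrArg (fun p => Polynomial.coeff p k) (Polynomial.toLaurent_injective h1)
    rw [Polynomial.coeff_C_mul_X_pow, if_neg hk1] at h2
    exact h2
  · have hdeg : ∀ s ∈ (E j).support, ∑ i, s i ≤ d := by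
      intro s hs
      have h1 := MvPolynomial.le_totalDegree hs
      rw [Finsupp.sum_fintype _ _ (by simp)] at h1
      exact h1.trans (hd j)
    have h1 := hX3 (E j).support (fun s => (((E j).coeff s : F) : G)) (fun s _ => ((E j).coeff s).2)
      hdeg (by
        have h2 := h0 j
        rw [MvPolynomial.aeval_def, MvPolynomial.eval₂_eq'] at h2
        exact h2)
    have hT : ∀ a : ℤ, (LaurentPolynomial.T (-a) : LaurentPolynomial G) *
        LaurentPolynomial.T a = 1 := fun a => by
      rw [← LaurentPolynomial.T_add, neg_add_cancel, LaurentPolynomial.T_zero]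
    have h2 : (MvPolynomial.aeval (fun i => Polynomial.toLaurent (X i) *
        LaurentPolynomial.T (-(l 0 : ℤ))) (E j)) * LaurentPolynomial.T ((l 0 * d : ℕ) : ℤ) = 0 := by
      have h3 := congrArg Polynomial.toLaurent h1
      rw [map_zero, map_sum] at h3
      rw [← h3, MvPolynomial.aeval_def, MvPolynomial.eval₂_eq', Finset.sum_mul]
      refine Finset.sum_congr rfl fun s hs => ?_
      rw [map_mul, map_mul, map_prod, Polynomial.toLaurent_X_pow, Polynomial.toLaurent_C]
      have h4 : ∏ i, (Polynomial.toLaurent (X i) * LaurentPolynomial.T (-(l 0 : ℤ))) ^ s i =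
          (∏ i, Polynomial.toLaurent (X i ^ s i)) *
            LaurentPolynomial.T (-((l 0 * ∑ i, s i : ℕ) : ℤ)) := by
        have h9 : ∀ B : Finset σ, ∏ i ∈ B, (Polynomial.toLaurent (X i) *
            LaurentPolynomial.T (-(l 0 : ℤ))) ^ s i =
            (∏ i ∈ B, Polynomial.toLaurent (X i ^ s i)) *
              LaurentPolynomial.T (-((l 0 * ∑ i ∈ B, s i : ℕ) : ℤ)) := by
          intro B
          induction B using Finset.induction_on with
          | empty => simp
          | insert i B hi ih =>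
            rw [Finset.prod_insert hi, Finset.prod_insert hi, Finset.sum_insert hi, ih,
              mul_pow, LaurentPolynomial.T_pow, map_pow]
            have h10 : (-((l 0 * (s i + ∑ i ∈ B, s i) : ℕ) : ℤ)) =
                ((s i : ℕ) : ℤ) * (-(l 0 : ℤ)) + (-((l 0 * ∑ i ∈ B, s i : ℕ) : ℤ)) := by
              push_cast
              ring
            rw [h10, LaurentPolynomial.T_add]
            ring
        exact h9 Finset.univ
      have h5 : ((l 0 * d : ℕ) : ℤ) =
          ((l 0 * ∑ i, s i : ℕ) : ℤ) + ((l 0 * (d - ∑ i, s i) : ℕ) : ℤ) := by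
        rw [← Nat.cast_add, ← mul_add, Nat.add_sub_cancel' (hdeg s hs)]
      rw [h4, h5, LaurentPolynomial.T_add]
      have h6 : (algebraMap F (LaurentPolynomial G)) ((E j).coeff s) =
          LaurentPolynomial.C (((E j).coeff s : F) : G) := rfl
      rw [h6]
      linear_combination (LaurentPolynomial.C (((E j).coeff s : F) : G) *
        (∏ i, Polynomial.toLaurent (X i ^ s i)) *
          LaurentPolynomial.T ((l 0 * (d - ∑ i, s i) : ℕ) : ℤ)) * hT ((l 0 * ∑ i, s i : ℕ) : ℤ)
    have h3 := congrArg (fun w => w * LaurentPolynomial.T (-((l 0 * d : ℕ) : ℤ))) h2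
    simp only [zero_mul] at h3
    rw [mul_assoc, mul_comm (LaurentPolynomial.T ((l 0 * d : ℕ) : ℤ)), hT, mul_one] at h3
    have h7 : curZ c (fun j => (l (ε j) : ℤ) - l 0) = fun i => Polynomial.toLaurent (X i) *
        LaurentPolynomial.T (-(l 0 : ℤ)) := funext hZ
    rw [h7]
    exact h3

end Pool.Agent.Run7.h28.BV
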