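import Mathlib
import Pool.Agent.Run7.h28.BV.USq
import Pool.Agent.Run7.h28.BV.LiftN

/-!
# Project BV (helper28): one exceptional set for all number fields, projective version
-/

set_option autoImplicit false
set_option linter.unusedSectionVars false

open Filter Topology

namespace Pool.Agent.Run7.h28.BV

open NumberField IsDedekindDomain Height Module
open Pool.Agent.W180.OP (Pl av wt nrm le_nrm nrm_pos wt_nonneg exists_nrm nrm_nonneg)
open Pool.Agent.N750
open Pool.Agent.Run7.h28.HK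

/-- the degree does not increase -/
lemma tdm {σ A R : Type} [CommRing A] [CommRing R] (f : A →+* R) (P : MvPolynomial σ A) :
    (MvPolynomial.map f P).totalDegree ≤ P.totalDegree :=
  Finset.sup_mono (MvPolynomial.support_map_subset _ _)

/-- some ratio of the coordinates is not slow -/
lemma ratio_not_slowP {K : Type} [Field K] [NumberField K] {𝓕 : Ultrafilter ℕ} {n : ℕ}
    (x : ℕ → Fin n → K) (hx0 : ∀ t, x t ≠ 0)
    (hH : Tendsto (fun t => Real.log (mulHeight (x t))) 𝓕 atTop) :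
    ∃ l0 l1, (∀ᶠ t in (𝓕 : Filter ℕ), x t l0 ≠ 0) ∧
      ¬ Slow 𝓕 (fun t => Real.log (mulHeight (x t))) (fun t => x t l1 / x t l0) := by
  obtain ⟨l0, hl0⟩ : ∃ l0, ∀ᶠ t in (𝓕 : Filter ℕ), x t l0 ≠ 0 := by
    rw [← Ultrafilter.eventually_exists_iff]
    refine Eventually.of_forall fun t => ?_
    by_contra hcon
    push Not at hcon
    exact hx0 t (funext hcon)
  by_contra hcon
  push Not at hcon
  have hall : ∀ᶠ t in (𝓕 : Filter ℕ), ∀ l, logHeight₁ (x t l / x t l0) ≤
      1 / (2 * (n + 1)) * Real.log (mulHeight (x t)) :=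
    eventually_all.2 fun l => hcon l0 l hl0 _ (by positivity)
  obtain ⟨t, h1, h2, h3⟩ := (hall.and (hl0.and (hH_le hH 1))).exists
  have h4 : logHeight (x t) ≤ ∑ l, logHeight₁ (x t l / x t l0) := by
    have h5 : logHeight (x t) = logHeight ((x t l0)⁻¹ • x t) :=
      (Height.logHeight_smul_eq_logHeight _ (inv_ne_zero h2)).symm
    rw [h5]
    refine (logHeight_le_sum _).trans (le_of_eq (Finset.sum_congr rfl fun l _ => ?_))
    rw [Pi.smul_apply, smul_eq_mul, div_eq_inv_mul]
  have h5 := h4.trans (Finset.sum_le_sum fun l _ => h1 l)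
  rw [Finset.sum_const, Finset.card_univ, Fintype.card_fin, nsmul_eq_mul] at h5
  have h6 : (n : ℝ) * (1 / (2 * (n + 1)) * Real.log (mulHeight (x t))) ≤
      1 / 2 * Real.log (mulHeight (x t)) := by
    have h7 : (n : ℝ) * (1 / (2 * (n + 1)) * Real.log (mulHeight (x t))) =
        (n / (n + 1)) * (1 / 2 * Real.log (mulHeight (x t))) := by field_simp
    rw [h7]
    refine mul_le_of_le_one_left (by linarith) ?_
    rw [div_le_one (by positivity)]
    linarith
  have h7 : logHeight (x t) = Real.log (mulHeight (x t)) := rfl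
  linarith

/-- the values of a polynomial at almost integral points are almost integral -/
lemma AI.eval {K : Type} [Field K] [NumberField K] {𝓕 : Ultrafilter ℕ} {H : ℕ → ℝ}
    (hH : Tendsto H 𝓕 atTop) {S : Finset (Pl K)} {n D : ℕ} (P : ℕ → MvPolynomial (Fin n) K)
    (hP : ∀ t, (P t).totalDegree ≤ D) (hPs : ∀ e, Slow 𝓕 H (fun t => (P t).coeff e))
    (x : ℕ → Fin n → K) (hx : ∀ l, AI 𝓕 H S (fun t => x t l)) :
    AI 𝓕 H S (fun t => MvPolynomial.eval (x t) (P t)) := by
  have h1 : AI 𝓕 H S (fun t => ∑ e ∈ expo (Fin n) D, (P t).coeff e * ∏ l, x t l ^ e l) := by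
    refine AI.sum hH _ (fun e t => (P t).coeff e * ∏ l, x t l ^ e l) fun e _ => ?_
    exact (AI.slow (hPs e)).mul (AI.prod hH Finset.univ (fun l t => x t l ^ e l)
      fun l _ => (hx l).pow hH _)
  exact h1.congr (Eventually.of_forall fun t => (eval_expo _ (hP t) _).symm)

lemma map_map_eval {A K : Type} [CommRing A] [Field K] {n : ℕ} (s : A →+* K) (x : Fin n → K)
    (F : Polynomial (MvPolynomial (Fin n) A)) :
    (F.map (MvPolynomial.map s)).map (MvPolynomial.eval x) =
      F.map (MvPolynomial.eval₂Hom s x) := by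
  rw [Polynomial.map_map]
  congr 1
  refine RingHom.ext fun Q => ?_
  rw [RingHom.comp_apply, MvPolynomial.eval_map, MvPolynomial.coe_eval₂Hom]

/-- **One exceptional set for all number fields**, projective version, in families. -/
theorem strongP {A : Type} [CommRing A] (n m g k : ℕ) (B δ : ℝ) (hδ : 0 < δ)
    (G : Fin g → MvPolynomial (Fin n ⊕ Fin m) A) (hG : ∀ j, ∃ e, (G j).IsHomogeneous e)
    (hprime : (Ideal.span (Set.range G)).IsPrime)
    (hnu : ¬ CN.UniruledA (Ideal.span (Set.range G)))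
    (F : Fin m → Polynomial (MvPolynomial (Fin n) A)) (hFm : ∀ i, (F i).Monic)
    (hFG : ∀ i, eqA (F i) i ∈ Ideal.span (Set.range G)) :
    ∃ f : MvPolynomial (Fin n ⊕ Fin m) A, (∃ e, f.IsHomogeneous e) ∧
      f ∉ Ideal.span (Set.range G) ∧
      ∀ (K : Type) [Field K] [NumberField K] (Γ : Subgroup Kˣ), Γ.FG → ∀ v : Pl K,
      ∃ C : ℝ, 0 < C ∧ ∀ (M : ℝ) (s : A →+* K) (x : Fin n → K) (y : Fin m → K), 1 ≤ M →
        (∀ j e, mulHeight₁ (s ((G j).coeff e)) ≤ M) →
        (∀ i j e, mulHeight₁ (s (((F i).coeff j).coeff e)) ≤ M) →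
        x ≠ 0 → (∀ j, MvPolynomial.eval₂ s (Sum.elim x y) (G j) = 0) →
        (∀ l, Sparse Γ k M (x l)) → (∀ l, mulHeight₁ (x l) ≤ M * mulHeight x ^ B) →
        (∀ i, Near Γ v B δ M (mulHeight x) (F i).natDegree
          ((F i).map (MvPolynomial.eval₂Hom s x))) →
        MvPolynomial.eval₂ s (Sum.elim x y) f = 0 ∨ mulHeight x ≤ (C * M) ^ C := by
  classical
  have hA : Nontrivial A := by
    by_contra h
    rw [not_nontrivial_iff_subsingleton] at h
    refine hprime.ne_top ((Ideal.eq_top_iff_one _).2 ?_)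
    have h1 : (1 : MvPolynomial (Fin n ⊕ Fin m) A) = 0 := by
      rw [← MvPolynomial.C_1, Subsingleton.elim (1 : A) 0, MvPolynomial.C_0]
    rw [h1]
    exact Ideal.zero_mem _
  have hq : ∀ i, 0 < (F i).natDegree := by
    intro i
    rcases Nat.eq_zero_or_pos (F i).natDegree with h | h
    · exfalso
      have h1 : F i = 1 := (hFm i).natDegree_eq_zero.1 h
      refine hprime.ne_top ((Ideal.eq_top_iff_one _).2 ?_)
      have h2 := hFG i
      rw [h1, eqA, Polynomial.eval₂_one] at h2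
      exact h2
    · exact h
  obtain ⟨D, hD⟩ : ∃ D : Fin m → ℕ, ∀ i j, j ≤ (F i).natDegree →
      ((F i).coeff j).totalDegree ≤ D i :=
    ⟨fun i => ∑ j ∈ Finset.range ((F i).natDegree + 1), ((F i).coeff j).totalDegree,
      fun i j hj => Finset.single_le_sum (f := fun j => ((F i).coeff j).totalDegree)
        (fun _ _ => Nat.zero_le _) (Finset.mem_range.2 (Nat.lt_succ_of_le hj))⟩
  obtain ⟨N, hN⟩ := unif_seq n m k (fun i => (F i).natDegree) D hq B δ hδ
  choose e he using hG
  obtain ⟨d, hd1, hd⟩ : ∃ d, 1 ≤ d ∧ ∀ j, e j ≤ d := ⟨1 + ∑ j, e j, by omega, fun j => by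
    have := Finset.single_le_sum (f := e) (fun _ _ => Nat.zero_le _) (Finset.mem_univ j)
    omega⟩
  obtain ⟨f, hf1, hf2, hf3⟩ := CN.exists_hyper (Set.range G) hprime hnu d hd1
    (by rintro _ ⟨j, rfl⟩; exact ⟨e j, hd j, he j⟩) ((Fin n ⊕ Fin m) × Fin N)
  refine ⟨f, hf1, hf2, fun K _ _ Γ hΓ v => ?_⟩
  by_contra hcon
  push Not at hcon
  choose M s x y hM hGM hFM hx0 hz hxs hxm hnear hfz hbig using
    fun t : ℕ => hcon (Real.exp 1 * ((t : ℝ) + 1)) (by positivity)
  obtain ⟨𝓕, hH, hneg⟩ := seq_filter M (fun t => mulHeight (x t)) hM hbig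
  obtain ⟨S, hS, hΓS, hvS⟩ := exists_S' Γ hΓ {v}
  have hv : v ∈ S := hvS (Finset.mem_singleton_self v)
  obtain ⟨H, hHdef⟩ : ∃ H : ℕ → ℝ, H = fun t => Real.log (mulHeight (x t)) := ⟨_, rfl⟩
  obtain ⟨l0, l1, hl0, hl1⟩ := ratio_not_slowP x hx0 hH
  rw [← hHdef] at hH hl1
  have hneg' : ∀ ε' : ℝ, 0 < ε' → ∀ᶠ t in (𝓕 : Filter ℕ), 1 + Real.log (M t) ≤ ε' * H t := by
    rw [hHdef]
    exact hneg
  have hexp : ∀ t, Real.exp (H t) = mulHeight (x t) := fun t => by
    rw [hHdef]
    exact Real.exp_log (mulHeight_pos _)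
  have hyz : ∀ t i, ((F i).map (MvPolynomial.eval₂Hom (s t) (x t))).eval (y t i) = 0 := by
    intro t i
    rw [← eval_eqA]
    exact eval_span (s t) G _ (hz t) (hFG i)
  have hcoef : ∀ t (i : Fin m) j, (((F i).map (MvPolynomial.map (s t))).coeff j) =
      MvPolynomial.map (s t) ((F i).coeff j) := fun t i j => Polynomial.coeff_map _ _
  have hxI : ∀ l, AI 𝓕 H S (fun t => x t l) := fun l =>
    sparse_AI hH hneg' S Γ hΓS fun t => hxs t l
  have hyI : ∀ i, AI 𝓕 H S (fun t => y t i) := by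
    intro i
    refine AI.root hH (hq i) (fun j t => MvPolynomial.eval (x t)
      (MvPolynomial.map (s t) ((F i).coeff j))) (fun j hj => ?_) (Eventually.of_forall fun t => ?_)
    · refine AI.eval hH (D := D i) _ (fun t => ?_) (fun e => ?_) x hxI
      · exact (tdm _ _).trans (hD i j hj.le)
      · simp_rw [MvPolynomial.coeff_map]
        exact slow_of_ht hneg' fun t => hFM t i j e
    · have h1 := hyz t i
      rw [Polynomial.eval_eq_sum_range, ((hFm i).natDegree_map _), Finset.sum_range_succ,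
        Polynomial.coeff_map, (hFm i).coeff_natDegree, map_one, one_mul, add_comm] at h1
      rw [← h1]
      congr 1
      refine Finset.sum_congr rfl fun j _ => ?_
      rw [Polynomial.coeff_map, MvPolynomial.eval_map, MvPolynomial.coe_eval₂Hom]
  obtain ⟨hxN, hyN⟩ := hN K 𝓕 H hH Γ S hS hΓS v hv M hM hneg'
    (fun i t => (F i).map (MvPolynomial.map (s t))) (fun i t => Polynomial.natDegree_map_le)
    (fun i t j hj => by
      rw [hcoef]
      exact (tdm _ _).trans (hD i j hj))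
    (fun i t j e => by
      rw [hcoef, MvPolynomial.coeff_map]
      exact hFM t i j e) x y hxs
    (fun t l => by rw [hexp]; exact hxm t l)
    (fun t i => by rw [hexp, map_map_eval]; exact hnear t i)
    (fun t i => by rw [map_map_eval]; exact hyz t i) hyI
  -- the germ
  obtain ⟨w, hw⟩ : ∃ w : Fin n ⊕ Fin m → Gm 𝓕 K,
      w = fun i => mk 𝓕 (fun t => Sum.elim (x t) (y t) i) := ⟨_, rfl⟩
  have hwsp : ∀ i, SpN (slowF 𝓕 K H hH) (PU 𝓕 H S) N (w i) := by
    intro i
    rw [hw]
    rcases i with l | i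
    · exact hxN l
    · exact hyN i
  have hwval : ∀ P : MvPolynomial (Fin n ⊕ Fin m) A, MvPolynomial.eval₂ (germ 𝓕 s) w P =
      mk 𝓕 (fun t => MvPolynomial.eval₂ (s t) (Sum.elim (x t) (y t)) P) := fun P => by
    rw [hw]
    exact germ_eval s (fun t => Sum.elim (x t) (y t)) P
  have hGs : ∀ j e, Slow 𝓕 H (fun t => s t ((G j).coeff e)) := fun j e =>
    slow_of_ht hneg' fun t => hGM t j e
  obtain ⟨c, l, hc1, hc2, hc3⟩ := liftN (ps hH S hS) N w hwsp
    (fun j => slowP hH s (G j) (hGs j)) (fun j => ⟨e j, slowP_hom hH s _ _ (he j)⟩) (fun j => by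
      have h1 := slowP_eval hH s (G j) (hGs j) (RingHom.id _) w
      rw [RingHom.id_comp, RingHom.id_comp, hwval, mk_eq_zero.2 (Eventually.of_forall
        fun t => hz t j)] at h1
      exact h1)
  let alg : Algebra A (Gm 𝓕 K) := (germ 𝓕 s).toAlgebra
  have hfin := hf3 (Gm 𝓕 K) c l (by
    rintro _ ⟨j, rfl⟩
    have h1 := slowP_eval hH s (G j) (hGs j) Polynomial.C (CN.cur c l)
    have h2 : MvPolynomial.aeval (CN.cur c l) (G j) =
        MvPolynomial.eval₂ (Polynomial.C.comp (germ 𝓕 s)) (CN.cur c l) (G j) := rfl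
    rw [h2, ← h1]
    exact hc3 j) ⟨Sum.inl l1, Sum.inl l0, by
      rw [hc1, hc1]
      refine hc2 _ _ ?_ ?_
      · rw [hw]
        exact mk_ne_zero.2 hl0
      · rw [hw]
        simp only [Sum.elim_inl]
        rw [mk_div]
        exact fun h => hl1 (mk_slow.1 h)⟩
  have h3 : MvPolynomial.eval₂ (germ 𝓕 s) w f = 0 := by
    have h4 : (fun i => ∑ j, c j i) = w := funext hc1
    rw [h4] at hfin
    exact hfin
  rw [hwval, mk_eq_zero] at h3
  obtain ⟨t, ht⟩ := h3.exists
  exact hfz t ht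

end Pool.Agent.Run7.h28.BV
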