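import Mathlib
import Pool.Agent.Run7.h28.BV.LiftN

/-!
# Project BV (helper28): Laurent curves with few terms in a family of affine varieties

The method is that of `Pool/Agent/H533R3/SL/Cur.lean`.
-/

set_option autoImplicit false
set_option linter.unusedSectionVars false

namespace Pool.Agent.Run7.h28.BV

open Finset

/-! ### Sums of monomials -/

lemma sum_CT_coeff {R κ : Type} [CommRing R] (S : Finset κ) (g : κ → R) (e : κ → ℤ) (w : ℤ) :
    (∑ a ∈ S, (LaurentPolynomial.C (g a) * LaurentPolynomial.T (e a) :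
      LaurentPolynomial R)).coeff w = ∑ a ∈ S with e a = w, g a := by
  classical
  induction S using Finset.induction_on with
  | empty => simp
  | insert a S ha ih =>
    rw [Finset.sum_insert ha, AddMonoidAlgebra.coeff_add, Finsupp.add_apply, ih,
      Finset.filter_insert, ← LaurentPolynomial.single_eq_C_mul_T, AddMonoidAlgebra.coeff_single,
      Finsupp.single_apply]
    split_ifs with h
    · rw [Finset.sum_insert (fun h1 => ha (Finset.mem_filter.1 h1).1)]
    · rw [zero_add]

lemma sum_CT_zero {R κ : Type} [CommRing R] (S : Finset κ) (g : κ → R) (e : κ → ℤ) :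
    (∑ a ∈ S, (LaurentPolynomial.C (g a) * LaurentPolynomial.T (e a) :
      LaurentPolynomial R)) = 0 ↔ ∀ w, ∑ a ∈ S with e a = w, g a = 0 := by
  constructor
  · intro h w
    rw [← sum_CT_coeff, h]
    rfl
  · intro h
    refine LaurentPolynomial.ext fun w => ?_
    rw [sum_CT_coeff, h w]
    rfl

theorem transfer {R κ : Type} [CommRing R] (S : Finset κ) (g : κ → R)
    (e e' : κ → ℤ) (h : ∀ a ∈ S, ∀ b ∈ S, e a = e b → e' a = e' b)
    (h0 : ∀ w, ∑ a ∈ S with e a = w, g a = 0) (w' : ℤ) : ∑ a ∈ S with e' a = w', g a = 0 := by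
  classical
  have h1 : ∑ a ∈ S with e' a = w', g a =
      ∑ w ∈ S.image e, ∑ a ∈ S.filter (fun a => e' a = w') with e a = w, g a := by
    refine (Finset.sum_fiberwise_of_maps_to (fun a ha => ?_) _).symm
    exact Finset.mem_image_of_mem _ (Finset.mem_filter.1 ha).1
  rw [h1]
  refine Finset.sum_eq_zero fun w hw => ?_
  obtain ⟨b, hb, rfl⟩ := Finset.mem_image.1 hw
  by_cases hb' : e' b = w'
  · rw [← h0 (e b)]
    refine Finset.sum_congr ?_ fun _ _ => rfl
    ext a
    rw [Finset.mem_filter, Finset.mem_filter, Finset.mem_filter]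
    constructor
    · rintro ⟨⟨h2, -⟩, h3⟩
      exact ⟨h2, h3⟩
    · rintro ⟨h2, h3⟩
      exact ⟨⟨h2, (h a h2 b hb h3).trans hb'⟩, h3⟩
  · refine Finset.sum_eq_zero fun a ha => ?_
    rw [Finset.mem_filter, Finset.mem_filter] at ha
    exact absurd ((h a ha.1.1 b hb ha.2).symm.trans ha.1.2) hb'

/-! ### The expansion -/

variable {A : Type} [CommRing A] {σ κ : Type} [Fintype κ]

/-- `F (∑ c j U_j)` -/
noncomputable def GV {R : Type} [CommRing R] [Algebra A R] (c : κ → σ → R)
    (F : MvPolynomial σ A) : MvPolynomial κ R :=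
  MvPolynomial.aeval (fun i => ∑ j, MvPolynomial.C (c j i) * MvPolynomial.X j) F

/-- the coefficient of `T ^ w` after the substitution `U_j = T ^ (l j)` -/
noncomputable def kc {R : Type} [CommRing R] (l : κ → ℤ) (P : MvPolynomial κ R) (w : ℤ) : R :=
  ∑ α ∈ P.support with ∑ j, (α j : ℤ) * l j = w, P.coeff α

lemma kc_map {R R' : Type} [CommRing R] [CommRing R'] (s : R →+* R') (l : κ → ℤ)
    (P : MvPolynomial κ R) (w : ℤ) : kc l (MvPolynomial.map s P) w = s (kc l P w) := by
  classical
  unfold kc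
  rw [map_sum]
  simp_rw [MvPolynomial.coeff_map]
  refine Finset.sum_subset (Finset.filter_subset_filter _
    (MvPolynomial.support_map_subset _ _)) fun α hα hα' => ?_
  rw [Finset.mem_filter] at hα
  rw [Finset.mem_filter, not_and] at hα'
  by_contra hcon
  refine hα' ?_ hα.2
  rw [MvPolynomial.mem_support_iff, MvPolynomial.coeff_map]
  exact hcon

lemma GV_map {R R' : Type} [CommRing R] [CommRing R'] [Algebra A R] [Algebra A R']
    (s : R →ₐ[A] R') (c : κ → σ → R) (F : MvPolynomial σ A) :
    MvPolynomial.map (s : R →+* R') (GV c F) = GV (fun j i => s (c j i)) F := by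
  have h1 := congrArg (fun f => f F) (MvPolynomial.comp_aeval (R := A)
    (fun i => ∑ j, MvPolynomial.C (c j i) * MvPolynomial.X j : σ → MvPolynomial κ R)
    (MvPolynomial.mapAlgHom s))
  refine Eq.trans h1 ?_
  show MvPolynomial.aeval (fun i => MvPolynomial.mapAlgHom s
    (∑ j, MvPolynomial.C (c j i) * MvPolynomial.X j)) F = _
  unfold GV
  congr 2
  funext i
  rw [map_sum]
  refine Finset.sum_congr rfl fun j _ => ?_
  rw [MvPolynomial.mapAlgHom_apply, map_mul, MvPolynomial.map_C, MvPolynomial.map_X]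
  rfl

theorem aeval_curZ {R : Type} [CommRing R] [Algebra A R]
    (c : κ → σ → R) (l : κ → ℤ) (F : MvPolynomial σ A) :
    MvPolynomial.aeval (curZ c l) F =
      ∑ α ∈ (GV c F).support, LaurentPolynomial.C (MvPolynomial.coeff α (GV c F)) *
        LaurentPolynomial.T (∑ j, (α j : ℤ) * l j) := by
  have h1 : MvPolynomial.aeval (curZ c l) F =
      (MvPolynomial.aeval (fun j => (LaurentPolynomial.T (l j) : LaurentPolynomial R)) :
        MvPolynomial κ R →ₐ[R] LaurentPolynomial R) (GV c F) := by
    have h2 := MvPolynomial.comp_aeval (R := A)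
      (fun i => ∑ j, MvPolynomial.C (c j i) * MvPolynomial.X j : σ →
        MvPolynomial κ R)
      ((MvPolynomial.aeval (fun j => (LaurentPolynomial.T (l j) : LaurentPolynomial R)) :
        MvPolynomial κ R →ₐ[R] LaurentPolynomial R).restrictScalars A)
    have h3 := congrArg (fun f => f F) h2
    have h4 : MvPolynomial.aeval (R := A) (fun i => ((MvPolynomial.aeval
        (fun j => (LaurentPolynomial.T (l j) : LaurentPolynomial R)) :
        MvPolynomial κ R →ₐ[R] LaurentPolynomial R).restrictScalars A)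
        (∑ j, MvPolynomial.C (c j i) * MvPolynomial.X j)) F =
        MvPolynomial.aeval (curZ c l) F := by
      congr 2
      funext i
      unfold curZ
      rw [map_sum]
      refine Finset.sum_congr rfl fun j _ => ?_
      show MvPolynomial.aeval (fun j => (LaurentPolynomial.T (l j) : LaurentPolynomial R))
        (MvPolynomial.C (c j i) * MvPolynomial.X j) = _
      rw [map_mul, MvPolynomial.aeval_X, MvPolynomial.aeval_C, LaurentPolynomial.C_eq_algebraMap]
    rw [← h4]
    exact h3.symm
  rw [h1, MvPolynomial.aeval_def, MvPolynomial.eval₂_eq']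
  refine Finset.sum_congr rfl fun α _ => ?_
  rw [LaurentPolynomial.C_eq_algebraMap]
  congr 1
  have h2 : ∀ B : Finset κ, ∏ j ∈ B, (LaurentPolynomial.T (l j) : LaurentPolynomial R) ^ α j =
      LaurentPolynomial.T (∑ j ∈ B, (α j : ℤ) * l j) := by
    classical
    intro B
    induction B using Finset.induction_on with
    | empty => simp
    | insert j B hj ih =>
      rw [Finset.prod_insert hj, Finset.sum_insert hj, LaurentPolynomial.T_add, ih,
        LaurentPolynomial.T_pow]
  exact h2 Finset.univ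

lemma curZ_zero_iff {R : Type} [CommRing R] [Algebra A R]
    (c : κ → σ → R) (l : κ → ℤ) (F : MvPolynomial σ A) :
    MvPolynomial.aeval (curZ c l) F = 0 ↔ ∀ w, kc l (GV c F) w = 0 := by
  rw [aeval_curZ, sum_CT_zero]
  rfl

theorem GV_deg {R : Type} [CommRing R] [Algebra A R]
    (c : κ → σ → R) (F : MvPolynomial σ A) (e : ℕ)
    (hF : F.totalDegree ≤ e) (α : κ →₀ ℕ) (hα : α ∈ (GV c F).support) (j : κ) :
    α j ≤ e := by
  have h1 : (GV c F).totalDegree ≤ e := by
    unfold GV
    rw [MvPolynomial.aeval_def, MvPolynomial.eval₂_eq]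
    refine (MvPolynomial.totalDegree_finsetSum _ _).trans ?_
    refine Finset.sup_le fun m hm => ?_
    refine (MvPolynomial.totalDegree_mul _ _).trans ?_
    have h2 : (algebraMap A (MvPolynomial κ R) (MvPolynomial.coeff m F)).totalDegree = 0 := by
      rw [MvPolynomial.algebraMap_apply]
      exact MvPolynomial.totalDegree_C _
    rw [h2, zero_add]
    refine (MvPolynomial.totalDegree_finsetProd _ _).trans ?_
    refine le_trans ?_ (show ∑ i ∈ m.support, m i ≤ e from
      (MvPolynomial.le_totalDegree hm).trans hF)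
    refine Finset.sum_le_sum fun i _ => ?_
    refine (MvPolynomial.totalDegree_pow _ _).trans ?_
    refine (Nat.mul_le_mul_left _ (?_ : _ ≤ 1)).trans (le_of_eq (mul_one _))
    refine (MvPolynomial.totalDegree_finsetSum _ _).trans (Finset.sup_le fun j _ => ?_)
    refine (MvPolynomial.totalDegree_mul _ _).trans ?_
    rw [MvPolynomial.totalDegree_C, zero_add]
    exact (MvPolynomial.totalDegree_monomial_le (Finsupp.single j 1) (1 : R)).trans (by simp)
  have h2 := MvPolynomial.le_totalDegree hα
  rw [Finsupp.sum_fintype _ _ (by simp)] at h2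
  exact (Finset.single_le_sum (f := fun j => α j) (fun _ _ => Nat.zero_le _)
    (Finset.mem_univ j)).trans (h2.trans h1)

/-! ### Patterns -/

/-- the coincidences of the exponents of the monomials of degree at most `D` in each variable -/
def patZ (D : ℕ) (l : κ → ℤ) : Set ((κ → Fin (D + 1)) × (κ → Fin (D + 1))) :=
  {p | ∑ j, ((p.1 j : ℕ) : ℤ) * l j = ∑ j, ((p.2 j : ℕ) : ℤ) * l j}

theorem patZ_imp (D : ℕ) (l l' : κ → ℤ) (h : patZ D l = patZ D l') (α β : κ → ℕ)
    (hα : ∀ j, α j ≤ D) (hβ : ∀ j, β j ≤ D)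
    (he : ∑ j, (α j : ℤ) * l j = ∑ j, (β j : ℤ) * l j) :
    ∑ j, (α j : ℤ) * l' j = ∑ j, (β j : ℤ) * l' j := by
  have h1 : ((fun j => ⟨α j, Nat.lt_succ_of_le (hα j)⟩,
      fun j => ⟨β j, Nat.lt_succ_of_le (hβ j)⟩) :
      (κ → Fin (D + 1)) × (κ → Fin (D + 1))) ∈ patZ D l := he
  rw [h] at h1
  exact h1

theorem patZ_eq_imp (D : ℕ) (hD : 1 ≤ D) (l l' : κ → ℤ) (h : patZ D l = patZ D l')
    (a b : κ) (he : l a = l b) : l' a = l' b := by
  classical
  have h1 := patZ_imp D l l' h (fun j => if j = a then 1 else 0) (fun j => if j = b then 1 else 0)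
    (fun j => by split_ifs <;> omega) (fun j => by split_ifs <;> omega) (by simpa using he)
  simpa using h1

theorem patZ_zero_imp (D : ℕ) (hD : 1 ≤ D) (l l' : κ → ℤ) (h : patZ D l = patZ D l')
    (a : κ) (he : l a = 0) : l' a = 0 := by
  classical
  have h1 := patZ_imp D l l' h (fun j => if j = a then 1 else 0) (fun _ => 0)
    (fun j => by split_ifs <;> omega) (fun j => by omega) (by simpa using he)
  simpa using h1

theorem curZ_zero_transfer {R : Type} [CommRing R] [Algebra A R] (D : ℕ)
    (l l' : κ → ℤ) (h : patZ D l = patZ D l')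
    (c : κ → σ → R) (F : MvPolynomial σ A) (hF : F.totalDegree ≤ D)
    (h0 : MvPolynomial.aeval (curZ c l) F = 0) :
    MvPolynomial.aeval (curZ c l') F = 0 := by
  rw [curZ_zero_iff] at h0 ⊢
  intro w
  unfold kc at h0 ⊢
  refine transfer _ _ (fun α : κ →₀ ℕ => ∑ j, (α j : ℤ) * l j) _ ?_ h0 w
  intro α hα β hβ hab
  exact patZ_imp D l l' h α β (fun j => GV_deg c F D hF α hα j)
    (fun j => GV_deg c F D hF β hβ j) hab

/-- The family of affine varieties with ideal `I` over `Spec A` is dominated by images of the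
multiplicative group: over some field there is a nonconstant Laurent curve `p` such that `p 1` is the
generic point of the family. -/
def UniruledT (I : Ideal (MvPolynomial σ A)) : Prop :=
  ∃ (L : Type) (_ : Field L) (_ : Algebra A L) (p : σ → LaurentPolynomial L),
    (∀ F ∈ I, MvPolynomial.aeval p F = 0) ∧
    (∀ G : MvPolynomial σ A, G ∉ I →
      MvPolynomial.aeval (fun i => LaurentPolynomial.eval₂ (RingHom.id L) 1 (p i)) G ≠ 0) ∧
    ∃ i, ¬ ∃ a, p i = LaurentPolynomial.C a

/-- the coefficient of `T ^ w` in the coordinate `i` -/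
lemma curZ_coeff {R : Type} [CommRing R] (c : κ → σ → R) (l : κ → ℤ) (i : σ) (w : ℤ) :
    (curZ c l i).coeff w = ∑ j with l j = w, c j i := sum_CT_coeff _ _ _ _

/-- for a fixed vector of exponents, the nonconstant curves in the fibres lie in a hypersurface -/
theorem exists_GZ (FF : Set (MvPolynomial σ A))
    (hprime : (Ideal.span FF).IsPrime) (hnu : ¬ UniruledT (Ideal.span FF)) (l : κ → ℤ)
    (i : σ) (w : ℤ) (hw : w ≠ 0) :
    ∃ G : MvPolynomial σ A, G ∉ Ideal.span FF ∧
      ∀ (L : Type) [Field L] [Algebra A L] (c : κ → σ → L),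
        (∀ F ∈ FF, MvPolynomial.aeval (curZ c l) F = 0) →
        (∑ j with l j = w, c j i) ≠ 0 → MvPolynomial.aeval (fun i => ∑ j, c j i) G = 0 := by
  classical
  by_contra hcon
  push Not at hcon
  let R : Type := MvPolynomial (κ × σ) A
  let ct : κ → σ → R := fun j i => MvPolynomial.X (j, i)
  let xt : σ → R := fun i => ∑ j, ct j i
  let N : R := ∑ j with l j = w, ct j i
  let J : Ideal R := Ideal.span {a | ∃ F ∈ FF, ∃ t : ℤ, a = kc l (GV ct F) t}
  have hFs : ∀ (L : Type) [Field L] [Algebra A L] (s : R →ₐ[A] L)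
      (F : MvPolynomial σ A) (t : ℤ),
      s (kc l (GV ct F) t) = kc l (GV (fun j i => s (ct j i)) F) t := by
    intro L _ _ s F t
    rw [← GV_map s ct F, kc_map]
    rfl
  have hxs : ∀ (L : Type) [Field L] [Algebra A L] (s : R →ₐ[A] L)
      (G : MvPolynomial σ A),
      s (MvPolynomial.aeval xt G) =
        MvPolynomial.aeval (fun i => ∑ j, (fun j i => s (ct j i)) j i) G := by
    intro L _ _ s G
    have h1 := congrArg (fun f => f G) (MvPolynomial.comp_aeval (R := A) xt s)
    refine Eq.trans h1 ?_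
    show MvPolynomial.aeval (fun i => s (xt i)) G = _
    congr 2
    funext i
    simp only [xt, map_sum]
  have hNs : ∀ (L : Type) [Field L] [Algebra A L] (s : R →ₐ[A] L),
      s N = ∑ j with l j = w, s (ct j i) := by
    intro L _ _ s
    simp only [N, map_sum]
  have h1I : (1 : MvPolynomial σ A) ∉ Ideal.span FF := by
    intro h
    exact hprime.ne_top ((Ideal.eq_top_iff_one _).2 h)
  let M : Submonoid R :=
    { carrier := {a | ∃ (G : MvPolynomial σ A) (t : ℕ),
        G ∉ Ideal.span FF ∧ a = MvPolynomial.aeval xt G * N ^ t}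
      one_mem' := ⟨1, 0, h1I, by simp⟩
      mul_mem' := by
        rintro a b ⟨G, t, hG, rfl⟩ ⟨G', t', hG', rfl⟩
        refine ⟨G * G', t + t', ?_, ?_⟩
        · intro h
          rcases hprime.mem_or_mem h with h | h
          · exact hG h
          · exact hG' h
        · rw [map_mul, pow_add]
          ring }
  have hdisj : Disjoint (J : Set R) M := by
    rw [Set.disjoint_left]
    rintro a haJ ⟨G, t, hGI, rfl⟩
    obtain ⟨L, iL, iA, c, hz, hN, hG⟩ := hcon G hGI
    let s : R →ₐ[A] L := MvPolynomial.aeval (fun q : κ × σ => c q.1 q.2)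
    have hsc : (fun j i => s (ct j i)) = c := by
      funext j i
      exact MvPolynomial.aeval_X (fun q : κ × σ => c q.1 q.2) (j, i)
    have hJ : J ≤ RingHom.ker s.toRingHom := by
      rw [Ideal.span_le]
      rintro _ ⟨F, hF, t, rfl⟩
      show s _ = 0
      rw [hFs L s F, hsc]
      exact (curZ_zero_iff c l F).1 (hz F hF) t
    have h2 : s (MvPolynomial.aeval xt G * N ^ t) = 0 := hJ haJ
    rw [map_mul, map_pow, hxs, hNs] at h2
    have h3 : ∀ j i, s (ct j i) = c j i := fun j i => congrFun (congrFun hsc j) i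
    simp only [h3] at h2
    exact mul_ne_zero hG (pow_ne_zero _ hN) h2
  obtain ⟨P, hP, hJP, hPM⟩ := Ideal.exists_le_prime_disjoint J M hdisj
  let L : Type := FractionRing (R ⧸ P)
  let s : R →ₐ[A] L := (IsScalarTower.toAlgHom A (R ⧸ P) (FractionRing (R ⧸ P))).comp
    (Ideal.Quotient.mkₐ A P)
  have hs0 : ∀ a : R, s a = 0 ↔ a ∈ P := by
    intro a
    show algebraMap (R ⧸ P) (FractionRing (R ⧸ P)) (Ideal.Quotient.mk P a) = 0 ↔ _
    rw [FaithfulSMul.algebraMap_eq_zero_iff, Ideal.Quotient.eq_zero_iff_mem]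
  apply hnu
  refine ⟨L, inferInstance, inferInstance, curZ (fun j i => s (ct j i)) l, ?_, ?_, i, ?_⟩
  · have hI : Ideal.span FF ≤ RingHom.ker
        (MvPolynomial.aeval (R := A) (curZ (fun j i => s (ct j i)) l)).toRingHom := by
      rw [Ideal.span_le]
      intro F hF
      show MvPolynomial.aeval (curZ (fun j i => s (ct j i)) l) F = 0
      rw [curZ_zero_iff]
      intro t
      rw [← hFs L s F t]
      exact (hs0 _).2 (hJP (Ideal.subset_span ⟨F, hF, t, rfl⟩))
    intro F hF
    exact hI hF
  · intro G hGI h0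
    have h1 : (fun i => LaurentPolynomial.eval₂ (RingHom.id L) 1
        (curZ (fun j i => s (ct j i)) l i)) = fun i => ∑ j, (fun j i => s (ct j i)) j i := by
      funext i
      exact curZ_eval _ _ _
    rw [h1, ← hxs L s G, hs0] at h0
    exact Set.disjoint_left.1 hPM h0 ⟨G, 0, hGI, by simp⟩
  · rintro ⟨a, h0⟩
    have h1 := hNs L s
    rw [← curZ_coeff (fun j i => s (ct j i)) l i w, h0] at h1
    have h2 : (LaurentPolynomial.C a : LaurentPolynomial L).coeff w = 0 := by
      rw [← LaurentPolynomial.single_eq_C, AddMonoidAlgebra.coeff_single, Finsupp.single_apply,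
        if_neg (Ne.symm hw)]
    rw [h2, hs0] at h1
    exact Set.disjoint_left.1 hPM h1 ⟨1, 1, h1I, by simp⟩

/-- a vector of exponents with a given pattern -/
noncomputable def repZ (D : ℕ) (π : Set ((κ → Fin (D + 1)) × (κ → Fin (D + 1)))) :
    κ → ℤ := by
  classical
  exact if h : ∃ l : κ → ℤ, patZ D l = π then h.choose else fun _ => 0

theorem pat_repZ (D : ℕ) (l : κ → ℤ) : patZ D (repZ D (patZ D l)) = patZ D l := by
  have h : ∃ l' : κ → ℤ, patZ D l' = patZ D l := ⟨l, rfl⟩
  unfold repZ
  rw [dif_pos h]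
  exact h.choose_spec

/-- all the nonconstant Laurent curves with `r` terms in the fibres lie in one hypersurface -/
theorem exists_hyperZ [Finite σ] (FF : Set (MvPolynomial σ A))
    (hprime : (Ideal.span FF).IsPrime) (hnu : ¬ UniruledT (Ideal.span FF)) (d : ℕ) (hd : 1 ≤ d)
    (hFF : ∀ F ∈ FF, F.totalDegree ≤ d) (κ : Type) [Fintype κ] :
    ∃ G : MvPolynomial σ A, G ∉ Ideal.span FF ∧
      ∀ (L : Type) [Field L] [Algebra A L] (c : κ → σ → L) (l : κ → ℤ),
        (∀ F ∈ FF, MvPolynomial.aeval (curZ c l) F = 0) →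
        (∃ i, ¬ ∃ a, curZ c l i = LaurentPolynomial.C a) →
        MvPolynomial.aeval (fun i => ∑ j, c j i) G = 0 := by
  classical
  cases nonempty_fintype σ
  have hex : ∀ q : Set ((κ → Fin (d + 1)) × (κ → Fin (d + 1))) × σ × κ,
      ∃ G : MvPolynomial σ A, G ∉ Ideal.span FF ∧ (repZ d q.1 q.2.2 ≠ 0 →
      ∀ (L : Type) [Field L] [Algebra A L] (c : κ → σ → L),
        (∀ F ∈ FF, MvPolynomial.aeval (curZ c (repZ d q.1)) F = 0) →
        (∑ j with repZ d q.1 j = repZ d q.1 q.2.2, c j q.2.1) ≠ 0 →
        MvPolynomial.aeval (fun i => ∑ j, c j i) G = 0) := by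
    intro q
    by_cases hq : repZ d q.1 q.2.2 = 0
    · exact ⟨1, fun h => hprime.ne_top ((Ideal.eq_top_iff_one _).2 h), fun h => absurd hq h⟩
    · obtain ⟨G, h1, h2⟩ := exists_GZ FF hprime hnu (repZ d q.1) q.2.1 _ hq
      exact ⟨G, h1, fun _ => h2⟩
  choose H hH2 hH3 using hex
  refine ⟨∏ q, H q, ?_, ?_⟩
  · rw [hprime.prod_mem_iff]
    push Not
    intro q _
    exact hH2 q
  · intro L _ _ c l hz ⟨i, hc⟩
    have hp := pat_repZ d l
    have hz' : ∀ F ∈ FF, MvPolynomial.aeval (curZ c (repZ d (patZ d l))) F = 0 := fun F hF =>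
      curZ_zero_transfer d l _ hp.symm c F (hFF F hF) (hz F hF)
    -- a nonzero coefficient
    have hj : ∃ j, repZ d (patZ d l) j ≠ 0 ∧
        (∑ j' with repZ d (patZ d l) j' = repZ d (patZ d l) j, c j' i) ≠ 0 := by
      by_contra hcon
      push Not at hcon
      apply hc
      refine ⟨∑ j with l j = 0, c j i, LaurentPolynomial.ext fun w => ?_⟩
      rw [curZ_coeff, ← LaurentPolynomial.single_eq_C, AddMonoidAlgebra.coeff_single,
        Finsupp.single_apply]
      by_cases hw : (0 : ℤ) = w
      · rw [if_pos hw, hw]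
      · rw [if_neg hw]
        by_cases hwj : ∃ j, l j = w
        · obtain ⟨j, hj⟩ := hwj
          have h1 : repZ d (patZ d l) j ≠ 0 := fun h => by
            have h2 := patZ_zero_imp d hd _ l hp j h
            rw [hj] at h2
            exact hw h2.symm
          rw [← hcon j h1]
          refine Finset.sum_congr ?_ fun _ _ => rfl
          ext j'
          simp only [Finset.mem_filter, Finset.mem_univ, true_and]
          rw [← hj]
          constructor
          · intro h2
            exact patZ_eq_imp d hd l _ hp.symm j' j h2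
          · intro h2
            exact patZ_eq_imp d hd _ l hp j' j h2
        · push Not at hwj
          exact Finset.sum_eq_zero fun j hj => absurd (Finset.mem_filter.1 hj).2 (hwj j)
    obtain ⟨j, hj1, hj2⟩ := hj
    have h1 := hH3 (patZ d l, i, j) hj1 L c hz' hj2
    rw [map_prod]
    exact Finset.prod_eq_zero (Finset.mem_univ (patZ d l, i, j)) h1

end Pool.Agent.Run7.h28.BV
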