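import Mathlib
import Pool.Agent.Run7.h28.BV.UProj
import Pool.Agent.Run7.h28.BV.CurZ

/-!
# Project BV (helper28): one exceptional set for all number fields, integral points
-/

set_option autoImplicit false
set_option linter.unusedSectionVars false

open Filter Topology

namespace Pool.Agent.Run7.h28.BV

open NumberField IsDedekindDomain Height Module
open Pool.Agent.W180.OP (Pl av wt nrm le_nrm nrm_pos wt_nonneg exists_nrm nrm_nonneg)
open Pool.Agent.N750
open Pool.Agent.Run7.h28.HK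

lemma Near.mono {K : Type} [Field K] [NumberField K] {Γ : Subgroup Kˣ} {v : Pl K}
    {B B' δ M h : ℝ} (hB : B ≤ B') (hM : 1 ≤ M) (hh : 1 ≤ h) {q : ℕ} {F : Polynomial K}
    (hN : Near Γ v B δ M h q F) : Near Γ v B' δ M h q F := by
  obtain ⟨a, z, E, h1, h2, h3, h4, h5, h6, h7, h8, h9⟩ := hN
  have h10 : M * h ^ B ≤ M * h ^ B' :=
    mul_le_mul_of_nonneg_left (Real.rpow_le_rpow_of_exponent_le hh hB) (by linarith)
  exact ⟨a, z, E, h1, h2, h3, h4, h5, h6, h7.trans h10, h8.trans h10, h9⟩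

/-- **One exceptional set for all number fields**, integral points on affine varieties. -/
theorem strongT {A : Type} [CommRing A] (n m g k : ℕ) (B δ : ℝ) (hδ : 0 < δ)
    (G : Fin g → MvPolynomial (Fin n ⊕ Fin m) A)
    (hprime : (Ideal.span (Set.range G)).IsPrime)
    (hnu : ¬ UniruledT (Ideal.span (Set.range G)))
    (F : Fin m → Polynomial (MvPolynomial (Fin n) A)) (hq : ∀ i, 0 < (F i).natDegree)
    (hFG : ∀ i, eqA (F i) i ∈ Ideal.span (Set.range G)) :
    ∃ f : MvPolynomial (Fin n ⊕ Fin m) A, f ∉ Ideal.span (Set.range G) ∧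
      ∀ (K : Type) [Field K] [NumberField K] (Γ : Subgroup Kˣ), Γ.FG → ∀ v : Pl K,
      ∀ S : Finset (HeightOneSpectrum (𝓞 K)),
      ∃ C : ℝ, 0 < C ∧ ∀ (M : ℝ) (s : A →+* K) (x : Fin n → K) (y b : Fin m → K), 1 ≤ M →
        (∀ j e, mulHeight₁ (s ((G j).coeff e)) ≤ M) →
        (∀ i j e, mulHeight₁ (s (((F i).coeff j).coeff e)) ≤ M) →
        (∀ j, MvPolynomial.eval₂ s (Sum.elim x y) (G j) = 0) →
        (∀ l, Sparse Γ k M (x l)) →
        (∀ i, b i ≠ 0 ∧ mulHeight₁ (b i) ≤ M ∧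
          ∀ w, w ∉ S → av (Sum.inr w : Pl K) (b i * y i) ≤ 1) →
        (∀ i, Near Γ v B δ M (∏ l, mulHeight₁ (x l)) (F i).natDegree
          ((F i).map (MvPolynomial.eval₂Hom s x))) →
        MvPolynomial.eval₂ s (Sum.elim x y) f = 0 ∨ ∀ l, mulHeight₁ (x l) ≤ (C * M) ^ C := by
  classical
  obtain ⟨D, hD⟩ : ∃ D : Fin m → ℕ, ∀ i j, j ≤ (F i).natDegree →
      ((F i).coeff j).totalDegree ≤ D i :=
    ⟨fun i => ∑ j ∈ Finset.range ((F i).natDegree + 1), ((F i).coeff j).totalDegree,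
      fun i j hj => Finset.single_le_sum (f := fun j => ((F i).coeff j).totalDegree)
        (fun _ _ => Nat.zero_le _) (Finset.mem_range.2 (Nat.lt_succ_of_le hj))⟩
  obtain ⟨N, hN⟩ := unif_seq n m k (fun i => (F i).natDegree) D hq (max B 1) δ hδ
  obtain ⟨d, hd1, hd⟩ : ∃ d, 1 ≤ d ∧ ∀ j, (G j).totalDegree ≤ d :=
    ⟨1 + ∑ j, (G j).totalDegree, by omega, fun j => by
      have := Finset.single_le_sum (f := fun j => (G j).totalDegree) (fun _ _ => Nat.zero_le _)
        (Finset.mem_univ j)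
      omega⟩
  obtain ⟨f, hf2, hf3⟩ := exists_hyperZ (Set.range G) hprime hnu d hd1
    (by rintro _ ⟨j, rfl⟩; exact hd j) ((Fin n ⊕ Fin m) × Fin N)
  refine ⟨f, hf2, fun K _ _ Γ hΓ v S0 => ?_⟩
  by_contra hcon
  push Not at hcon
  choose M s x y b hM hGM hFM hz hxs hb hnear hfz l' hbig using
    fun t : ℕ => hcon (Real.exp 1 * ((t : ℝ) + 1)) (by positivity)
  obtain ⟨h, hh⟩ : ∃ h : ℕ → ℝ, h = fun t => ∏ l, mulHeight₁ (x t l) := ⟨_, rfl⟩
  have hone : ∀ t l, 1 ≤ mulHeight₁ (x t l) := fun t l => one_le_mulHeight₁ _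
  have hle : ∀ t l, mulHeight₁ (x t l) ≤ h t := fun t l => by
    rw [hh]
    simp only
    rw [← Finset.mul_prod_erase _ _ (Finset.mem_univ l)]
    have h3 : 1 ≤ ∏ j ∈ Finset.univ.erase l, mulHeight₁ (x t j) := by
      have := Finset.prod_le_prod (s := Finset.univ.erase l) (f := fun _ => (1 : ℝ))
        (g := fun j => mulHeight₁ (x t j)) (fun _ _ => zero_le_one) (fun j _ => hone t j)
      simpa using this
    exact le_mul_of_one_le_right (by linarith [hone t l]) h3
  have hh1 : ∀ t, 1 ≤ h t := fun t => (hone t (l' t)).trans (hle t (l' t))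
  obtain ⟨𝓕, hH, hneg⟩ := seq_filter M h hM fun t => (hbig t).trans_le (hle t (l' t))
  obtain ⟨S, hS, hΓS, hvS⟩ := exists_S' Γ hΓ (insert v (S0.image Sum.inr))
  have hv : v ∈ S := hvS (Finset.mem_insert_self v _)
  have hS0 : ∀ w ∈ S0, (Sum.inr w : Pl K) ∈ S := fun w hw =>
    hvS (Finset.mem_insert_of_mem (Finset.mem_image_of_mem _ hw))
  obtain ⟨H, hHdef⟩ : ∃ H : ℕ → ℝ, H = fun t => Real.log (h t) := ⟨_, rfl⟩
  rw [← hHdef] at hH
  have hneg' : ∀ ε' : ℝ, 0 < ε' → ∀ᶠ t in (𝓕 : Filter ℕ), 1 + Real.log (M t) ≤ ε' * H t := by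
    rw [hHdef]
    exact hneg
  have hexp : ∀ t, Real.exp (H t) = h t := fun t => by
    rw [hHdef]
    exact Real.exp_log (by linarith [hh1 t])
  have hHsum : ∀ t, H t = ∑ l, logHeight₁ (x t l) := fun t => by
    rw [hHdef, hh]
    simp only
    rw [Real.log_prod fun l _ => (mulHeight₁_pos _).ne']
    rfl
  -- some coordinate is not slow
  obtain ⟨l1, hl1⟩ : ∃ l1, ¬ Slow 𝓕 H (fun t => x t l1) := by
    by_contra hc
    push Not at hc
    have hall : ∀ᶠ t in (𝓕 : Filter ℕ), ∀ l, logHeight₁ (x t l) ≤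
        1 / (2 * (n + 1)) * H t := eventually_all.2 fun l => hc l _ (by positivity)
    obtain ⟨t, h1, h3⟩ := (hall.and (hH_le hH 1)).exists
    have h5 := Finset.sum_le_sum fun l (_ : l ∈ Finset.univ) => h1 l
    rw [← hHsum t, Finset.sum_const, Finset.card_univ, Fintype.card_fin, nsmul_eq_mul] at h5
    have h6 : (n : ℝ) * (1 / (2 * (n + 1)) * H t) ≤ 1 / 2 * H t := by
      have h7 : (n : ℝ) * (1 / (2 * (n + 1)) * H t) = (n / (n + 1)) * (1 / 2 * H t) := by
        field_simp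
      rw [h7]
      refine mul_le_of_le_one_left (by linarith) ?_
      rw [div_le_one (by positivity)]
      linarith
    linarith
  have hyz : ∀ t i, ((F i).map (MvPolynomial.eval₂Hom (s t) (x t))).eval (y t i) = 0 := by
    intro t i
    rw [← eval_eqA]
    exact eval_span (s t) G _ (hz t) (hFG i)
  have hcoef : ∀ t (i : Fin m) j, (((F i).map (MvPolynomial.map (s t))).coeff j) =
      MvPolynomial.map (s t) ((F i).coeff j) := fun t i j => Polynomial.coeff_map _ _
  have hyI : ∀ i, AI 𝓕 H S (fun t => y t i) := by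
    intro i
    have h1 : AI 𝓕 H S (fun t => (b t i)⁻¹) := AI.slow (Slow.inv (slow_of_ht hneg'
      fun t => (hb t i).2.1))
    have h2 : AI 𝓕 H S (fun t => b t i * y t i) := AI.int hH fun t w hw =>
      (hb t i).2.2 w fun h => hw (hS0 w h)
    refine (h1.mul h2).congr (Eventually.of_forall fun t => ?_)
    rw [← mul_assoc, inv_mul_cancel₀ (hb t i).1, one_mul]
  obtain ⟨hxN, hyN⟩ := hN K 𝓕 H hH Γ S hS hΓS v hv M hM hneg'
    (fun i t => (F i).map (MvPolynomial.map (s t))) (fun i t => Polynomial.natDegree_map_le)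
    (fun i t j hj => by
      rw [hcoef]
      exact (tdm _ _).trans (hD i j hj))
    (fun i t j e => by
      rw [hcoef, MvPolynomial.coeff_map]
      exact hFM t i j e) x y hxs
    (fun t l => by
      rw [hexp]
      have h1 : h t ≤ h t ^ (max B 1) := by
        calc h t = h t ^ (1 : ℝ) := (Real.rpow_one _).symm
          _ ≤ _ := Real.rpow_le_rpow_of_exponent_le (hh1 t) (le_max_right _ _)
      exact ((hle t l).trans h1).trans (le_mul_of_one_le_left (by
        linarith [hh1 t]) (hM t)))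
    (fun t i => by
      rw [hexp, map_map_eval]
      refine Near.mono (le_max_left B 1) (hM t) (hh1 t) ?_
      rw [hh]
      exact hnear t i)
    (fun t i => by rw [map_map_eval]; exact hyz t i) hyI
  -- the germ
  obtain ⟨w, hw⟩ : ∃ w : Fin n ⊕ Fin m → Gm 𝓕 K,
      w = fun i => mk 𝓕 (fun t => Sum.elim (x t) (y t) i) := ⟨_, rfl⟩
  have hwsp : ∀ i, SpN (slowF 𝓕 K H hH) (PU 𝓕 H S) N (w i) := by
    intro i
    rw [hw]
    rcases i with l | i
    · exact hxN l
    · exact hyN i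
  have hwval : ∀ P : MvPolynomial (Fin n ⊕ Fin m) A, MvPolynomial.eval₂ (germ 𝓕 s) w P =
      mk 𝓕 (fun t => MvPolynomial.eval₂ (s t) (Sum.elim (x t) (y t)) P) := fun P => by
    rw [hw]
    exact germ_eval s (fun t => Sum.elim (x t) (y t)) P
  have hGs : ∀ j e, Slow 𝓕 H (fun t => s t ((G j).coeff e)) := fun j e =>
    slow_of_ht hneg' fun t => hGM t j e
  obtain ⟨c, l, hc1, hc2, hc3⟩ := liftNL (ps hH S hS) N w hwsp
    (fun j => slowP hH s (G j) (hGs j)) (fun j => by
      have h1 := slowP_eval hH s (G j) (hGs j) (RingHom.id _) w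
      rw [RingHom.id_comp, RingHom.id_comp, hwval, mk_eq_zero.2 (Eventually.of_forall
        fun t => hz t j)] at h1
      exact h1)
  let alg : Algebra A (Gm 𝓕 K) := (germ 𝓕 s).toAlgebra
  have hfin := hf3 (Gm 𝓕 K) c l (by
    rintro _ ⟨j, rfl⟩
    have h1 := slowP_eval hH s (G j) (hGs j) LaurentPolynomial.C (curZ c l)
    have h2 : MvPolynomial.aeval (curZ c l) (G j) =
        MvPolynomial.eval₂ (LaurentPolynomial.C.comp (germ 𝓕 s)) (curZ c l) (G j) := rfl
    rw [h2, ← h1]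
    exact hc3 j) ⟨Sum.inl l1, hc2 _ (by
      rw [hw]
      exact fun h => hl1 (mk_slow.1 h))⟩
  have h3 : MvPolynomial.eval₂ (germ 𝓕 s) w f = 0 := by
    have h4 : (fun i => ∑ j, c j i) = w := funext hc1
    rw [h4] at hfin
    exact hfin
  rw [hwval, mk_eq_zero] at h3
  obtain ⟨t, ht⟩ := h3.exists
  exact hfz t ht

end Pool.Agent.Run7.h28.BV
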