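import Mathlib
import Pool.Agent.Run7.h28.BV.MainP
import Pool.Agent.Run7.h28.BV.Curve

/-!
# Project BV (helper28): projective varieties
-/

set_option autoImplicit false
set_option linter.unusedSectionVars false

open Filter Topology

namespace Pool.Agent.Run7.h28.BV

open NumberField IsDedekindDomain Height Module

/-- the ring homomorphism given by the values of the variables -/
noncomputable def spec {n : ℕ} {K : Type} [Field K] (c : Fin n → K) :
    MvPolynomial (Fin n) ℤ →+* K := (MvPolynomial.aeval c : MvPolynomial (Fin n) ℤ →ₐ[ℤ] K).toRingHom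

lemma spec_apply {n : ℕ} {K : Type} [Field K] (c : Fin n → K) (Q : MvPolynomial (Fin n) ℤ) :
    spec c Q = MvPolynomial.aeval c Q := rfl

/-- forms: the polynomial at infinity is the specialisation -/
lemma topAt_hom {n : ℕ} {K : Type} [Field K] (P : Polynomial (MvPolynomial (Fin n) ℤ)) {q : ℕ}
    (hdeg : P.natDegree = q) (hh : ∀ j ≤ q, (P.coeff j).IsHomogeneous (q - j)) (c : Fin n → K) :
    topAt q P c = P.map (spec c) := by
  classical
  ext j
  unfold topAt
  rw [hdeg]
  simp only [Polynomial.finsetSum_coeff, Polynomial.coeff_C_mul_X_pow, Polynomial.coeff_map]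
  rw [Finset.sum_ite_eq]
  by_cases hj : j ≤ q
  · rw [if_pos (Finset.mem_range.2 (by omega)), spec_apply, MvPolynomial.aeval_def,
      MvPolynomial.eval₂_eq', Finset.filter_true_of_mem]
    · simp only [eq_intCast]
    · intro m hm
      rw [hom_deg (hh j hj) hm]
  · rw [if_neg (by rw [Finset.mem_range]; omega), Polynomial.coeff_eq_zero_of_natDegree_lt
      (by omega), map_zero]

lemma adm_hom {n : ℕ} {M : ℝ} (P : Polynomial (MvPolynomial (Fin n) ℤ)) {q : ℕ}
    (hm : P.Monic) (hdeg : P.natDegree = q) (hh : ∀ j ≤ q, (P.coeff j).IsHomogeneous (q - j))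
    (hb : ∀ j s, |(((P.coeff j).coeff s : ℤ) : ℝ)| ≤ M) : Adm q q M P :=
  ⟨hm, hdeg, hb, fun j hj => Nat.mul_le_mul_left q ((hh j hj.le).totalDegree_le)⟩

/-- Bezout -/
lemma bezout {n : ℕ} (x : Fin n → ℤ) (hx : Finset.univ.gcd x = 1) :
    ∃ b : Fin n → ℤ, ∑ l, b l * x l = 1 := by
  obtain ⟨g, hg⟩ := (IsPrincipalIdealRing.principal (Ideal.span (Set.range x))).principal
  have h1 : g ∣ 1 := by
    rw [← hx]
    refine Finset.dvd_gcd fun l _ => ?_
    have h2 : x l ∈ Ideal.span (Set.range x) := Ideal.subset_span ⟨l, rfl⟩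
    rw [hg] at h2
    exact Ideal.mem_span_singleton.1 h2
  have h2 : (1 : ℤ) ∈ Ideal.span (Set.range x) := by
    rw [hg]
    exact Ideal.mem_span_singleton.2 h1
  exact Ideal.mem_span_range_iff_exists_fun.1 h2

lemma aeval_eqn {n m : ℕ} (P : Polynomial (MvPolynomial (Fin n) ℤ)) (i : Fin m) (x : Fin n → ℤ)
    (y : Fin m → ℚ) : MvPolynomial.aeval (Sum.elim (fun l => (x l : ℚ)) y) (eqn P i) =
      Polynomial.aeval (y i) (P.map (MvPolynomial.eval x)) := by
  unfold eqn
  rw [Polynomial.aeval_def, Polynomial.eval₂_map]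
  have h1 : MvPolynomial.aeval (Sum.elim (fun l => (x l : ℚ)) y)
      (P.eval₂ (MvPolynomial.rename Sum.inl :
        MvPolynomial (Fin n) ℤ →ₐ[ℤ] MvPolynomial (Fin n ⊕ Fin m) ℤ).toRingHom
        (MvPolynomial.X (Sum.inr i))) =
      P.eval₂ ((MvPolynomial.aeval (Sum.elim (fun l => (x l : ℚ)) y)).toRingHom.comp
        (MvPolynomial.rename Sum.inl :
        MvPolynomial (Fin n) ℤ →ₐ[ℤ] MvPolynomial (Fin n ⊕ Fin m) ℤ).toRingHom)
        (MvPolynomial.aeval (Sum.elim (fun l => (x l : ℚ)) y)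
          (MvPolynomial.X (Sum.inr i) : MvPolynomial (Fin n ⊕ Fin m) ℤ)) :=
    Polynomial.hom_eval₂ _ _ _ _
  rw [h1, MvPolynomial.aeval_X]
  congr 1
  refine RingHom.ext fun Q => ?_
  rw [RingHom.comp_apply, RingHom.comp_apply]
  show MvPolynomial.aeval (Sum.elim (fun l => (x l : ℚ)) y) (MvPolynomial.rename Sum.inl Q) = _
  rw [MvPolynomial.aeval_rename]
  exact cast_eval x Q

/-- the coordinates are integers -/
lemma integral {n m g : ℕ} (G : Fin g → MvPolynomial (Fin n ⊕ Fin m) ℤ)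
    (F : Fin m → Polynomial (MvPolynomial (Fin n) ℤ)) (hm : ∀ i, (F i).Monic)
    (hF : ∀ i, eqn (F i) i ∈ Ideal.span (Set.range G)) (x : Fin n → ℤ) (y : Fin m → ℚ)
    (h : ∀ i, MvPolynomial.aeval (Sum.elim (fun l => (x l : ℚ)) y) (G i) = 0) :
    ∃ z : Fin n ⊕ Fin m → ℤ, (∀ l, z (Sum.inl l) = x l) ∧ (∀ i, (z (Sum.inr i) : ℚ) = y i) ∧
      ∀ i, MvPolynomial.eval z (G i) = 0 := by
  have h1 : ∀ i, ∃ r : ℤ, (r : ℚ) = y i := by
    intro i
    have h2 : Ideal.span (Set.range G) ≤ RingHom.ker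
        (MvPolynomial.aeval (Sum.elim (fun l => (x l : ℚ)) y)).toRingHom := by
      rw [Ideal.span_le]
      rintro _ ⟨j, rfl⟩
      exact h j
    have h3 : MvPolynomial.aeval (Sum.elim (fun l => (x l : ℚ)) y) (eqn (F i) i) = 0 :=
      h2 (hF i)
    rw [aeval_eqn] at h3
    exact isInteger_of_is_root_of_monic ((hm i).map _) h3
  choose r hr using h1
  refine ⟨Sum.elim x r, fun l => rfl, hr, fun i => ?_⟩
  have h2 := h i
  have h3 : (Sum.elim (fun l => (x l : ℚ)) y) = fun j => ((Sum.elim x r j : ℤ) : ℚ) := by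
    funext j
    rcases j with l | j
    · rfl
    · exact (hr j).symm
  rw [h3, cast_eval] at h2
  exact_mod_cast h2

end Pool.Agent.Run7.h28.BV
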