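import Mathlib
import Pool.Agent.Run7.h28.BV.Gen
import Pool.Agent.Run7.h28.BV.Hom

/-!
# Project BV (helper28): points above sparse points are not Zariski dense
-/

set_option autoImplicit false
set_option linter.unusedSectionVars false

open Filter Topology

namespace Pool.Agent.Run7.h28.BV

open NumberField IsDedekindDomain Height Module
open Pool.Agent.W180.OP (Pl av wt nrm le_nrm nrm_pos wt_nonneg exists_nrm nrm_nonneg)
open Pool.Agent.N750
open Pool.Agent.Run7.h28.HK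

/-- `P` vanishes at the complex points of `G = 0` -/
def Van {σ ι : Type} (G : ι → MvPolynomial σ ℤ) (P : MvPolynomial σ ℤ) : Prop :=
  ∀ z : σ → ℂ, (∀ j, MvPolynomial.aeval z (G j) = 0) → MvPolynomial.aeval z P = 0

instance cnt {σ : Type} [Finite σ] : Countable (MvPolynomial σ ℤ) := by
  rw [← Cardinal.mk_le_aleph0_iff]
  refine MvPolynomial.cardinalMk_le_max.trans (max_le (max_le ?_ ?_) le_rfl)
  · exact Cardinal.mk_le_aleph0
  · exact Cardinal.mk_le_aleph0

/-- the coefficients of finitely many polynomials are bounded -/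
lemma exists_bd {m n : ℕ} (F : Fin m → Polynomial (MvPolynomial (Fin n) ℤ)) :
    ∃ M0 : ℝ, 1 ≤ M0 ∧ ∀ i j s, |((((F i).coeff j).coeff s : ℤ) : ℝ)| ≤ M0 := by
  classical
  refine ⟨1 + ∑ i, ∑ j ∈ (F i).support, ∑ s ∈ ((F i).coeff j).support,
    |((((F i).coeff j).coeff s : ℤ) : ℝ)|, ?_, fun i j s => ?_⟩
  · have : 0 ≤ ∑ i, ∑ j ∈ (F i).support, ∑ s ∈ ((F i).coeff j).support,
      |((((F i).coeff j).coeff s : ℤ) : ℝ)| :=
      Finset.sum_nonneg fun _ _ => Finset.sum_nonneg fun _ _ => Finset.sum_nonneg fun _ _ =>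
        abs_nonneg _
    linarith
  · by_cases hs : s ∈ ((F i).coeff j).support
    · have hj : j ∈ (F i).support := by
        rw [Polynomial.mem_support_iff]
        intro h
        rw [h] at hs
        simp at hs
      have h1 := Finset.single_le_sum
        (f := fun s => |((((F i).coeff j).coeff s : ℤ) : ℝ)|) (fun _ _ => abs_nonneg _) hs
      have h2 := Finset.single_le_sum
        (f := fun j => ∑ s ∈ ((F i).coeff j).support, |((((F i).coeff j).coeff s : ℤ) : ℝ)|)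
        (fun _ _ => Finset.sum_nonneg fun _ _ => abs_nonneg _) hj
      have h3 := Finset.single_le_sum
        (f := fun i => ∑ j ∈ (F i).support, ∑ s ∈ ((F i).coeff j).support,
          |((((F i).coeff j).coeff s : ℤ) : ℝ)|)
        (fun _ _ => Finset.sum_nonneg fun _ _ => Finset.sum_nonneg fun _ _ => abs_nonneg _)
        (Finset.mem_univ i)
      linarith
    · rw [MvPolynomial.notMem_support_iff.1 hs, Int.cast_zero, abs_zero]
      have : 0 ≤ ∑ i, ∑ j ∈ (F i).support, ∑ s ∈ ((F i).coeff j).support,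
        |((((F i).coeff j).coeff s : ℤ) : ℝ)| :=
        Finset.sum_nonneg fun _ _ => Finset.sum_nonneg fun _ _ => Finset.sum_nonneg fun _ _ =>
          abs_nonneg _
      linarith

/-- the value at a germ -/
lemma aeval_mk {L : Type} [Field L] [NumberField L] {𝓕 : Ultrafilter ℕ} {σ : Type}
    (z : ℕ → σ → ℤ) (P : MvPolynomial σ ℤ) :
    MvPolynomial.aeval (fun i => mk 𝓕 (fun t => (z t i : L))) P =
      mk 𝓕 (fun t => ((MvPolynomial.eval (z t) P : ℤ) : L)) := by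
  rw [hom_aeval (mk 𝓕) (fun i t => (z t i : L)) P]
  congr 1
  funext t
  rw [← cast_eval]
  have h1 := hom_aeval (Pi.evalRingHom (fun _ : ℕ => L) t) (fun i t => (z t i : L)) P
  exact h1.symm

/-- weighted degrees: forms are admissible -/
lemma admQ_hom {n : ℕ} {M : ℝ} (P : Polynomial (MvPolynomial (Fin n) ℤ)) {q : ℕ}
    (hdeg : P.natDegree = q) (hh : ∀ j ≤ q, (P.coeff j).IsHomogeneous (q - j))
    (hb : ∀ j s, |(((P.coeff j).coeff s : ℤ) : ℝ)| ≤ M) : AdmQ q q 0 M P :=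
  ⟨hdeg.le, hb, fun j hj => by
    rw [mul_zero, zero_add]
    exact Nat.mul_le_mul_left q ((hh j hj).totalDegree_le)⟩

lemma topQ_hom {n : ℕ} {K : Type} [Field K] (P : Polynomial (MvPolynomial (Fin n) ℤ)) {q : ℕ}
    (hdeg : P.natDegree = q) (hh : ∀ j ≤ q, (P.coeff j).IsHomogeneous (q - j)) (c : Fin n → K) :
    topQ q q 0 P c = P.map (spec c) := by
  classical
  ext j
  unfold topQ
  simp only [Polynomial.finsetSum_coeff, Polynomial.coeff_C_mul_X_pow, Polynomial.coeff_map]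
  rw [Finset.sum_ite_eq]
  by_cases hj : j ≤ q
  · rw [if_pos (Finset.mem_range.2 (by omega)), spec_apply, MvPolynomial.aeval_def,
      MvPolynomial.eval₂_eq', Finset.filter_true_of_mem]
    · simp only [eq_intCast]
    · intro m hm
      rw [hom_deg (hh j hj) hm, mul_zero, zero_add]
  · rw [if_neg (by rw [Finset.mem_range]; omega), Polynomial.coeff_eq_zero_of_natDegree_lt
      (by omega), map_zero]

/-- **Points above sparse points near a direction are not Zariski dense** on varieties which are not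
uniruled. -/
theorem nonDense {K : Type} [Field K] [NumberField K] (φ : K →+* ℂ) (Γ : Subgroup Kˣ) (hΓ : Γ.FG)
    (n m g k : ℕ) (q : Fin m → ℕ) (hq : ∀ i, 0 < q i) (B δ : ℝ) (hδ : 0 < δ)
    (G : Fin g → MvPolynomial (Fin n ⊕ Fin m) ℤ) (hG : ∀ j, ∃ e, (G j).IsHomogeneous e)
    (F : Fin m → Polynomial (MvPolynomial (Fin n) ℤ)) (hFm : ∀ i, (F i).Monic)
    (hFd : ∀ i, (F i).natDegree = q i)
    (hFh : ∀ i, ∀ j ≤ q i, ((F i).coeff j).IsHomogeneous (q i - j))
    (hFG : ∀ i, Van G (eqn (F i) i)) (hne : ∃ z : Fin n ⊕ Fin m → ℂ, ∀ j,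
      MvPolynomial.aeval z (G j) = 0)
    (hirr : ∀ P Q : MvPolynomial (Fin n ⊕ Fin m) ℤ, (∃ e, P.IsHomogeneous e) →
      (∃ e, Q.IsHomogeneous e) → Van G (P * Q) → Van G P ∨ Van G Q)
    (hnu : ¬ ∃ z : Fin n ⊕ Fin m → ℂ, (∀ j, MvPolynomial.aeval z (G j) = 0) ∧
      (∀ P, (∃ e, P.IsHomogeneous e) → MvPolynomial.aeval z P = 0 → Van G P) ∧
      ∃ Q : Fin n ⊕ Fin m → Polynomial ℂ, (∀ s, ∃ i, (Q i).eval s ≠ 0) ∧
        (∀ j, MvPolynomial.aeval Q (G j) = 0) ∧ (∀ i, (Q i).eval 1 = z i) ∧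
        ∃ i j, Q i * Polynomial.C (z j) ≠ Q j * Polynomial.C (z i)) :
    ∃ f : MvPolynomial (Fin n ⊕ Fin m) ℤ, (∃ e, f.IsHomogeneous e) ∧ ¬ Van G f ∧
      ∃ C : ℝ, 0 < C ∧ ∀ (M : ℝ) (c : Fin n → K), 1 ≤ M → (∀ l, mulHeight₁ (c l) ≤ M) →
      (∀ i, ((F i).map (spec c)).Separable) → (∀ i, ((F i).map (spec c)).Splits) →
      ∀ (v : Γ) (u : Fin n → Fin k → Γ) (a : Fin n → Fin k → K) (z : Fin n ⊕ Fin m → ℤ),
      (∀ i, MvPolynomial.eval z (G i) = 0) →
      (∃ b : Fin n → ℤ, ∑ l, b l * z (Sum.inl l) = 1) →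
      (∀ l r, mulHeight₁ (a l r) ≤ M) →
      (∀ l, (z (Sum.inl l) : K) = ∑ r, a l r * ((u l r : Kˣ) : K)) →
      mulHeight₁ ((v : Kˣ) : K) ≤ M * (1 + ∑ l, |(z (Sum.inl l) : ℝ)|) ^ B →
      (∀ l, ‖φ ((z (Sum.inl l) : K) - c l * ((v : Kˣ) : K))‖ ≤
        M * (1 + ∑ l, |(z (Sum.inl l) : ℝ)|) ^ (1 - δ)) →
      MvPolynomial.eval z f = 0 ∨ ∀ l, |(z (Sum.inl l) : ℝ)| ≤ (C * M) ^ C := by
  classical
  by_contra hcon
  push Not at hcon
  obtain ⟨M0, hM0, hbd⟩ := exists_bd F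
  obtain ⟨f, hf1, hf2⟩ := exists_seq (fun f : MvPolynomial (Fin n ⊕ Fin m) ℤ =>
    (∃ e, f.IsHomogeneous e) ∧ ¬ Van G f) ⟨⟨0, MvPolynomial.isHomogeneous_one _ _⟩, fun h => by
      obtain ⟨z, hz⟩ := hne
      have h1 := h z hz
      rw [map_one] at h1
      exact one_ne_zero h1⟩
    (fun f g ⟨⟨e, he⟩, hf⟩ ⟨⟨e', he'⟩, hg⟩ => ⟨⟨e + e', he.mul he'⟩, fun h =>
      (hirr f g ⟨e, he⟩ ⟨e', he'⟩ h).elim hf hg⟩)
  choose M c hM hc hsep hspl v u a z hz hcop ha hx hv hgap hfz hbig using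
    fun t : ℕ => hcon (f t) (hf1 t).1 (hf1 t).2 (Real.exp 1 * ((t : ℝ) + 1) * M0) (by positivity)
  have hMM : ∀ t, M t ≤ M0 * M t := fun t => le_mul_of_one_le_left (by linarith [hM t]) hM0
  obtain ⟨L, hNF, ψ, 𝓕, H, hH, S, hψ, h𝓕, hS, hexp, hneg, hslow, hzsp⟩ := seq φ Γ hΓ n m k q q
    (fun _ => 0) hq B δ hδ (fun t => M0 * M t) (fun _ => F) c
    (fun t => one_le_mul_of_one_le_of_one_le hM0 (hM t))
    (fun t i => admQ_hom (F i) (hFd i) (hFh i) fun j s =>
      (hbd i j s).trans (le_mul_of_one_le_right (by linarith) (hM t)))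
    (fun t l => (hc t l).trans (hMM t))
    (fun t i => by
      rw [topQ_hom (F i) (hFd i) (hFh i), (hFm i).natDegree_map, hFd])
    (fun t i => by rw [topQ_hom (F i) (hFd i) (hFh i)]; exact hsep t i)
    (fun t i => by rw [topQ_hom (F i) (hFd i) (hFh i)]; exact hspl t i)
    v u a z
    (fun t i => by
      rw [← eval_eqn]
      have h1 := hFG i (fun j => ((z t j : ℤ) : ℂ)) (fun j => by
        rw [cast_eval, hz t j, Int.cast_zero])
      rw [cast_eval] at h1
      exact_mod_cast h1)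
    (fun t l r => (ha t l r).trans (hMM t)) hx
    (fun t => (hv t).trans (mul_le_mul_of_nonneg_right (hMM t) (Real.rpow_nonneg
      (by
        have : 0 ≤ ∑ l, |(z t (Sum.inl l) : ℝ)| := Finset.sum_nonneg fun _ _ => abs_nonneg _
        linarith) _)))
    (fun t l => (hgap t l).trans (mul_le_mul_of_nonneg_right (hMM t) (Real.rpow_nonneg
      (by
        have : 0 ≤ ∑ l, |(z t (Sum.inl l) : ℝ)| := Finset.sum_nonneg fun _ _ => abs_nonneg _
        linarith) _)))
    (fun t => by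
      obtain ⟨l, hl⟩ := hbig t
      refine ⟨l, lt_of_le_of_lt ?_ hl⟩
      have he : (1 : ℝ) ≤ Real.exp 1 := Real.one_le_exp zero_le_one
      have ht : (1 : ℝ) ≤ (t : ℝ) + 1 := by
        have : (0 : ℝ) ≤ t := Nat.cast_nonneg t
        linarith
      have h1 : (1 : ℝ) ≤ Real.exp 1 * ((t : ℝ) + 1) := one_le_mul_of_one_le_of_one_le he ht
      have h2 : Real.exp 1 * ((t : ℝ) + 1) * (M0 * M t) =
          Real.exp 1 * ((t : ℝ) + 1) * M0 * M t := by ring
      rw [h2]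
      refine Real.rpow_le_rpow_of_exponent_le ?_ (le_mul_of_one_le_right (by linarith) hM0)
      exact one_le_mul_of_one_le_of_one_le (one_le_mul_of_one_le_of_one_le h1 hM0) (hM t))
  obtain ⟨l0, l1, hl0, hl1⟩ := ratio_not_slow (L := L) hH (fun l t => z t (Sum.inl l)) hexp hcop
  -- the germ
  obtain ⟨x, hxdef⟩ : ∃ x : Fin n ⊕ Fin m → Gm 𝓕 L,
      x = fun i => mk 𝓕 (fun t => (z t i : L)) := ⟨_, rfl⟩
  have hxval : ∀ P : MvPolynomial (Fin n ⊕ Fin m) ℤ, MvPolynomial.aeval x P =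
      mk 𝓕 (fun t => ((MvPolynomial.eval (z t) P : ℤ) : L)) := fun P => by
    rw [hxdef]
    exact aeval_mk z P
  have hxG : ∀ j, MvPolynomial.aeval x (G j) = 0 := fun j => by
    rw [hxval, mk_eq_zero]
    refine Eventually.of_forall fun t => ?_
    rw [hz t j, Int.cast_zero]
  obtain ⟨X, hX1, hX2, hX3⟩ := liftF (ps hH S hS) x (fun i => by rw [hxdef]; exact hzsp i)
    (fun j => MvPolynomial.map (Int.castRingHom (slowF 𝓕 L H hH)) (G j))
    (fun j => by
      obtain ⟨e, he⟩ := hG j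
      exact ⟨e, he.map _⟩)
    (fun j => by
      have h1 : Int.castRingHom (slowF 𝓕 L H hH) = algebraMap ℤ (slowF 𝓕 L H hH) := rfl
      rw [h1, MvPolynomial.aeval_map_algebraMap]
      exact hxG j)
  have hX3' : ∀ j, MvPolynomial.aeval X (G j) = 0 := fun j => by
    have h1 := hX3 j
    have h2 : Int.castRingHom (slowF 𝓕 L H hH) = algebraMap ℤ (slowF 𝓕 L H hH) := rfl
    rwa [h2, MvPolynomial.aeval_map_algebraMap] at h1
  -- the embedding
  obtain ⟨ι⟩ := emb_gm L 𝓕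
  obtain ⟨Y, hY⟩ : ∃ Y : Fin n ⊕ Fin m → Polynomial ℂ, Y = fun i => (X i).map ι := ⟨_, rfl⟩
  have hY1 : ∀ i, LaurentPolynomial.eval₂ (RingHom.id ℂ) 1 (Polynomial.toLaurent (Y i)) =
      ι (x i) := fun i => by
    rw [LaurentPolynomial.eval₂_toLaurent, Units.val_one, Polynomial.eval₂_id, hY,
      Polynomial.eval_one_map, hX1]
  have hx0 : x (Sum.inl l0) ≠ 0 := by
    rw [hxdef]
    exact mk_ne_zero.2 hl0
  obtain ⟨Q, hQ1, hQ2, hQ3, hQ4⟩ := curve G hG (fun i => Polynomial.toLaurent (Y i))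
    (fun i => ι (x i)) hY1 ⟨Sum.inl l0, fun h => hx0 ((map_eq_zero ι).1 h)⟩
    (fun j => by
      rw [hom_aeval (Polynomial.toLaurent (R := ℂ)) Y (G j), hY]
      have h1 := hom_aeval (Polynomial.mapRingHom ι) X (G j)
      rw [hX3' j, map_zero] at h1
      have h2 : (fun i => (X i).map ι) = fun i => (Polynomial.mapRingHom ι) (X i) := rfl
      rw [h2, h1, map_zero])
    (by
      obtain ⟨k, hk⟩ := hX2 (Sum.inl l1) (Sum.inl l0) hx0 (by
        rw [hxdef]
        simp only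
        rw [mk_div]
        exact fun h => hl1 (mk_slow.1 h))
      refine ⟨Sum.inl l1, Sum.inl l0, fun h => ?_⟩
      have h1 : Polynomial.toLaurent (Y (Sum.inl l1) * Polynomial.C (ι (x (Sum.inl l0)))) =
          Polynomial.toLaurent (Y (Sum.inl l0) * Polynomial.C (ι (x (Sum.inl l1)))) := by
        rw [map_mul, map_mul, Polynomial.toLaurent_C, Polynomial.toLaurent_C]
        exact h
      have h2 := congrArg (fun p => Polynomial.coeff p k) (Polynomial.toLaurent_injective h1)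
      rw [Polynomial.coeff_mul_C, Polynomial.coeff_mul_C, hY] at h2
      simp only [Polynomial.coeff_map] at h2
      rw [← map_mul, ← map_mul] at h2
      exact hk (sub_eq_zero.2 (ι.injective h2)))
  refine hnu ⟨fun i => ι (x i), fun j => ?_, fun P hP h0 => ?_, Q, hQ3, hQ2, hQ1, hQ4⟩
  · rw [hom_aeval ι x (G j), hxG j, map_zero]
  · by_contra hVan
    obtain ⟨t0, ht0⟩ := hf2 P ⟨hP, hVan⟩
    rw [hom_aeval ι x P, map_eq_zero, hxval, mk_eq_zero] at h0
    obtain ⟨t, h1, h2⟩ := (h0.and (h𝓕 (eventually_ge_atTop t0))).exists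
    obtain ⟨r, hr⟩ := ht0 t h2
    apply hfz t
    have h3 : MvPolynomial.eval (z t) P = 0 := by exact_mod_cast h1
    rw [hr, map_mul, h3, zero_mul]

end Pool.Agent.Run7.h28.BV
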