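import Mathlib
import Pool.Agent.Run7.h28.BV.NonDense

/-!
# Project BV (helper28): rational points and bounds
-/

set_option autoImplicit false
set_option linter.unusedSectionVars false

namespace Pool.Agent.Run7.h28.BV

/-- the value at a rational point -/
lemma van_rat {σ ι : Type} {G : ι → MvPolynomial σ ℤ} {P : MvPolynomial σ ℤ} (h : Van G P)
    (w : σ → ℚ) (hw : ∀ j, MvPolynomial.aeval w (G j) = 0) : MvPolynomial.aeval w P = 0 := by
  have h1 := h (fun i => algebraMap ℚ ℂ (w i)) (fun j => by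
    rw [hom_aeval (algebraMap ℚ ℂ) w (G j), hw j, map_zero])
  rw [hom_aeval (algebraMap ℚ ℂ) w P] at h1
  exact (map_eq_zero _).1 h1

/-- the coordinates are integers -/
lemma integral2 {n m : ℕ} {ι : Type} (G : ι → MvPolynomial (Fin n ⊕ Fin m) ℤ)
    (F : Fin m → Polynomial (MvPolynomial (Fin n) ℤ)) (hm : ∀ i, (F i).Monic)
    (hF : ∀ i, Van G (eqn (F i) i)) (x : Fin n → ℤ) (y : Fin m → ℚ)
    (h : ∀ i, MvPolynomial.aeval (Sum.elim (fun l => (x l : ℚ)) y) (G i) = 0) :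
    ∃ z : Fin n ⊕ Fin m → ℤ, (∀ l, z (Sum.inl l) = x l) ∧ (∀ i, (z (Sum.inr i) : ℚ) = y i) ∧
      (Sum.elim (fun l => (x l : ℚ)) y = fun j => (z j : ℚ)) ∧
      (∀ i, MvPolynomial.eval z (G i) = 0) := by
  have h1 : ∀ i, ∃ r : ℤ, (r : ℚ) = y i := by
    intro i
    have h3 := van_rat (hF i) _ h
    rw [aeval_eqn] at h3
    exact isInteger_of_is_root_of_monic ((hm i).map _) h3
  choose r hr using h1
  have h3 : (Sum.elim (fun l => (x l : ℚ)) y) = fun j => ((Sum.elim x r j : ℤ) : ℚ) := by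
    funext j
    rcases j with l | j
    · rfl
    · exact (hr j).symm
  refine ⟨Sum.elim x r, fun l => rfl, hr, h3, fun i => ?_⟩
  have h2 := h i
  rw [h3, cast_eval] at h2
  exact_mod_cast h2

/-- the bound for the algebraic coordinates -/
lemma all_bd {n m : ℕ} (q : Fin m → ℕ) (hq : ∀ i, 0 < q i)
    (F : Fin m → Polynomial (MvPolynomial (Fin n) ℤ)) (hFm : ∀ i, (F i).Monic)
    (hFd : ∀ i, (F i).natDegree = q i)
    (hFh : ∀ i, ∀ j ≤ q i, ((F i).coeff j).IsHomogeneous (q i - j)) (C : ℝ) (hC : 0 < C) :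
    ∃ C' : ℝ, 0 < C' ∧ ∀ (M : ℝ) (z : Fin n ⊕ Fin m → ℤ), 1 ≤ M →
      (∀ i, (F i).eval₂ (MvPolynomial.eval fun l => z (Sum.inl l)) (z (Sum.inr i)) = 0) →
      (∀ l, |(z (Sum.inl l) : ℝ)| ≤ (C * M) ^ C) → ∀ i, |(z i : ℝ)| ≤ (C' * M) ^ C' := by
  classical
  obtain ⟨M0, hM0, hbd⟩ := exists_bd F
  obtain ⟨C1, hC1⟩ : ∃ C1 : ℝ, C1 = max C 1 := ⟨_, rfl⟩
  have hC11 : 1 ≤ C1 := by rw [hC1]; exact le_max_right _ _
  have hCC1 : C ≤ C1 := by rw [hC1]; exact le_max_left _ _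
  obtain ⟨N0, hN0⟩ : ∃ N0 : ℝ, N0 = 1 + ∑ i, ((q i : ℝ) * (expo (Fin n) (q i)).card) * M0 :=
    ⟨_, rfl⟩
  obtain ⟨Q0, hQ0⟩ : ∃ Q0 : ℝ, Q0 = 1 + ∑ i, (q i : ℝ) := ⟨_, rfl⟩
  have hN1 : 1 ≤ N0 := by
    rw [hN0]
    have : 0 ≤ ∑ i, ((q i : ℝ) * (expo (Fin n) (q i)).card) * M0 :=
      Finset.sum_nonneg fun _ _ => by positivity
    linarith
  have hQ1 : 1 ≤ Q0 := by
    rw [hQ0]
    have : 0 ≤ ∑ i, (q i : ℝ) := Finset.sum_nonneg fun _ _ => by positivity
    linarith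
  refine ⟨N0 * C1 * Q0, by positivity, fun M z hM hz hx => ?_⟩
  have hb1 : 1 ≤ C1 * M := one_le_mul_of_one_le_of_one_le hC11 hM
  obtain ⟨s, hs⟩ : ∃ s : ℝ, s = (C1 * M) ^ C1 := ⟨_, rfl⟩
  have hs1 : 1 ≤ s := by rw [hs]; exact Real.one_le_rpow hb1 (by linarith)
  have hxs : ∀ l, |(z (Sum.inl l) : ℝ)| ≤ s := fun l => by
    refine (hx l).trans ?_
    rw [hs]
    calc (C * M) ^ C ≤ (C1 * M) ^ C :=
          Real.rpow_le_rpow (by positivity) (mul_le_mul_of_nonneg_right hCC1 (by linarith)) hC.le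
      _ ≤ _ := Real.rpow_le_rpow_of_exponent_le hb1 hCC1
  have key : N0 * s ^ Q0 ≤ (N0 * C1 * Q0 * M) ^ (N0 * C1 * Q0) := by
    have e1 : (1 : ℝ) ≤ N0 * C1 * M :=
      one_le_mul_of_one_le_of_one_le (one_le_mul_of_one_le_of_one_le hN1 hC11) hM
    have e2 : N0 * C1 * M ≤ N0 * C1 * Q0 * M := by
      have : N0 * C1 * Q0 * M = (N0 * C1 * M) * Q0 := by ring
      rw [this]
      exact le_mul_of_one_le_right (by linarith) hQ1
    have e3 : 1 ≤ C1 * Q0 := one_le_mul_of_one_le_of_one_le hC11 hQ1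
    calc N0 * s ^ Q0 = N0 * (C1 * M) ^ (C1 * Q0) := by
          rw [hs, ← Real.rpow_mul (by linarith)]
      _ ≤ N0 ^ (C1 * Q0) * (C1 * M) ^ (C1 * Q0) := by
          refine mul_le_mul_of_nonneg_right ?_ (Real.rpow_nonneg (by linarith) _)
          calc N0 = N0 ^ (1 : ℝ) := (Real.rpow_one _).symm
            _ ≤ _ := Real.rpow_le_rpow_of_exponent_le hN1 e3
      _ = (N0 * C1 * M) ^ (C1 * Q0) := by
          rw [← Real.mul_rpow (by linarith) (by linarith), mul_assoc]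
      _ ≤ (N0 * C1 * Q0 * M) ^ (C1 * Q0) :=
          Real.rpow_le_rpow (by linarith) e2 (by positivity)
      _ ≤ _ := by
          refine Real.rpow_le_rpow_of_exponent_le (by linarith) ?_
          rw [mul_assoc N0]
          exact le_mul_of_one_le_left (by positivity) hN1
  intro i
  refine le_trans ?_ key
  rcases i with l | i
  · calc |(z (Sum.inl l) : ℝ)| ≤ s := hxs l
      _ = s ^ (1 : ℝ) := (Real.rpow_one _).symm
      _ ≤ s ^ Q0 := Real.rpow_le_rpow_of_exponent_le hs1 hQ1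
      _ ≤ N0 * s ^ Q0 := le_mul_of_one_le_left (by positivity) hN1
  · have h1 := (adm_hom (F i) (hFm i) (hFd i) (hFh i) (hbd i)).ord_le (hq i) hM0
      (fun l => z (Sum.inl l)) (z (Sum.inr i)) s hs1 hxs (hz i)
    refine h1.trans ?_
    have h2 : ((q i : ℝ) * (expo (Fin n) (q i)).card) * M0 ≤ N0 := by
      have h3 := Finset.single_le_sum
        (f := fun i => ((q i : ℝ) * (expo (Fin n) (q i)).card) * M0)
        (fun _ _ => by positivity) (Finset.mem_univ i)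
      rw [hN0]
      linarith
    have h4 : s ^ (q i) ≤ s ^ Q0 := by
      rw [← Real.rpow_natCast]
      refine Real.rpow_le_rpow_of_exponent_le hs1 ?_
      have h3 := Finset.single_le_sum (f := fun i => (q i : ℝ))
        (fun _ _ => by positivity) (Finset.mem_univ i)
      rw [hQ0]
      linarith
    calc (q i : ℝ) * (expo (Fin n) (q i)).card * (M0 * s ^ q i) =
          ((q i : ℝ) * (expo (Fin n) (q i)).card) * M0 * s ^ q i := by ring
      _ ≤ N0 * s ^ Q0 := mul_le_mul h2 h4 (by positivity) (by linarith)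

end Pool.Agent.Run7.h28.BV
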