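import Mathlib
import Pool.Agent.H39R3.Tor.SUnit

/-! Uniformity over the number fields of bounded discriminant. -/

open Height NumberField IsDedekindDomain

set_option autoImplicit false

namespace Pool.Agent.Run7.h28.BV

/-- a finite number of constants can be replaced by one of them -/
lemma exists_uniform {ι : Type*} (T : Set ι) (hT : T.Finite) (P : ι → ℝ → Prop)
    (hmono : ∀ i, ∀ C C' : ℝ, 0 < C → C ≤ C' → 1 ≤ C' → P i C → P i C')
    (h : ∀ i ∈ T, ∃ C : ℝ, 0 < C ∧ P i C) : ∃ C : ℝ, 1 ≤ C ∧ ∀ i ∈ T, P i C := by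
  classical
  choose! c hc1 hc2 using h
  refine ⟨1 + ∑ i ∈ hT.toFinset, c i, ?_, fun i hi => ?_⟩
  · have : 0 ≤ ∑ i ∈ hT.toFinset, c i :=
      Finset.sum_nonneg fun i hi => (hc1 i (hT.mem_toFinset.1 hi)).le
    linarith
  · have h0 : c i ≤ ∑ i ∈ hT.toFinset, c i :=
      Finset.single_le_sum (f := c) (fun i hi => (hc1 i (hT.mem_toFinset.1 hi)).le)
        (hT.mem_toFinset.2 hi)
    have h1 := hc1 i hi
    exact hmono i _ _ h1 (by linarith) (by linarith) (hc2 i hi)

lemma bound_mono {C C' M h : ℝ} (hC : 0 < C) (hCC : C ≤ C') (hC1 : 1 ≤ C') (hM : 1 ≤ M)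
    (h1 : h ≤ (C * M) ^ C) : h ≤ (C' * M) ^ C' := by
  have h2 : 1 ≤ C' * M := by nlinarith
  have h3 : 0 ≤ C * M := by positivity
  calc h ≤ (C * M) ^ C := h1
    _ ≤ (C' * M) ^ C := Real.rpow_le_rpow h3 (by nlinarith) hC.le
    _ ≤ (C' * M) ^ C' := Real.rpow_le_rpow_of_exponent_le h2 hCC

/-- the primes of `𝓞 L` above a finite set of positive integers -/
def prAbove (L : Type) [Field L] [NumberField L] (S : Finset ℕ) : Set (HeightOneSpectrum (𝓞 L)) :=
  {w | ∃ p ∈ S, p ≠ 0 ∧ ((p : ℕ) : 𝓞 L) ∈ w.asIdeal}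

lemma finite_prAbove (L : Type) [Field L] [NumberField L] (S : Finset ℕ) :
    (prAbove L S).Finite := by
  have h1 : prAbove L S ⊆ ⋃ p ∈ S, {w | p ≠ 0 ∧ ((p : ℕ) : 𝓞 L) ∈ w.asIdeal} := by
    rintro w ⟨p, hp, hp0, h⟩
    simp only [Set.mem_iUnion]
    exact ⟨p, hp, hp0, h⟩
  refine Set.Finite.subset (Set.Finite.biUnion S.finite_toSet fun p _ => ?_) h1
  by_cases hp : p = 0
  · simp [hp]
  · have h2 : Ideal.span {((p : ℕ) : 𝓞 L)} ≠ 0 := by
      rw [Ne, Ideal.zero_eq_bot, Ideal.span_singleton_eq_bot]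
      exact_mod_cast hp
    refine (Ideal.finite_factors h2).subset ?_
    rintro w ⟨-, hw⟩
    show w.asIdeal ∣ Ideal.span {((p : ℕ) : 𝓞 L)}
    rw [Ideal.dvd_span_singleton]
    exact hw

/-- Hermite: the subfields of `ℂ` of bounded discriminant. -/
lemma hermite (D : ℕ) : {K : { F : IntermediateField ℚ ℂ // FiniteDimensional ℚ F} |
      haveI : NumberField K.1 := @NumberField.mk _ _ inferInstance K.prop
      |discr K.1| ≤ D}.Finite :=
  NumberField.finite_of_discr_bdd ℂ D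

/-- A statement on number fields `L ⊆ ℂ` and places of `L` with a constant for each `L` and each place
holds with one constant for all fields of bounded discriminant and all places above a finite set. -/
theorem uniform_disc (D : ℕ) (Pl : ∀ (L : IntermediateField ℚ ℂ) [NumberField L], Type)
    (T : ∀ (L : IntermediateField ℚ ℂ) [NumberField L], Set (Pl L))
    (hT : ∀ (L : IntermediateField ℚ ℂ) [NumberField L], (T L).Finite)
    (P : ∀ (L : IntermediateField ℚ ℂ) [NumberField L], Pl L → ℝ → Prop)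
    (hmono : ∀ (L : IntermediateField ℚ ℂ) [NumberField L] (v : Pl L) (C C' : ℝ), 0 < C → C ≤ C' →
      1 ≤ C' → P L v C → P L v C')
    (h : ∀ (L : IntermediateField ℚ ℂ) [NumberField L] (v : Pl L), v ∈ T L →
      ∃ C : ℝ, 0 < C ∧ P L v C) :
    ∃ C : ℝ, 1 ≤ C ∧ ∀ (L : IntermediateField ℚ ℂ) [NumberField L], |discr L| ≤ D →
      ∀ v : Pl L, v ∈ T L → P L v C := by
  have key := exists_uniform _ (hermite D)
    (fun K C => haveI : NumberField K.1 := @NumberField.mk _ _ inferInstance K.prop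
      ∀ v : Pl K.1, v ∈ T K.1 → P K.1 v C)
    (fun K C C' h1 h2 h3 h4 => by
      haveI : NumberField K.1 := @NumberField.mk _ _ inferInstance K.prop
      exact fun v hv => hmono K.1 v C C' h1 h2 h3 (h4 v hv))
    (fun K _ => by
      haveI : NumberField K.1 := @NumberField.mk _ _ inferInstance K.prop
      obtain ⟨C, hC, h1⟩ := exists_uniform (T K.1) (hT K.1) (fun v C => P K.1 v C)
        (fun v C C' a b c d => hmono K.1 v C C' a b c d) (fun v hv => h K.1 v hv)
      exact ⟨C, by linarith, h1⟩)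
  obtain ⟨C, hC, hk⟩ := key
  refine ⟨C, hC, fun L i hL v hv => ?_⟩
  have hfd : FiniteDimensional ℚ L := i.2
  exact hk ⟨L, hfd⟩ hL v hv

end Pool.Agent.Run7.h28.BV
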