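import Mathlib
import Pool.Agent.Run7.h28.BV.Herm
import Pool.Agent.Run7.h28.BV.UInt

/-!
# Project BV (helper28): the special set (noetherian induction)
-/

set_option autoImplicit false
set_option linter.unusedSectionVars false

namespace Pool.Agent.Run7.h28.BV

open NumberField IsDedekindDomain Height Module
open Pool.Agent.W180.OP (Pl av wt nrm le_nrm nrm_pos wt_nonneg exists_nrm nrm_nonneg)
open Pool.Agent.N750
open Pool.Agent.Run7.h28.HK

universe u w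

/-- **Noetherian induction for the special set.** -/
theorem special {R : Type u} [CommRing R] [IsNoetherianRing R] {Ctx : Type w} {Pnt : Ctx → Type}
    {Kf : Ctx → Type} [∀ c, Field (Kf c)] (ev : ∀ c, Pnt c → R →+* Kf c)
    (Bd : ∀ c, Pnt c → ℝ → Prop)
    (hBd : ∀ c p C C', 1 ≤ C → C ≤ C' → Bd c p C → Bd c p C') (hom : R → Prop)
    (𝒥 : Ideal R → Prop)
    (h𝒥 : ∀ J a, 𝒥 J → hom a → 𝒥 (J ⊔ Ideal.span {a}))
    (hsplit : ∀ J, 𝒥 J → J ≠ ⊤ → ¬ J.IsPrime → ∃ a b, hom a ∧ hom b ∧ a ∉ J ∧ b ∉ J ∧ a * b ∈ J)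
    (U : Ideal R → Prop)
    (hbase : ∀ J, 𝒥 J → J.IsPrime → ¬ U J → ∃ f, hom f ∧ f ∉ J ∧ ∀ c, ∃ C : ℝ, 1 ≤ C ∧
      ∀ p, (∀ P ∈ J, ev c p P = 0) → ev c p f = 0 ∨ Bd c p C) :
    ∀ J, 𝒥 J → ∃ 𝒬 : Set (Ideal R), 𝒬.Finite ∧ (∀ Q ∈ 𝒬, 𝒥 Q ∧ Q.IsPrime ∧ J ≤ Q ∧ U Q) ∧
      ∀ c, ∃ C : ℝ, 1 ≤ C ∧ ∀ p, (∀ P ∈ J, ev c p P = 0) →
        (∃ Q ∈ 𝒬, ∀ P ∈ Q, ev c p P = 0) ∨ Bd c p C := by
  have hsup : ∀ (J : Ideal R) (a : R) (c : Ctx) (p : Pnt c), (∀ P ∈ J, ev c p P = 0) →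
      ev c p a = 0 → ∀ P ∈ J ⊔ Ideal.span {a}, ev c p P = 0 := by
    intro J a c p hJ ha
    have h1 : J ⊔ Ideal.span {a} ≤ RingHom.ker (ev c p) := by
      refine sup_le hJ ?_
      rw [Ideal.span_le, Set.singleton_subset_iff]
      exact ha
    exact h1
  have hlt : ∀ (J : Ideal R) (a : R), a ∉ J → J < J ⊔ Ideal.span {a} := by
    intro J a ha
    refine lt_of_le_of_ne le_sup_left fun h => ha ?_
    rw [h]
    exact Ideal.mem_sup_right (Ideal.mem_span_singleton_self a)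
  intro J
  refine WellFoundedGT.induction (motive := fun J : Ideal R => 𝒥 J → ∃ 𝒬 : Set (Ideal R), 𝒬.Finite ∧
    (∀ Q ∈ 𝒬, 𝒥 Q ∧ Q.IsPrime ∧ J ≤ Q ∧ U Q) ∧
      ∀ c, ∃ C : ℝ, 1 ≤ C ∧ ∀ p, (∀ P ∈ J, ev c p P = 0) →
        (∃ Q ∈ 𝒬, ∀ P ∈ Q, ev c p P = 0) ∨ Bd c p C) J ?_
  intro J ih hJ
  by_cases htop : J = ⊤
  · refine ⟨∅, Set.finite_empty, fun Q hQ => hQ.elim, fun c => ⟨1, le_rfl, fun p hp => ?_⟩⟩
    exfalso
    have h1 := hp 1 (by rw [htop]; exact Submodule.mem_top)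
    rw [map_one] at h1
    exact one_ne_zero h1
  by_cases hprime : J.IsPrime
  · by_cases hU : U J
    · refine ⟨{J}, Set.finite_singleton J, ?_, fun c => ⟨1, le_rfl, fun p hp => Or.inl ?_⟩⟩
      · rintro Q rfl
        exact ⟨hJ, hprime, le_rfl, hU⟩
      · exact ⟨J, rfl, hp⟩
    · obtain ⟨f, hf, hfJ, hb⟩ := hbase J hJ hprime hU
      obtain ⟨𝒬, h1, h2, h3⟩ := ih (J ⊔ Ideal.span {f}) (hlt J f hfJ) (h𝒥 J f hJ hf)
      refine ⟨𝒬, h1, fun Q hQ => ?_, fun c => ?_⟩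
      · obtain ⟨a1, a2, a3, a4⟩ := h2 Q hQ
        exact ⟨a1, a2, le_sup_left.trans a3, a4⟩
      · obtain ⟨C1, hC1, hb1⟩ := hb c
        obtain ⟨C2, hC2, hb2⟩ := h3 c
        refine ⟨max C1 C2, hC1.trans (le_max_left _ _), fun p hp => ?_⟩
        rcases hb1 p hp with h4 | h4
        · rcases hb2 p (hsup J f c p hp h4) with h5 | h5
          · exact Or.inl h5
          · exact Or.inr (hBd c p _ _ hC2 (le_max_right _ _) h5)
        · exact Or.inr (hBd c p _ _ hC1 (le_max_left _ _) h4)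
  · obtain ⟨a, b, ha, hb, haJ, hbJ, hab⟩ := hsplit J hJ htop hprime
    obtain ⟨𝒬, h1, h2, h3⟩ := ih (J ⊔ Ideal.span {a}) (hlt J a haJ) (h𝒥 J a hJ ha)
    obtain ⟨𝒬', h1', h2', h3'⟩ := ih (J ⊔ Ideal.span {b}) (hlt J b hbJ) (h𝒥 J b hJ hb)
    refine ⟨𝒬 ∪ 𝒬', h1.union h1', fun Q hQ => ?_, fun c => ?_⟩
    · rcases hQ with hQ | hQ
      · obtain ⟨a1, a2, a3, a4⟩ := h2 Q hQ
        exact ⟨a1, a2, le_sup_left.trans a3, a4⟩
      · obtain ⟨a1, a2, a3, a4⟩ := h2' Q hQ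
        exact ⟨a1, a2, le_sup_left.trans a3, a4⟩
    · obtain ⟨C1, hC1, hb1⟩ := h3 c
      obtain ⟨C2, hC2, hb2⟩ := h3' c
      refine ⟨max C1 C2, hC1.trans (le_max_left _ _), fun p hp => ?_⟩
      have h4 := hp _ hab
      rw [map_mul, mul_eq_zero] at h4
      rcases h4 with h4 | h4
      · rcases hb1 p (hsup J a c p hp h4) with ⟨Q, hQ, h5⟩ | h5
        · exact Or.inl ⟨Q, Or.inl hQ, h5⟩
        · exact Or.inr (hBd c p _ _ hC1 (le_max_left _ _) h5)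
      · rcases hb2 p (hsup J b c p hp h4) with ⟨Q, hQ, h5⟩ | h5
        · exact Or.inl ⟨Q, Or.inr hQ, h5⟩
        · exact Or.inr (hBd c p _ _ hC2 (le_max_right _ _) h5)

/-! ### Heights of the values of the elements of a finitely generated algebra -/

/-- the values of an element of a finitely generated `ℚ`-algebra have height at most
`(C M) ^ C` if those of the generators have height at most `M` -/
theorem ht_adjoin {A : Type} [CommRing A] [Algebra ℚ A] {p : ℕ} (τ : Fin p → A)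
    (hτ : Algebra.adjoin ℚ (Set.range τ) = ⊤) (K : Type) [Field K] [NumberField K] (a : A) :
    ∃ C : ℝ, 1 ≤ C ∧ ∀ (s : A →+* K) (M : ℝ), 1 ≤ M → (∀ i, mulHeight₁ (s (τ i)) ≤ M) →
      mulHeight₁ (s a) ≤ (C * M) ^ C := by
  have ha : a ∈ Algebra.adjoin ℚ (Set.range τ) := by
    rw [hτ]
    exact Algebra.mem_top
  have hone : ∀ {C M : ℝ}, 1 ≤ C → 1 ≤ M → 1 ≤ (C * M) ^ C := fun h1 h2 =>
    Real.one_le_rpow (by nlinarith) (by linarith)
  have hself : ∀ {C M : ℝ}, 1 ≤ C → 1 ≤ M → C * M ≤ (C * M) ^ C := fun {C M} h1 h2 => by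
    have h3 : 1 ≤ C * M := by nlinarith
    calc C * M = (C * M) ^ (1 : ℝ) := (Real.rpow_one _).symm
      _ ≤ (C * M) ^ C := Real.rpow_le_rpow_of_exponent_le h3 h1
  induction ha using Algebra.adjoin_induction with
  | mem x hx =>
    obtain ⟨i, rfl⟩ := hx
    refine ⟨1, le_rfl, fun s M hM h => ?_⟩
    rw [one_mul, Real.rpow_one]
    exact h i
  | algebraMap r =>
    refine ⟨mulHeight₁ ((r : ℚ) : K), one_le_mulHeight₁ _, fun s M hM h => ?_⟩
    have h1 : s (algebraMap ℚ A r) = ((r : ℚ) : K) := by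
      have h2 : (s.comp (algebraMap ℚ A)) r = ((r : ℚ) : K) := by
        exact eq_ratCast (s.comp (algebraMap ℚ A)) r
      exact h2
    rw [h1]
    have h3 : (1 : ℝ) ≤ mulHeight₁ ((r : ℚ) : K) := one_le_mulHeight₁ _
    exact le_trans (by nlinarith) (hself h3 hM)
  | add x y _ _ hx hy =>
    obtain ⟨C, hC, h⟩ := hx
    obtain ⟨C', hC', h'⟩ := hy
    have h2 : (1 : ℝ) ≤ 2 ^ totalWeight K := one_le_pow₀ (by norm_num)
    refine ⟨2 ^ totalWeight K + C + C', by linarith, fun s M hM hs => ?_⟩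
    rw [map_add]
    obtain ⟨W, hW⟩ : ∃ W : ℝ, W = (2 ^ totalWeight K + C + C') * M := ⟨_, rfl⟩
    rw [← hW]
    have hW1 : 1 ≤ W := by rw [hW]; nlinarith
    have hW0 : 0 ≤ W := by linarith
    have e1 : mulHeight₁ (s x) ≤ W ^ C := (h s M hM hs).trans
      (Real.rpow_le_rpow (by nlinarith) (by rw [hW]; nlinarith) (by linarith))
    have e2 : mulHeight₁ (s y) ≤ W ^ C' := (h' s M hM hs).trans
      (Real.rpow_le_rpow (by nlinarith) (by rw [hW]; nlinarith) (by linarith))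
    have e3 : (2 : ℝ) ^ totalWeight K ≤ W ^ (1 : ℝ) := by
      rw [Real.rpow_one, hW]
      nlinarith
    have e4 : W ^ (1 : ℝ) ≤ W ^ ((2 : ℝ) ^ totalWeight K) :=
      Real.rpow_le_rpow_of_exponent_le hW1 h2
    calc mulHeight₁ (s x + s y) ≤ 2 ^ totalWeight K * (mulHeight₁ (s x) * mulHeight₁ (s y)) := by
          rw [← mul_assoc]
          exact mulHeight₁_add_le _ _
      _ ≤ W ^ ((2 : ℝ) ^ totalWeight K) * (W ^ C * W ^ C') :=
          mul_le_mul (e3.trans e4) (mul_le_mul e1 e2 (mulHeight₁_pos _).le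
            (Real.rpow_nonneg hW0 _)) (mul_nonneg (mulHeight₁_pos _).le (mulHeight₁_pos _).le)
            (Real.rpow_nonneg hW0 _)
      _ = W ^ ((2 : ℝ) ^ totalWeight K + C + C') := by
          rw [← Real.rpow_add (by linarith), ← Real.rpow_add (by linarith), add_assoc]
  | mul x y _ _ hx hy =>
    obtain ⟨C, hC, h⟩ := hx
    obtain ⟨C', hC', h'⟩ := hy
    refine ⟨C + C', by linarith, fun s M hM hs => ?_⟩
    rw [map_mul]
    obtain ⟨W, hW⟩ : ∃ W : ℝ, W = (C + C') * M := ⟨_, rfl⟩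
    rw [← hW]
    have hW1 : 1 ≤ W := by rw [hW]; nlinarith
    have hW0 : 0 ≤ W := by linarith
    have e1 : mulHeight₁ (s x) ≤ W ^ C := (h s M hM hs).trans
      (Real.rpow_le_rpow (by nlinarith) (by rw [hW]; nlinarith) (by linarith))
    have e2 : mulHeight₁ (s y) ≤ W ^ C' := (h' s M hM hs).trans
      (Real.rpow_le_rpow (by nlinarith) (by rw [hW]; nlinarith) (by linarith))
    calc mulHeight₁ (s x * s y) ≤ mulHeight₁ (s x) * mulHeight₁ (s y) := mulHeight₁_mul_le _ _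
      _ ≤ W ^ C * W ^ C' := mul_le_mul e1 e2 (mulHeight₁_pos _).le (Real.rpow_nonneg hW0 _)
      _ = W ^ (C + C') := by rw [← Real.rpow_add (by linarith)]

/-- the same for finitely many elements -/
theorem ht_adjoin_finset {A : Type} [CommRing A] [Algebra ℚ A] {p : ℕ} (τ : Fin p → A)
    (hτ : Algebra.adjoin ℚ (Set.range τ) = ⊤) (K : Type) [Field K] [NumberField K] (T : Finset A) :
    ∃ C : ℝ, 1 ≤ C ∧ ∀ (s : A →+* K) (M : ℝ), 1 ≤ M → (∀ i, mulHeight₁ (s (τ i)) ≤ M) →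
      ∀ a ∈ T, mulHeight₁ (s a) ≤ (C * M) ^ C := by
  obtain ⟨C, hC, h⟩ := exists_uniform (↑T : Set A) T.finite_toSet
    (fun a C => ∀ (s : A →+* K) (M : ℝ), 1 ≤ M → (∀ i, mulHeight₁ (s (τ i)) ≤ M) →
      mulHeight₁ (s a) ≤ (C * M) ^ C)
    (fun a C C' h1 h2 h3 h4 s M hM hs => bound_mono h1 h2 h3 hM (h4 s M hM hs))
    (fun a _ => by
      obtain ⟨C, hC, h⟩ := ht_adjoin τ hτ K a
      exact ⟨C, by linarith, h⟩)
  exact ⟨C, hC, fun s M hM hs a ha => h a ha s M hM hs⟩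

/-- heights of the coefficients of finitely many polynomials -/
theorem ht_adjoin_coeff {A : Type} [CommRing A] [Algebra ℚ A] {p : ℕ} (τ : Fin p → A)
    (hτ : Algebra.adjoin ℚ (Set.range τ) = ⊤) (K : Type) [Field K] [NumberField K] {ι σ : Type}
    [Finite ι] (G : ι → MvPolynomial σ A) :
    ∃ C : ℝ, 1 ≤ C ∧ ∀ (s : A →+* K) (M : ℝ), 1 ≤ M → (∀ i, mulHeight₁ (s (τ i)) ≤ M) →
      ∀ j e, mulHeight₁ (s ((G j).coeff e)) ≤ (C * M) ^ C := by
  classical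
  cases nonempty_fintype ι
  obtain ⟨C, hC, h⟩ := ht_adjoin_finset τ hτ K
    (Finset.univ.biUnion fun j => (G j).support.image fun e => (G j).coeff e)
  refine ⟨C, hC, fun s M hM hs j e => ?_⟩
  by_cases he : e ∈ (G j).support
  · refine h s M hM hs _ ?_
    rw [Finset.mem_biUnion]
    exact ⟨j, Finset.mem_univ j, Finset.mem_image_of_mem _ he⟩
  · rw [MvPolynomial.notMem_support_iff.1 he, map_zero, mulHeight₁_zero]
    exact Real.one_le_rpow (by nlinarith) (by linarith)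

end Pool.Agent.Run7.h28.BV
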