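import Mathlib
import Pool.Agent.Run7.h28.BV.Spec

/-!
# Project BV (helper28): the special set for all number fields
-/

set_option autoImplicit false
set_option linter.unusedSectionVars false

namespace Pool.Agent.Run7.h28.BV

open NumberField IsDedekindDomain Height Module
open Pool.Agent.W180.OP (Pl av wt nrm le_nrm nrm_pos wt_nonneg exists_nrm nrm_nonneg)
open Pool.Agent.N750
open Pool.Agent.Run7.h28.HK

lemma bound_comp {C0 C3 : ℝ} (h0 : 0 < C0) (h3 : 1 ≤ C3) : ∃ C : ℝ, 1 ≤ C ∧ ∀ M h : ℝ, 1 ≤ M →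
    h ≤ (C0 * (C3 * M) ^ C3) ^ C0 → h ≤ (C * M) ^ C := by
  obtain ⟨D, hD⟩ : ∃ D : ℝ, D = C0 + C3 + 1 := ⟨_, rfl⟩
  have hD1 : 1 ≤ D := by linarith
  refine ⟨D * (1 + D), by nlinarith, fun M h hM hh => ?_⟩
  obtain ⟨W, hW⟩ : ∃ W : ℝ, W = D * M := ⟨_, rfl⟩
  have hW1 : 1 ≤ W := by rw [hW]; nlinarith
  have hW0 : 0 ≤ W := by linarith
  have hWM : W ≤ D * (1 + D) * M := by
    rw [hW]
    have : 0 ≤ D * D * M := by positivity
    nlinarith
  have e1 : C0 ≤ W := by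
    rw [hW]
    nlinarith
  have e2 : C3 * M ≤ W := by
    rw [hW]
    nlinarith
  have e3 : (C3 * M) ^ C3 ≤ W ^ D :=
    (Real.rpow_le_rpow (by nlinarith) e2 (by linarith)).trans
      (Real.rpow_le_rpow_of_exponent_le hW1 (by linarith))
  have e4 : C0 * (C3 * M) ^ C3 ≤ W ^ (1 + D) := by
    rw [Real.rpow_add (by linarith), Real.rpow_one]
    exact mul_le_mul e1 e3 (Real.rpow_nonneg (by nlinarith) _) hW0
  have e5 : 0 ≤ C0 * (C3 * M) ^ C3 :=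
    mul_nonneg h0.le (Real.rpow_nonneg (by nlinarith) _)
  calc h ≤ (C0 * (C3 * M) ^ C3) ^ C0 := hh
    _ ≤ (W ^ (1 + D)) ^ C0 := Real.rpow_le_rpow e5 e4 h0.le
    _ = W ^ ((1 + D) * C0) := by rw [Real.rpow_mul hW0]
    _ ≤ W ^ (D * (1 + D)) := Real.rpow_le_rpow_of_exponent_le hW1 (by nlinarith)
    _ ≤ (D * (1 + D) * M) ^ (D * (1 + D)) :=
        Real.rpow_le_rpow hW0 hWM (by nlinarith)

lemma Sparse.monoM {K : Type} [Field K] [NumberField K] {Γ : Subgroup Kˣ} {k : ℕ} {M M' : ℝ}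
    {x : K} (hM : M ≤ M') (h : Sparse Γ k M x) : Sparse Γ k M' x := by
  obtain ⟨a, u, h1, h2, h3⟩ := h
  exact ⟨a, u, fun r => (h1 r).trans hM, h2, h3⟩

lemma Near.monoM {K : Type} [Field K] [NumberField K] {Γ : Subgroup Kˣ} {v : Pl K}
    {B δ M M' h : ℝ} (hM : M ≤ M') (hh : 0 ≤ h) {q : ℕ} {F : Polynomial K}
    (hN : Near Γ v B δ M h q F) : Near Γ v B δ M' h q F := by
  obtain ⟨a, z, E, h1, h2, h3, h4, h5, h6, h7, h8, h9⟩ := hN
  have h10 : ∀ t : ℝ, M * h ^ t ≤ M' * h ^ t := fun t =>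
    mul_le_mul_of_nonneg_right hM (Real.rpow_nonneg hh _)
  exact ⟨a, z, E, h1, h2, h3, h4, h5, fun j => (h6 j).trans hM, h7.trans (h10 _),
    h8.trans (h10 _), fun j hj => (h9 j hj).trans (h10 _)⟩

/-- a number field with a finitely generated group and a place -/
structure CtxP where
  K : Type
  [fld : Field K]
  [nf : NumberField K]
  Γ : Subgroup Kˣ
  hΓ : Γ.FG
  v : Pl K

attribute [instance] CtxP.fld CtxP.nf

/-- the sparse points near an unramified point -/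
structure PntP {A : Type} [CommRing A] {p : ℕ} (τ : Fin p → A) (n m k : ℕ) (B δ : ℝ)
    (F : Fin m → Polynomial (MvPolynomial (Fin n) A)) (c : CtxP) where
  M : ℝ
  s : A →+* c.K
  x : Fin n → c.K
  y : Fin m → c.K
  hM : 1 ≤ M
  hτ : ∀ i, mulHeight₁ (s (τ i)) ≤ M
  hx : x ≠ 0
  hsp : ∀ l, Sparse c.Γ k M (x l)
  hxb : ∀ l, mulHeight₁ (x l) ≤ M * mulHeight x ^ B
  hnear : ∀ i, Near c.Γ c.v B δ M (mulHeight x) (F i).natDegree
    ((F i).map (MvPolynomial.eval₂Hom s x))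

/-- spanned by finitely many forms -/
def Forms {A σ : Type} [CommRing A] (J : Ideal (MvPolynomial σ A)) : Prop :=
  ∃ (g : ℕ) (G : Fin g → MvPolynomial σ A), (∀ j, ∃ e, (G j).IsHomogeneous e) ∧
    J = Ideal.span (Set.range G)

lemma Forms.sup {A σ : Type} [CommRing A] {J : Ideal (MvPolynomial σ A)} (hJ : Forms J)
    {a : MvPolynomial σ A} (ha : ∃ e, a.IsHomogeneous e) : Forms (J ⊔ Ideal.span {a}) := by
  obtain ⟨g, G, hG, rfl⟩ := hJ
  refine ⟨g + 1, Fin.cons a G, fun j => ?_, ?_⟩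
  · refine Fin.cases ?_ (fun j => ?_) j
    · rw [Fin.cons_zero]
      exact ha
    · rw [Fin.cons_succ]
      exact hG j
  · rw [Fin.range_cons, Ideal.span_insert, sup_comm]

attribute [local instance] MvPolynomial.gradedAlgebra in
lemma Forms.split {A σ : Type} [CommRing A] {J : Ideal (MvPolynomial σ A)} (hJ : Forms J)
    (htop : J ≠ ⊤) (hp : ¬ J.IsPrime) : ∃ a b : MvPolynomial σ A, (∃ e, a.IsHomogeneous e) ∧
      (∃ e, b.IsHomogeneous e) ∧ a ∉ J ∧ b ∉ J ∧ a * b ∈ J := by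
  classical
  obtain ⟨g, G, hG, hJG⟩ := hJ
  have hhom : J.IsHomogeneous (MvPolynomial.homogeneousSubmodule σ A) := by
    rw [hJG]
    refine Ideal.homogeneous_span _ _ ?_
    rintro _ ⟨j, rfl⟩
    obtain ⟨e, he⟩ := hG j
    exact ⟨e, (MvPolynomial.mem_homogeneousSubmodule _ _).2 he⟩
  by_contra hcon
  push Not at hcon
  refine hp (hhom.isPrime_of_homogeneous_mem_or_mem htop fun {a b} ha hb hab => ?_)
  obtain ⟨e, he⟩ := ha
  obtain ⟨e', he'⟩ := hb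
  by_contra h
  push Not at h
  exact hcon a b ⟨e, (MvPolynomial.mem_homogeneousSubmodule _ _).1 he⟩
    ⟨e', (MvPolynomial.mem_homogeneousSubmodule _ _).1 he'⟩ h.1 h.2 hab

/-- heights of the coefficients of polynomials over a polynomial ring -/
theorem ht_adjoin_coeff' {A : Type} [CommRing A] [Algebra ℚ A] {p : ℕ} (τ : Fin p → A)
    (hτ : Algebra.adjoin ℚ (Set.range τ) = ⊤) (K : Type) [Field K] [NumberField K] {n m : ℕ}
    (F : Fin m → Polynomial (MvPolynomial (Fin n) A)) :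
    ∃ C : ℝ, 1 ≤ C ∧ ∀ (s : A →+* K) (M : ℝ), 1 ≤ M → (∀ i, mulHeight₁ (s (τ i)) ≤ M) →
      ∀ i j e, mulHeight₁ (s (((F i).coeff j).coeff e)) ≤ (C * M) ^ C := by
  obtain ⟨C, hC, h⟩ := ht_adjoin_coeff τ hτ K
    (fun t : (Σ i : Fin m, Fin ((F i).natDegree + 1)) => (F t.1).coeff (t.2 : ℕ))
  refine ⟨C, hC, fun s M hM hs i j e => ?_⟩
  by_cases hj : j ≤ (F i).natDegree
  · exact h s M hM hs ⟨i, ⟨j, by omega⟩⟩ e
  · rw [Polynomial.coeff_eq_zero_of_natDegree_lt (by omega), MvPolynomial.coeff_zero, map_zero,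
      mulHeight₁_zero]
    exact Real.one_le_rpow (by nlinarith) (by linarith)

/-- **The special set**, projective varieties. -/
theorem specialP {A : Type} [CommRing A] [Algebra ℚ A] {p : ℕ} (τ : Fin p → A)
    (hτ : Algebra.adjoin ℚ (Set.range τ) = ⊤) (n m k : ℕ) (B δ : ℝ) (hδ : 0 < δ)
    (I : Ideal (MvPolynomial (Fin n ⊕ Fin m) A)) (hI : Forms I)
    (F : Fin m → Polynomial (MvPolynomial (Fin n) A)) (hFm : ∀ i, (F i).Monic)
    (hFG : ∀ i, eqA (F i) i ∈ I) :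
    ∃ 𝒬 : Set (Ideal (MvPolynomial (Fin n ⊕ Fin m) A)), 𝒬.Finite ∧
      (∀ Q ∈ 𝒬, Forms Q ∧ Q.IsPrime ∧ I ≤ Q ∧ CN.UniruledA Q) ∧
      ∀ (K : Type) [Field K] [NumberField K] (Γ : Subgroup Kˣ), Γ.FG → ∀ v : Pl K,
      ∃ C : ℝ, 1 ≤ C ∧ ∀ (M : ℝ) (s : A →+* K) (x : Fin n → K) (y : Fin m → K), 1 ≤ M →
        (∀ i, mulHeight₁ (s (τ i)) ≤ M) →
        x ≠ 0 → (∀ P ∈ I, MvPolynomial.eval₂ s (Sum.elim x y) P = 0) →
        (∀ l, Sparse Γ k M (x l)) → (∀ l, mulHeight₁ (x l) ≤ M * mulHeight x ^ B) →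
        (∀ i, Near Γ v B δ M (mulHeight x) (F i).natDegree
          ((F i).map (MvPolynomial.eval₂Hom s x))) →
        (∃ Q ∈ 𝒬, ∀ P ∈ Q, MvPolynomial.eval₂ s (Sum.elim x y) P = 0) ∨
          mulHeight x ≤ (C * M) ^ C := by
  classical
  have hNA : IsNoetherianRing A := by
    have h1 : Algebra.FiniteType ℚ A :=
      ⟨⟨Finset.univ.image τ, by rw [Finset.coe_image, Finset.coe_univ, Set.image_univ]; exact hτ⟩⟩
    exact Algebra.FiniteType.isNoetherianRing ℚ A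
  obtain ⟨𝒬, h1, h2, h3⟩ := special (Ctx := CtxP) (Pnt := PntP τ n m k B δ F)
    (Kf := fun c => c.K) (fun c t => MvPolynomial.eval₂Hom t.s (Sum.elim t.x t.y))
    (fun c t C => mulHeight t.x ≤ (C * t.M) ^ C)
    (fun c t C C' h1 h2 h3 => bound_mono (by linarith) h2 (by linarith) t.hM h3)
    (fun a => ∃ e, a.IsHomogeneous e) (fun J => Forms J ∧ I ≤ J)
    (fun J a hJ ha => ⟨hJ.1.sup ha, hJ.2.trans le_sup_left⟩)
    (fun J hJ htop hp => hJ.1.split htop hp)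
    CN.UniruledA
    (by
      rintro J ⟨⟨g, G, hG, rfl⟩, hIJ⟩ hJp hJU
      obtain ⟨f, hf1, hf2, h⟩ := strongP n m g k B δ hδ G hG hJp hJU F hFm
        (fun i => hIJ (hFG i))
      refine ⟨f, hf1, hf2, fun c => ?_⟩
      obtain ⟨C0, hC0, hb⟩ := h c.K c.Γ c.hΓ c.v
      obtain ⟨C1, hC1, hb1⟩ := ht_adjoin_coeff τ hτ c.K G
      obtain ⟨C2, hC2, hb2⟩ := ht_adjoin_coeff' τ hτ c.K F
      obtain ⟨C3, hC3⟩ : ∃ C3, C3 = max C1 C2 := ⟨_, rfl⟩
      have hC31 : 1 ≤ C3 := by rw [hC3]; exact hC1.trans (le_max_left _ _)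
      obtain ⟨C, hC, hb3⟩ := bound_comp hC0 hC31
      refine ⟨C, hC, fun t ht => ?_⟩
      have hMM : t.M ≤ (C3 * t.M) ^ C3 := by
        have hM := t.hM
        have h5 : 1 ≤ C3 * t.M := by nlinarith
        calc t.M ≤ C3 * t.M := by nlinarith
          _ = (C3 * t.M) ^ (1 : ℝ) := (Real.rpow_one _).symm
          _ ≤ (C3 * t.M) ^ C3 := Real.rpow_le_rpow_of_exponent_le h5 hC31
      have hx0 : 0 ≤ mulHeight t.x := (mulHeight_pos _).le
      have h6 := hb ((C3 * t.M) ^ C3) t.s t.x t.y (t.hM.trans hMM)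
        (fun j e => bound_mono (by linarith) (hC3 ▸ le_max_left _ _) hC31 t.hM
          (hb1 t.s t.M t.hM t.hτ j e))
        (fun i j e => bound_mono (by linarith) (hC3 ▸ le_max_right _ _) hC31 t.hM
          (hb2 t.s t.M t.hM t.hτ i j e))
        t.hx (fun j => ht _ (Ideal.subset_span ⟨j, rfl⟩))
        (fun l => (t.hsp l).monoM hMM)
        (fun l => (t.hxb l).trans (mul_le_mul_of_nonneg_right hMM (Real.rpow_nonneg hx0 _)))
        (fun i => (t.hnear i).monoM hMM hx0)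
      exact h6.imp_right (hb3 _ _ t.hM))
    I ⟨hI, le_rfl⟩
  refine ⟨𝒬, h1, fun Q hQ => ⟨(h2 Q hQ).1.1, (h2 Q hQ).2.1, (h2 Q hQ).2.2.1, (h2 Q hQ).2.2.2⟩,
    fun K _ _ Γ hΓ v => ?_⟩
  obtain ⟨C, hC, hb⟩ := h3 ⟨K, Γ, hΓ, v⟩
  exact ⟨C, hC, fun M s x y a1 a2 a3 a4 a5 a6 a7 => hb ⟨M, s, x, y, a1, a2, a3, a5, a6, a7⟩ a4⟩

end Pool.Agent.Run7.h28.BV
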