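import Mathlib
import Pool.Agent.Run7.h28.BV.CurT
import Pool.Agent.Run7.h28.BV.Spec2
import Pool.Agent.TH551.HE.Rat

/-!
# Project BV (helper28): integral points above sparse points, families over finitely generated algebras,
and hyperelliptic curves
-/

set_option autoImplicit false
set_option linter.unusedSectionVars false

open Filter Topology

namespace Pool.Agent.Run7.h28.BV

open NumberField IsDedekindDomain Height Module
open Pool.Agent.W180.OP (Pl av wt nrm le_nrm nrm_pos wt_nonneg exists_nrm nrm_nonneg)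
open Pool.Agent.N750
open Pool.Agent.Run7.h28.HK

/-- **A curve through each integral point** of large height, families. -/
theorem curveTt {A : Type} [CommRing A] [Algebra ℚ A] {p : ℕ} (τ : Fin p → A)
    (hτ : Algebra.adjoin ℚ (Set.range τ) = ⊤) (n m g k : ℕ) (B δ : ℝ) (hδ : 0 < δ)
    (G : Fin g → MvPolynomial (Fin n ⊕ Fin m) A)
    (F : Fin m → Polynomial (MvPolynomial (Fin n) A)) (hq : ∀ i, 0 < (F i).natDegree)
    (hFG : ∀ i, eqA (F i) i ∈ Ideal.span (Set.range G))
    (K : Type) [Field K] [NumberField K] (Γ : Subgroup Kˣ) (hΓ : Γ.FG) (v : Pl K)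
    (S0 : Finset (HeightOneSpectrum (𝓞 K))) :
      ∃ C : ℝ, 1 ≤ C ∧ ∀ (M : ℝ) (s : A →+* K) (x : Fin n → K) (y b : Fin m → K), 1 ≤ M →
        (∀ i, mulHeight₁ (s (τ i)) ≤ M) →
        (∀ j, MvPolynomial.eval₂ s (Sum.elim x y) (G j) = 0) →
        (∀ l, Sparse Γ k M (x l)) →
        (∀ i, b i ≠ 0 ∧ mulHeight₁ (b i) ≤ M ∧
          ∀ w, w ∉ S0 → av (Sum.inr w : Pl K) (b i * y i) ≤ 1) →
        (∀ i, Near Γ v B δ M (∏ l, mulHeight₁ (x l)) (F i).natDegree
          ((F i).map (MvPolynomial.eval₂Hom s x))) →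
        (∃ p : Fin n ⊕ Fin m → LaurentPolynomial K,
          (∀ i, LaurentPolynomial.eval₂ (RingHom.id K) 1 (p i) = Sum.elim x y i) ∧
          (∀ j, MvPolynomial.eval₂ ((LaurentPolynomial.C : K →+* LaurentPolynomial K).comp s) p
            (G j) = 0) ∧
          ∃ l, ¬ ∃ a, p (Sum.inl l) = LaurentPolynomial.C a) ∨
        ∀ l, mulHeight₁ (x l) ≤ (C * M) ^ C := by
  obtain ⟨C0, hC0, hb⟩ := curveT n m g k B δ hδ G F hq hFG K Γ hΓ v S0
  obtain ⟨C1, hC1, hb1⟩ := ht_adjoin_coeff τ hτ K G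
  obtain ⟨C2, hC2, hb2⟩ := ht_adjoin_coeff' τ hτ K F
  obtain ⟨C3, hC3⟩ : ∃ C3, C3 = max C1 C2 := ⟨_, rfl⟩
  have hC31 : 1 ≤ C3 := by rw [hC3]; exact hC1.trans (le_max_left _ _)
  obtain ⟨C, hC, hb3⟩ := bound_comp hC0 hC31
  refine ⟨C, hC, fun M s x y b hM hτM h1 h2 h3 h4 => ?_⟩
  have hMM : M ≤ (C3 * M) ^ C3 := by
    have h5 : 1 ≤ C3 * M := by nlinarith
    calc M ≤ C3 * M := by nlinarith
      _ = (C3 * M) ^ (1 : ℝ) := (Real.rpow_one _).symm
      _ ≤ (C3 * M) ^ C3 := Real.rpow_le_rpow_of_exponent_le h5 hC31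
  have hx0 : 0 ≤ ∏ l, mulHeight₁ (x l) :=
    Finset.prod_nonneg fun l _ => (mulHeight₁_pos _).le
  have h6 := hb ((C3 * M) ^ C3) s x y b (hM.trans hMM)
    (fun j e => bound_mono (by linarith) (hC3 ▸ le_max_left _ _) hC31 hM (hb1 s M hM hτM j e))
    (fun i j e => bound_mono (by linarith) (hC3 ▸ le_max_right _ _) hC31 hM
      (hb2 s M hM hτM i j e))
    h1 (fun l => (h2 l).monoM hMM)
    (fun i => ⟨(h3 i).1, (h3 i).2.1.trans hMM, (h3 i).2.2⟩)
    (fun i => (h4 i).monoM hMM hx0)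
  exact h6.imp_right (fun h7 l => hb3 _ _ hM (h7 l))

/-! ### Hyperelliptic curves -/

/-- there are no nonconstant maps from the multiplicative group to a hyperelliptic curve -/
theorem no_laurent {K : Type} [Field K] [CharZero K] (f : Polynomial K) (hf : f.Separable)
    (hd : 3 ≤ f.natDegree) (X Y : LaurentPolynomial K)
    (h : Y ^ 2 = ∑ i ∈ Finset.range (f.natDegree + 1), LaurentPolynomial.C (f.coeff i) * X ^ i) :
    ∃ c, X = LaurentPolynomial.C c := by
  obtain ⟨N1, P1, hP1⟩ := LaurentPolynomial.exists_T_pow X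
  obtain ⟨N2, P2, hP2⟩ := LaurentPolynomial.exists_T_pow Y
  obtain ⟨N, hN⟩ : ∃ N, N = N1 + N2 := ⟨_, rfl⟩
  have h1 : Polynomial.toLaurent (P1 * Polynomial.X ^ N2) = X * LaurentPolynomial.T N := by
    rw [map_mul, hP1, Polynomial.toLaurent_X_pow, mul_assoc, ← LaurentPolynomial.T_add, hN]
    push_cast
    rfl
  have h2 : Polynomial.toLaurent (P2 * Polynomial.X ^ N1) = Y * LaurentPolynomial.T N := by
    rw [map_mul, hP2, Polynomial.toLaurent_X_pow, mul_assoc, ← LaurentPolynomial.T_add, hN,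
      add_comm (N2 : ℤ)]
    push_cast
    rfl
  have h3 : Polynomial.toLaurent (Polynomial.X ^ N : Polynomial K) = LaurentPolynomial.T N :=
    Polynomial.toLaurent_X_pow N
  obtain ⟨c, c', h4, -⟩ := Pool.Agent.TH551.HE.no_param K f hf hd (P1 * Polynomial.X ^ N2)
    (Polynomial.X ^ N) (P2 * Polynomial.X ^ N1) (pow_ne_zero _ Polynomial.X_ne_zero) (by
      apply Polynomial.toLaurent_injective
      rw [map_mul, map_pow, map_pow, h2, h3, map_sum, mul_pow, h, mul_assoc, ← pow_add,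
        show 2 + (f.natDegree - 2) = f.natDegree by omega, Finset.sum_mul]
      refine Finset.sum_congr rfl fun i hi => ?_
      have hi' : i ≤ f.natDegree := Nat.lt_succ_iff.1 (Finset.mem_range.1 hi)
      rw [map_mul, map_mul, map_pow, map_pow, h1, h3, Polynomial.toLaurent_C, mul_pow,
        mul_assoc, mul_assoc, mul_assoc, ← pow_add, Nat.add_sub_cancel' hi'])
  refine ⟨c, ?_⟩
  have h5 : X * LaurentPolynomial.T N = LaurentPolynomial.C c * LaurentPolynomial.T N := by
    rw [← h1, h4, map_mul, Polynomial.toLaurent_C, h3]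
  have h6 : (LaurentPolynomial.T (N : ℤ) : LaurentPolynomial K) * LaurentPolynomial.T (-(N : ℤ)) =
      1 := by
    rw [← LaurentPolynomial.T_add, add_neg_cancel, LaurentPolynomial.T_zero]
  have h7 := congrArg (fun p => p * (LaurentPolynomial.T (-(N : ℤ)) : LaurentPolynomial K)) h5
  simp only [mul_assoc, h6, mul_one] at h7
  exact h7

/-- the coefficients of the generic polynomial -/
abbrev AH (d : ℕ) : Type := MvPolynomial (Fin (d + 1)) ℚ

/-- `Y ^ 2 - f (x)` for the generic polynomial `f` of degree `d` -/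
noncomputable def FH (d : ℕ) : Polynomial (MvPolynomial (Fin 1) (AH d)) :=
  Polynomial.X ^ 2 - Polynomial.C (∑ i : Fin (d + 1), MvPolynomial.C (MvPolynomial.X i) *
    MvPolynomial.X 0 ^ (i : ℕ))

lemma FH_deg (d : ℕ) : (FH d).natDegree = 2 := Polynomial.natDegree_X_pow_sub_C

/-- the specialisation at the coefficients of `f` -/
noncomputable def sH {K : Type} [Field K] [CharZero K] (d : ℕ) (f : Polynomial K) : AH d →+* K :=
  MvPolynomial.eval₂Hom (algebraMap ℚ K) (fun i => f.coeff i)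

lemma FH_map {K R : Type} [Field K] [CharZero K] [CommRing R] (d : ℕ) (f : Polynomial K)
    (g : K →+* R) (x : Fin 1 → R) :
    (FH d).map (MvPolynomial.eval₂Hom (g.comp (sH d f)) x) = Polynomial.X ^ 2 -
      Polynomial.C (∑ i ∈ Finset.range (d + 1), g (f.coeff i) * x 0 ^ i) := by
  rw [FH, Polynomial.map_sub, Polynomial.map_pow, Polynomial.map_X, Polynomial.map_C, map_sum]
  congr 2
  rw [← Fin.sum_univ_eq_sum_range (fun i => g (f.coeff i) * x 0 ^ i) (d + 1)]
  refine Finset.sum_congr rfl fun i _ => ?_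
  rw [map_mul, map_pow, MvPolynomial.eval₂Hom_C, MvPolynomial.eval₂Hom_X', RingHom.comp_apply]
  congr 2
  unfold sH
  rw [MvPolynomial.eval₂Hom_X']

/-- **Hyperelliptic curves**: the height of the integral points above sparse points near an
unramified point is bounded polynomially, uniformly. -/
theorem hyperell (d : ℕ) (hd : 3 ≤ d) (k : ℕ) (B δ : ℝ) (hδ : 0 < δ) (K : Type) [Field K]
    [NumberField K] (Γ : Subgroup Kˣ) (hΓ : Γ.FG) (v : Pl K)
    (S0 : Finset (HeightOneSpectrum (𝓞 K))) : ∃ C : ℝ, 1 ≤ C ∧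
      ∀ (M : ℝ) (f : Polynomial K) (x y b : K), 1 ≤ M → f.natDegree = d → f.Separable →
        (∀ i, mulHeight₁ (f.coeff i) ≤ M) → y ^ 2 = f.eval x → Sparse Γ k M x →
        b ≠ 0 → mulHeight₁ b ≤ M → (∀ w, w ∉ S0 → av (Sum.inr w : Pl K) (b * y) ≤ 1) →
        (∃ (z : Kˣ) (e : K), z ∈ Γ ∧ e ≠ 0 ∧ mulHeight₁ e ≤ M ∧
          mulHeight₁ (z : K) ≤ M * mulHeight₁ x ^ B ∧
          av v (f.eval x / (z : K) ^ 2 - e ^ 2) ≤ M * mulHeight₁ x ^ (-δ)) →
        mulHeight₁ x ≤ (C * M) ^ C := by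
  classical
  obtain ⟨C0, hC0, hb⟩ := curveTt (A := AH d) (p := d + 1) (fun i => MvPolynomial.X i)
    (MvPolynomial.adjoin_range_X) 1 1 1 k (2 * max B 0) δ hδ (fun _ => eqA (FH d) 0)
    (fun _ => FH d)
    (fun _ => by rw [FH_deg]; norm_num)
    (fun i => by rw [Subsingleton.elim i 0]; exact Ideal.subset_span ⟨0, rfl⟩) K Γ hΓ v S0
  obtain ⟨C, hC, hb3⟩ := bound_comp (C0 := C0) (C3 := 2) (by linarith) (by norm_num)
  refine ⟨C, hC, fun M f x y b hM hfd hfs hfM hxy hxs hb0 hbM hby ⟨z, e, hz, he, heM, hzM, hclose⟩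
    => ?_⟩
  have hh1 : 1 ≤ mulHeight₁ x := one_le_mulHeight₁ _
  have hM2 : M ≤ (2 * M) ^ (2 : ℝ) := by
    rw [Real.rpow_two]
    nlinarith
  have hMM : M ^ (2 : ℕ) ≤ (2 * M) ^ (2 : ℝ) := by
    rw [Real.rpow_two]
    have h1 : (2 * M) ^ (2 : ℕ) = 4 * M ^ (2 : ℕ) := by ring
    rw [h1]
    exact le_mul_of_one_le_left (by positivity) (by norm_num)
  have hM21 : 1 ≤ (2 * M) ^ (2 : ℝ) := hM.trans hM2
  have hsum : ∑ i ∈ Finset.range (d + 1), f.coeff i * x ^ i = f.eval x := by
    rw [Polynomial.eval_eq_sum_range, hfd]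
  have hmap : (FH d).map (MvPolynomial.eval₂Hom (sH d f) (fun _ => x)) =
      Polynomial.X ^ 2 - Polynomial.C (f.eval x) := by
    have h1 := FH_map d f (RingHom.id K) (fun _ => x)
    rw [RingHom.id_comp] at h1
    rw [h1, ← hsum]
    rfl
  have key := hb ((2 * M) ^ (2 : ℝ)) (sH d f) (fun _ => x) (fun _ => y) (fun _ => b) hM21
    (fun i => by
      unfold sH
      rw [MvPolynomial.eval₂Hom_X']
      exact (hfM _).trans hM2)
    (fun _ => by
      rw [eval_eqA, hmap, Polynomial.eval_sub, Polynomial.eval_pow, Polynomial.eval_X,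
        Polynomial.eval_C, hxy, sub_self])
    (fun _ => hxs.monoM hM2)
    (fun _ => ⟨hb0, hbM.trans hM2, hby⟩)
    (fun _ => by
      rw [hmap, FH_deg, Fin.prod_univ_one]
      have hE : (Polynomial.X ^ 2 - Polynomial.C (e ^ 2) : Polynomial K).natDegree = 2 :=
        Polynomial.natDegree_X_pow_sub_C
      have hzz : ∀ j : ℕ, mulHeight₁ ((z : K) ^ j) ≤ (M * mulHeight₁ x ^ B) ^ j := fun j => by
        rw [mulHeight₁_pow]
        exact pow_le_pow_left₀ (mulHeight₁_pos _).le hzM j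
      have hBB : (M * mulHeight₁ x ^ B) ^ 2 ≤ (2 * M) ^ (2 : ℝ) * mulHeight₁ x ^ (2 * max B 0) := by
        rw [mul_pow]
        refine mul_le_mul hMM ?_ (by positivity) (by linarith)
        rw [← Real.rpow_natCast, ← Real.rpow_mul (by linarith)]
        refine Real.rpow_le_rpow_of_exponent_le hh1 ?_
        push_cast
        nlinarith [le_max_left B 0]
      have hMB1 : 1 ≤ M * mulHeight₁ x ^ B := (one_le_mulHeight₁ _).trans hzM
      refine ⟨z⁻¹ ^ 2, z, Polynomial.X ^ 2 - Polynomial.C (e ^ 2), ?_, hz, hE, ?_, ?_, ?_, ?_, ?_, ?_⟩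
      · exact Γ.pow_mem (Γ.inv_mem hz) 2
      · have h2 : (Polynomial.X ^ 2 - Polynomial.C (e ^ 2) : Polynomial K).Separable :=
          Polynomial.separable_X_pow_sub_C (e ^ 2) (by norm_num) (pow_ne_zero _ he)
        exact h2
      · have h2 : (Polynomial.X ^ 2 - Polynomial.C (e ^ 2) : Polynomial K) =
            (Polynomial.X - Polynomial.C e) * (Polynomial.X - Polynomial.C (-e)) := by
          rw [Polynomial.C_neg, Polynomial.C_pow]
          ring
        rw [h2]
        exact (Polynomial.Splits.X_sub_C e).mul (Polynomial.Splits.X_sub_C (-e))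
      · intro j
        rw [Polynomial.coeff_sub, Polynomial.coeff_X_pow, Polynomial.coeff_C]
        by_cases h0 : j = 0
        · subst h0
          rw [if_neg (by norm_num), if_pos rfl, zero_sub, mulHeight₁_neg, mulHeight₁_pow]
          exact (pow_le_pow_left₀ (mulHeight₁_pos _).le heM 2).trans hMM
        · rw [if_neg h0, sub_zero]
          split_ifs
          · rw [mulHeight₁_one]; exact hM21
          · rw [mulHeight₁_zero]; exact hM21
      · rw [Units.val_pow_eq_pow_val, Units.val_inv_eq_inv_val, inv_pow, mulHeight₁_inv]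
        exact (hzz 2).trans hBB
      · have h3 : M * mulHeight₁ x ^ B ≤ (M * mulHeight₁ x ^ B) ^ 2 := by nlinarith
        exact (hzM.trans h3).trans hBB
      · have hzn : (z : K) ≠ 0 := z.ne_zero
        intro j hj
        have h4 : M * mulHeight₁ x ^ (-δ) ≤ (2 * M) ^ (2 : ℝ) * mulHeight₁ x ^ (-δ) :=
          mul_le_mul_of_nonneg_right hM2 (Real.rpow_nonneg (by linarith) _)
        have h5 : 0 ≤ (2 * M) ^ (2 : ℝ) * mulHeight₁ x ^ (-δ) := by positivity
        rw [Units.val_pow_eq_pow_val, Units.val_inv_eq_inv_val]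
        simp only [Polynomial.coeff_sub, Polynomial.coeff_X_pow, Polynomial.coeff_C]
        interval_cases j
        · have h6 : ((z : K)⁻¹ ^ 2 * (z : K) ^ 0 * ((if (0 : ℕ) = 2 then 1 else 0) -
              (if (0 : ℕ) = 0 then f.eval x else 0)) -
              ((if (0 : ℕ) = 2 then 1 else 0) - (if (0 : ℕ) = 0 then e ^ 2 else 0))) =
              -(f.eval x / (z : K) ^ 2 - e ^ 2) := by
            norm_num
            field_simp
            ring
          rw [h6, map_neg_eq_map]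
          exact hclose.trans h4
        · have h6 : ((z : K)⁻¹ ^ 2 * (z : K) ^ 1 * ((if (1 : ℕ) = 2 then 1 else 0) -
              (if (1 : ℕ) = 0 then f.eval x else 0)) -
              ((if (1 : ℕ) = 2 then 1 else 0) - (if (1 : ℕ) = 0 then e ^ 2 else 0))) = 0 := by
            norm_num
          rw [h6, map_zero]
          exact h5
        · have h6 : ((z : K)⁻¹ ^ 2 * (z : K) ^ 2 * ((if (2 : ℕ) = 2 then 1 else 0) -
              (if (2 : ℕ) = 0 then f.eval x else 0)) -
              ((if (2 : ℕ) = 2 then 1 else 0) - (if (2 : ℕ) = 0 then e ^ 2 else 0))) = 0 := by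
            norm_num
          rw [h6, map_zero]
          exact h5)
  rcases key with ⟨p, hp1, hp2, l, hl⟩ | h
  · exfalso
    have h1 := hp2 0
    have h2 : p = Sum.elim (fun i => p (Sum.inl i)) (fun i => p (Sum.inr i)) := by
      funext i
      rcases i with i | i <;> rfl
    rw [h2, eval_eqA, FH_map, Polynomial.eval_sub, Polynomial.eval_pow, Polynomial.eval_X,
      Polynomial.eval_C, sub_eq_zero] at h1
    obtain ⟨c, hc⟩ := no_laurent f hfs (by omega) (p (Sum.inl 0)) (p (Sum.inr 0)) (by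
      rw [hfd]
      exact h1)
    rw [Subsingleton.elim l 0] at hl
    exact hl ⟨c, hc⟩
  · exact hb3 M _ hM (h 0)

end Pool.Agent.Run7.h28.BV
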