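import Mathlib
import Pool.Agent.Run7.h28.BV.CurT2

/-!
# Project BV (helper28): all plane curves of given degree
-/

set_option autoImplicit false
set_option linter.unusedSectionVars false

open Filter Topology

namespace Pool.Agent.Run7.h28.BV

open NumberField IsDedekindDomain Height Module
open Pool.Agent.W180.OP (Pl av wt nrm le_nrm nrm_pos wt_nonneg exists_nrm nrm_nonneg)
open Pool.Agent.N750
open Pool.Agent.Run7.h28.HK

/-- the coefficients of the generic plane curve -/
abbrev AP (q D : ℕ) : Type := MvPolynomial (Fin (q + 1) × Fin (D + 1)) ℚ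

/-- the generic plane curve -/
noncomputable def FP (q D : ℕ) : Polynomial (MvPolynomial (Fin 1) (AP q D)) :=
  ∑ j : Fin (q + 1), Polynomial.C (∑ i : Fin (D + 1), MvPolynomial.C (MvPolynomial.X (j, i)) *
    MvPolynomial.X 0 ^ (i : ℕ)) * Polynomial.X ^ (j : ℕ)

lemma FP_coeff (q D : ℕ) : (FP q D).coeff q = ∑ i : Fin (D + 1),
    MvPolynomial.C (MvPolynomial.X (Fin.last q, i)) * MvPolynomial.X 0 ^ (i : ℕ) := by
  rw [FP, Polynomial.finsetSum_coeff]
  rw [Finset.sum_eq_single (Fin.last q)]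
  · rw [Polynomial.coeff_C_mul, Polynomial.coeff_X_pow, Fin.val_last, if_pos rfl, mul_one]
  · intro j _ hj
    rw [Polynomial.coeff_C_mul, Polynomial.coeff_X_pow, if_neg, mul_zero]
    intro h
    exact hj (Fin.ext (by rw [Fin.val_last]; exact h.symm))
  · intro h
    exact absurd (Finset.mem_univ _) h

lemma FP_deg (q D : ℕ) : (FP q D).natDegree = q := by
  refine le_antisymm ?_ (Polynomial.le_natDegree_of_ne_zero ?_)
  · refine Polynomial.natDegree_sum_le_of_forall_le _ _ fun j _ => ?_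
    refine (Polynomial.natDegree_C_mul_X_pow_le _ _).trans ?_
    exact Nat.lt_succ_iff.1 j.2
  · rw [FP_coeff]
    intro h
    have h1 := congrArg (MvPolynomial.eval₂Hom
      (MvPolynomial.eval₂Hom (RingHom.id ℚ) (fun _ => (1 : ℚ)) : AP q D →+* ℚ)
      (fun _ : Fin 1 => (1 : ℚ))) h
    rw [map_sum, map_zero] at h1
    simp only [map_mul, map_pow, MvPolynomial.eval₂Hom_C, MvPolynomial.eval₂Hom_X', one_pow,
      mul_one, Finset.sum_const, Finset.card_univ, Fintype.card_fin, nsmul_eq_mul] at h1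
    have h2 : ((D + 1 : ℕ) : ℚ) ≠ 0 := by positivity
    exact h2 h1

/-- the specialisation at the coefficients of `f` -/
noncomputable def sP {K : Type} [Field K] [CharZero K] (q D : ℕ) (f : Polynomial (Polynomial K)) :
    AP q D →+* K :=
  MvPolynomial.eval₂Hom (algebraMap ℚ K) (fun t => (f.coeff t.1).coeff t.2)

lemma FP_map {K R : Type} [Field K] [CharZero K] [CommRing R] (q D : ℕ)
    (f : Polynomial (Polynomial K)) (hq : f.natDegree ≤ q) (hD : ∀ j, (f.coeff j).natDegree ≤ D)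
    (g : K →+* R) (x : Fin 1 → R) :
    (FP q D).map (MvPolynomial.eval₂Hom (g.comp (sP q D f)) x) =
      f.map (Polynomial.eval₂RingHom g (x 0)) := by
  have h1 : ∀ j : Fin (q + 1), (MvPolynomial.eval₂Hom (g.comp (sP q D f)) x)
      (∑ i : Fin (D + 1), MvPolynomial.C (MvPolynomial.X (j, i)) * MvPolynomial.X 0 ^ (i : ℕ)) =
      Polynomial.eval₂RingHom g (x 0) (f.coeff j) := by
    intro j
    rw [Polynomial.coe_eval₂RingHom, Polynomial.eval₂_eq_sum_range' g
      (Nat.lt_succ_of_le (hD j)), map_sum,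
      ← Fin.sum_univ_eq_sum_range (fun i => g ((f.coeff j).coeff i) * x 0 ^ i) (D + 1)]
    refine Finset.sum_congr rfl fun i _ => ?_
    rw [map_mul, map_pow, MvPolynomial.eval₂Hom_C, MvPolynomial.eval₂Hom_X', RingHom.comp_apply]
    congr 2
    unfold sP
    rw [MvPolynomial.eval₂Hom_X']
  have h2 : f.map (Polynomial.eval₂RingHom g (x 0)) = ∑ j : Fin (q + 1),
      (Polynomial.C (f.coeff j) * Polynomial.X ^ (j : ℕ)).map
        (Polynomial.eval₂RingHom g (x 0)) := by
    have h3 := Fin.sum_univ_eq_sum_range (fun j => (Polynomial.C (f.coeff j) *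
      Polynomial.X ^ j : Polynomial (Polynomial K)).map (Polynomial.eval₂RingHom g (x 0))) (q + 1)
    refine Eq.trans ?_ h3.symm
    rw [← Polynomial.map_sum, ← f.as_sum_range_C_mul_X_pow' (Nat.lt_succ_of_le hq)]
  rw [FP, Polynomial.map_sum, h2]
  refine Finset.sum_congr rfl fun j _ => ?_
  rw [Polynomial.map_mul, Polynomial.map_C, Polynomial.map_pow, Polynomial.map_X,
    Polynomial.map_mul, Polynomial.map_C, Polynomial.map_pow, Polynomial.map_X, h1]

/-- **All plane curves** of given degrees: integral points above sparse points. -/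
theorem plane (q D k : ℕ) (hq : 0 < q) (B δ : ℝ) (hδ : 0 < δ) (K : Type) [Field K]
    [NumberField K] (Γ : Subgroup Kˣ) (hΓ : Γ.FG) (v : Pl K)
    (S0 : Finset (HeightOneSpectrum (𝓞 K))) : ∃ C : ℝ, 1 ≤ C ∧
      ∀ (M : ℝ) (f : Polynomial (Polynomial K)) (x y b : K), 1 ≤ M → f.natDegree ≤ q →
        (∀ j, (f.coeff j).natDegree ≤ D) → (∀ j i, mulHeight₁ ((f.coeff j).coeff i) ≤ M) →
        f.evalEval x y = 0 → Sparse Γ k M x →
        b ≠ 0 → mulHeight₁ b ≤ M → (∀ w, w ∉ S0 → av (Sum.inr w : Pl K) (b * y) ≤ 1) →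
        Near Γ v B δ M (mulHeight₁ x) q (f.map (Polynomial.evalRingHom x)) →
        (∃ X Y : LaurentPolynomial K,
          LaurentPolynomial.eval₂ (RingHom.id K) 1 X = x ∧
          LaurentPolynomial.eval₂ (RingHom.id K) 1 Y = y ∧
          (f.map (Polynomial.eval₂RingHom LaurentPolynomial.C X)).eval Y = 0 ∧
          ¬ ∃ a, X = LaurentPolynomial.C a) ∨ mulHeight₁ x ≤ (C * M) ^ C := by
  classical
  obtain ⟨p, ⟨ε⟩⟩ : ∃ p, Nonempty (Fin p ≃ Fin (q + 1) × Fin (D + 1)) :=
    ⟨_, ⟨(Fintype.equivFin _).symm⟩⟩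
  obtain ⟨C, hC, hb⟩ := curveTt (A := AP q D) (p := p) (fun i => MvPolynomial.X (ε i))
    (by
      have h1 : Set.range (fun i => (MvPolynomial.X (ε i) : AP q D)) =
          Set.range (MvPolynomial.X : Fin (q + 1) × Fin (D + 1) → AP q D) :=
        ε.surjective.range_comp (MvPolynomial.X : Fin (q + 1) × Fin (D + 1) → AP q D)
      rw [h1]
      exact MvPolynomial.adjoin_range_X) 1 1 1 k B δ hδ (fun _ => eqA (FP q D) 0)
    (fun _ => FP q D) (fun _ => by rw [FP_deg]; exact hq)
    (fun i => by rw [Subsingleton.elim i 0]; exact Ideal.subset_span ⟨0, rfl⟩) K Γ hΓ v S0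
  refine ⟨C, hC, fun M f x y b hM hfq hfD hfM hxy hxs hb0 hbM hby hnear => ?_⟩
  have hmap : (FP q D).map (MvPolynomial.eval₂Hom (sP q D f) (fun _ => x)) =
      f.map (Polynomial.evalRingHom x) := by
    have h1 := FP_map q D f hfq hfD (RingHom.id K) (fun _ => x)
    rw [RingHom.id_comp] at h1
    rw [h1]
    rfl
  have key := hb M (sP q D f) (fun _ => x) (fun _ => y) (fun _ => b) hM
    (fun i => by
      unfold sP
      rw [MvPolynomial.eval₂Hom_X']
      exact hfM _ _)
    (fun _ => by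
      rw [eval_eqA, hmap, Polynomial.eval_map]
      rw [← Polynomial.eval₂_evalRingHom] at hxy
      exact hxy)
    (fun _ => hxs)
    (fun _ => ⟨hb0, hbM, hby⟩)
    (fun _ => by
      rw [hmap, FP_deg, Fin.prod_univ_one]
      exact hnear)
  rcases key with ⟨p, hp1, hp2, l, hl⟩ | h
  · left
    have h1 := hp2 0
    have h2 : p = Sum.elim (fun i => p (Sum.inl i)) (fun i => p (Sum.inr i)) := by
      funext i
      rcases i with i | i <;> rfl
    rw [h2, eval_eqA, FP_map q D f hfq hfD] at h1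
    rw [Subsingleton.elim l 0] at hl
    exact ⟨p (Sum.inl 0), p (Sum.inr 0), hp1 (Sum.inl 0), hp1 (Sum.inr 0), h1, hl⟩
  · exact Or.inr (h 0)

end Pool.Agent.Run7.h28.BV
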