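import Mathlib
import Pool.Agent.Run7.h28.BV.CurP
import Pool.Agent.Run7.h28.BV.Prep

/-!
# Project BV (helper28): the height of the ordinate
-/

set_option autoImplicit false
set_option linter.unusedSectionVars false

open Filter Topology

namespace Pool.Agent.Run7.h28.BV

open NumberField IsDedekindDomain Height Module
open Pool.Agent.W180.OP (Pl av wt nrm le_nrm nrm_pos wt_nonneg exists_nrm nrm_nonneg)
open Pool.Agent.N750
open Pool.Agent.Run7.h28.HK

/-- heights of the coefficients of the generic curve at the coefficients of `f` -/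
lemma ht_adjoin_coeffP (q D : ℕ) (K : Type) [Field K] [NumberField K] : ∃ C : ℝ, 1 ≤ C ∧
    ∀ (M : ℝ) (f : Polynomial (Polynomial K)), 1 ≤ M →
      (∀ j i, mulHeight₁ ((f.coeff j).coeff i) ≤ M) →
      ∀ j e, mulHeight₁ (sP q D f (((FP q D).coeff j).coeff e)) ≤ (C * M) ^ C := by
  classical
  obtain ⟨p, ⟨ε⟩⟩ : ∃ p, Nonempty (Fin p ≃ Fin (q + 1) × Fin (D + 1)) :=
    ⟨_, ⟨(Fintype.equivFin _).symm⟩⟩
  obtain ⟨C, hC, hb⟩ := ht_adjoin_coeff' (A := AP q D) (fun i => MvPolynomial.X (ε i))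
    (by
      have h1 : Set.range (fun i => (MvPolynomial.X (ε i) : AP q D)) =
          Set.range (MvPolynomial.X : Fin (q + 1) × Fin (D + 1) → AP q D) :=
        ε.surjective.range_comp (MvPolynomial.X : Fin (q + 1) × Fin (D + 1) → AP q D)
      rw [h1]
      exact MvPolynomial.adjoin_range_X) K (fun _ : Fin 1 => FP q D)
  refine ⟨C, hC, fun M f hM hf => hb (sP q D f) M hM (fun i => ?_) 0⟩
  unfold sP
  rw [MvPolynomial.eval₂Hom_X']
  exact hf _ _

/-- the height of the value of a polynomial -/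
lemma ht_eval (D : ℕ) (K : Type) [Field K] [NumberField K] : ∃ C : ℝ, 1 ≤ C ∧
    ∀ (M : ℝ) (f : Polynomial K) (x : K), 1 ≤ M → f.natDegree ≤ D →
      (∀ i, mulHeight₁ (f.coeff i) ≤ M) → mulHeight₁ x ≤ M →
      mulHeight₁ (f.eval x) ≤ (C * M) ^ C := by
  classical
  obtain ⟨p, ⟨ε⟩⟩ : ∃ p, Nonempty (Fin p ≃ Option (Fin (D + 1))) :=
    ⟨_, ⟨(Fintype.equivFin _).symm⟩⟩
  obtain ⟨C, hC, hb⟩ := ht_adjoin (A := MvPolynomial (Option (Fin (D + 1))) ℚ)
    (fun i => MvPolynomial.X (ε i)) (by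
      have h1 : Set.range (fun i => (MvPolynomial.X (ε i) :
          MvPolynomial (Option (Fin (D + 1))) ℚ)) =
          Set.range (MvPolynomial.X : Option (Fin (D + 1)) → MvPolynomial _ ℚ) :=
        ε.surjective.range_comp (MvPolynomial.X : Option (Fin (D + 1)) → MvPolynomial _ ℚ)
      rw [h1]
      exact MvPolynomial.adjoin_range_X) K
    (∑ i : Fin (D + 1), MvPolynomial.X (some i) * MvPolynomial.X none ^ (i : ℕ))
  refine ⟨C, hC, fun M f x hM hD hf hx => ?_⟩
  have h1 := hb (MvPolynomial.eval₂Hom (algebraMap ℚ K)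
    (fun t => Option.elim t x fun i => f.coeff i)) M hM (fun i => by
      rw [MvPolynomial.eval₂Hom_X']
      rcases ε i with _ | j
      · exact hx
      · exact hf _)
  rw [map_sum] at h1
  rw [Polynomial.eval_eq_sum_range' (Nat.lt_succ_of_le hD) x,
    ← Fin.sum_univ_eq_sum_range (fun i => f.coeff i * x ^ i) (D + 1)]
  refine le_trans (le_of_eq ?_) h1
  congr 1
  refine Finset.sum_congr rfl fun i _ => ?_
  rw [map_mul, map_pow, MvPolynomial.eval₂Hom_X', MvPolynomial.eval₂Hom_X']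
  rfl

/-- the height of the ordinate -/
lemma root_bound (q D : ℕ) (hq : 0 < q) (K : Type) [Field K] [NumberField K] :
    ∃ C : ℝ, 1 ≤ C ∧ ∀ (M : ℝ) (f : Polynomial (Polynomial K)) (x y : K), 1 ≤ M →
      f.natDegree ≤ q → f.coeff q = 1 → (∀ j, (f.coeff j).natDegree ≤ D) →
      (∀ j i, mulHeight₁ ((f.coeff j).coeff i) ≤ M) → mulHeight₁ x ≤ M → f.evalEval x y = 0 →
      mulHeight₁ y ≤ (C * M) ^ C := by
  obtain ⟨C0, hC0, h0⟩ := ht_eval D K
  have hq1 : (1 : ℝ) ≤ q := by exact_mod_cast hq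
  obtain ⟨E, hE⟩ : ∃ E : ℝ, E = (q : ℝ) ^ (finrank ℚ K : ℝ) := ⟨_, rfl⟩
  have hE1 : 1 ≤ E := by
    rw [hE]
    exact Real.one_le_rpow hq1 (Nat.cast_nonneg _)
  refine ⟨E + C0 * q + C0, by nlinarith [mul_nonneg (by linarith : 0 ≤ C0) (by linarith : (0 : ℝ) ≤ q)],
    fun M f x y hM hf1 hf2 hf3 hf4 hx hxy => ?_⟩
  obtain ⟨W, hW⟩ : ∃ W : ℝ, W = (E + C0 * q + C0) * M := ⟨_, rfl⟩
  have hCq : 0 ≤ C0 * q := mul_nonneg (by linarith) (by linarith)
  have hW1 : 1 ≤ W := by
    rw [hW]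
    nlinarith
  have hEW : E ≤ W := by
    rw [hW]
    nlinarith
  have hCW : C0 * M ≤ W := by
    rw [hW]
    nlinarith
  have h1 : y ^ q + ∑ j ∈ Finset.range q, (f.coeff j).eval x * y ^ j = 0 := by
    rw [← Polynomial.eval₂_evalRingHom, Polynomial.eval₂_eq_sum_range' _ (Nat.lt_succ_of_le hf1),
      Finset.sum_range_succ, hf2, map_one, one_mul, add_comm] at hxy
    exact hxy
  have h2 := ht_root hq (fun j => (f.coeff j).eval x) y h1
  have h3 : ∀ j ∈ Finset.range q, logHeight₁ ((f.coeff j).eval x) ≤ C0 * Real.log W := by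
    intro j _
    have h4 := h0 M (f.coeff j) x hM (hf3 j) (hf4 j) hx
    have h5 := Real.log_le_log (mulHeight₁_pos _) h4
    rw [Real.log_rpow (by positivity)] at h5
    refine h5.trans (mul_le_mul_of_nonneg_left ?_ (by linarith))
    exact Real.log_le_log (by positivity) hCW
  have h4 := Finset.sum_le_sum h3
  rw [Finset.sum_const, Finset.card_range, nsmul_eq_mul] at h4
  have h5 : (finrank ℚ K : ℝ) * Real.log q ≤ Real.log W := by
    rw [← Real.log_rpow (by linarith), ← hE]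
    exact Real.log_le_log (by linarith) hEW
  have hlogW : 0 ≤ Real.log W := Real.log_nonneg hW1
  have h6 : logHeight₁ y ≤ (E + C0 * q + C0) * Real.log W := by
    have h7 : logHeight₁ y ≤ q * (C0 * Real.log W) + Real.log W := by linarith
    refine h7.trans ?_
    nlinarith
  have h8 : Real.log (mulHeight₁ y) ≤ Real.log (W ^ (E + C0 * q + C0)) := by
    rw [Real.log_rpow (by linarith)]
    exact h6
  rw [← hW]
  exact (Real.log_le_log_iff (mulHeight₁_pos _) (Real.rpow_pos_of_pos (by linarith) _)).1 h8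

/-- **All plane curves** of given degrees: integral points above sparse points, both coordinates. -/
theorem planeY (q D k : ℕ) (hq : 0 < q) (B δ : ℝ) (hδ : 0 < δ) (K : Type) [Field K]
    [NumberField K] (Γ : Subgroup Kˣ) (hΓ : Γ.FG) (v : Pl K)
    (S0 : Finset (HeightOneSpectrum (𝓞 K))) : ∃ C : ℝ, 1 ≤ C ∧
      ∀ (M : ℝ) (f : Polynomial (Polynomial K)) (x y b : K), 1 ≤ M → f.natDegree ≤ q →
        (∀ j, (f.coeff j).natDegree ≤ D) → (∀ j i, mulHeight₁ ((f.coeff j).coeff i) ≤ M) →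
        f.evalEval x y = 0 → Sparse Γ k M x →
        b ≠ 0 → mulHeight₁ b ≤ M → (∀ w, w ∉ S0 → av (Sum.inr w : Pl K) (b * y) ≤ 1) →
        Near Γ v B δ M (mulHeight₁ x) q (f.map (Polynomial.evalRingHom x)) →
        (∃ X Y : LaurentPolynomial K,
          LaurentPolynomial.eval₂ (RingHom.id K) 1 X = x ∧
          LaurentPolynomial.eval₂ (RingHom.id K) 1 Y = y ∧
          (f.map (Polynomial.eval₂RingHom LaurentPolynomial.C X)).eval Y = 0 ∧
          ¬ ∃ a, X = LaurentPolynomial.C a) ∨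
        mulHeight₁ x ≤ (C * M) ^ C ∧ (f.coeff q = 1 → mulHeight₁ y ≤ (C * M) ^ C) := by
  obtain ⟨C1, hC1, h1⟩ := plane q D k hq B δ hδ K Γ hΓ v S0
  obtain ⟨C2, hC2, h2⟩ := root_bound q D hq K
  obtain ⟨C3, hC3, h3⟩ := bound_comp (C0 := C2) (C3 := C1) (by linarith) hC1
  refine ⟨max C1 C3, hC1.trans (le_max_left _ _),
    fun M f x y b a1 a2 a3 a4 a5 a6 a7 a8 a9 a10 => ?_⟩
  refine (h1 M f x y b a1 a2 a3 a4 a5 a6 a7 a8 a9 a10).imp_right fun h4 => ⟨?_, fun h5 => ?_⟩
  · exact bound_mono (by linarith) (le_max_left _ _) (hC1.trans (le_max_left _ _)) a1 h4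
  · have hMM : M ≤ (C1 * M) ^ C1 := by
      have h5 : 1 ≤ C1 * M := by nlinarith
      calc M ≤ C1 * M := by nlinarith
        _ = (C1 * M) ^ (1 : ℝ) := (Real.rpow_one _).symm
        _ ≤ (C1 * M) ^ C1 := Real.rpow_le_rpow_of_exponent_le h5 hC1
    have h6 := h2 ((C1 * M) ^ C1) f x y (a1.trans hMM) a2 h5 a3
      (fun j i => (a4 j i).trans hMM) h4 a5
    exact bound_mono (by linarith) (le_max_right _ _) (hC1.trans (le_max_left _ _)) a1
      (h3 M _ a1 h6)

end Pool.Agent.Run7.h28.BV
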