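import Mathlib
import Pool.Agent.Run7.h28.BV.Spec2

/-!
# Project BV (helper28): the special set for all number fields, integral points
-/

set_option autoImplicit false
set_option linter.unusedSectionVars false

namespace Pool.Agent.Run7.h28.BV

open NumberField IsDedekindDomain Height Module
open Pool.Agent.W180.OP (Pl av wt nrm le_nrm nrm_pos wt_nonneg exists_nrm nrm_nonneg)
open Pool.Agent.N750
open Pool.Agent.Run7.h28.HK

/-- a number field with a finitely generated group, a place and a finite set of finite places -/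
structure CtxT where
  K : Type
  [fld : Field K]
  [nf : NumberField K]
  Γ : Subgroup Kˣ
  hΓ : Γ.FG
  v : Pl K
  S : Finset (HeightOneSpectrum (𝓞 K))

attribute [instance] CtxT.fld CtxT.nf

/-- the integral sparse points near an unramified point -/
structure PntT {A : Type} [CommRing A] {p : ℕ} (τ : Fin p → A) (n m k : ℕ) (B δ : ℝ)
    (F : Fin m → Polynomial (MvPolynomial (Fin n) A)) (c : CtxT) where
  M : ℝ
  s : A →+* c.K
  x : Fin n → c.K
  y : Fin m → c.K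
  b : Fin m → c.K
  hM : 1 ≤ M
  hτ : ∀ i, mulHeight₁ (s (τ i)) ≤ M
  hsp : ∀ l, Sparse c.Γ k M (x l)
  hb : ∀ i, b i ≠ 0 ∧ mulHeight₁ (b i) ≤ M ∧
    ∀ w, w ∉ c.S → av (Sum.inr w : Pl c.K) (b i * y i) ≤ 1
  hnear : ∀ i, Near c.Γ c.v B δ M (∏ l, mulHeight₁ (x l)) (F i).natDegree
    ((F i).map (MvPolynomial.eval₂Hom s x))

/-- **The special set**, integral points on affine varieties. -/
theorem specialT {A : Type} [CommRing A] [Algebra ℚ A] {p : ℕ} (τ : Fin p → A)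
    (hτ : Algebra.adjoin ℚ (Set.range τ) = ⊤) (n m k : ℕ) (B δ : ℝ) (hδ : 0 < δ)
    (I : Ideal (MvPolynomial (Fin n ⊕ Fin m) A))
    (F : Fin m → Polynomial (MvPolynomial (Fin n) A)) (hq : ∀ i, 0 < (F i).natDegree)
    (hFG : ∀ i, eqA (F i) i ∈ I) :
    ∃ 𝒬 : Set (Ideal (MvPolynomial (Fin n ⊕ Fin m) A)), 𝒬.Finite ∧
      (∀ Q ∈ 𝒬, Q.IsPrime ∧ I ≤ Q ∧ UniruledT Q) ∧
      ∀ (K : Type) [Field K] [NumberField K] (Γ : Subgroup Kˣ), Γ.FG → ∀ v : Pl K,
      ∀ S : Finset (HeightOneSpectrum (𝓞 K)),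
      ∃ C : ℝ, 1 ≤ C ∧ ∀ (M : ℝ) (s : A →+* K) (x : Fin n → K) (y b : Fin m → K), 1 ≤ M →
        (∀ i, mulHeight₁ (s (τ i)) ≤ M) →
        (∀ P ∈ I, MvPolynomial.eval₂ s (Sum.elim x y) P = 0) →
        (∀ l, Sparse Γ k M (x l)) →
        (∀ i, b i ≠ 0 ∧ mulHeight₁ (b i) ≤ M ∧
          ∀ w, w ∉ S → av (Sum.inr w : Pl K) (b i * y i) ≤ 1) →
        (∀ i, Near Γ v B δ M (∏ l, mulHeight₁ (x l)) (F i).natDegree
          ((F i).map (MvPolynomial.eval₂Hom s x))) →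
        (∃ Q ∈ 𝒬, ∀ P ∈ Q, MvPolynomial.eval₂ s (Sum.elim x y) P = 0) ∨
          ∀ l, mulHeight₁ (x l) ≤ (C * M) ^ C := by
  classical
  have hNA : IsNoetherianRing A := by
    have h1 : Algebra.FiniteType ℚ A :=
      ⟨⟨Finset.univ.image τ, by rw [Finset.coe_image, Finset.coe_univ, Set.image_univ]; exact hτ⟩⟩
    exact Algebra.FiniteType.isNoetherianRing ℚ A
  obtain ⟨𝒬, h1, h2, h3⟩ := special (Ctx := CtxT) (Pnt := PntT τ n m k B δ F)
    (Kf := fun c => c.K) (fun c t => MvPolynomial.eval₂Hom t.s (Sum.elim t.x t.y))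
    (fun c t C => ∀ l, mulHeight₁ (t.x l) ≤ (C * t.M) ^ C)
    (fun c t C C' h1 h2 h3 l => bound_mono (by linarith) h2 (by linarith) t.hM (h3 l))
    (fun _ => True) (fun J => I ≤ J)
    (fun J a hJ _ => hJ.trans le_sup_left)
    (fun J hJ htop hp => by
      rw [Ideal.isPrime_iff] at hp
      push Not at hp
      obtain ⟨a, b, h1, h2, h3⟩ := hp htop
      exact ⟨a, b, trivial, trivial, h2, h3, h1⟩)
    UniruledT
    (by
      intro J hIJ hJp hJU
      obtain ⟨g, G, rfl⟩ : ∃ (g : ℕ) (G : Fin g → MvPolynomial (Fin n ⊕ Fin m) A),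
          J = Ideal.span (Set.range G) := by
        obtain ⟨T, hT⟩ := (inferInstance : IsNoetherianRing (MvPolynomial (Fin n ⊕ Fin m) A)).noetherian J
        refine ⟨T.card, fun i => (T.equivFin.symm i : MvPolynomial (Fin n ⊕ Fin m) A), ?_⟩
        have h5 : Set.range (fun i => (T.equivFin.symm i : MvPolynomial (Fin n ⊕ Fin m) A)) = ↑T := by
          ext a
          constructor
          · rintro ⟨i, rfl⟩
            exact (T.equivFin.symm i).2
          · intro ha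
            exact ⟨T.equivFin ⟨a, ha⟩, by simp⟩
        rw [h5]
        exact hT.symm
      obtain ⟨f, hf2, h⟩ := strongT n m g k B δ hδ G hJp hJU F hq (fun i => hIJ (hFG i))
      refine ⟨f, trivial, hf2, fun c => ?_⟩
      obtain ⟨C0, hC0, hb⟩ := h c.K c.Γ c.hΓ c.v c.S
      obtain ⟨C1, hC1, hb1⟩ := ht_adjoin_coeff τ hτ c.K G
      obtain ⟨C2, hC2, hb2⟩ := ht_adjoin_coeff' τ hτ c.K F
      obtain ⟨C3, hC3⟩ : ∃ C3, C3 = max C1 C2 := ⟨_, rfl⟩
      have hC31 : 1 ≤ C3 := by rw [hC3]; exact hC1.trans (le_max_left _ _)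
      obtain ⟨C, hC, hb3⟩ := bound_comp hC0 hC31
      refine ⟨C, hC, fun t ht => ?_⟩
      have hMM : t.M ≤ (C3 * t.M) ^ C3 := by
        have hM := t.hM
        have h5 : 1 ≤ C3 * t.M := by nlinarith
        calc t.M ≤ C3 * t.M := by nlinarith
          _ = (C3 * t.M) ^ (1 : ℝ) := (Real.rpow_one _).symm
          _ ≤ (C3 * t.M) ^ C3 := Real.rpow_le_rpow_of_exponent_le h5 hC31
      have hx0 : 0 ≤ ∏ l, mulHeight₁ (t.x l) :=
        Finset.prod_nonneg fun l _ => (mulHeight₁_pos _).le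
      have h6 := hb ((C3 * t.M) ^ C3) t.s t.x t.y t.b (t.hM.trans hMM)
        (fun j e => bound_mono (by linarith) (hC3 ▸ le_max_left _ _) hC31 t.hM
          (hb1 t.s t.M t.hM t.hτ j e))
        (fun i j e => bound_mono (by linarith) (hC3 ▸ le_max_right _ _) hC31 t.hM
          (hb2 t.s t.M t.hM t.hτ i j e))
        (fun j => ht _ (Ideal.subset_span ⟨j, rfl⟩))
        (fun l => (t.hsp l).monoM hMM)
        (fun i => ⟨(t.hb i).1, (t.hb i).2.1.trans hMM, (t.hb i).2.2⟩)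
        (fun i => (t.hnear i).monoM hMM hx0)
      exact h6.imp_right (fun h7 l => hb3 _ _ t.hM (h7 l)))
    I le_rfl
  refine ⟨𝒬, h1, fun Q hQ => ⟨(h2 Q hQ).2.1, (h2 Q hQ).1, (h2 Q hQ).2.2.2⟩,
    fun K _ _ Γ hΓ v S => ?_⟩
  obtain ⟨C, hC, hb⟩ := h3 ⟨K, Γ, hΓ, v, S⟩
  exact ⟨C, hC, fun M s x y b a1 a2 a4 a5 a6 a7 => hb ⟨M, s, x, y, b, a1, a2, a5, a6, a7⟩ a4⟩

end Pool.Agent.Run7.h28.BV
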