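import Mathlib
import Pool.Agent.Run7.h28.BV.CurP2
import Pool.Agent.Run7.h28.BV.UNear

/-!
# Project BV (helper28): Weierstrass curves, one sparse coordinate
-/

set_option autoImplicit false
set_option linter.unusedSectionVars false

open Filter Topology

namespace Pool.Agent.Run7.h28.BV

open NumberField IsDedekindDomain Height Module
open Pool.Agent.W180.OP (Pl av wt nrm le_nrm nrm_pos wt_nonneg exists_nrm nrm_nonneg)
open Pool.Agent.N750
open Pool.Agent.Run7.h28.HK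

lemma le_sq' {M : ℝ} (hM : 1 ≤ M) : M ≤ (2 * M) ^ (3 : ℝ) ∧ M ^ (2 : ℕ) ≤ (2 * M) ^ (3 : ℝ) ∧
    M ^ (3 : ℕ) ≤ (2 * M) ^ (3 : ℝ) := by
  have h0 : (2 * M) ^ (3 : ℝ) = 8 * M ^ (3 : ℕ) := by
    rw [show (3 : ℝ) = ((3 : ℕ) : ℝ) by norm_num, Real.rpow_natCast]
    ring
  have h1 : 1 ≤ M ^ (2 : ℕ) := one_le_pow₀ hM
  have h2 : M ^ (3 : ℕ) = M ^ (2 : ℕ) * M := by ring
  have h3 : M ^ (2 : ℕ) = M * M := by ring
  rw [h0]
  refine ⟨?_, ?_, ?_⟩
  · rw [h2]
    nlinarith [mul_le_mul h1 (le_refl M) (by linarith) (by linarith)]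
  · rw [h2]
    nlinarith [mul_le_mul (le_refl (M ^ 2)) hM (by norm_num) (by linarith)]
  · have : 0 ≤ M ^ (3 : ℕ) := by positivity
    linarith

/-- near a square -/
lemma near_sq {K : Type} [Field K] [NumberField K] {Γ : Subgroup Kˣ} {v : Pl K}
    {B δ M h : ℝ} (hM : 1 ≤ M) (hh : 1 ≤ h) (t : K) (z : Kˣ) (e : K) (hz : z ∈ Γ) (he : e ≠ 0)
    (heM : mulHeight₁ e ≤ M) (hzM : mulHeight₁ (z : K) ≤ M * h ^ B)
    (hclose : av v (t / (z : K) ^ 2 - e ^ 2) ≤ M * h ^ (-δ)) :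
    Near Γ v (3 * max B 0) δ ((2 * M) ^ (3 : ℝ)) h 2 (Polynomial.X ^ 2 - Polynomial.C t) := by
  obtain ⟨hM2, hMM, -⟩ := le_sq' hM
  have hM21 : 1 ≤ (2 * M) ^ (3 : ℝ) := hM.trans hM2
  have hE : (Polynomial.X ^ 2 - Polynomial.C (e ^ 2) : Polynomial K).natDegree = 2 :=
    Polynomial.natDegree_X_pow_sub_C
  have hB0 : 0 ≤ max B 0 := le_max_right _ _
  have hzz : mulHeight₁ ((z : K) ^ 2) ≤ (M * h ^ B) ^ 2 := by
    rw [mulHeight₁_pow]
    exact pow_le_pow_left₀ (mulHeight₁_pos _).le hzM 2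
  have hBB : (M * h ^ B) ^ 2 ≤ (2 * M) ^ (3 : ℝ) * h ^ (3 * max B 0) := by
    rw [mul_pow]
    refine mul_le_mul hMM ?_ (by positivity) (by linarith)
    rw [← Real.rpow_natCast, ← Real.rpow_mul (by linarith)]
    refine Real.rpow_le_rpow_of_exponent_le hh ?_
    push_cast
    nlinarith [le_max_left B 0]
  have hMB1 : 1 ≤ M * h ^ B := (one_le_mulHeight₁ _).trans hzM
  refine ⟨z⁻¹ ^ 2, z, Polynomial.X ^ 2 - Polynomial.C (e ^ 2), ?_, hz, hE, ?_, ?_, ?_, ?_, ?_, ?_⟩
  · exact Γ.pow_mem (Γ.inv_mem hz) 2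
  · exact Polynomial.separable_X_pow_sub_C (e ^ 2) (by norm_num) (pow_ne_zero _ he)
  · have h2 : (Polynomial.X ^ 2 - Polynomial.C (e ^ 2) : Polynomial K) =
        (Polynomial.X - Polynomial.C e) * (Polynomial.X - Polynomial.C (-e)) := by
      rw [Polynomial.C_neg, Polynomial.C_pow]
      ring
    rw [h2]
    exact (Polynomial.Splits.X_sub_C e).mul (Polynomial.Splits.X_sub_C (-e))
  · intro j
    rw [Polynomial.coeff_sub, Polynomial.coeff_X_pow, Polynomial.coeff_C]
    by_cases h0 : j = 0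
    · subst h0
      rw [if_neg (by norm_num), if_pos rfl, zero_sub, mulHeight₁_neg, mulHeight₁_pow]
      exact (pow_le_pow_left₀ (mulHeight₁_pos _).le heM 2).trans hMM
    · rw [if_neg h0, sub_zero]
      split_ifs
      · rw [mulHeight₁_one]; exact hM21
      · rw [mulHeight₁_zero]; exact hM21
  · rw [Units.val_pow_eq_pow_val, Units.val_inv_eq_inv_val, inv_pow, mulHeight₁_inv]
    exact hzz.trans hBB
  · have h3 : M * h ^ B ≤ (M * h ^ B) ^ 2 := by nlinarith
    exact (hzM.trans h3).trans hBB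
  · have hzn : (z : K) ≠ 0 := z.ne_zero
    intro j hj
    have h4 : M * h ^ (-δ) ≤ (2 * M) ^ (3 : ℝ) * h ^ (-δ) :=
      mul_le_mul_of_nonneg_right hM2 (Real.rpow_nonneg (by linarith) _)
    have h5 : 0 ≤ (2 * M) ^ (3 : ℝ) * h ^ (-δ) := by positivity
    rw [Units.val_pow_eq_pow_val, Units.val_inv_eq_inv_val]
    simp only [Polynomial.coeff_sub, Polynomial.coeff_X_pow, Polynomial.coeff_C]
    interval_cases j
    · have h6 : ((z : K)⁻¹ ^ 2 * (z : K) ^ 0 * ((if (0 : ℕ) = 2 then 1 else 0) -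
          (if (0 : ℕ) = 0 then t else 0)) -
          ((if (0 : ℕ) = 2 then 1 else 0) - (if (0 : ℕ) = 0 then e ^ 2 else 0))) =
          -(t / (z : K) ^ 2 - e ^ 2) := by
        norm_num
        field_simp
        ring
      rw [h6, map_neg_eq_map]
      exact hclose.trans h4
    · have h6 : ((z : K)⁻¹ ^ 2 * (z : K) ^ 1 * ((if (1 : ℕ) = 2 then 1 else 0) -
          (if (1 : ℕ) = 0 then t else 0)) -
          ((if (1 : ℕ) = 2 then 1 else 0) - (if (1 : ℕ) = 0 then e ^ 2 else 0))) = 0 := by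
        norm_num
      rw [h6, map_zero]
      exact h5
    · have h6 : ((z : K)⁻¹ ^ 2 * (z : K) ^ 2 * ((if (2 : ℕ) = 2 then 1 else 0) -
          (if (2 : ℕ) = 0 then t else 0)) -
          ((if (2 : ℕ) = 2 then 1 else 0) - (if (2 : ℕ) = 0 then e ^ 2 else 0))) = 0 := by
        norm_num
      rw [h6, map_zero]
      exact h5

/-- near a cube -/
lemma near_cube {K : Type} [Field K] [NumberField K] {Γ : Subgroup Kˣ} {v : Pl K} {ζ : K}
    (hζ : IsPrimitiveRoot ζ 3) {B δ M h : ℝ} (hδ : 0 < δ) (hM : 1 ≤ M) (hh : 1 ≤ h) (A t : K)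
    (hA : mulHeight₁ A ≤ M) (z : Kˣ) (e : K) (hz : z ∈ Γ) (he : e ≠ 0) (heM : mulHeight₁ e ≤ M)
    (hzM : mulHeight₁ (z : K) ≤ M * h ^ B) (hzv : av v (z : K)⁻¹ ≤ M * h ^ (-δ))
    (hclose : av v (t / (z : K) ^ 3 - e ^ 3) ≤ M * h ^ (-δ)) :
    Near Γ v (3 * max B 0) δ ((2 * M) ^ (3 : ℝ)) h 3
      (Polynomial.X ^ 3 + Polynomial.C A * Polynomial.X - Polynomial.C t) := by
  obtain ⟨hM2, -, hMM⟩ := le_sq' hM
  have hM21 : 1 ≤ (2 * M) ^ (3 : ℝ) := hM.trans hM2
  have hE : (Polynomial.X ^ 3 - Polynomial.C (e ^ 3) : Polynomial K).natDegree = 3 :=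
    Polynomial.natDegree_X_pow_sub_C
  have hB0 : 0 ≤ max B 0 := le_max_right _ _
  have hzz : mulHeight₁ ((z : K) ^ 3) ≤ (M * h ^ B) ^ 3 := by
    rw [mulHeight₁_pow]
    exact pow_le_pow_left₀ (mulHeight₁_pos _).le hzM 3
  have hBB : (M * h ^ B) ^ 3 ≤ (2 * M) ^ (3 : ℝ) * h ^ (3 * max B 0) := by
    rw [mul_pow]
    refine mul_le_mul hMM ?_ (by positivity) (by linarith)
    rw [← Real.rpow_natCast, ← Real.rpow_mul (by linarith)]
    refine Real.rpow_le_rpow_of_exponent_le hh ?_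
    push_cast
    nlinarith [le_max_left B 0]
  have hMB1 : 1 ≤ M * h ^ B := (one_le_mulHeight₁ _).trans hzM
  have hh0 : h ^ (-δ) ≤ 1 := Real.rpow_le_one_of_one_le_of_nonpos hh (by linarith)
  have hhp : 0 < h ^ (-δ) := Real.rpow_pos_of_pos (by linarith) _
  refine ⟨z⁻¹ ^ 3, z, Polynomial.X ^ 3 - Polynomial.C (e ^ 3), ?_, hz, hE, ?_, ?_, ?_, ?_, ?_, ?_⟩
  · exact Γ.pow_mem (Γ.inv_mem hz) 3
  · exact Polynomial.separable_X_pow_sub_C (e ^ 3) (by norm_num) (pow_ne_zero _ he)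
  · have hζ2 : 1 + ζ + ζ ^ 2 = 0 := by
      have h1 := hζ.geom_sum_eq_zero (by norm_num)
      rw [Finset.sum_range_succ, Finset.sum_range_succ, Finset.sum_range_one] at h1
      rw [pow_zero, pow_one] at h1
      exact h1
    have hζ3 : ζ ^ 3 = 1 := hζ.pow_eq_one
    have h2 : (Polynomial.X ^ 3 - Polynomial.C (e ^ 3) : Polynomial K) =
        (Polynomial.X - Polynomial.C e) * (Polynomial.X - Polynomial.C (ζ * e)) *
          (Polynomial.X - Polynomial.C (ζ ^ 2 * e)) := by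
      have h3 : (1 + Polynomial.C ζ + Polynomial.C ζ ^ 2 : Polynomial K) = 0 := by
        rw [← Polynomial.C_1, ← Polynomial.C_pow, ← Polynomial.C_add, ← Polynomial.C_add, hζ2,
          Polynomial.C_0]
      have h4 : (Polynomial.C ζ ^ 3 : Polynomial K) = 1 := by
        rw [← Polynomial.C_pow, hζ3, Polynomial.C_1]
      simp only [Polynomial.C_mul, Polynomial.C_pow]
      linear_combination (Polynomial.C e * Polynomial.X ^ 2 -
        Polynomial.C e ^ 2 * Polynomial.X * Polynomial.C ζ) * h3 +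
        (Polynomial.C e ^ 3) * h4
    rw [h2]
    exact ((Polynomial.Splits.X_sub_C e).mul (Polynomial.Splits.X_sub_C _)).mul
      (Polynomial.Splits.X_sub_C _)
  · intro j
    rw [Polynomial.coeff_sub, Polynomial.coeff_X_pow, Polynomial.coeff_C]
    by_cases h0 : j = 0
    · subst h0
      rw [if_neg (by norm_num), if_pos rfl, zero_sub, mulHeight₁_neg, mulHeight₁_pow]
      exact (pow_le_pow_left₀ (mulHeight₁_pos _).le heM 3).trans hMM
    · rw [if_neg h0, sub_zero]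
      split_ifs
      · rw [mulHeight₁_one]; exact hM21
      · rw [mulHeight₁_zero]; exact hM21
  · rw [Units.val_pow_eq_pow_val, Units.val_inv_eq_inv_val, inv_pow, mulHeight₁_inv]
    exact hzz.trans hBB
  · have h3 : M * h ^ B ≤ (M * h ^ B) ^ 3 := le_self_pow₀ hMB1 (by norm_num)
    exact (hzM.trans h3).trans hBB
  · have hzn : (z : K) ≠ 0 := z.ne_zero
    intro j hj
    have h4 : M * h ^ (-δ) ≤ (2 * M) ^ (3 : ℝ) * h ^ (-δ) :=
      mul_le_mul_of_nonneg_right hM2 hhp.le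
    have h5 : 0 ≤ (2 * M) ^ (3 : ℝ) * h ^ (-δ) := by positivity
    rw [Units.val_pow_eq_pow_val, Units.val_inv_eq_inv_val]
    simp only [Polynomial.coeff_sub, Polynomial.coeff_add, Polynomial.coeff_X_pow,
      Polynomial.coeff_C, Polynomial.coeff_C_mul, Polynomial.coeff_X]
    interval_cases j
    · have h6 : ((z : K)⁻¹ ^ 3 * (z : K) ^ 0 * ((if (0 : ℕ) = 3 then 1 else 0) +
          A * (if (1 : ℕ) = 0 then 1 else 0) - (if (0 : ℕ) = 0 then t else 0)) -
          ((if (0 : ℕ) = 3 then 1 else 0) - (if (0 : ℕ) = 0 then e ^ 3 else 0))) =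
          -(t / (z : K) ^ 3 - e ^ 3) := by
        norm_num
        field_simp
        ring
      rw [h6, map_neg_eq_map]
      exact hclose.trans h4
    · have h6 : ((z : K)⁻¹ ^ 3 * (z : K) ^ 1 * ((if (1 : ℕ) = 3 then 1 else 0) +
          A * (if (1 : ℕ) = 1 then 1 else 0) - (if (1 : ℕ) = 0 then t else 0)) -
          ((if (1 : ℕ) = 3 then 1 else 0) - (if (1 : ℕ) = 0 then e ^ 3 else 0))) =
          A * ((z : K)⁻¹ * (z : K)⁻¹) := by
        norm_num
        field_simp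
      rw [h6, map_mul, map_mul]
      have h7 : av v A ≤ M := (av_le_ht v A).trans hA
      have h8 : av v (z : K)⁻¹ * av v (z : K)⁻¹ ≤ (M * h ^ (-δ)) * (M * h ^ (-δ)) :=
        mul_le_mul hzv hzv ((av v).nonneg _) (by positivity)
      have h9 : av v A * (av v (z : K)⁻¹ * av v (z : K)⁻¹) ≤
          M * ((M * h ^ (-δ)) * (M * h ^ (-δ))) :=
        mul_le_mul h7 h8 (mul_nonneg ((av v).nonneg _) ((av v).nonneg _)) (by linarith)
      refine h9.trans ?_
      have h10 : M * ((M * h ^ (-δ)) * (M * h ^ (-δ))) = M ^ 3 * h ^ (-δ) * h ^ (-δ) := by ring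
      rw [h10]
      have h11 : M ^ 3 * h ^ (-δ) * h ^ (-δ) ≤ M ^ 3 * h ^ (-δ) :=
        mul_le_of_le_one_right (by positivity) hh0
      exact h11.trans (mul_le_mul_of_nonneg_right hMM hhp.le)
    · have h6 : ((z : K)⁻¹ ^ 3 * (z : K) ^ 2 * ((if (2 : ℕ) = 3 then 1 else 0) +
          A * (if (1 : ℕ) = 2 then 1 else 0) - (if (2 : ℕ) = 0 then t else 0)) -
          ((if (2 : ℕ) = 3 then 1 else 0) - (if (2 : ℕ) = 0 then e ^ 3 else 0))) = 0 := by
        norm_num
      rw [h6, map_zero]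
      exact h5
    · have h6 : ((z : K)⁻¹ ^ 3 * (z : K) ^ 3 * ((if (3 : ℕ) = 3 then 1 else 0) +
          A * (if (1 : ℕ) = 3 then 1 else 0) - (if (3 : ℕ) = 0 then t else 0)) -
          ((if (3 : ℕ) = 3 then 1 else 0) - (if (3 : ℕ) = 0 then e ^ 3 else 0))) = 0 := by
        norm_num
      rw [h6, map_zero]
      exact h5

/-- the polynomial `X ^ 3 + A X + B` -/
noncomputable def wei {K : Type} [Field K] (A B : K) : Polynomial K :=
  Polynomial.X ^ 3 + Polynomial.C A * Polynomial.X + Polynomial.C B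

lemma wei_deg {K : Type} [Field K] (A B : K) : (wei A B).natDegree = 3 := by
  unfold wei
  compute_degree!

lemma wei_eval {K : Type} [Field K] (A B x : K) : (wei A B).eval x = x ^ 3 + A * x + B := by
  unfold wei
  simp

lemma wei_sep {K : Type} [Field K] [CharZero K] (A B : K) (h : 4 * A ^ 3 + 27 * B ^ 2 ≠ 0) :
    (wei A B).Separable := by
  refine ⟨Polynomial.C (4 * A ^ 3 + 27 * B ^ 2)⁻¹ * (Polynomial.C (27 * B) -
    Polynomial.C (18 * A) * Polynomial.X), Polynomial.C (4 * A ^ 3 + 27 * B ^ 2)⁻¹ *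
    (Polynomial.C (6 * A) * Polynomial.X ^ 2 - Polynomial.C (9 * B) * Polynomial.X +
      Polynomial.C (4 * A ^ 2)), ?_⟩
  have hC : ∀ n : ℕ, (Polynomial.C (n : K) : Polynomial K) = (n : Polynomial K) := fun n =>
    map_natCast Polynomial.C n
  have hC2 := hC 2
  have hC3 := hC 3
  have hC4 := hC 4
  have hC6 := hC 6
  have hC9 := hC 9
  have hC18 := hC 18
  have hC27 := hC 27
  push_cast at hC2 hC3 hC4 hC6 hC9 hC18 hC27
  have h1 : (wei A B).derivative = 3 * Polynomial.X ^ 2 + Polynomial.C A := by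
    unfold wei
    simp [hC2]
    norm_num
  have h2 : (Polynomial.C (4 * A ^ 3 + 27 * B ^ 2)⁻¹ : Polynomial K) *
      (4 * Polynomial.C A ^ 3 + 27 * Polynomial.C B ^ 2) = 1 := by
    have h3 : (4 * Polynomial.C A ^ 3 + 27 * Polynomial.C B ^ 2 : Polynomial K) =
        Polynomial.C (4 * A ^ 3 + 27 * B ^ 2) := by
      rw [Polynomial.C_add, Polynomial.C_mul, Polynomial.C_mul, hC4, hC27, Polynomial.C_pow,
        Polynomial.C_pow]
    rw [h3, ← Polynomial.C_mul, inv_mul_cancel₀ h, Polynomial.C_1]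
  rw [h1]
  unfold wei
  have h4 : (Polynomial.C (27 * B) : Polynomial K) = 27 * Polynomial.C B := by
    rw [Polynomial.C_mul, hC27]
  have h5 : (Polynomial.C (18 * A) : Polynomial K) = 18 * Polynomial.C A := by
    rw [Polynomial.C_mul, hC18]
  have h6 : (Polynomial.C (6 * A) : Polynomial K) = 6 * Polynomial.C A := by
    rw [Polynomial.C_mul, hC6]
  have h7 : (Polynomial.C (9 * B) : Polynomial K) = 9 * Polynomial.C B := by
    rw [Polynomial.C_mul, hC9]
  have h8 : (Polynomial.C (4 * A ^ 2) : Polynomial K) = 4 * Polynomial.C A ^ 2 := by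
    rw [Polynomial.C_mul, hC4, Polynomial.C_pow]
  rw [h4, h5, h6, h7, h8]
  linear_combination h2

/-- there are no nonconstant maps from the multiplicative group to a Weierstrass curve -/
theorem no_laurent2 {K : Type} [Field K] [CharZero K] (f : Polynomial K) (hf : f.Separable)
    (hd : 3 ≤ f.natDegree) (X Y : LaurentPolynomial K)
    (h : Y ^ 2 = ∑ i ∈ Finset.range (f.natDegree + 1), LaurentPolynomial.C (f.coeff i) * X ^ i) :
    (∃ c, X = LaurentPolynomial.C c) ∧ ∃ c, Y = LaurentPolynomial.C c := by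
  obtain ⟨N1, P1, hP1⟩ := LaurentPolynomial.exists_T_pow X
  obtain ⟨N2, P2, hP2⟩ := LaurentPolynomial.exists_T_pow Y
  obtain ⟨N, hN⟩ : ∃ N, N = N1 + N2 := ⟨_, rfl⟩
  have h1 : Polynomial.toLaurent (P1 * Polynomial.X ^ N2) = X * LaurentPolynomial.T N := by
    rw [map_mul, hP1, Polynomial.toLaurent_X_pow, mul_assoc, ← LaurentPolynomial.T_add, hN]
    push_cast
    rfl
  have h2 : Polynomial.toLaurent (P2 * Polynomial.X ^ N1) = Y * LaurentPolynomial.T N := by
    rw [map_mul, hP2, Polynomial.toLaurent_X_pow, mul_assoc, ← LaurentPolynomial.T_add, hN,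
      add_comm (N2 : ℤ)]
    push_cast
    rfl
  have h3 : Polynomial.toLaurent (Polynomial.X ^ N : Polynomial K) = LaurentPolynomial.T N :=
    Polynomial.toLaurent_X_pow N
  obtain ⟨c, c', h4, h4'⟩ := Pool.Agent.TH551.HE.no_param K f hf hd (P1 * Polynomial.X ^ N2)
    (Polynomial.X ^ N) (P2 * Polynomial.X ^ N1) (pow_ne_zero _ Polynomial.X_ne_zero) (by
      apply Polynomial.toLaurent_injective
      rw [map_mul, map_pow, map_pow, h2, h3, map_sum, mul_pow, h, mul_assoc, ← pow_add,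
        show 2 + (f.natDegree - 2) = f.natDegree by omega, Finset.sum_mul]
      refine Finset.sum_congr rfl fun i hi => ?_
      have hi' : i ≤ f.natDegree := Nat.lt_succ_iff.1 (Finset.mem_range.1 hi)
      rw [map_mul, map_mul, map_pow, map_pow, h1, h3, Polynomial.toLaurent_C, mul_pow,
        mul_assoc, mul_assoc, mul_assoc, ← pow_add, Nat.add_sub_cancel' hi'])
  have h6 : (LaurentPolynomial.T (N : ℤ) : LaurentPolynomial K) * LaurentPolynomial.T (-(N : ℤ)) =
      1 := by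
    rw [← LaurentPolynomial.T_add, add_neg_cancel, LaurentPolynomial.T_zero]
  have key : ∀ (Z : LaurentPolynomial K) (c : K),
      Z * LaurentPolynomial.T N = LaurentPolynomial.C c * LaurentPolynomial.T N →
      Z = LaurentPolynomial.C c := by
    intro Z c h5
    have h7 := congrArg (fun p => p * (LaurentPolynomial.T (-(N : ℤ)) : LaurentPolynomial K)) h5
    simp only [mul_assoc, h6, mul_one] at h7
    exact h7
  refine ⟨⟨c, key X c ?_⟩, ⟨c', key Y c' ?_⟩⟩
  · rw [← h1, h4, map_mul, Polynomial.toLaurent_C, h3]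
  · rw [← h2, h4', map_mul, Polynomial.toLaurent_C, h3]

lemma wei_sum {K : Type} [Field K] (A B : K) (X : LaurentPolynomial K) :
    ∑ i ∈ Finset.range ((wei A B).natDegree + 1), LaurentPolynomial.C ((wei A B).coeff i) * X ^ i =
      X ^ 3 + LaurentPolynomial.C A * X + LaurentPolynomial.C B := by
  have h1 : ∑ i ∈ Finset.range ((wei A B).natDegree + 1),
      LaurentPolynomial.C ((wei A B).coeff i) * X ^ i =
      (wei A B).eval₂ (LaurentPolynomial.C : K →+* LaurentPolynomial K) X :=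
    (Polynomial.eval₂_eq_sum_range _ _).symm
  rw [h1]
  unfold wei
  simp

/-- `y ^ 2 - (x ^ 3 + A x + B)` in the outer variable `y` -/
noncomputable def fX {K : Type} [Field K] (A B : K) : Polynomial (Polynomial K) :=
  Polynomial.X ^ 2 - Polynomial.C (wei A B)

/-- `x ^ 3 + A x + B - y ^ 2` in the outer variable `x` -/
noncomputable def fY {K : Type} [Field K] (A B : K) : Polynomial (Polynomial K) :=
  Polynomial.X ^ 3 + Polynomial.C (Polynomial.C A) * Polynomial.X -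
    Polynomial.C (Polynomial.X ^ 2 - Polynomial.C B)

lemma fX_coeff {K : Type} [Field K] (A B : K) (j : ℕ) : (fX A B).coeff j =
    (if j = 2 then 1 else 0) - (if j = 0 then wei A B else 0) := by
  unfold fX
  rw [Polynomial.coeff_sub, Polynomial.coeff_X_pow, Polynomial.coeff_C]

lemma fY_coeff {K : Type} [Field K] (A B : K) (j : ℕ) : (fY A B).coeff j =
    (if j = 3 then 1 else 0) + Polynomial.C A * (if 1 = j then 1 else 0) -
      (if j = 0 then Polynomial.X ^ 2 - Polynomial.C B else 0) := by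
  unfold fY
  rw [Polynomial.coeff_sub, Polynomial.coeff_add, Polynomial.coeff_X_pow, Polynomial.coeff_C,
    Polynomial.coeff_C_mul, Polynomial.coeff_X]

lemma ht_ite {K : Type} [Field K] [NumberField K] {M : ℝ} (hM : 1 ≤ M) {P : Prop} [Decidable P]
    {a : K} (ha : mulHeight₁ a ≤ M) : mulHeight₁ (if P then a else 0) ≤ M := by
  split_ifs
  · exact ha
  · rw [mulHeight₁_zero]; exact hM

lemma fX_ht {K : Type} [Field K] [NumberField K] {A B : K} {M : ℝ} (hM : 1 ≤ M)
    (hA : mulHeight₁ A ≤ M) (hB : mulHeight₁ B ≤ M) (j i : ℕ) :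
    mulHeight₁ (((fX A B).coeff j).coeff i) ≤ M := by
  rw [fX_coeff]
  rcases Nat.eq_zero_or_pos j with rfl | hj
  · rw [if_neg (by norm_num), if_pos rfl, zero_sub, Polynomial.coeff_neg, mulHeight₁_neg]
    unfold wei
    rw [Polynomial.coeff_add, Polynomial.coeff_add, Polynomial.coeff_X_pow,
      Polynomial.coeff_C_mul, Polynomial.coeff_X, Polynomial.coeff_C]
    rcases Nat.lt_or_ge i 4 with hi | hi
    · interval_cases i
      · simpa using hB
      · simpa using hA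
      · simpa using hM
      · simpa using hM
    · rw [if_neg (by omega), if_neg (by omega), if_neg (by omega), mul_zero, add_zero, add_zero,
        mulHeight₁_zero]
      exact hM
  · rw [if_neg (show ¬ j = 0 by omega), sub_zero]
    by_cases h2 : j = 2
    · rw [if_pos h2, Polynomial.coeff_one]
      exact ht_ite hM (by rw [mulHeight₁_one]; exact hM)
    · rw [if_neg h2, Polynomial.coeff_zero, mulHeight₁_zero]
      exact hM

lemma fY_ht {K : Type} [Field K] [NumberField K] {A B : K} {M : ℝ} (hM : 1 ≤ M)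
    (hA : mulHeight₁ A ≤ M) (hB : mulHeight₁ B ≤ M) (j i : ℕ) :
    mulHeight₁ (((fY A B).coeff j).coeff i) ≤ M := by
  rw [fY_coeff]
  rcases Nat.lt_or_ge j 4 with hj | hj
  · interval_cases j
    · norm_num
      rw [Polynomial.coeff_C]
      rcases Nat.lt_or_ge i 3 with hi | hi
      · interval_cases i
        · simpa using hB
        · simpa using hM
        · simpa using hM
      · rw [if_neg (by omega), if_neg (by omega), sub_zero, mulHeight₁_zero]
        exact hM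
    · norm_num
      rw [Polynomial.coeff_C]
      exact ht_ite hM hA
    · norm_num
      exact hM
    · norm_num
      rw [Polynomial.coeff_one]
      exact ht_ite hM (by rw [mulHeight₁_one]; exact hM)
  · rw [if_neg (by omega), if_neg (by omega), if_neg (by omega), mul_zero, add_zero, sub_zero,
      Polynomial.coeff_zero, mulHeight₁_zero]
    exact hM

lemma fX_cd {K : Type} [Field K] (A B : K) (j : ℕ) : ((fX A B).coeff j).natDegree ≤ 3 := by
  rw [fX_coeff]
  rcases Nat.eq_zero_or_pos j with rfl | hj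
  · rw [if_neg (by norm_num), if_pos rfl, zero_sub, Polynomial.natDegree_neg, wei_deg]
  · rw [if_neg (show ¬ j = 0 by omega), sub_zero]
    split_ifs
    · simp
    · simp

lemma fY_cd {K : Type} [Field K] (A B : K) (j : ℕ) : ((fY A B).coeff j).natDegree ≤ 3 := by
  rw [fY_coeff]
  rcases Nat.lt_or_ge j 4 with hj | hj
  · interval_cases j
    · norm_num
      refine (Polynomial.natDegree_sub_le _ _).trans ?_
      rw [Polynomial.natDegree_C, Polynomial.natDegree_X_pow]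
      norm_num
    · norm_num
    · norm_num
    · norm_num
  · rw [if_neg (by omega), if_neg (by omega), if_neg (by omega), mul_zero, add_zero, sub_zero]
    simp

/-- **Weierstrass curves, sparse abscissa.** -/
theorem weierX (k : ℕ) (B0 δ : ℝ) (hδ : 0 < δ) (K : Type) [Field K]
    [NumberField K] (Γ : Subgroup Kˣ) (hΓ : Γ.FG) (v : Pl K)
    (S0 : Finset (HeightOneSpectrum (𝓞 K))) : ∃ C : ℝ, 1 ≤ C ∧
      ∀ (M : ℝ) (A B x y b : K), 1 ≤ M → 4 * A ^ 3 + 27 * B ^ 2 ≠ 0 → mulHeight₁ A ≤ M →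
        mulHeight₁ B ≤ M → y ^ 2 = x ^ 3 + A * x + B → Sparse Γ k M x →
        b ≠ 0 → mulHeight₁ b ≤ M → (∀ w, w ∉ S0 → av (Sum.inr w : Pl K) (b * y) ≤ 1) →
        (∃ (z : Kˣ) (e : K), z ∈ Γ ∧ e ≠ 0 ∧ mulHeight₁ e ≤ M ∧
          mulHeight₁ (z : K) ≤ M * mulHeight₁ x ^ B0 ∧
          av v (y ^ 2 / (z : K) ^ 2 - e ^ 2) ≤ M * mulHeight₁ x ^ (-δ)) →
        mulHeight₁ x ≤ (C * M) ^ C ∧ mulHeight₁ y ≤ (C * M) ^ C := by
  obtain ⟨C0, hC0, h0⟩ := planeY 2 3 k (by norm_num) (3 * max B0 0) δ hδ K Γ hΓ v S0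
  obtain ⟨C, hC, h1⟩ := bound_comp (C0 := C0) (C3 := 3) (by linarith) (by norm_num)
  have hfd : ∀ A B : K, (fX A B).natDegree = 2 := fun A B => Polynomial.natDegree_X_pow_sub_C
  refine ⟨C, hC, fun M A B x y b a1 a2 a3 a4 a5 a6 a7 a8 a9 ⟨z, e, b1, b2, b3, b4, b5⟩ => ?_⟩
  have hM3 : (2 * M) ^ (3 : ℝ) ≤ (3 * M) ^ (3 : ℝ) :=
    Real.rpow_le_rpow (by linarith) (by linarith) (by norm_num)
  have hMM : M ≤ (3 * M) ^ (3 : ℝ) := (le_sq' a1).1.trans hM3
  have hh : 1 ≤ mulHeight₁ x := one_le_mulHeight₁ _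
  have hmap : (fX A B).map (Polynomial.evalRingHom x) =
      Polynomial.X ^ 2 - Polynomial.C (y ^ 2) := by
    unfold fX
    rw [Polynomial.map_sub, Polynomial.map_pow, Polynomial.map_X, Polynomial.map_C,
      Polynomial.coe_evalRingHom, wei_eval, a5]
  have key := h0 ((3 * M) ^ (3 : ℝ)) (fX A B) x y b (a1.trans hMM) (hfd A B).le (fX_cd A B)
    (fun j i => (fX_ht a1 a3 a4 j i).trans hMM) (by
      rw [← Polynomial.eval₂_evalRingHom, ← Polynomial.eval_map, hmap]
      simp) (a6.monoM hMM) a7 (a8.trans hMM) a9 (by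
      rw [hmap]
      exact (near_sq a1 hh (y ^ 2) z e b1 b2 b3 b4 b5).monoM hM3 (by linarith))
  rcases key with ⟨X, Y, -, -, h2, h3⟩ | ⟨h2, h3⟩
  · exfalso
    apply h3
    refine (no_laurent2 (wei A B) (wei_sep A B a2) (wei_deg A B).ge X Y ?_).1
    rw [wei_sum]
    unfold fX wei at h2
    rw [Polynomial.map_sub, Polynomial.map_pow, Polynomial.map_X, Polynomial.map_C,
      Polynomial.coe_eval₂RingHom] at h2
    simp only [Polynomial.eval₂_add, Polynomial.eval₂_mul, Polynomial.eval₂_pow,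
      Polynomial.eval₂_X, Polynomial.eval₂_C, Polynomial.eval_sub, Polynomial.eval_pow,
      Polynomial.eval_X, Polynomial.eval_C] at h2
    exact sub_eq_zero.1 h2
  · refine ⟨h1 M _ a1 h2, h1 M _ a1 (h3 ?_)⟩
    rw [fX_coeff]
    norm_num

/-- **Weierstrass curves, sparse ordinate.** -/
theorem weierY (k : ℕ) (B0 δ : ℝ) (hδ : 0 < δ) (K : Type) [Field K]
    [NumberField K] (ζ : K) (hζ : IsPrimitiveRoot ζ 3) (Γ : Subgroup Kˣ) (hΓ : Γ.FG) (v : Pl K)
    (S0 : Finset (HeightOneSpectrum (𝓞 K))) : ∃ C : ℝ, 1 ≤ C ∧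
      ∀ (M : ℝ) (A B x y b : K), 1 ≤ M → 4 * A ^ 3 + 27 * B ^ 2 ≠ 0 → mulHeight₁ A ≤ M →
        mulHeight₁ B ≤ M → y ^ 2 = x ^ 3 + A * x + B → Sparse Γ k M y →
        b ≠ 0 → mulHeight₁ b ≤ M → (∀ w, w ∉ S0 → av (Sum.inr w : Pl K) (b * x) ≤ 1) →
        (∃ (z : Kˣ) (e : K), z ∈ Γ ∧ e ≠ 0 ∧ mulHeight₁ e ≤ M ∧
          mulHeight₁ (z : K) ≤ M * mulHeight₁ y ^ B0 ∧ av v (z : K)⁻¹ ≤ M * mulHeight₁ y ^ (-δ) ∧
          av v ((y ^ 2 - B) / (z : K) ^ 3 - e ^ 3) ≤ M * mulHeight₁ y ^ (-δ)) →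
        mulHeight₁ x ≤ (C * M) ^ C ∧ mulHeight₁ y ≤ (C * M) ^ C := by
  obtain ⟨C0, hC0, h0⟩ := planeY 3 3 k (by norm_num) (3 * max B0 0) δ hδ K Γ hΓ v S0
  obtain ⟨C, hC, h1⟩ := bound_comp (C0 := C0) (C3 := 3) (by linarith) (by norm_num)
  refine ⟨C, hC, fun M A B x y b a1 a2 a3 a4 a5 a6 a7 a8 a9
    ⟨z, e, b1, b2, b3, b4, b5, b6⟩ => ?_⟩
  have hM3 : (2 * M) ^ (3 : ℝ) ≤ (3 * M) ^ (3 : ℝ) :=
    Real.rpow_le_rpow (by linarith) (by linarith) (by norm_num)
  have hMM : M ≤ (3 * M) ^ (3 : ℝ) := (le_sq' a1).1.trans hM3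
  have hh : 1 ≤ mulHeight₁ y := one_le_mulHeight₁ _
  have hfd : (fY A B).natDegree ≤ 3 := by
    rw [Polynomial.natDegree_le_iff_coeff_eq_zero]
    intro j hj
    rw [fY_coeff, if_neg (by omega), if_neg (by omega), if_neg (by omega)]
    simp
  have hmap : (fY A B).map (Polynomial.evalRingHom y) =
      Polynomial.X ^ 3 + Polynomial.C A * Polynomial.X - Polynomial.C (y ^ 2 - B) := by
    unfold fY
    simp
  have key := h0 ((3 * M) ^ (3 : ℝ)) (fY A B) y x b (a1.trans hMM) hfd (fY_cd A B)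
    (fun j i => (fY_ht a1 a3 a4 j i).trans hMM) (by
      rw [← Polynomial.eval₂_evalRingHom, ← Polynomial.eval_map, hmap]
      simp only [Polynomial.eval_sub, Polynomial.eval_add, Polynomial.eval_mul,
        Polynomial.eval_pow, Polynomial.eval_X, Polynomial.eval_C]
      rw [a5]
      ring) (a6.monoM hMM) a7 (a8.trans hMM) a9 (by
      rw [hmap]
      exact (near_cube hζ hδ a1 hh A (y ^ 2 - B) a3 z e b1 b2 b3 b4 b5 b6).monoM hM3
        (by linarith))
  rcases key with ⟨X, Y, -, -, h2, h3⟩ | ⟨h2, h3⟩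
  · exfalso
    apply h3
    refine (no_laurent2 (wei A B) (wei_sep A B a2) (wei_deg A B).ge Y X ?_).2
    rw [wei_sum]
    unfold fY at h2
    simp only [Polynomial.map_sub, Polynomial.map_add, Polynomial.map_mul, Polynomial.map_pow,
      Polynomial.map_X, Polynomial.map_C, Polynomial.coe_eval₂RingHom, Polynomial.eval₂_sub,
      Polynomial.eval₂_pow, Polynomial.eval₂_X, Polynomial.eval₂_C, Polynomial.eval_sub,
      Polynomial.eval_add, Polynomial.eval_mul, Polynomial.eval_pow,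
      Polynomial.eval_X, Polynomial.eval_C] at h2
    linear_combination -h2
  · refine ⟨h1 M _ a1 (h3 ?_), h1 M _ a1 h2⟩
    rw [fY_coeff]
    norm_num

end Pool.Agent.Run7.h28.BV
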